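import Pool.Agent.Lib.MP_29e17e_pr.U.Lo

set_option autoImplicit false
set_option linter.unusedSectionVars false

/-! Rows 29u-S1, 29u-S2: most vertices of the large clusters after sprinkling lie in large clusters before, and the
variance of the magnetisation. -/

open Finset

namespace Pool.Agent.PERC29

variable {V : Type*} [Fintype V] [DecidableEq V] {E : Type*} [Fintype E] [DecidableEq E]
  {ends : E → Sym2 V}

private noncomputable def S1_m (g : ℝ) (A : Finset V) : ℝ := 1 - (1 - g) ^ A.card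

private lemma S1_m_nonneg {g : ℝ} (hg0 : 0 ≤ g) (hg1 : g ≤ 1) (A : Finset V) : 0 ≤ S1_m g A := by
  unfold S1_m
  have : (1 - g) ^ A.card ≤ 1 := pow_le_one₀ (by linarith) (by linarith)
  linarith

private lemma S1_m_mono {g : ℝ} (hg0 : 0 ≤ g) (hg1 : g ≤ 1) {A B : Finset V} (h : A ⊆ B) :
    S1_m g A ≤ S1_m g B := by
  unfold S1_m
  have : (1 - g) ^ B.card ≤ (1 - g) ^ A.card :=
    pow_le_pow_of_le_one (by linarith) (by linarith) (Finset.card_le_card h)
  linarith

private lemma S1_m_union {g : ℝ} (hg0 : 0 ≤ g) (hg1 : g ≤ 1) (A B : Finset V) :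
    S1_m g (A ∪ B) ≤ S1_m g A + S1_m g B := by
  have h1 : (1 - g) ^ (A.card + B.card) ≤ (1 - g) ^ (A ∪ B).card :=
    pow_le_pow_of_le_one (by linarith) (by linarith) (Finset.card_union_le A B)
  have h2 := mul_nonneg (S1_m_nonneg hg0 hg1 A) (S1_m_nonneg hg0 hg1 B)
  unfold S1_m at *
  rw [pow_add] at h1
  nlinarith

private lemma S1_m_biUnion {ι : Type*} [DecidableEq ι] {g : ℝ} (hg0 : 0 ≤ g) (hg1 : g ≤ 1)
    (I : Finset ι) (f : ι → Finset V) : S1_m g (I.biUnion f) ≤ ∑ i ∈ I, S1_m g (f i) := by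
  induction I using Finset.induction_on with
  | empty => simp [S1_m]
  | insert i I hi ih =>
    rw [Finset.biUnion_insert, Finset.sum_insert hi]
    exact (S1_m_union hg0 hg1 _ _).trans (by linarith)

private lemma S1_cover {ω ω' : E → Bool} {x z : V} (hz : Rch ends (orc ω ω') Set.univ x z) :
    z ∈ cu ends ω x ∨ ∃ e u v, ends e = s(u, v) ∧ u ∈ cu ends ω x ∧ v ∉ cu ends ω x ∧
      ω' e = true ∧ Rch ends (orc ω ω') ((cu ends ω x : Finset V) : Set V)ᶜ v z := by
  induction hz with
  | refl => exact Or.inl (self_mem_cu ω x)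
  | @tail c d _ hcd ih =>
    by_cases hd : d ∈ cu ends ω x
    · exact Or.inl hd
    right
    obtain ⟨-, -, e, h3, h4⟩ := hcd
    rcases ih with ih | ⟨e', u, v, h5, h6, h7, h8, h9⟩
    · refine ⟨e, c, d, h4, ih, hd, ?_, Rch.refl d⟩
      by_contra hne
      have h6 : ω' e = false := by simpa using hne
      have h5 : ω e = true := by
        have h7 : (ω e || ω' e) = true := h3
        rw [h6, Bool.or_false] at h7
        exact h7
      apply hd
      rw [mem_cu] at ih ⊢
      exact Relation.ReflTransGen.tail ih ⟨trivial, trivial, e, h5, h4⟩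
    · have hv : v ∈ (((cu ends ω x : Finset V) : Set V))ᶜ := by simpa using h7
      have hd' : d ∈ (((cu ends ω x : Finset V) : Set V))ᶜ := by simpa using hd
      exact ⟨e', u, v, h5, h6, h7, h8,
        Relation.ReflTransGen.tail h9 ⟨h9.mem' hv, hd', e, h3, h4⟩⟩

open scoped Classical in
private noncomputable def S1_F (ends : E → Sym2 V) (g : ℝ) (S : Finset V) (ω ω' : E → Bool) : ℝ :=
  ∑ u ∈ S, ∑ v ∈ Sᶜ, ∑ e, (if ends e = s(u, v) then 1 else 0) *
    ((if ω' e = true then 1 else 0) *
      S1_m g (cl ends (orc ω ω') (((S : Finset V) : Set V))ᶜ v))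

private lemma S1_det {g : ℝ} (hg0 : 0 ≤ g) (hg1 : g ≤ 1) (ω ω' : E → Bool) (x : V) :
    mg ends g x (orc ω ω') ≤ g * ((cu ends ω x).card : ℝ) + S1_F ends g (cu ends ω x) ω ω' := by
  classical
  set S := cu ends ω x with hS
  set I : Finset (V × V × E) := (S ×ˢ (Sᶜ ×ˢ (Finset.univ : Finset E))).filter
    (fun i => ends i.2.2 = s(i.1, i.2.1) ∧ ω' i.2.2 = true) with hI
  have hsub : cu ends (orc ω ω') x ⊆
      S ∪ I.biUnion (fun i => cl ends (orc ω ω') (((S : Finset V) : Set V))ᶜ i.2.1) := by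
    intro z hz
    rw [mem_cu] at hz
    rcases S1_cover hz with h | ⟨e, u, v, h1, h2, h3, h4, h5⟩
    · exact Finset.mem_union_left _ h
    · apply Finset.mem_union_right
      rw [Finset.mem_biUnion]
      refine ⟨(u, v, e), ?_, mem_cl.2 h5⟩
      rw [hI, Finset.mem_filter, Finset.mem_product, Finset.mem_product, Finset.mem_compl]
      exact ⟨⟨h2, h3, Finset.mem_univ _⟩, h1, h4⟩
  have h1 : mg ends g x (orc ω ω') = S1_m g (cu ends (orc ω ω') x) := rfl
  rw [h1]
  refine (S1_m_mono hg0 hg1 hsub).trans ((S1_m_union hg0 hg1 _ _).trans ?_)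
  refine add_le_add ?_ ((S1_m_biUnion hg0 hg1 _ _).trans (le_of_eq ?_))
  · unfold S1_m
    have h2 := one_add_mul_le_pow (a := -g) (by linarith) S.card
    have h3 : (1 + -g) = 1 - g := by ring
    rw [h3] at h2
    linarith
  · unfold S1_F
    rw [hI, Finset.sum_filter, Finset.sum_product]
    refine Finset.sum_congr rfl fun u _ => ?_
    rw [Finset.sum_product]
    refine Finset.sum_congr rfl fun v _ => Finset.sum_congr rfl fun e _ => ?_
    by_cases h2 : ends e = s(u, v)
    · by_cases h3 : ω' e = true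
      · rw [if_pos ⟨h2, h3⟩, if_pos h2, if_pos h3, one_mul, one_mul]
      · rw [if_neg (fun h => h3 h.2), if_neg h3, zero_mul, mul_zero]
    · rw [if_neg (fun h => h2 h.1), if_neg h2, zero_mul]

private lemma S1_mean {p s g M W : ℝ} (h0 : 0 ≤ p) (h1 : p ≤ 1) (hs0 : 0 ≤ s) (hs1 : s ≤ 1)
    (hg0 : 0 ≤ g) (hg1 : g ≤ 1) (hM : ∀ y, Ex (1 - (1 - p) * (1 - s)) (mg ends g y) ≤ M)
    (hM0 : 0 ≤ M) (hdeg : ∀ x, ∑ y, nb ends x y ≤ W) (S : Finset V) :
    Ex p (fun ω => Ex s (fun ω' => S1_F ends g S ω ω')) ≤ s * W * M * (S.card : ℝ) := by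
  classical
  have hE : Ex p (fun ω => Ex s (fun ω' => S1_F ends g S ω ω')) =
      ∑ u ∈ S, ∑ v ∈ Sᶜ, ∑ e, (if ends e = s(u, v) then 1 else 0) *
        Ex p (fun ω => Ex s (fun ω' => (if ω' e = true then 1 else 0) *
          S1_m g (cl ends (orc ω ω') (((S : Finset V) : Set V))ᶜ v))) := by
    unfold S1_F
    simp only [Ex_sum, Ex_mul_left]
  have hterm : ∀ u ∈ S, ∀ v ∈ Sᶜ, ∀ e : E, (if ends e = s(u, v) then (1 : ℝ) else 0) *
        Ex p (fun ω => Ex s (fun ω' => (if ω' e = true then 1 else 0) *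
          S1_m g (cl ends (orc ω ω') (((S : Finset V) : Set V))ᶜ v))) ≤
        (if ends e = s(u, v) then 1 else 0) * (s * M) := by
    intro u hu v _ e
    by_cases he : ends e = s(u, v)
    · rw [if_pos he, one_mul, one_mul]
      have h2 : ∀ ω : E → Bool, Ex s (fun ω' => (if ω' e = true then 1 else 0) *
          S1_m g (cl ends (orc ω ω') (((S : Finset V) : Set V))ᶜ v)) =
          s * Ex s (fun ω' => S1_m g (cl ends (orc ω ω') (((S : Finset V) : Set V))ᶜ v)) := by
        intro ω
        apply Ex_coord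
        intro ω1 ω2 h3
        have h4 : cl ends (orc ω ω1) (((S : Finset V) : Set V))ᶜ v =
            cl ends (orc ω ω2) (((S : Finset V) : Set V))ᶜ v := by
          apply cl_dep
          intro e' a b h5 h6 h7
          have h8 : e' ≠ e := by
            rintro rfl
            rw [he] at h5
            rcases Sym2.eq_iff.1 h5 with ⟨rfl, rfl⟩ | ⟨rfl, rfl⟩
            · exact h6 hu
            · exact h7 hu
          unfold orc
          rw [h3 e' h8]
        rw [h4]
      rw [Ex_congr h2, Ex_mul_left]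
      apply mul_le_mul_of_nonneg_left _ hs0
      refine le_trans ?_ (hM v)
      rw [Ex_orc]
      apply Ex_mono h0 h1
      intro ω
      apply Ex_mono hs0 hs1
      intro ω'
      exact S1_m_mono hg0 hg1 (cl_mono (fun _ h => h) (Set.subset_univ _))
    · rw [if_neg he, zero_mul, zero_mul]
  rw [hE]
  calc _ ≤ ∑ u ∈ S, ∑ v ∈ Sᶜ, ∑ e, (if ends e = s(u, v) then (1 : ℝ) else 0) * (s * M) :=
        Finset.sum_le_sum fun u hu => Finset.sum_le_sum fun v hv =>
          Finset.sum_le_sum fun e _ => hterm u hu v hv e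
    _ = ∑ u ∈ S, (∑ v ∈ Sᶜ, nb ends u v) * (s * M) := by
        refine Finset.sum_congr rfl fun u _ => ?_
        rw [Finset.sum_mul]
        refine Finset.sum_congr rfl fun v _ => ?_
        unfold nb
        rw [Finset.sum_mul]
    _ ≤ ∑ _u ∈ S, W * (s * M) := by
        refine Finset.sum_le_sum fun u _ => ?_
        apply mul_le_mul_of_nonneg_right _ (mul_nonneg hs0 hM0)
        refine le_trans ?_ (hdeg u)
        exact Finset.sum_le_sum_of_subset_of_nonneg (Finset.subset_univ _)
          fun v _ _ => nb_nonneg u v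
    _ = _ := by
        rw [Finset.sum_const, nsmul_eq_mul]
        ring

private lemma S1_event {x : V} (A : Finset V) {D : Set E}
    (hD : D = {e | ∃ a b, ends e = s(a, b) ∧ a ∈ A}) : ∀ ω ω' : E → Bool,
    (∀ e ∈ D, ω e = ω' e) → cu ends ω x = A → cu ends ω' x = A := by
  intro ω ω' hh hA
  exact cl_eq_dep (fun e' a b h2 _ _ h5 => hh e' (by rw [hD]; exact ⟨a, b, h2, h5⟩)) hA

open scoped Classical in
/-- Row S1. `mg ends g x ω = 1 - (1 - g) ^ |cu ω x|`. Given `ω` with `S = cu ω x` (this fixes the edges of `ω` which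
touch `S`; the edges of `ω` inside `Sᶜ` are fresh) the cluster of `x` in `orc ω ω'` is the union of `S` and of the
clusters of `v` in `orc ω ω'` restricted to `Sᶜ`, over the edges `{u,v}`, `u ∈ S`, `v ∉ S`, with `ω'` open.
`1 - (1 - g)^k` is subadditive: `mg ≤ g |S| + ∑_{edges u v} ω'(e) (1 - (1 - g)^|cl (orc ω ω') Sᶜ v|)` (use
`1 - (1-g)^(k+l) ≤ (1 - (1-g)^k) + (1 - (1-g)^l)`), `ω'(e)` is independent of the last factor (edges inside `Sᶜ`),
whose mean is at most `M`. The mean is at most `g |S| + s W |S| M`. -/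
lemma small_part {p s g M W a : ℝ} (h0 : 0 ≤ p) (h1 : p ≤ 1) (hs0 : 0 ≤ s) (hs1 : s ≤ 1)
    (hg0 : 0 ≤ g) (hg1 : g ≤ 1) (hM : ∀ y, Ex (1 - (1 - p) * (1 - s)) (mg ends g y) ≤ M)
    (hdeg : ∀ x, ∑ y, nb ends x y ≤ W) (ha : 0 ≤ a) (x : V) :
    Ex p (fun ω => Ex s (fun ω' => (if cz ends ω x < a then 1 else 0) *
      mg ends g x (orc ω ω'))) ≤ (g + s * W * M) * Ex p (fun ω => min (cz ends ω x) a) := by
  have hr0 : 0 ≤ 1 - (1 - p) * (1 - s) := by nlinarith
  have hr1 : 1 - (1 - p) * (1 - s) ≤ 1 := by nlinarith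
  have hM0 : 0 ≤ M := by
    refine le_trans ?_ (hM x)
    exact Ex_nonneg hr0 hr1 fun ω => S1_m_nonneg hg0 hg1 _
  have hW0 : 0 ≤ W := le_trans (Finset.sum_nonneg fun y _ => nb_nonneg x y) (hdeg x)
  have hF0 : ∀ (A : Finset V) (ω ω' : E → Bool), 0 ≤ S1_F ends g A ω ω' := by
    intro A ω ω'
    unfold S1_F
    refine Finset.sum_nonneg fun u _ => Finset.sum_nonneg fun v _ =>
      Finset.sum_nonneg fun e _ => ?_
    refine mul_nonneg (by split_ifs <;> norm_num) (mul_nonneg (by split_ifs <;> norm_num) ?_)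
    exact S1_m_nonneg hg0 hg1 _
  have hdec : ∀ ω ω' : E → Bool, (if cz ends ω x < a then (1 : ℝ) else 0) *
      mg ends g x (orc ω ω') ≤ ∑ A : Finset V, (if (A.card : ℝ) < a then 1 else 0) *
        ((if cu ends ω x = A then 1 else 0) * (g * (A.card : ℝ) + S1_F ends g A ω ω')) := by
    intro ω ω'
    rw [Finset.sum_eq_single (cu ends ω x)]
    · rw [if_pos rfl, one_mul]
      apply mul_le_mul_of_nonneg_left (S1_det hg0 hg1 ω ω' x)
      split_ifs <;> norm_num
    · intro A _ hA
      rw [if_neg (Ne.symm hA), zero_mul, mul_zero]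
    · intro hh
      exact absurd (Finset.mem_univ _) hh
  have hstep : ∀ A : Finset V, Ex p (fun ω => Ex s (fun ω' =>
      (if cu ends ω x = A then (1 : ℝ) else 0) * (g * (A.card : ℝ) + S1_F ends g A ω ω'))) ≤
      Ex p (fun ω => if cu ends ω x = A then (1 : ℝ) else 0) *
        ((g + s * W * M) * (A.card : ℝ)) := by
    intro A
    set D : Set E := {e | ∃ a b, ends e = s(a, b) ∧ a ∈ A} with hD
    have e1 : ∀ ω : E → Bool, Ex s (fun ω' =>
        (if cu ends ω x = A then (1 : ℝ) else 0) * (g * (A.card : ℝ) + S1_F ends g A ω ω')) =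
        (if cu ends ω x = A then (1 : ℝ) else 0) *
          (g * (A.card : ℝ) + Ex s (fun ω' => S1_F ends g A ω ω')) := by
      intro ω
      rw [Ex_mul_left, Ex_add, Ex_const]
    have hP0 : 0 ≤ Ex p (fun ω => if cu ends ω x = A then (1 : ℝ) else 0) :=
      Ex_nonneg h0 h1 fun ω => by split_ifs <;> norm_num
    rw [Ex_congr e1, Ex_indep p D]
    · apply mul_le_mul_of_nonneg_left _ hP0
      rw [Ex_add, Ex_const]
      have := S1_mean (ends := ends) h0 h1 hs0 hs1 hg0 hg1 hM hM0 hdeg A
      linarith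
    · intro ω ω' hh
      by_cases hc : cu ends ω x = A
      · rw [if_pos hc, if_pos (S1_event A hD ω ω' hh hc)]
      · rw [if_neg hc, if_neg]
        intro hc'
        exact hc (S1_event A hD ω' ω (fun e he => (hh e he).symm) hc')
    · intro ω ω' hh
      congr 1
      apply Ex_congr
      intro ω''
      unfold S1_F
      refine Finset.sum_congr rfl fun u _ => Finset.sum_congr rfl fun v _ =>
        Finset.sum_congr rfl fun e _ => ?_
      have h4 : cl ends (orc ω ω'') (((A : Finset V) : Set V))ᶜ v =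
          cl ends (orc ω' ω'') (((A : Finset V) : Set V))ᶜ v := by
        apply cl_dep
        intro e' a b h5 h6 h7
        have h8 : e' ∉ D := by
          rw [hD]
          rintro ⟨a', b', h9, h10⟩
          rw [h5] at h9
          rcases Sym2.eq_iff.1 h9 with ⟨rfl, rfl⟩ | ⟨rfl, rfl⟩
          · exact h6 h10
          · exact h7 h10
        unfold orc
        rw [hh e' h8]
      rw [h4]
  calc Ex p (fun ω => Ex s (fun ω' => (if cz ends ω x < a then 1 else 0) *
        mg ends g x (orc ω ω'))) ≤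
        Ex p (fun ω => Ex s (fun ω' => ∑ A : Finset V, (if (A.card : ℝ) < a then 1 else 0) *
        ((if cu ends ω x = A then 1 else 0) * (g * (A.card : ℝ) + S1_F ends g A ω ω')))) :=
        Ex_mono h0 h1 fun ω => Ex_mono hs0 hs1 fun ω' => hdec ω ω'
    _ = ∑ A : Finset V, (if (A.card : ℝ) < a then 1 else 0) *
        Ex p (fun ω => Ex s (fun ω' => (if cu ends ω x = A then (1 : ℝ) else 0) *
          (g * (A.card : ℝ) + S1_F ends g A ω ω'))) := by
        have e2 : ∀ ω : E → Bool, Ex s (fun ω' => ∑ A : Finset V,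
            (if (A.card : ℝ) < a then (1 : ℝ) else 0) *
            ((if cu ends ω x = A then 1 else 0) * (g * (A.card : ℝ) + S1_F ends g A ω ω'))) =
            ∑ A : Finset V, (if (A.card : ℝ) < a then (1 : ℝ) else 0) *
            Ex s (fun ω' => (if cu ends ω x = A then (1 : ℝ) else 0) *
              (g * (A.card : ℝ) + S1_F ends g A ω ω')) := by
          intro ω
          rw [Ex_sum]
          exact Finset.sum_congr rfl fun A _ => Ex_mul_left _ _ _
        rw [Ex_congr e2, Ex_sum]
        exact Finset.sum_congr rfl fun A _ => Ex_mul_left _ _ _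
    _ ≤ ∑ A : Finset V, (if (A.card : ℝ) < a then 1 else 0) *
        (Ex p (fun ω => if cu ends ω x = A then (1 : ℝ) else 0) *
        ((g + s * W * M) * (A.card : ℝ))) := by
        refine Finset.sum_le_sum fun A _ => mul_le_mul_of_nonneg_left (hstep A) ?_
        split_ifs <;> norm_num
    _ = (g + s * W * M) * Ex p (fun ω => ∑ A : Finset V,
        ((if (A.card : ℝ) < a then 1 else 0) * (A.card : ℝ)) *
          (if cu ends ω x = A then (1 : ℝ) else 0)) := by
        rw [Ex_sum, Finset.mul_sum]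
        refine Finset.sum_congr rfl fun A _ => ?_
        rw [Ex_mul_left]
        ring
    _ ≤ _ := by
        apply mul_le_mul_of_nonneg_left _ (add_nonneg hg0 (mul_nonneg (mul_nonneg hs0 hW0) hM0))
        apply Ex_mono h0 h1
        intro ω
        rw [Finset.sum_eq_single (cu ends ω x)]
        · rw [if_pos rfl, mul_one]
          unfold cz
          by_cases h : ((cu ends ω x).card : ℝ) < a
          · rw [if_pos h, one_mul, min_eq_left h.le]
          · rw [if_neg h, zero_mul]
            exact le_min (Nat.cast_nonneg _) ha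
        · intro A _ hA
          rw [if_neg (Ne.symm hA), mul_zero]
        · intro hh
          exact absurd (Finset.mem_univ _) hh

private lemma S2_prod {ι : Type*} (s : Finset ι) (x : ι → ℝ) (h0 : ∀ i, 0 ≤ x i) (h1 : ∀ i, x i ≤ 1) :
    0 ≤ ∏ i ∈ s, x i ∧ ∏ i ∈ s, x i ≤ 1 ∧ 1 - ∏ i ∈ s, x i ≤ ∑ i ∈ s, (1 - x i) := by
  classical
  induction s using Finset.induction_on with
  | empty => simp
  | insert a s ha ih =>
    obtain ⟨i1, i2, i3⟩ := ih
    rw [Finset.prod_insert ha, Finset.sum_insert ha]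
    have a0 := h0 a
    have a1 := h1 a
    refine ⟨mul_nonneg a0 i1, ?_, ?_⟩
    · nlinarith
    · nlinarith

private lemma S2_pow {g : ℝ} (hg0 : 0 ≤ g) (hg1 : g ≤ 1) (k : ℕ) :
    0 ≤ (1 - g) ^ k ∧ (1 - g) ^ k ≤ 1 :=
  ⟨pow_nonneg (by linarith) k, pow_le_one₀ (by linarith) (by linarith)⟩

private lemma S2_bern {g : ℝ} (hg0 : 0 < g) (hg1 : g ≤ 1) (k : ℕ) :
    (k : ℝ) * (1 - g) ^ k ≤ min (k : ℝ) (1 / g) := by
  have hp := S2_pow hg0.le hg1 k
  refine le_min ?_ ?_
  · have hk : (0 : ℝ) ≤ k := Nat.cast_nonneg k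
    nlinarith [hp.2]
  · rw [le_div_iff₀ hg0]
    have key : ∀ n : ℕ, n * (1 - g) ^ k * g ≤ 1 - (1 - g) ^ n ∨ k < n := by
      intro n
      induction n with
      | zero => left; simp
      | succ n ih =>
        by_cases hkn : k < n + 1
        · exact Or.inr hkn
        left
        have hn : n + 1 ≤ k := not_lt.1 hkn
        rcases ih with ih | ih
        · have h1 : (1 - g) ^ k ≤ (1 - g) ^ n :=
            pow_le_pow_of_le_one (by linarith) (by linarith) (by omega)
          push_cast
          rw [pow_succ]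
          nlinarith
        · omega
    rcases key k with h | h
    · linarith [hp.1]
    · omega

open scoped Classical in
private lemma S2_pointwise {g : ℝ} (hg0 : 0 ≤ g) (hg1 : g ≤ 1) (ω : E → Bool) (S : Set V) (o : V) (ho : o ∈ S)
    (out : E → V) (hout : ∀ e x y, ends e = s(x, y) → x ∈ S → y ∉ S → y = out e) :
    (1 - g) ^ (cl ends ω S o).card - (1 - g) ^ (cl ends ω Set.univ o).card ≤
      ∑ e, (1 - g) ^ (cl ends ω S o).card * ((if ω e = true then 1 else 0) *
      ((if Bd ends (cl ends ω S o) S e then 1 else 0) *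
        (1 - (1 - g) ^ (cl ends ω ((cl ends ω S o : Finset V) : Set V)ᶜ (out e)).card))) := by
  set F : Finset E := Finset.univ.filter (fun e => ω e = true ∧ Bd ends (cl ends ω S o) S e) with hF
  have hsub : cl ends ω Set.univ o ⊆ cl ends ω S o ∪
      F.biUnion (fun e => cl ends ω ((cl ends ω S o : Finset V) : Set V)ᶜ (out e)) := by
    intro z hz
    rw [mem_cl] at hz
    rw [Finset.mem_union, mem_cl, Finset.mem_biUnion]
    rcases exit_decomp ho hz with h | ⟨e, x, y, h1, h2, h3, h4, h5⟩
    · exact Or.inl h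
    · right
      refine ⟨e, ?_, ?_⟩
      · rw [hF, Finset.mem_filter]
        refine ⟨Finset.mem_univ _, h4, x, y, h1, ?_, h3⟩
        rw [Finset.mem_coe, mem_cl]
        exact h2
      · rw [mem_cl]
        have : y = out e := hout e x y h1 (h2.mem' ho) h3
        rw [← this]
        have hset : {w | ¬ Rch ends ω S o w} = ((cl ends ω S o : Finset V) : Set V)ᶜ := by
          ext w
          simp only [Set.mem_compl_iff, Finset.mem_coe, mem_cl]
          rfl
        rw [← hset]
        exact h5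
  have hc := Finset.card_le_card hsub
  have hc2 := hc.trans (Finset.card_union_le _ _)
  have hc3 := hc2.trans (Nat.add_le_add_left (Finset.card_biUnion_le) _)
  have h4 : (1 - g) ^ (cl ends ω S o).card *
      ∏ e ∈ F, (1 - g) ^ (cl ends ω ((cl ends ω S o : Finset V) : Set V)ᶜ (out e)).card ≤
      (1 - g) ^ (cl ends ω Set.univ o).card := by
    rw [Finset.prod_pow_eq_pow_sum, ← pow_add]
    exact pow_le_pow_of_le_one (by linarith) (by linarith) hc3
  have h5 := (S2_prod F (fun e => (1 - g) ^ (cl ends ω ((cl ends ω S o : Finset V) : Set V)ᶜ (out e)).card)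
    (fun e => (S2_pow hg0 hg1 _).1) (fun e => (S2_pow hg0 hg1 _).2)).2.2
  have h6 := (S2_pow hg0 hg1 (cl ends ω S o).card).1
  have h7 := mul_le_mul_of_nonneg_left h5 h6
  have h8 : (1 - g) ^ (cl ends ω S o).card * ∑ e ∈ F,
      (1 - (1 - g) ^ (cl ends ω ((cl ends ω S o : Finset V) : Set V)ᶜ (out e)).card) =
      ∑ e, (1 - g) ^ (cl ends ω S o).card * ((if ω e = true then 1 else 0) *
      ((if Bd ends (cl ends ω S o) S e then 1 else 0) *
        (1 - (1 - g) ^ (cl ends ω ((cl ends ω S o : Finset V) : Set V)ᶜ (out e)).card))) := by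
    rw [hF, Finset.sum_filter, Finset.mul_sum]
    refine Finset.sum_congr rfl fun e _ => ?_
    by_cases h1 : ω e = true <;> by_cases h2 : Bd ends (cl ends ω S o) S e <;> simp [h1, h2]
  rw [← h8]
  linarith

open scoped Classical in
private lemma S2_exit {q g M : ℝ} (h0 : 0 ≤ q) (h1 : q ≤ 1) (hg0 : 0 ≤ g) (hg1 : g ≤ 1)
    (hM : ∀ y, Ex q (mg ends g y) ≤ M) (S : Set V) (o : V) (ho : o ∈ S) :
    Ex q (fun ω => (1 - g) ^ (cl ends ω S o).card) - Ex q (fun ω => (1 - g) ^ (cl ends ω Set.univ o).card) ≤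
      q * M * ∑ e, Ex q (fun ω => (1 - g) ^ (cl ends ω S o).card *
        (if Bd ends (cl ends ω S o) S e then 1 else 0)) := by
  choose out hout using fun e => exists_out ends o S e
  have hM0 : 0 ≤ M := le_trans (Ex_nonneg h0 h1 fun ω => by
    have := (S2_pow hg0 hg1 (cl ends ω Set.univ o).card).2
    unfold mg
    linarith) (hM o)
  have hsub : Ex q (fun ω => (1 - g) ^ (cl ends ω S o).card) -
      Ex q (fun ω => (1 - g) ^ (cl ends ω Set.univ o).card) =
      Ex q (fun ω => (1 - g) ^ (cl ends ω S o).card - (1 - g) ^ (cl ends ω Set.univ o).card) := by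
    have e1 : ∀ ω : E → Bool, (1 - g) ^ (cl ends ω S o).card - (1 - g) ^ (cl ends ω Set.univ o).card =
        (1 - g) ^ (cl ends ω S o).card + (-1) * (1 - g) ^ (cl ends ω Set.univ o).card := by
      intro ω; ring
    rw [Ex_congr e1, Ex_add, Ex_mul_left]
    ring
  rw [hsub]
  refine (Ex_mono h0 h1 fun ω => S2_pointwise hg0 hg1 ω S o ho out hout).trans ?_
  rw [Ex_sum, Finset.mul_sum]
  refine Finset.sum_le_sum fun e _ => ?_
  have hdec : ∀ ω : E → Bool, (1 - g) ^ (cl ends ω S o).card * ((if ω e = true then (1 : ℝ) else 0) *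
      ((if Bd ends (cl ends ω S o) S e then 1 else 0) *
        (1 - (1 - g) ^ (cl ends ω ((cl ends ω S o : Finset V) : Set V)ᶜ (out e)).card))) =
      ∑ A : Finset V, (if cl ends ω S o = A then 1 else 0) * ((1 - g) ^ A.card *
        ((if ω e = true then (1 : ℝ) else 0) *
        ((if Bd ends (A : Set V) S e then 1 else 0) * (1 - (1 - g) ^ (cl ends ω ((A : Set V))ᶜ (out e)).card)))) := by
    intro ω
    rw [Finset.sum_eq_single (cl ends ω S o)]
    · simp
    · intro A _ hA
      rw [if_neg (Ne.symm hA), zero_mul]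
    · intro h
      exact absurd (Finset.mem_univ _) h
  rw [Ex_congr hdec, Ex_sum]
  have hdec2 : ∀ ω : E → Bool, (1 - g) ^ (cl ends ω S o).card *
      (if Bd ends (cl ends ω S o) S e then (1 : ℝ) else 0) =
      ∑ A : Finset V, (if cl ends ω S o = A then 1 else 0) *
        ((1 - g) ^ A.card * (if Bd ends (A : Set V) S e then 1 else 0)) := by
    intro ω
    rw [Finset.sum_eq_single (cl ends ω S o)]
    · simp
    · intro A _ hA
      rw [if_neg (Ne.symm hA), zero_mul]
    · intro h
      exact absurd (Finset.mem_univ _) h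
  rw [Ex_congr hdec2, Ex_sum, Finset.mul_sum]
  refine Finset.sum_le_sum fun A _ => ?_
  have hu := S2_pow hg0 hg1 A.card
  by_cases hB : Bd ends (A : Set V) S e
  · by_cases hAS : (A : Set V) ⊆ S
    · obtain ⟨x, y, he, hx, hy⟩ := hB
      set D : Set E := {e' | ∃ a b, ends e' = s(a, b) ∧ a ∈ S ∧ b ∈ S ∧ a ∈ A} with hD
      have heD : e ∉ D := by
        rintro ⟨a, b, h2, h3, h4, h5⟩
        rw [he] at h2
        rcases Sym2.eq_iff.1 h2 with ⟨rfl, rfl⟩ | ⟨rfl, rfl⟩
        · exact hy h4
        · exact hy h3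
      have hBd : (if Bd ends (A : Set V) S e then (1 : ℝ) else 0) = 1 :=
        if_pos ⟨x, y, he, hx, hy⟩
      rw [Ex_indep q D (fun ω => if cl ends ω S o = A then (1 : ℝ) else 0)]
      · have hsimp : ∀ ω : E → Bool, (1 - g) ^ A.card * ((if ω e = true then (1 : ℝ) else 0) *
            ((if Bd ends (A : Set V) S e then 1 else 0) *
              (1 - (1 - g) ^ (cl ends ω ((A : Set V))ᶜ (out e)).card))) =
            (1 - g) ^ A.card * ((if ω e = true then (1 : ℝ) else 0) *
              (1 - (1 - g) ^ (cl ends ω ((A : Set V))ᶜ (out e)).card)) := by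
          intro ω
          rw [hBd, one_mul]
        rw [Ex_congr hsimp, Ex_mul_left, Ex_coord]
        · have h3 : Ex q (fun ω => 1 - (1 - g) ^ (cl ends ω ((A : Set V))ᶜ (out e)).card) ≤ M := by
            refine (Ex_mono h0 h1 fun ω => ?_).trans (hM (out e))
            unfold mg
            have := pow_le_pow_of_le_one (a := 1 - g) (by linarith) (by linarith)
              (Finset.card_le_card (cl_mono (ends := ends) (ω := ω) (x := out e) (fun _ h => h)
                (Set.subset_univ ((A : Set V))ᶜ)))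
            linarith
          have h4 : Ex q (fun ω => (if cl ends ω S o = A then (1 : ℝ) else 0) *
              ((1 - g) ^ A.card * (if Bd ends (A : Set V) S e then 1 else 0))) =
              Ex q (fun ω => if cl ends ω S o = A then (1 : ℝ) else 0) * (1 - g) ^ A.card := by
            rw [mul_comm (Ex q (fun ω => if cl ends ω S o = A then (1 : ℝ) else 0)) ((1 - g) ^ A.card), ← Ex_mul_left]
            apply Ex_congr
            intro ω
            rw [hBd, mul_one, mul_comm]
          rw [h4]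
          have h5 : 0 ≤ Ex q (fun ω => if cl ends ω S o = A then (1 : ℝ) else 0) :=
            Ex_nonneg h0 h1 fun ω => by split_ifs <;> norm_num
          calc _ ≤ Ex q (fun ω => if cl ends ω S o = A then (1 : ℝ) else 0) * ((1 - g) ^ A.card * (q * M)) :=
                mul_le_mul_of_nonneg_left (mul_le_mul_of_nonneg_left
                  (mul_le_mul_of_nonneg_left h3 h0) hu.1) h5
            _ = _ := by ring
        · intro ω ω' h
          rw [cl_dep (S := ((A : Set V))ᶜ) (ω' := ω')]
          intro e' a b h2 h3 h4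
          apply h
          rintro rfl
          rw [he] at h2
          rcases Sym2.eq_iff.1 h2 with ⟨rfl, rfl⟩ | ⟨rfl, rfl⟩
          · exact h3 hx
          · exact h4 hx
      · intro ω ω' h
        have key : ∀ ω ω' : E → Bool, (∀ e ∈ D, ω e = ω' e) → cl ends ω S o = A →
            cl ends ω' S o = A := by
          intro ω ω' h hA
          exact cl_eq_dep (fun e' a b h2 h3 h4 h5 => h e' ⟨a, b, h2, h3, h4, h5⟩) hA
        by_cases hc : cl ends ω S o = A
        · rw [if_pos hc, if_pos (key ω ω' h hc)]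
        · rw [if_neg hc, if_neg]
          intro hc'
          exact hc (key ω' ω (fun e he => (h e he).symm) hc')
      · intro ω ω' h
        rw [h e heD]
        rw [cl_dep (S := ((A : Set V))ᶜ) (ω' := ω')]
        intro e' a b h2 h3 h4
        apply h
        rintro ⟨a', b', h5, _, _, h8⟩
        rw [h2] at h5
        rcases Sym2.eq_iff.1 h5 with ⟨rfl, rfl⟩ | ⟨rfl, rfl⟩
        · exact h3 h8
        · exact h4 h8
    · have hne : ∀ ω, cl ends ω S o ≠ A := by
        intro ω h
        apply hAS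
        intro z hz
        rw [Finset.mem_coe, ← h, mem_cl] at hz
        exact hz.mem' ho
      have e1 : Ex q (fun ω => (if cl ends ω S o = A then (1 : ℝ) else 0) *
          ((1 - g) ^ A.card * ((if ω e = true then (1 : ℝ) else 0) *
          ((if Bd ends (A : Set V) S e then 1 else 0) *
            (1 - (1 - g) ^ (cl ends ω ((A : Set V))ᶜ (out e)).card))))) = 0 := by
        apply Ex_zero_of
        intro ω
        rw [if_neg (hne ω), zero_mul]
      rw [e1]
      apply mul_nonneg (mul_nonneg h0 hM0)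
      exact Ex_nonneg h0 h1 fun ω => mul_nonneg (by split_ifs <;> norm_num)
        (mul_nonneg hu.1 (by split_ifs <;> norm_num))
  · have e1 : Ex q (fun ω => (if cl ends ω S o = A then (1 : ℝ) else 0) *
          ((1 - g) ^ A.card * ((if ω e = true then (1 : ℝ) else 0) *
          ((if Bd ends (A : Set V) S e then 1 else 0) *
            (1 - (1 - g) ^ (cl ends ω ((A : Set V))ᶜ (out e)).card))))) = 0 := by
      apply Ex_zero_of
      intro ω
      rw [if_neg hB, zero_mul, mul_zero, mul_zero, mul_zero]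
    rw [e1]
    apply mul_nonneg (mul_nonneg h0 hM0)
    exact Ex_nonneg h0 h1 fun ω => mul_nonneg (by split_ifs <;> norm_num)
      (mul_nonneg hu.1 (by split_ifs <;> norm_num))

open scoped Classical in
/-- the sum over the starting points of the exit bound -/
private lemma S2_sum {q g M m W : ℝ} (h0 : 0 ≤ q) (h1 : q ≤ 1) (hg0 : 0 < g) (hg1 : g ≤ 1)
    (hM : ∀ y, Ex q (mg ends g y) ≤ M) (hm : ∀ y, Ex q (fun ω => min (cz ends ω y) (1 / g)) ≤ m)
    (hdeg : ∀ x, ∑ y, nb ends x y ≤ W) (S : Finset V) :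
    ∑ y, (if y ∈ S then 0 else (Ex q (fun ω => (1 - g) ^ (cl ends ω ((S : Finset V) : Set V)ᶜ y).card) -
      Ex q (fun ω => (1 - g) ^ (cl ends ω Set.univ y).card))) ≤ q * M * (S.card * (W * m)) := by
  by_cases hV : Nonempty V
  swap
  · have hS : S = ∅ := by
      apply Finset.eq_empty_of_forall_notMem
      intro x
      exact absurd ⟨x⟩ hV
    have h2 : (Finset.univ : Finset V) = ∅ := by
      apply Finset.eq_empty_of_forall_notMem
      intro x
      exact absurd ⟨x⟩ hV
    rw [h2, hS]
    simp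
  obtain ⟨x0⟩ := hV
  have hM0 : 0 ≤ M := le_trans (Ex_nonneg h0 h1 fun ω => by
    have := (S2_pow hg0.le hg1 (cl ends ω Set.univ x0).card).2
    unfold mg
    linarith) (hM x0)
  have hnb : ∀ a b, 0 ≤ nb ends a b := by
    intro a b
    unfold nb
    exact Finset.sum_nonneg fun e _ => by split_ifs <;> norm_num
  have hnbs : ∀ a b, nb ends a b = nb ends b a := by
    intro a b
    unfold nb
    exact Finset.sum_congr rfl fun e _ => by rw [Sym2.eq_swap]
  -- the bound for one vertex
  have hone : ∀ y, y ∉ S → (Ex q (fun ω => (1 - g) ^ (cl ends ω ((S : Finset V) : Set V)ᶜ y).card) -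
      Ex q (fun ω => (1 - g) ^ (cl ends ω Set.univ y).card)) ≤
      q * M * ∑ s ∈ S, ∑ v, nb ends v s * Ex q (fun ω => (1 - g) ^ (cl ends ω ((S : Finset V) : Set V)ᶜ y).card *
        (if v ∈ cl ends ω ((S : Finset V) : Set V)ᶜ y then 1 else 0)) := by
    intro y hy
    have hy' : y ∈ ((S : Finset V) : Set V)ᶜ := by simpa using hy
    refine (S2_exit h0 h1 hg0.le hg1 hM _ y hy').trans ?_
    apply mul_le_mul_of_nonneg_left _ (mul_nonneg h0 hM0)
    have hpt : ∀ ω : E → Bool, ∑ e, (1 - g) ^ (cl ends ω ((S : Finset V) : Set V)ᶜ y).card *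
        (if Bd ends (cl ends ω ((S : Finset V) : Set V)ᶜ y) ((S : Finset V) : Set V)ᶜ e then (1 : ℝ) else 0) ≤
        ∑ s ∈ S, ∑ v, nb ends v s * ((1 - g) ^ (cl ends ω ((S : Finset V) : Set V)ᶜ y).card *
        (if v ∈ cl ends ω ((S : Finset V) : Set V)ᶜ y then 1 else 0)) := by
      intro ω
      have hu := (S2_pow hg0.le hg1 (cl ends ω ((S : Finset V) : Set V)ᶜ y).card).1
      have e1 : ∀ s v, nb ends v s * ((1 - g) ^ (cl ends ω ((S : Finset V) : Set V)ᶜ y).card *
        (if v ∈ cl ends ω ((S : Finset V) : Set V)ᶜ y then (1 : ℝ) else 0)) =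
          ∑ e, (1 - g) ^ (cl ends ω ((S : Finset V) : Set V)ᶜ y).card *
            ((if ends e = s(v, s) then 1 else 0) *
              (if v ∈ cl ends ω ((S : Finset V) : Set V)ᶜ y then 1 else 0)) := by
        intro s v
        unfold nb
        rw [Finset.sum_mul]
        exact Finset.sum_congr rfl fun e _ => by ring
      have e2 : ∑ s ∈ S, ∑ v, nb ends v s * ((1 - g) ^ (cl ends ω ((S : Finset V) : Set V)ᶜ y).card *
        (if v ∈ cl ends ω ((S : Finset V) : Set V)ᶜ y then (1 : ℝ) else 0)) =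
          ∑ e, ∑ s ∈ S, ∑ v, (1 - g) ^ (cl ends ω ((S : Finset V) : Set V)ᶜ y).card *
            ((if ends e = s(v, s) then 1 else 0) *
              (if v ∈ cl ends ω ((S : Finset V) : Set V)ᶜ y then 1 else 0)) := by
        rw [Finset.sum_congr rfl fun s _ => Finset.sum_congr rfl fun v _ => e1 s v]
        rw [Finset.sum_congr rfl fun s _ => Finset.sum_comm, Finset.sum_comm]
      rw [e2]
      refine Finset.sum_le_sum fun e _ => ?_
      have hnn : ∀ s v, 0 ≤ (1 - g) ^ (cl ends ω ((S : Finset V) : Set V)ᶜ y).card *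
            ((if ends e = s(v, s) then (1 : ℝ) else 0) *
              (if v ∈ cl ends ω ((S : Finset V) : Set V)ᶜ y then 1 else 0)) := by
        intro s v
        apply mul_nonneg hu
        split_ifs <;> norm_num
      by_cases hB : Bd ends (cl ends ω ((S : Finset V) : Set V)ᶜ y) ((S : Finset V) : Set V)ᶜ e
      · obtain ⟨v, s, he, hv, hs⟩ := id hB
        have hs' : s ∈ S := by simpa using hs
        have hv' : v ∈ cl ends ω ((S : Finset V) : Set V)ᶜ y := hv
        rw [if_pos hB]
        refine le_trans ?_ (Finset.single_le_sum (f := fun s => ∑ v,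
          (1 - g) ^ (cl ends ω ((S : Finset V) : Set V)ᶜ y).card *
            ((if ends e = s(v, s) then (1 : ℝ) else 0) *
              (if v ∈ cl ends ω ((S : Finset V) : Set V)ᶜ y then 1 else 0)))
          (fun s _ => Finset.sum_nonneg fun v _ => hnn s v) hs')
        refine le_trans ?_ (Finset.single_le_sum (f := fun v =>
          (1 - g) ^ (cl ends ω ((S : Finset V) : Set V)ᶜ y).card *
            ((if ends e = s(v, s) then (1 : ℝ) else 0) *
              (if v ∈ cl ends ω ((S : Finset V) : Set V)ᶜ y then 1 else 0)))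
          (fun v _ => hnn s v) (Finset.mem_univ v))
        simp only [if_pos he, if_pos hv', mul_one, le_refl]
      · rw [if_neg hB, mul_zero]
        exact Finset.sum_nonneg fun s _ => Finset.sum_nonneg fun v _ => hnn s v
    have h2 := Ex_mono h0 h1 hpt
    rw [Ex_sum, Ex_sum] at h2
    refine h2.trans (le_of_eq ?_)
    refine Finset.sum_congr rfl fun s _ => ?_
    rw [Ex_sum]
    exact Finset.sum_congr rfl fun v _ => Ex_mul_left _ _ _
  -- the mean over the starting points
  have hv : ∀ v, ∑ y, (if y ∈ S then 0 else Ex q (fun ω => (1 - g) ^ (cl ends ω ((S : Finset V) : Set V)ᶜ y).card *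
        (if v ∈ cl ends ω ((S : Finset V) : Set V)ᶜ y then 1 else 0))) ≤ m := by
    intro v
    refine le_trans ?_ (hm v)
    have e1 : ∀ y, (if y ∈ S then 0 else Ex q (fun ω => (1 - g) ^ (cl ends ω ((S : Finset V) : Set V)ᶜ y).card *
        (if v ∈ cl ends ω ((S : Finset V) : Set V)ᶜ y then (1 : ℝ) else 0))) =
        Ex q (fun ω => if y ∈ S then 0 else (1 - g) ^ (cl ends ω ((S : Finset V) : Set V)ᶜ y).card *
        (if v ∈ cl ends ω ((S : Finset V) : Set V)ᶜ y then (1 : ℝ) else 0)) := by
      intro y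
      by_cases hy : y ∈ S
      · rw [if_pos hy]
        exact (Ex_zero_of fun ω => if_pos hy).symm
      · rw [if_neg hy]
        exact Ex_congr fun ω => (if_neg hy).symm
    rw [Finset.sum_congr rfl fun y _ => e1 y, ← Ex_sum]
    apply Ex_mono h0 h1
    intro ω
    have e2 : ∀ y, (if y ∈ S then 0 else (1 - g) ^ (cl ends ω ((S : Finset V) : Set V)ᶜ y).card *
        (if v ∈ cl ends ω ((S : Finset V) : Set V)ᶜ y then (1 : ℝ) else 0)) ≤
        (if y ∈ cl ends ω ((S : Finset V) : Set V)ᶜ v then 1 else 0) *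
          (1 - g) ^ (cl ends ω ((S : Finset V) : Set V)ᶜ v).card := by
      intro y
      have hu := (S2_pow hg0.le hg1 (cl ends ω ((S : Finset V) : Set V)ᶜ v).card).1
      have hr : 0 ≤ (if y ∈ cl ends ω ((S : Finset V) : Set V)ᶜ v then (1 : ℝ) else 0) *
          (1 - g) ^ (cl ends ω ((S : Finset V) : Set V)ᶜ v).card :=
        mul_nonneg (by split_ifs <;> norm_num) hu
      by_cases hy : y ∈ S
      · rw [if_pos hy]
        exact hr
      rw [if_neg hy]
      by_cases hvy : v ∈ cl ends ω ((S : Finset V) : Set V)ᶜ y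
      · have hvy' := hvy
        rw [mem_cl] at hvy
        have h2 : y ∈ cl ends ω ((S : Finset V) : Set V)ᶜ v := by
          rw [mem_cl]
          exact hvy.symm
        have h3 : cl ends ω ((S : Finset V) : Set V)ᶜ y = cl ends ω ((S : Finset V) : Set V)ᶜ v := by
          ext z
          rw [mem_cl, mem_cl]
          exact ⟨fun h => hvy.symm.trans h, fun h => hvy.trans h⟩
        rw [if_pos hvy', if_pos h2, h3, mul_one, one_mul]
      · rw [if_neg hvy, mul_zero]
        exact hr
    refine (Finset.sum_le_sum fun y _ => e2 y).trans ?_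
    rw [← Finset.sum_mul]
    have e3 : ∑ y, (if y ∈ cl ends ω ((S : Finset V) : Set V)ᶜ v then (1 : ℝ) else 0) =
        ((cl ends ω ((S : Finset V) : Set V)ᶜ v).card : ℝ) := by simp
    rw [e3]
    refine (S2_bern hg0 hg1 _).trans ?_
    apply min_le_min _ le_rfl
    unfold cz cu
    exact_mod_cast Finset.card_le_card (cl_mono (fun _ h => h) (Set.subset_univ _))
  calc ∑ y, (if y ∈ S then 0 else (Ex q (fun ω => (1 - g) ^ (cl ends ω ((S : Finset V) : Set V)ᶜ y).card) -
      Ex q (fun ω => (1 - g) ^ (cl ends ω Set.univ y).card))) ≤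
      ∑ y, q * M * ∑ s ∈ S, ∑ v, nb ends v s * (if y ∈ S then 0 else
        Ex q (fun ω => (1 - g) ^ (cl ends ω ((S : Finset V) : Set V)ᶜ y).card *
        (if v ∈ cl ends ω ((S : Finset V) : Set V)ᶜ y then 1 else 0))) := by
        refine Finset.sum_le_sum fun y _ => ?_
        by_cases hy : y ∈ S
        · simp only [if_pos hy, mul_zero, Finset.sum_const_zero, le_refl]
        · simp only [if_neg hy]
          exact hone y hy
    _ = q * M * ∑ s ∈ S, ∑ v, nb ends v s * ∑ y, (if y ∈ S then 0 else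
        Ex q (fun ω => (1 - g) ^ (cl ends ω ((S : Finset V) : Set V)ᶜ y).card *
        (if v ∈ cl ends ω ((S : Finset V) : Set V)ᶜ y then 1 else 0))) := by
        rw [← Finset.mul_sum, Finset.sum_comm]
        congr 1
        refine Finset.sum_congr rfl fun s _ => ?_
        rw [Finset.sum_comm]
        exact Finset.sum_congr rfl fun v _ => by rw [Finset.mul_sum]
    _ ≤ q * M * ∑ s ∈ S, ∑ v, nb ends v s * m := by
        apply mul_le_mul_of_nonneg_left _ (mul_nonneg h0 hM0)
        exact Finset.sum_le_sum fun s _ => Finset.sum_le_sum fun v _ =>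
          mul_le_mul_of_nonneg_left (hv v) (hnb v s)
    _ ≤ q * M * ∑ _s ∈ S, W * m := by
        apply mul_le_mul_of_nonneg_left _ (mul_nonneg h0 hM0)
        refine Finset.sum_le_sum fun s _ => ?_
        rw [← Finset.sum_mul]
        have hm0 : 0 ≤ m := le_trans (Ex_nonneg h0 h1 fun ω => le_min (cz_nonneg ω x0) (by positivity)) (hm x0)
        apply mul_le_mul_of_nonneg_right _ hm0
        rw [Finset.sum_congr rfl fun v _ => hnbs v s]
        exact hdeg s
    _ = _ := by
        rw [Finset.sum_const, nsmul_eq_mul]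

open scoped Classical in
/-- Row S2. The variance of the magnetisation. Let `u A = (1 - g) ^ |A|`, `mg = 1 - u`. The variance of `∑ x, mg x` is
`∑ x, ∑ y, (Ex [u (cu x) u (cu y)] - Ex u (cu x) Ex u (cu y))`. The part `y ∈ cu x` is at most
`Ex [u (cu x) |cu x|] ≤ Ex min (cz x) (1/g) ≤ m` (since `k (1-g)^k ≤ min k (1/g)`). The part `y ∉ cu x`: `explore` and
`Ex u (cl Sᶜ y) - Ex u (cu y) ≤ ∑ e = {v,s}, s ∈ S, v ∉ S, q Ex [1[v ∈ cl Sᶜ y] u (cl Sᶜ y)] M` for `y ∉ S`: if `u` differs
then, `B` being the random set of `ghost`, `cl Sᶜ y` does not meet `B` but `cu y` does, so some open edge `{v,s}` has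
`v ∈ cl Sᶜ y` and `s` is joined to `B` outside `cl Sᶜ y` (explore `cl Sᶜ y` first). The sum over `y` of
`Ex [1[v ∈ cl Sᶜ y] u (cl Sᶜ y)]` is `Ex [|cl Sᶜ v| u (cl Sᶜ v)] ≤ Ex min (cz v) (1/g) ≤ m`. So the sum over `y` is at most
`|S| W q m M`, and `Ex [u (cu x) |cu x|] ≤ m` again. -/
lemma var_mg {q g M m W : ℝ} (h0 : 0 ≤ q) (h1 : q ≤ 1) (hg0 : 0 < g) (hg1 : g ≤ 1)
    (hM : ∀ y, Ex q (mg ends g y) ≤ M) (hm : ∀ y, Ex q (fun ω => min (cz ends ω y) (1 / g)) ≤ m)
    (hdeg : ∀ x, ∑ y, nb ends x y ≤ W) :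
    Ex q (fun ω => (∑ x, mg ends g x ω) ^ 2) - (∑ x, Ex q (mg ends g x)) ^ 2 ≤
      (Fintype.card V) * (m + q * W * m ^ 2 * M) := by
  classical
  have hmgu : ∀ x (ω : E → Bool), mg ends g x ω = 1 - (1 - g) ^ (cu ends ω x).card := fun x ω => rfl
  have hEmg : ∀ x, Ex q (mg ends g x) = 1 - Ex q (fun ω => (1 - g) ^ (cu ends ω x).card) := by
    intro x
    have e1 : ∀ ω : E → Bool, mg ends g x ω = 1 + (-1) * (1 - g) ^ (cu ends ω x).card := by
      intro ω; rw [hmgu]; ring
    rw [Ex_congr e1, Ex_add, Ex_const, Ex_mul_left]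
    ring
  have hcov : ∀ x y, Ex q (fun ω => mg ends g x ω * mg ends g y ω) - Ex q (mg ends g x) * Ex q (mg ends g y) =
      Ex q (fun ω => (1 - g) ^ (cu ends ω x).card * (1 - g) ^ (cu ends ω y).card) -
      Ex q (fun ω => (1 - g) ^ (cu ends ω x).card) * Ex q (fun ω => (1 - g) ^ (cu ends ω y).card) := by
    intro x y
    rw [hEmg, hEmg]
    have e1 : ∀ ω : E → Bool, mg ends g x ω * mg ends g y ω =
        ((1 + (-1) * (1 - g) ^ (cu ends ω x).card) + (-1) * (1 - g) ^ (cu ends ω y).card) +
          (1 - g) ^ (cu ends ω x).card * (1 - g) ^ (cu ends ω y).card := by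
      intro ω; rw [hmgu, hmgu]; ring
    rw [Ex_congr e1, Ex_add, Ex_add, Ex_add, Ex_const, Ex_mul_left, Ex_mul_left]
    ring
  have hL : Ex q (fun ω => (∑ x, mg ends g x ω) ^ 2) - (∑ x, Ex q (mg ends g x)) ^ 2 =
      ∑ x, ∑ y, (Ex q (fun ω => (1 - g) ^ (cu ends ω x).card * (1 - g) ^ (cu ends ω y).card) -
      Ex q (fun ω => (1 - g) ^ (cu ends ω x).card) * Ex q (fun ω => (1 - g) ^ (cu ends ω y).card)) := by
    have e1 : ∀ ω : E → Bool, (∑ x, mg ends g x ω) ^ 2 = ∑ x, ∑ y, mg ends g x ω * mg ends g y ω := by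
      intro ω
      rw [sq, Finset.sum_mul_sum]
    rw [Ex_congr e1, Ex_sum, sq, Finset.sum_mul_sum, ← Finset.sum_sub_distrib]
    refine Finset.sum_congr rfl fun x _ => ?_
    rw [Ex_sum, ← Finset.sum_sub_distrib]
    exact Finset.sum_congr rfl fun y _ => hcov x y
  rw [hL]
  have hx : ∀ x, ∑ y, (Ex q (fun ω => (1 - g) ^ (cu ends ω x).card * (1 - g) ^ (cu ends ω y).card) -
      Ex q (fun ω => (1 - g) ^ (cu ends ω x).card) * Ex q (fun ω => (1 - g) ^ (cu ends ω y).card)) ≤
      m + q * W * m ^ 2 * M := by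
    intro x
    have hM0 : 0 ≤ M := le_trans (Ex_nonneg h0 h1 fun ω => by
      have := (S2_pow hg0.le hg1 (cl ends ω Set.univ x).card).2
      unfold mg
      linarith) (hM x)
    have hm0 : 0 ≤ m := le_trans (Ex_nonneg h0 h1 fun ω => le_min (cz_nonneg ω x) (by positivity)) (hm x)
    have hW0 : 0 ≤ W := le_trans (Finset.sum_nonneg fun y _ => by
      unfold nb
      exact Finset.sum_nonneg fun e _ => by split_ifs <;> norm_num) (hdeg x)
    have hxy : ∀ y, Ex q (fun ω => (1 - g) ^ (cu ends ω x).card * (1 - g) ^ (cu ends ω y).card) -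
        Ex q (fun ω => (1 - g) ^ (cu ends ω x).card) * Ex q (fun ω => (1 - g) ^ (cu ends ω y).card) ≤
        Ex q (fun ω => (if y ∈ cu ends ω x then 1 else 0) * (1 - g) ^ (cu ends ω x).card) +
        Ex q (fun ω => (1 - g) ^ (cu ends ω x).card * (if y ∈ cu ends ω x then 0 else
          (Ex q (fun ω' => (1 - g) ^ (cl ends ω' ((cu ends ω x : Finset V) : Set V)ᶜ y).card) -
            Ex q (fun ω' => (1 - g) ^ (cl ends ω' Set.univ y).card)))) := by
      intro y
      set Uy := Ex q (fun ω => (1 - g) ^ (cu ends ω y).card) with hUy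
      have hUy0 : 0 ≤ Uy := Ex_nonneg h0 h1 fun ω => (S2_pow hg0.le hg1 _).1
      have hexp := explore (ends := ends) (p := q) x y (fun A : Finset V => (1 - g) ^ A.card)
        (fun A : Finset V => (1 - g) ^ A.card)
      have e1 : Ex q (fun ω => (1 - g) ^ (cu ends ω x).card * (1 - g) ^ (cu ends ω y).card) ≤
          Ex q (fun ω => (if y ∈ cu ends ω x then 1 else 0) * (1 - g) ^ (cu ends ω x).card) +
          Ex q (fun ω => (if y ∈ cu ends ω x then 0 else 1) *
            ((1 - g) ^ (cu ends ω x).card * (1 - g) ^ (cu ends ω y).card)) := by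
        rw [← Ex_add]
        apply Ex_mono h0 h1
        intro ω
        have u1 := S2_pow hg0.le hg1 (cu ends ω x).card
        have u2 := S2_pow hg0.le hg1 (cu ends ω y).card
        by_cases hy : y ∈ cu ends ω x
        · rw [if_pos hy, if_pos hy]
          nlinarith
        · rw [if_neg hy, if_neg hy]
          linarith
      have e2 : Ex q (fun ω => (1 - g) ^ (cu ends ω x).card) * Uy =
          Ex q (fun ω => Uy * (1 - g) ^ (cu ends ω x).card) := by
        rw [Ex_mul_left, mul_comm]
      have e3 : Ex q (fun ω => (if y ∈ cu ends ω x then 0 else 1) * ((1 - g) ^ (cu ends ω x).card *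
          Ex q (fun ω' => (1 - g) ^ (cl ends ω' ((cu ends ω x : Finset V) : Set V)ᶜ y).card))) +
          (-1) * Ex q (fun ω => Uy * (1 - g) ^ (cu ends ω x).card) ≤
          Ex q (fun ω => (1 - g) ^ (cu ends ω x).card * (if y ∈ cu ends ω x then 0 else
          (Ex q (fun ω' => (1 - g) ^ (cl ends ω' ((cu ends ω x : Finset V) : Set V)ᶜ y).card) -
            Ex q (fun ω' => (1 - g) ^ (cl ends ω' Set.univ y).card)))) := by
        rw [← Ex_mul_left, ← Ex_add]
        apply Ex_mono h0 h1
        intro ω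
        have u1 := S2_pow hg0.le hg1 (cu ends ω x).card
        have hUU : Ex q (fun ω' => (1 - g) ^ (cl ends ω' Set.univ y).card) = Uy := rfl
        by_cases hy : y ∈ cu ends ω x
        · rw [if_pos hy, if_pos hy]
          have := mul_nonneg hUy0 u1.1
          linarith
        · rw [if_neg hy, if_neg hy, hUU]
          linarith
      rw [hexp] at e1
      rw [e2]
      linarith
    refine (Finset.sum_le_sum fun y _ => hxy y).trans ?_
    rw [Finset.sum_add_distrib, ← Ex_sum, ← Ex_sum]
    have p1 : Ex q (fun ω => ∑ y, (if y ∈ cu ends ω x then 1 else 0) * (1 - g) ^ (cu ends ω x).card) ≤ m := by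
      refine (Ex_mono h0 h1 fun ω => ?_).trans (hm x)
      rw [← Finset.sum_mul]
      have e3 : ∑ y, (if y ∈ cu ends ω x then (1 : ℝ) else 0) = ((cu ends ω x).card : ℝ) := by simp
      rw [e3]
      exact S2_bern hg0 hg1 _
    have p2 : Ex q (fun ω => ∑ y, (1 - g) ^ (cu ends ω x).card * (if y ∈ cu ends ω x then 0 else
          (Ex q (fun ω' => (1 - g) ^ (cl ends ω' ((cu ends ω x : Finset V) : Set V)ᶜ y).card) -
            Ex q (fun ω' => (1 - g) ^ (cl ends ω' Set.univ y).card)))) ≤ q * W * m ^ 2 * M := by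
      have p3 : ∀ ω : E → Bool, ∑ y, (1 - g) ^ (cu ends ω x).card * (if y ∈ cu ends ω x then 0 else
          (Ex q (fun ω' => (1 - g) ^ (cl ends ω' ((cu ends ω x : Finset V) : Set V)ᶜ y).card) -
            Ex q (fun ω' => (1 - g) ^ (cl ends ω' Set.univ y).card))) ≤
          (q * M * (W * m)) * min (cz ends ω x) (1 / g) := by
        intro ω
        rw [← Finset.mul_sum]
        have u1 := S2_pow hg0.le hg1 (cu ends ω x).card
        have h5 := mul_le_mul_of_nonneg_left (S2_sum h0 h1 hg0 hg1 hM hm hdeg (cu ends ω x)) u1.1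
        refine h5.trans ?_
        have h6 := S2_bern hg0 hg1 (cu ends ω x).card
        have h7 : 0 ≤ q * M * (W * m) := mul_nonneg (mul_nonneg h0 hM0) (mul_nonneg hW0 hm0)
        have h8 := mul_le_mul_of_nonneg_left h6 h7
        calc (1 - g) ^ (cu ends ω x).card * (q * M * (((cu ends ω x).card : ℝ) * (W * m))) =
            q * M * (W * m) * (((cu ends ω x).card : ℝ) * (1 - g) ^ (cu ends ω x).card) := by ring
          _ ≤ _ := h8
      refine (Ex_mono h0 h1 p3).trans ?_
      rw [Ex_mul_left]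
      have h7 : 0 ≤ q * M * (W * m) := mul_nonneg (mul_nonneg h0 hM0) (mul_nonneg hW0 hm0)
      calc q * M * (W * m) * Ex q (fun ω => min (cz ends ω x) (1 / g)) ≤ q * M * (W * m) * m :=
            mul_le_mul_of_nonneg_left (hm x) h7
        _ = _ := by ring
    exact add_le_add p1 p2
  calc _ ≤ ∑ _x : V, (m + q * W * m ^ 2 * M) := Finset.sum_le_sum fun x _ => hx x
    _ = _ := by
      rw [Finset.sum_const, nsmul_eq_mul, Finset.card_univ]

end Pool.Agent.PERC29
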