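import Pool.Agent.Lib.MP_29e17e_pr.U.Cy
import Pool.Agent.Lib.MP_29e17e_pr.Prb
import Pool.Agent.Lib.MP_29e17e_pr.Rec

set_option autoImplicit false
set_option linter.unusedSectionVars false

/-! Row 29u-C3: the crude bound by powers of the two-point function (compare `R3_HH`, `cyc_conv` in `Rec.lean`). -/

open Finset

namespace Pool.Agent.PERC29

variable {V : Type*} [Fintype V] [DecidableEq V] {E : Type*} [Fintype E] [DecidableEq E]
  {ends : E → Sym2 V}

private lemma C3_cv_nonneg {p : ℝ} (h0 : 0 ≤ p) (h1 : p ≤ 1) (n : ℕ) (x y : V) :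
    0 ≤ cv ends p n x y := by
  induction n generalizing y with
  | zero => unfold cv; split_ifs <;> norm_num
  | succ n ih =>
    unfold cv
    exact Finset.sum_nonneg fun z _ => mul_nonneg (ih z) (ta_nonneg h0 h1 z y)

private lemma C3_cv_add (p : ℝ) (m n : ℕ) (x y : V) :
    ∑ z, cv ends p m x z * cv ends p n z y = cv ends p (m + n) x y := by
  induction n generalizing y with
  | zero => simp [cv]
  | succ n ih =>
    change ∑ z, cv ends p m x z * ∑ w, cv ends p n z w * ta ends p w y =
      ∑ w, cv ends p (m + n) x w * ta ends p w y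
    simp_rw [Finset.mul_sum]
    rw [Finset.sum_comm]
    refine Finset.sum_congr rfl fun w _ => ?_
    rw [← ih w, Finset.sum_mul]
    exact Finset.sum_congr rfl fun z _ => by ring

private lemma C3_cv_two (p : ℝ) (x y : V) :
    cv ends p 2 x y = ∑ z, ta ends p x z * ta ends p z y := by
  have h : ∀ z, cv ends p 1 x z = ta ends p x z := by
    intro z
    change ∑ w, (if x = w then (1 : ℝ) else 0) * ta ends p w z = ta ends p x z
    simp
  change ∑ z, cv ends p 1 x z * ta ends p z y = _
  exact Finset.sum_congr rfl fun z _ => by rw [h z]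

private lemma C3_nb {κ : V → V → ℝ} {φ : ℕ → ℝ} {p t r : ℝ}
    (hκ : ∀ x y, 0 ≤ κ x y) (ht : 0 ≤ t)
    (hTK : ∀ x y, TK ends φ p x y ≤ t * cv ends p 2 x y)
    (hκr : ∀ x y, ∑ x', κ x x' * cv ends p 2 x' y ≤ r * cv ends p 2 x y) (y y' : V) :
    ∑ x', κ y x' * TK ends φ p x' y' ≤ (t * r) * cv ends p 2 y y' := by
  calc ∑ x', κ y x' * TK ends φ p x' y'
      ≤ ∑ x', κ y x' * (t * cv ends p 2 x' y') :=
        Finset.sum_le_sum fun x' _ => mul_le_mul_of_nonneg_left (hTK x' y') (hκ y x')
    _ = t * ∑ x', κ y x' * cv ends p 2 x' y' := by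
        rw [Finset.mul_sum]
        exact Finset.sum_congr rfl fun x' _ => by ring
    _ ≤ t * (r * cv ends p 2 y y') := mul_le_mul_of_nonneg_left (hκr y y') ht
    _ = (t * r) * cv ends p 2 y y' := by ring

private lemma C3_HH {κ : V → V → ℝ} {φ : ℕ → ℝ} {p t r : ℝ} (h0 : 0 ≤ p) (h1 : p ≤ 1)
    (hκ : ∀ x y, 0 ≤ κ x y) (ht : 0 ≤ t) (hr : 0 ≤ r)
    (hTK0 : ∀ x y, 0 ≤ TK ends φ p x y)
    (hTK : ∀ x y, TK ends φ p x y ≤ t * cv ends p 2 x y)
    (hκr : ∀ x y, ∑ x', κ x x' * cv ends p 2 x' y ≤ r * cv ends p 2 x y) (x0 : V) (n : ℕ) (y : V) :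
    HK ends κ φ p x0 n y ≤ (t * r) ^ n * ∑ y', cv ends p (2 * n) y y' * κ y' x0 := by
  have hβ : 0 ≤ t * r := mul_nonneg ht hr
  induction n generalizing y with
  | zero => simp [HK, cv]
  | succ n ih =>
    have hs0 : ∀ y, 0 ≤ (t * r) ^ n * ∑ y', cv ends p (2 * n) y y' * κ y' x0 := fun y =>
      mul_nonneg (pow_nonneg hβ n) (Finset.sum_nonneg fun y' _ =>
        mul_nonneg (C3_cv_nonneg h0 h1 _ _ _) (hκ _ _))
    calc HK ends κ φ p x0 (n + 1) y
        = ∑ x', κ y x' * ∑ y', TK ends φ p x' y' * HK ends κ φ p x0 n y' := rfl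
      _ = ∑ y', (∑ x', κ y x' * TK ends φ p x' y') * HK ends κ φ p x0 n y' := by
          simp_rw [Finset.mul_sum]
          rw [Finset.sum_comm]
          refine Finset.sum_congr rfl fun y' _ => ?_
          rw [Finset.sum_mul]
          exact Finset.sum_congr rfl fun x' _ => by ring
      _ ≤ ∑ y', ((t * r) * cv ends p 2 y y') *
            ((t * r) ^ n * ∑ y'', cv ends p (2 * n) y' y'' * κ y'' x0) := by
          refine Finset.sum_le_sum fun y' _ => ?_
          have k1 := C3_nb hκ ht hTK hκr y y'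
          have k2 : 0 ≤ ∑ x', κ y x' * TK ends φ p x' y' :=
            Finset.sum_nonneg fun x' _ => mul_nonneg (hκ _ _) (hTK0 x' y')
          exact (mul_le_mul_of_nonneg_left (ih y') k2).trans
            (mul_le_mul_of_nonneg_right k1 (hs0 y'))
      _ = (t * r) ^ (n + 1) * ∑ y'', cv ends p (2 * (n + 1)) y y'' * κ y'' x0 := by
          have k3 : 2 * (n + 1) = 2 + 2 * n := by ring
          have k4 : ∀ y'', cv ends p (2 * (n + 1)) y y'' * κ y'' x0 =
              ∑ y', cv ends p 2 y y' * (cv ends p (2 * n) y' y'' * κ y'' x0) := by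
            intro y''
            rw [k3, ← C3_cv_add, Finset.sum_mul]
            exact Finset.sum_congr rfl fun z _ => by ring
          rw [Finset.sum_congr rfl fun y'' _ => k4 y'', Finset.sum_comm, Finset.mul_sum]
          refine Finset.sum_congr rfl fun y' _ => ?_
          rw [← Finset.mul_sum]
          ring

/-- Row C3. -/
theorem HK_crude {κ : V → V → ℝ} {φ : ℕ → ℝ} {p t r : ℝ} (h0 : 0 ≤ p) (h1 : p ≤ 1)
    (hκ : ∀ x y, 0 ≤ κ x y) (ht : 0 ≤ t) (hr : 0 ≤ r)
    (hTK0 : ∀ x y, 0 ≤ TK ends φ p x y)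
    (hTK : ∀ x y, TK ends φ p x y ≤ t * cv ends p 2 x y)
    (hκr : ∀ x y, ∑ x', κ x x' * cv ends p 2 x' y ≤ r * cv ends p 2 x y) (n : ℕ) :
    ∑ x0, ∑ y, TK ends φ p x0 y * HK ends κ φ p x0 n y ≤
      (t * r) ^ (n + 1) * ∑ x, cv ends p (2 * (n + 1)) x x := by
  have hβ : 0 ≤ t * r := mul_nonneg ht hr
  calc ∑ x0, ∑ y, TK ends φ p x0 y * HK ends κ φ p x0 n y
      ≤ ∑ x0, ∑ y, TK ends φ p x0 y * ((t * r) ^ n *
          ∑ y', cv ends p (2 * n) y y' * κ y' x0) :=
        Finset.sum_le_sum fun x0 _ => Finset.sum_le_sum fun y _ =>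
          mul_le_mul_of_nonneg_left (C3_HH h0 h1 hκ ht hr hTK0 hTK hκr x0 n y) (hTK0 x0 y)
    _ = (t * r) ^ n * ∑ y, ∑ y', cv ends p (2 * n) y y' *
          ∑ x0, κ y' x0 * TK ends φ p x0 y := by
        rw [Finset.sum_comm, Finset.mul_sum]
        refine Finset.sum_congr rfl fun y _ => ?_
        simp_rw [Finset.mul_sum]
        rw [Finset.sum_comm]
        refine Finset.sum_congr rfl fun y' _ => Finset.sum_congr rfl fun x0 _ => ?_
        ring
    _ ≤ (t * r) ^ n * ∑ y, ∑ y', cv ends p (2 * n) y y' *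
          ((t * r) * cv ends p 2 y' y) := by
        refine mul_le_mul_of_nonneg_left ?_ (pow_nonneg hβ n)
        exact Finset.sum_le_sum fun y _ => Finset.sum_le_sum fun y' _ =>
          mul_le_mul_of_nonneg_left (C3_nb hκ ht hTK hκr y' y)
            (C3_cv_nonneg h0 h1 _ _ _)
    _ = (t * r) ^ (n + 1) * ∑ y, cv ends p (2 * (n + 1)) y y := by
        rw [pow_succ, mul_assoc, Finset.mul_sum (a := t * r)]
        congr 1
        refine Finset.sum_congr rfl fun y _ => ?_
        have k3 : 2 * (n + 1) = 2 * n + 2 := by ring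
        rw [k3, ← C3_cv_add, Finset.mul_sum]
        exact Finset.sum_congr rfl fun z _ => by ring

/-- Row C3. If `φ k ≤ k / a` then `TK φ ≤ Gf / a ≤ (χ / a) τ²` (`Gf_le`). -/
lemma TK_le {φ : ℕ → ℝ} {p χ a : ℝ} (h0 : 0 ≤ p) (h1 : p ≤ 1) (ha : 0 < a)
    (hχ : ∀ x, Ex p (fun ω => cz ends ω x) = χ) (hφ : ∀ k : ℕ, φ k ≤ k / a) (x y : V) :
    TK ends φ p x y ≤ χ / a * cv ends p 2 x y := by
  have e1 : TK ends φ p x y ≤ Gf ends p x y / a := by
    have e2 : Gf ends p x y / a = Ex p (fun ω => (1 / a) * (cz ends ω x *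
        (if y ∈ cu ends ω x then 1 else 0))) := by
      rw [Ex_mul_left]
      unfold Gf
      ring
    rw [e2]
    unfold TK
    refine Ex_mono h0 h1 fun ω => ?_
    have e3 := hφ (cu ends ω x).card
    have e4 : (1 / a) * (cz ends ω x * (if y ∈ cu ends ω x then (1 : ℝ) else 0)) =
        (((cu ends ω x).card : ℝ) / a) * (if y ∈ cu ends ω x then (1 : ℝ) else 0) := by
      unfold cz; ring
    rw [e4]
    refine mul_le_mul_of_nonneg_right e3 ?_
    split_ifs <;> norm_num
  refine e1.trans ?_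
  have e5 := Gf_le (ends := ends) h0 h1 hχ x y
  rw [← C3_cv_two] at e5
  have e6 : χ / a * cv ends p 2 x y = (χ * cv ends p 2 x y) / a := by ring
  rw [e6]
  exact div_le_div_of_nonneg_right e5 ha.le

/-- averaging over one coordinate -/
private lemma C3_av (p : ℝ) (e : E) (f : (E → Bool) → ℝ) :
    Ex p f = Ex p (fun ω => p * f (Function.update ω e true) +
      (1 - p) * f (Function.update ω e false)) := by
  have hu : ∀ b, ∀ ω ω' : E → Bool, (∀ e' ≠ e, ω e' = ω' e') →
      f (Function.update ω e b) = f (Function.update ω' e b) := by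
    intro b ω ω' h
    congr 1
    funext x
    by_cases hx : x = e
    · subst hx; simp
    · rw [Function.update_of_ne hx, Function.update_of_ne hx, h x hx]
  have h1 : ∀ ω : E → Bool, f ω =
      ((if ω e = true then 1 else 0) * f (Function.update ω e true) +
        (-1) * ((if ω e = true then 1 else 0) * f (Function.update ω e false))) +
        f (Function.update ω e false) := by
    intro ω
    by_cases h : ω e = true
    · have h2 : Function.update ω e true = ω := by rw [← h, Function.update_eq_self]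
      rw [if_pos h, h2]
      ring
    · have h' : ω e = false := by simpa using h
      have h2 : Function.update ω e false = ω := by rw [← h', Function.update_eq_self]
      rw [if_neg h, h2]
      ring
  rw [Ex_congr h1, Ex_add, Ex_add, Ex_mul_left, Ex_coord p e _ (hu true),
    Ex_coord p e _ (hu false), Ex_add, Ex_mul_left, Ex_mul_left]
  ring

private lemma C3_one {p : ℝ} (h0 : 0 ≤ p) (h1 : p ≤ 1) {x y : V} {e : E} (he : ends e = s(x, y)) (w : V) :
    p * ta ends p y w ≤ ta ends p x w := by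
  classical
  have e1 : ta ends p x w = Ex p (fun ω =>
      p * (if w ∈ cu ends (Function.update ω e true) x then (1 : ℝ) else 0) +
      (1 - p) * (if w ∈ cu ends (Function.update ω e false) x then (1 : ℝ) else 0)) :=
    C3_av p e (fun ω => if w ∈ cu ends ω x then (1 : ℝ) else 0)
  rw [e1]
  unfold ta
  rw [← Ex_mul_left]
  refine Ex_mono h0 h1 fun ω => ?_
  have k0 : (0 : ℝ) ≤ (1 - p) * (if w ∈ cu ends (Function.update ω e false) x then (1 : ℝ) else 0) := by
    refine mul_nonneg (by linarith) ?_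
    split_ifs <;> norm_num
  have k1 : (if w ∈ cu ends ω y then (1 : ℝ) else 0) ≤
      (if w ∈ cu ends (Function.update ω e true) x then (1 : ℝ) else 0) := by
    by_cases hw : w ∈ cu ends ω y
    · have hm : w ∈ cu ends (Function.update ω e true) y := by
        refine cu_mono (fun e' he' => ?_) hw
        by_cases hee : e' = e
        · subst hee; simp
        · rw [Function.update_of_ne hee]; exact he'
      have hxy : Rch ends (Function.update ω e true) Set.univ x y :=
        Relation.ReflTransGen.single ⟨trivial, trivial, e, by simp, he⟩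
      have hx : w ∈ cu ends (Function.update ω e true) x :=
        mem_cu.2 (hxy.trans (mem_cu.1 hm))
      rw [if_pos hw, if_pos hx]
    · rw [if_neg hw]
      split_ifs <;> norm_num
  have k2 := mul_le_mul_of_nonneg_left k1 h0
  linarith

/-- Row C3. Opening one edge: `p * τ(y, w) ≤ τ(x, w)` if an edge joins `x` and `y` (`Ex_split` for the coordinate of
this edge; the indicator of `w ∈ cu ω y` is increasing; if the edge is open then `cu ω x = cu ω y`). Then induction
along the path. -/
lemma ta_path {p : ℝ} (h0 : 0 ≤ p) (h1 : p ≤ 1) (π : ℕ → V) (r : ℕ)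
    (hπ : ∀ l < r, ∃ e, ends e = s(π l, π (l + 1))) (w : V) :
    p ^ r * ta ends p (π r) w ≤ ta ends p (π 0) w := by
  induction r with
  | zero => simp
  | succ r ih =>
    obtain ⟨e, he⟩ := hπ r (Nat.lt_succ_self r)
    have k1 := C3_one h0 h1 he w
    have k2 := ih fun l hl => hπ l (Nat.lt_succ_of_lt hl)
    have k3 := mul_le_mul_of_nonneg_left k1 (pow_nonneg h0 r)
    calc p ^ (r + 1) * ta ends p (π (r + 1)) w = p ^ r * (p * ta ends p (π (r + 1)) w) := by
          rw [pow_succ]; ring
      _ ≤ p ^ r * ta ends p (π r) w := k3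
      _ ≤ ta ends p (π 0) w := k2

end Pool.Agent.PERC29
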