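import Mathlib

set_option autoImplicit false
set_option linter.unusedSectionVars false

/-! Numbers for the contact theorem. -/

namespace Pool.Agent.PERC29

lemma log_le_sqrt' {x : ℝ} (hx : 1 ≤ x) : Real.log x ≤ 2 * Real.sqrt x := by
  have h0 : 0 < x := by linarith
  have h1 : 0 < Real.sqrt x := Real.sqrt_pos.2 h0
  have h2 : Real.log (Real.sqrt x) ≤ Real.sqrt x - 1 := Real.log_le_sub_one_of_pos h1
  have h3 : Real.log (Real.sqrt x) = Real.log x / 2 := Real.log_sqrt h0.le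
  rw [h3] at h2
  linarith

/-- The numbers of the union bound over the unions of clusters. -/
lemma contact_num {C1 C β η Q : ℝ} (L i : ℕ) (hL : 1 ≤ L) (hC1 : 1 ≤ C1) (hC : 1 ≤ C) (hβ : 0 < β)
    (hη : 0 < η) (hQ : 1 ≤ Q) :
    ∃ ρ ξ : ℝ, 0 < ρ ∧ 0 < ξ ∧ ξ ≤ 1 ∧ ∀ (χ : ℝ) (N : ℕ), 1 ≤ χ → χ ^ 3 ≤ ξ * N →
      1 ≤ ξ * Real.sqrt χ → (N : ℝ) ≤ C * χ ^ (2 ^ i + 2) →
      ∃ M' k : ℕ, 1 ≤ k ∧ k ≤ M' ∧ 2 * ((L : ℝ) * M') ≤ β ^ 2 / 4 * N / χ ^ 2 ∧
        ρ * N / χ ^ 2 ≤ k ∧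
        ((N : ℝ) + 1) ^ (2 * ⌊C1 * N / χ ^ 3⌋₊) * (Q * ((k : ℝ) / M')) ^ k ≤ η := by
  have hL1 : (1 : ℝ) ≤ L := by exact_mod_cast hL
  set K6 : ℝ := Real.log (2 * C) + 2 * (2 ^ i + 2) with hK6
  have hlogC : 0 ≤ Real.log (2 * C) := Real.log_nonneg (by linarith)
  have hK60 : 0 < K6 := by positivity
  set ρ0 : ℝ := β ^ 2 / (16 * L * 3 * Q) with hρ0
  have hρ00 : 0 < ρ0 := by positivity
  set ξ : ℝ := min (min 1 (β ^ 2 / (16 * L))) (min (ρ0 / 2) (min (ρ0 / (8 * C1 * K6))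
    (ρ0 / (4 * (|Real.log η| + 1))))) with hξ
  have hξ0 : 0 < ξ := by
    refine lt_min (lt_min one_pos (by positivity)) (lt_min (by positivity)
      (lt_min (by positivity) (by positivity)))
  have x1 : ξ ≤ 1 := (min_le_left _ _).trans (min_le_left _ _)
  have x2 : ξ ≤ β ^ 2 / (16 * L) := (min_le_left _ _).trans (min_le_right _ _)
  have x3 : ξ ≤ ρ0 / 2 := (min_le_right _ _).trans (min_le_left _ _)
  have x4 : ξ ≤ ρ0 / (8 * C1 * K6) :=
    (min_le_right _ _).trans ((min_le_right _ _).trans (min_le_left _ _))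
  have x5 : ξ ≤ ρ0 / (4 * (|Real.log η| + 1)) :=
    (min_le_right _ _).trans ((min_le_right _ _).trans (min_le_right _ _))
  refine ⟨ρ0 / 2, ξ, by positivity, hξ0, x1, ?_⟩
  intro χ N hχ hξN hξχ hNK
  have hχ0 : 0 < χ := by linarith
  have hN0 : (0 : ℝ) < N := by
    have h1 : 0 < ξ * N := lt_of_lt_of_le (by positivity) hξN
    exact (pos_iff_pos_of_mul_pos h1).1 hξ0
  have hN1 : (1 : ℝ) ≤ N := by
    have : 0 < N := by exact_mod_cast hN0
    exact_mod_cast this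
  set S : ℝ := N / χ ^ 2 with hS
  have hS1 : 1 / ξ ≤ S := by
    rw [hS, div_le_div_iff₀ hξ0 (by positivity)]
    have : χ ^ 2 ≤ χ ^ 3 := pow_le_pow_right₀ hχ (by norm_num)
    nlinarith
  have hS0 : 0 < S := by positivity
  have hSξ : 1 ≤ ξ * S := by
    rw [div_le_iff₀ hξ0] at hS1; linarith
  set M' : ℕ := ⌊β ^ 2 / (8 * L) * S⌋₊ with hM'
  set k : ℕ := ⌊ρ0 * S⌋₊ with hk
  have hMup : (M' : ℝ) ≤ β ^ 2 / (8 * L) * S := Nat.floor_le (by positivity)
  have hMlow : β ^ 2 / (8 * L) * S - 1 < M' := Nat.sub_one_lt_floor _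
  have hkup : (k : ℝ) ≤ ρ0 * S := Nat.floor_le (by positivity)
  have hklow : ρ0 * S - 1 < k := Nat.sub_one_lt_floor _
  have hM1 : β ^ 2 / (16 * L) * S ≤ M' := by
    have h1 : 1 ≤ β ^ 2 / (16 * L) * S := hSξ.trans (mul_le_mul_of_nonneg_right x2 hS0.le)
    have h2 : β ^ 2 / (8 * L) * S = 2 * (β ^ 2 / (16 * L) * S) := by
      field_simp; norm_num
    linarith
  have hk1 : ρ0 / 2 * S ≤ k := by
    have h1 : 1 ≤ ρ0 / 2 * S := hSξ.trans (mul_le_mul_of_nonneg_right x3 hS0.le)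
    linarith
  have hM'0 : (0 : ℝ) < M' := lt_of_lt_of_le (by positivity) hM1
  have hQ0 : 0 < Q := by linarith
  have hkM : Q * ((k : ℝ) / M') ≤ 1 / 3 := by
    rw [← mul_div_assoc, div_le_iff₀ hM'0]
    have h1 : Q * (k : ℝ) ≤ Q * (ρ0 * S) := mul_le_mul_of_nonneg_left hkup hQ0.le
    have h2 : Q * (ρ0 * S) = 1 / 3 * (β ^ 2 / (16 * L) * S) := by
      rw [hρ0]; field_simp
    linarith
  have hkM2 : (k : ℝ) ≤ M' := by
    have h1 : (k : ℝ) / M' ≤ 1 := by
      have : (k : ℝ) / M' ≤ Q * ((k : ℝ) / M') := le_mul_of_one_le_left (by positivity) hQ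
      linarith
    rw [div_le_one hM'0] at h1
    exact h1
  refine ⟨M', k, ?_, by exact_mod_cast hkM2, ?_, ?_, ?_⟩
  · have h1 : 1 ≤ ρ0 / 2 * S := hSξ.trans (mul_le_mul_of_nonneg_right x3 hS0.le)
    have : (1 : ℝ) ≤ k := h1.trans hk1
    exact_mod_cast this
  · have h1 : 2 * ((L : ℝ) * M') ≤ 2 * (L * (β ^ 2 / (8 * L) * S)) := by
      have := mul_le_mul_of_nonneg_left hMup (show (0 : ℝ) ≤ L by linarith)
      linarith
    have h2 : 2 * ((L : ℝ) * (β ^ 2 / (8 * L) * S)) = β ^ 2 / 4 * N / χ ^ 2 := by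
      rw [hS]; field_simp; norm_num
    linarith
  · have : ρ0 / 2 * N / χ ^ 2 = ρ0 / 2 * S := by rw [hS]; ring
    rw [this]; exact hk1
  · -- logarithms
    have hlogN : Real.log ((N : ℝ) + 1) ≤ K6 * Real.sqrt χ := by
      have h1 : (N : ℝ) + 1 ≤ 2 * C * χ ^ (2 ^ i + 2) := by
        have : (N : ℝ) + 1 ≤ 2 * N := by linarith
        nlinarith
      have h2 : Real.log ((N : ℝ) + 1) ≤ Real.log (2 * C * χ ^ (2 ^ i + 2)) :=
        Real.log_le_log (by positivity) h1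
      have h3 : Real.log (2 * C * χ ^ (2 ^ i + 2)) =
          Real.log (2 * C) + ((2 ^ i + 2 : ℕ) : ℝ) * Real.log χ := by
        rw [Real.log_mul (by positivity) (by positivity), Real.log_pow]
      have h4 := log_le_sqrt' hχ
      have h5 : 1 ≤ Real.sqrt χ := by
        rw [show (1 : ℝ) = Real.sqrt 1 by simp]
        exact Real.sqrt_le_sqrt hχ
      have h6 : ((2 ^ i + 2 : ℕ) : ℝ) * Real.log χ ≤ ((2 ^ i + 2 : ℕ) : ℝ) * (2 * Real.sqrt χ) :=
        mul_le_mul_of_nonneg_left h4 (Nat.cast_nonneg _)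
      have h7 : Real.log (2 * C) ≤ Real.log (2 * C) * Real.sqrt χ := le_mul_of_one_le_right hlogC h5
      rw [hK6, add_mul]
      push_cast at h6 h3
      linarith
    have hlogN0 : 0 ≤ Real.log ((N : ℝ) + 1) := Real.log_nonneg (by linarith)
    set n0 : ℕ := ⌊C1 * N / χ ^ 3⌋₊ with hn0
    have hn0up : (n0 : ℝ) ≤ C1 * N / χ ^ 3 := Nat.floor_le (by positivity)
    have hA : ((N : ℝ) + 1) ^ (2 * n0) = Real.exp (((2 * n0 : ℕ) : ℝ) * Real.log ((N : ℝ) + 1)) := by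
      rw [← Real.log_pow, Real.exp_log (by positivity)]
    have hB : (Q * ((k : ℝ) / M')) ^ k ≤ Real.exp (-(k : ℝ)) := by
      have h1 : Q * ((k : ℝ) / M') ≤ Real.exp (-1) := by
        refine hkM.trans ?_
        rw [Real.exp_neg]
        rw [one_div]
        exact inv_anti₀ (Real.exp_pos 1) (le_of_lt Real.exp_one_lt_three)
      calc (Q * ((k : ℝ) / M')) ^ k ≤ (Real.exp (-1)) ^ k :=
            pow_le_pow_left₀ (by positivity) h1 k
        _ = Real.exp (-(k : ℝ)) := by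
            rw [← Real.exp_nat_mul]; congr 1; ring
    rw [hA]
    refine (mul_le_mul_of_nonneg_left hB (Real.exp_pos _).le).trans ?_
    rw [← Real.exp_add]
    have hC : ((2 * n0 : ℕ) : ℝ) * Real.log ((N : ℝ) + 1) ≤ ρ0 / 4 * S := by
      have h1 : ((2 * n0 : ℕ) : ℝ) * Real.log ((N : ℝ) + 1) ≤
          (2 * (C1 * N / χ ^ 3)) * (K6 * Real.sqrt χ) := by
        push_cast
        exact mul_le_mul (by linarith) hlogN hlogN0 (by positivity)
      have h2 : Real.sqrt χ / χ ≤ ξ := by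
        rw [div_le_iff₀ hχ0]
        have h3 : χ = Real.sqrt χ * Real.sqrt χ := (Real.mul_self_sqrt hχ0.le).symm
        have h4 : 0 ≤ Real.sqrt χ := Real.sqrt_nonneg _
        calc Real.sqrt χ ≤ Real.sqrt χ * (ξ * Real.sqrt χ) := le_mul_of_one_le_right h4 hξχ
          _ = ξ * χ := by
            nth_rewrite 3 [h3]; ring
      have h3 : (2 * (C1 * N / χ ^ 3)) * (K6 * Real.sqrt χ) =
          2 * C1 * K6 * S * (Real.sqrt χ / χ) := by
        rw [hS]; field_simp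
      have h4 : 2 * C1 * K6 * S * (Real.sqrt χ / χ) ≤ 2 * C1 * K6 * S * ξ :=
        mul_le_mul_of_nonneg_left h2 (by positivity)
      have h5 : 2 * C1 * K6 * S * ξ ≤ 2 * C1 * K6 * S * (ρ0 / (8 * C1 * K6)) :=
        mul_le_mul_of_nonneg_left x4 (by positivity)
      have h6 : 2 * C1 * K6 * S * (ρ0 / (8 * C1 * K6)) = ρ0 / 4 * S := by
        field_simp; norm_num
      linarith
    have hD : ρ0 / 4 * S - k ≤ Real.log η := by
      have h1 : ρ0 / 4 * S - k ≤ -(ρ0 / 4 * S) := by linarith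
      have h2 : |Real.log η| ≤ ρ0 / 4 * S := by
        have h3 : ρ0 / (4 * (|Real.log η| + 1)) * S ≥ 1 := by
          have := mul_le_mul_of_nonneg_right x5 hS0.le
          linarith
        have h4 : 0 ≤ |Real.log η| := abs_nonneg _
        have h5 : ρ0 / (4 * (|Real.log η| + 1)) * S = ρ0 / 4 * S / (|Real.log η| + 1) := by
          field_simp
        rw [h5, ge_iff_le, le_div_iff₀ (by positivity)] at h3
        linarith
      have h3 : -|Real.log η| ≤ Real.log η := neg_abs_le _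
      linarith
    calc Real.exp (((2 * n0 : ℕ) : ℝ) * Real.log ((N : ℝ) + 1) + -(k : ℝ))
        ≤ Real.exp (Real.log η) := Real.exp_le_exp.2 (by linarith)
      _ = η := Real.exp_log hη

end Pool.Agent.PERC29
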