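import Pool.Agent.Lib.MP_29e17e_pr.U.Ne
import Pool.Agent.Lib.MP_29e17e_pr.U.Cn

set_option autoImplicit false
set_option linter.unusedSectionVars false

/-! The contact theorem. -/

open Finset

namespace Pool.Agent.PERC29

open scoped Classical in
/-- The contact theorem. -/
theorem contact_prob (i : ℕ) (hi : 1 ≤ i) {C β η : ℝ} (hC : 1 ≤ C) (hβ : 0 < β) (hη : 0 < η)
    (hη1 : η ≤ 1) :
    ∃ δ γ : ℝ, 0 < δ ∧ 0 < γ ∧ ∀ (K2 cc : ℝ) (r D : ℕ), 1 ≤ K2 → 0 < cc → cc ≤ 1 →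
      ∃ ρ ξ : ℝ, 0 < ρ ∧ 0 < ξ ∧ ξ ≤ 1 ∧
      ∀ (V E : Type) [Fintype V] [DecidableEq V] [AddCommGroup V] [Fintype E] [DecidableEq E]
        (ends : E → Sym2 V) (p χ : ℝ) (z : V) (w : ℕ → V), Hyp ends p χ C K2 δ γ i z →
        cc ≤ p → cc ≤ 1 - p → w 0 = 0 → w r = z →
        (∀ x, ∀ l < r, ∃ e, ends e = s(x + w l, x + w (l + 1))) →
        (∀ v, (Finset.univ.filter (fun e => v ∈ ends e)).card ≤ D) →
        χ ^ 3 ≤ ξ * (Fintype.card V) → 1 ≤ ξ * Real.sqrt χ →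
        ∃ k : ℕ, ρ * (Fintype.card V) / χ ^ 2 ≤ k ∧
          Ex p (fun ω => if Cont ends ω (2 * al C χ) (β * (Fintype.card V) / χ) k
            then (0 : ℝ) else 1) ≤ η := by
  obtain ⟨C1, δ, γ, hC1, hδ, hγ, hnear⟩ := near_prob i hi hC hβ (η := η / 2) (by linarith)
    (by linarith)
  refine ⟨δ, γ, hδ, hγ, ?_⟩
  intro K2 cc r D hK2 hcc hcc1
  obtain ⟨ξ1, hξ1, hξ1', hn⟩ := hnear K2 hK2
  have hL : 1 ≤ (r + 1) ^ 2 * (D + 1) := Nat.mul_pos (by positivity) (by positivity)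
  set L : ℕ := (r + 1) ^ 2 * (D + 1) with hLdef
  set Q : ℝ := (2 / cc) ^ (D * (r + 1)) * 2 ^ (2 * (r + 1) * (1 + D * (r + 1))) with hQdef
  have hQ : 1 ≤ Q := by
    have h1 : 1 ≤ 2 / cc := by rw [le_div_iff₀ hcc]; linarith
    have h2 : (1 : ℝ) ≤ (2 / cc) ^ (D * (r + 1)) := one_le_pow₀ h1
    have h3 : (1 : ℝ) ≤ 2 ^ (2 * (r + 1) * (1 + D * (r + 1))) := one_le_pow₀ (by norm_num)
    nlinarith
  obtain ⟨ρ, ξ2, hρ, hξ2, hξ2', hnum⟩ := contact_num (C1 := C1) (C := C) (β := β) (η := η / 2)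
    (Q := Q) L i hL hC1 hC hβ (by linarith) hQ
  refine ⟨ρ, min ξ1 ξ2, hρ, lt_min hξ1 hξ2, (min_le_left _ _).trans hξ1', ?_⟩
  intro V E _ _ _ _ _ ends p χ z w H hp hp' hw0 hwr hedge hdeg hξV hξχ
  have hN0 : (0 : ℝ) ≤ (Fintype.card V : ℝ) := Nat.cast_nonneg _
  have hχ0 : 0 < χ := by linarith [H.hχ1]
  have hs0 : 0 ≤ Real.sqrt χ := Real.sqrt_nonneg _
  have g1 : χ ^ 3 ≤ ξ1 * (Fintype.card V) :=
    hξV.trans (mul_le_mul_of_nonneg_right (min_le_left _ _) hN0)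
  have g2 : χ ^ 3 ≤ ξ2 * (Fintype.card V) :=
    hξV.trans (mul_le_mul_of_nonneg_right (min_le_right _ _) hN0)
  have g3 : 1 ≤ ξ1 * Real.sqrt χ := hξχ.trans (mul_le_mul_of_nonneg_right (min_le_left _ _) hs0)
  have g4 : 1 ≤ ξ2 * Real.sqrt χ := hξχ.trans (mul_le_mul_of_nonneg_right (min_le_right _ _) hs0)
  obtain ⟨M', k, hk1, hkM, hLM, hρk, hbnd⟩ := hnum χ (Fintype.card V) H.hχ1 g2 g4 H.hVK
  have hne := hn V E ends p χ z H g1 g3
  refine ⟨k, hρk, ?_⟩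
  set n0 : ℕ := ⌊C1 * (Fintype.card V) / χ ^ 3⌋₊ with hn0
  set π : V → ℕ → V := fun x l => x + w l with hπ
  set Bad : (E → Bool) → Prop := fun ω => ∃ a b : Finset V, a.card ≤ n0 ∧ b.card ≤ n0 ∧
    Disjoint (UC ends ω a) (UC ends ω b) ∧
    L * M' ≤ (Finset.univ.filter (fun x => π x 0 ∈ UC ends ω a ∧ π x r ∈ UC ends ω b)).card ∧
    eb ends (UC ends ω a) (UC ends ω b) ≤ k with hBad
  have hsurg := surgery_all (ends := ends) (p := p) (c := cc) hcc hcc1 hp hp' π r D L M' k n0 hL hk1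
    hkM hedge hdeg (fun x => conf_le (ends := ends) w r D hdeg x) (fun v => cov_le w r v)
  have hsurg2 : Ex p (fun ω => if Bad ω then (1 : ℝ) else 0) ≤ η / 2 := by
    refine le_trans (le_of_eq ?_) (hsurg.trans hbnd)
    rfl
  have hpt : ∀ ω, (if Cont ends ω (2 * al C χ) (β * (Fintype.card V) / χ) k then (0 : ℝ) else 1) ≤
      (if Near ends ω z C χ C1 β then (0 : ℝ) else 1) + (if Bad ω then (1 : ℝ) else 0) := by
    intro ω
    by_cases h1 : Near ends ω z C χ C1 β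
    · by_cases h2 : Bad ω
      · rw [if_pos h1, if_pos h2]
        split_ifs <;> norm_num
      · have ha0 : 0 < 2 * al C χ := by
          have hC0 : 0 < C := by linarith
          unfold al; positivity
        have hGC : (GC ends ω (2 * al C χ)).card ≤ n0 := by
          have hsub : GC ends ω (2 * al C χ) ⊆ GC ends ω (al C χ) := by
            intro A hA
            rw [mem_GC] at hA ⊢
            exact ⟨hA.1, by linarith [hA.2]⟩
          have h3 : ((GC ends ω (2 * al C χ)).card : ℝ) ≤ C1 * (Fintype.card V) / χ ^ 3 :=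
            le_trans (by exact_mod_cast Finset.card_le_card hsub) h1.1
          exact Nat.le_floor h3
        have hc := cont_of (ends := ends) ω (a := 2 * al C χ) (v := β * (Fintype.card V) / χ)
          (L := L) (M' := M') (k := k) (n0 := n0) z π r ha0 (fun x => by rw [hπ]; simp [hw0])
          (fun x => by rw [hπ]; simp [hwr])
          (fun 𝒜 ℬ hA hB hd hAt hBt => hLM.trans (h1.2 𝒜 ℬ hA hB hd hAt hBt)) hGC h2
        rw [if_pos hc, if_pos h1, if_neg h2]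
        norm_num
    · rw [if_neg h1]
      split_ifs <;> norm_num
  refine (Ex_mono H.h0.le H.h1.le hpt).trans ?_
  rw [Ex_add]
  linarith

end Pool.Agent.PERC29
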