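import Pool.Agent.Lib.MP_29e17e_pr.Spr
import Pool.Agent.Lib.MP_29e17e_pr.Wk

set_option autoImplicit false
set_option linter.unusedSectionVars false

/-! Rows 29u-C1, 29u-C2: the mean number of weighted cycles of clusters, for a general kernel `κ` on the vertices and
a general increasing weight `φ` of the cluster sizes. (`Rec.lean` is the special case `κ = nb ends`,
`φ k = k / a`; adapt its proofs.) -/

open Finset

namespace Pool.Agent.PERC29

variable {V : Type*} [Fintype V] [DecidableEq V] {E : Type*} [Fintype E] [DecidableEq E]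
  {ends : E → Sym2 V}

/-- The kernel `κ` between two sets of vertices. -/
noncomputable def NK (κ : V → V → ℝ) (A B : Finset V) : ℝ := ∑ x ∈ A, ∑ y ∈ B, κ x y

open scoped Classical in
/-- Weighted number of ways to go from `y` through `n` distinct clusters inside `S` and then to `x0`. -/
noncomputable def RK (ends : E → Sym2 V) (κ : V → V → ℝ) (φ : ℕ → ℝ) (ω : E → Bool) (x0 : V) :
    ℕ → Set V → V → ℝ
  | 0, _, y => κ y x0
  | n + 1, S, y => ∑ x', κ y x' * (if x' ∈ S then φ (cl ends ω S x').card *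
      ∑ y' ∈ cl ends ω S x', RK ends κ φ ω x0 n (S \ (cl ends ω S x' : Set V)) y' else 0)

/-- The weighted two-point function. -/
noncomputable def TK (ends : E → Sym2 V) (φ : ℕ → ℝ) (p : ℝ) (x y : V) : ℝ :=
  Ex p (fun ω => φ (cu ends ω x).card * (if y ∈ cu ends ω x then 1 else 0))

/-- The bound for the mean of `RK`. -/
noncomputable def HK (ends : E → Sym2 V) (κ : V → V → ℝ) (φ : ℕ → ℝ) (p : ℝ) (x0 : V) : ℕ → V → ℝ
  | 0, y => κ y x0
  | n + 1, y => ∑ x', κ y x' * ∑ y', TK ends φ p x' y' * HK ends κ φ p x0 n y'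

private lemma C1_nonneg {κ : V → V → ℝ} {φ : ℕ → ℝ} (hκ : ∀ x y, 0 ≤ κ x y) (hφ0 : ∀ k, 0 ≤ φ k)
    (ω : E → Bool) (x0 : V) (n : ℕ) (S : Set V) (y : V) :
    0 ≤ RK ends κ φ ω x0 n S y := by
  induction n generalizing S y with
  | zero => exact hκ y x0
  | succ n ih =>
    unfold RK
    refine Finset.sum_nonneg fun x' _ => mul_nonneg (hκ _ _) ?_
    split_ifs
    · exact mul_nonneg (hφ0 _) (Finset.sum_nonneg fun y' _ => ih _ _)
    · exact le_rfl

/-- It only depends on the edges inside `S`. -/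
private lemma C1_dep {ω ω' : E → Bool} (κ : V → V → ℝ) (φ : ℕ → ℝ) (x0 : V) (n : ℕ) (S : Set V) (y : V)
    (h : ∀ e a b, ends e = s(a, b) → a ∈ S → b ∈ S → ω e = ω' e) :
    RK ends κ φ ω x0 n S y = RK ends κ φ ω' x0 n S y := by
  induction n generalizing S y with
  | zero => rfl
  | succ n ih =>
    unfold RK
    refine Finset.sum_congr rfl fun x' _ => ?_
    have e1 : cl ends ω S x' = cl ends ω' S x' := cl_dep h
    rw [e1]
    by_cases hx : x' ∈ S
    · rw [if_pos hx, if_pos hx]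
      congr 2
      refine Finset.sum_congr rfl fun y' _ => ?_
      exact ih _ _ (fun e a b he ha hb => h e a b he ha.1 hb.1)
    · rw [if_neg hx, if_neg hx]

private lemma C1_TK_nonneg {φ : ℕ → ℝ} {p : ℝ} (h0 : 0 ≤ p) (h1 : p ≤ 1) (hφ0 : ∀ k, 0 ≤ φ k)
    (x y : V) : 0 ≤ TK ends φ p x y := by
  unfold TK
  exact Ex_nonneg h0 h1 fun ω => mul_nonneg (hφ0 _) (by split_ifs <;> norm_num)

/-- One step of the mean bound. -/
private lemma C1_step {κ : V → V → ℝ} {φ : ℕ → ℝ} {p : ℝ} (h0 : 0 ≤ p) (h1 : p ≤ 1)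
    (hκ : ∀ x y, 0 ≤ κ x y) (hφ0 : ∀ k, 0 ≤ φ k) (hφ : Monotone φ) (x0 : V) (n : ℕ)
    (g : V → ℝ) (hg : ∀ S y, Ex p (fun ω => RK ends κ φ ω x0 n S y) ≤ g y) (S : Set V) (x' : V) :
    Ex p (fun ω => φ (cl ends ω S x').card *
      ∑ y' ∈ cl ends ω S x', RK ends κ φ ω x0 n (S \ (cl ends ω S x' : Set V)) y') ≤
      ∑ y', TK ends φ p x' y' * g y' := by
  classical
  have hg0 : ∀ y, 0 ≤ g y := fun y =>
    (Ex_nonneg h0 h1 fun ω => C1_nonneg hκ hφ0 ω x0 n Set.univ y).trans (hg Set.univ y)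
  have hdec : ∀ ω : E → Bool, φ (cl ends ω S x').card *
      ∑ y' ∈ cl ends ω S x', RK ends κ φ ω x0 n (S \ (cl ends ω S x' : Set V)) y' =
      ∑ A : Finset V, ∑ y' ∈ A, ((if cl ends ω S x' = A then (1 : ℝ) else 0) *
        φ A.card) * RK ends κ φ ω x0 n (S \ (A : Set V)) y' := by
    intro ω
    rw [Finset.sum_eq_single (cl ends ω S x')]
    · rw [Finset.mul_sum]
      refine Finset.sum_congr rfl fun y' _ => ?_
      rw [if_pos rfl, one_mul]
    · intro A _ hA
      refine Finset.sum_eq_zero fun y' _ => ?_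
      rw [if_neg (Ne.symm hA), zero_mul, zero_mul]
    · intro hh
      exact absurd (Finset.mem_univ _) hh
  have hstep : ∀ (A : Finset V) (y' : V),
      Ex p (fun ω => ((if cl ends ω S x' = A then (1 : ℝ) else 0) *
        φ A.card) * RK ends κ φ ω x0 n (S \ (A : Set V)) y') ≤
      Ex p (fun ω => ((if cl ends ω S x' = A then (1 : ℝ) else 0) *
        φ A.card) * g y') := by
    intro A y'
    set D : Set E := {e | ∃ a b, ends e = s(a, b) ∧ a ∈ A} with hD
    rw [Ex_indep p D]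
    · have hI : 0 ≤ Ex p (fun ω : E → Bool => (if cl ends ω S x' = A then (1 : ℝ) else 0) *
          φ A.card) :=
        Ex_nonneg h0 h1 fun ω => mul_nonneg (by split_ifs <;> norm_num) (hφ0 _)
      refine (mul_le_mul_of_nonneg_left (hg _ y') hI).trans (le_of_eq ?_)
      rw [mul_comm, ← Ex_mul_left]
      exact Ex_congr fun ω => mul_comm _ _
    · intro ω ω' hh
      have key : ∀ ω ω' : E → Bool, (∀ e ∈ D, ω e = ω' e) → cl ends ω S x' = A →
          cl ends ω' S x' = A := by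
        intro ω ω' hh hA
        exact cl_eq_dep (fun e' a b h2 _ _ h5 => hh e' ⟨a, b, h2, h5⟩) hA
      by_cases hc : cl ends ω S x' = A
      · rw [if_pos hc, if_pos (key ω ω' hh hc)]
      · rw [if_neg hc, if_neg]
        intro hc'
        exact hc (key ω' ω (fun e he => (hh e he).symm) hc')
    · intro ω ω' hh
      apply C1_dep
      intro e' a b h2 h3 h4
      apply hh
      rintro ⟨a', b', h5, h8⟩
      rw [h2] at h5
      rcases Sym2.eq_iff.1 h5 with ⟨rfl, rfl⟩ | ⟨rfl, rfl⟩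
      · exact h3.2 h8
      · exact h4.2 h8
  have hdec2 : ∀ ω : E → Bool, ∑ A : Finset V, ∑ y' ∈ A,
      ((if cl ends ω S x' = A then (1 : ℝ) else 0) * φ A.card) * g y' =
      ∑ y' ∈ cl ends ω S x', φ (cl ends ω S x').card * g y' := by
    intro ω
    rw [Finset.sum_eq_single (cl ends ω S x')]
    · refine Finset.sum_congr rfl fun y' _ => ?_
      rw [if_pos rfl, one_mul]
    · intro A _ hA
      refine Finset.sum_eq_zero fun y' _ => ?_
      rw [if_neg (Ne.symm hA), zero_mul, zero_mul]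
    · intro hh
      exact absurd (Finset.mem_univ _) hh
  have hfin : ∀ ω : E → Bool, ∑ y' ∈ cl ends ω S x', φ (cl ends ω S x').card * g y' ≤
      ∑ y', g y' * (φ (cu ends ω x').card * (if y' ∈ cu ends ω x' then (1 : ℝ) else 0)) := by
    intro ω
    have hsub : cl ends ω S x' ⊆ cu ends ω x' := cl_mono (fun _ h => h) (Set.subset_univ _)
    have hcard : φ (cl ends ω S x').card ≤ φ (cu ends ω x').card :=
      hφ (Finset.card_le_card hsub)
    have e1 : ∑ y', g y' * (φ (cu ends ω x').card * (if y' ∈ cu ends ω x' then (1 : ℝ) else 0)) =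
        ∑ y' ∈ cu ends ω x', φ (cu ends ω x').card * g y' := by
      rw [← Finset.sum_subset (Finset.subset_univ (cu ends ω x'))]
      · refine Finset.sum_congr rfl fun y' hy' => ?_
        rw [if_pos hy']
        ring
      · intro y' _ hy'
        rw [if_neg hy']
        ring
    rw [e1]
    calc _ ≤ ∑ y' ∈ cl ends ω S x', φ (cu ends ω x').card * g y' :=
          Finset.sum_le_sum fun y' _ => mul_le_mul_of_nonneg_right hcard (hg0 y')
      _ ≤ _ := by
          refine Finset.sum_le_sum_of_subset_of_nonneg hsub fun y' _ _ => ?_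
          exact mul_nonneg (hφ0 _) (hg0 y')
  calc Ex p (fun ω => φ (cl ends ω S x').card *
      ∑ y' ∈ cl ends ω S x', RK ends κ φ ω x0 n (S \ (cl ends ω S x' : Set V)) y')
      = ∑ A : Finset V, ∑ y' ∈ A, Ex p (fun ω =>
          ((if cl ends ω S x' = A then (1 : ℝ) else 0) *
          φ A.card) * RK ends κ φ ω x0 n (S \ (A : Set V)) y') := by
        rw [Ex_congr hdec, Ex_sum]
        exact Finset.sum_congr rfl fun A _ => Ex_sum _ _ _
    _ ≤ ∑ A : Finset V, ∑ y' ∈ A, Ex p (fun ω =>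
          ((if cl ends ω S x' = A then (1 : ℝ) else 0) * φ A.card) * g y') :=
        Finset.sum_le_sum fun A _ => Finset.sum_le_sum fun y' _ => hstep A y'
    _ = Ex p (fun ω => ∑ A : Finset V, ∑ y' ∈ A,
          ((if cl ends ω S x' = A then (1 : ℝ) else 0) * φ A.card) * g y') := by
        rw [Ex_sum]
        exact Finset.sum_congr rfl fun A _ => (Ex_sum _ _ _).symm
    _ ≤ Ex p (fun ω => ∑ y', g y' *
          (φ (cu ends ω x').card * (if y' ∈ cu ends ω x' then (1 : ℝ) else 0))) := by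
        apply Ex_mono h0 h1
        intro ω
        rw [hdec2 ω]
        exact hfin ω
    _ = ∑ y', TK ends φ p x' y' * g y' := by
        rw [Ex_sum]
        refine Finset.sum_congr rfl fun y' _ => ?_
        rw [Ex_mul_left]
        have : Ex p (fun ω => φ (cu ends ω x').card *
            (if y' ∈ cu ends ω x' then (1 : ℝ) else 0)) = TK ends φ p x' y' := by
          unfold TK
          apply Ex_congr
          intro ω
          congr
        rw [this]
        ring

/-- Row C1 (compare `RR_mean`). -/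
lemma RK_mean {κ : V → V → ℝ} {φ : ℕ → ℝ} {p : ℝ} (h0 : 0 ≤ p) (h1 : p ≤ 1)
    (hκ : ∀ x y, 0 ≤ κ x y) (hφ0 : ∀ k, 0 ≤ φ k) (hφ : Monotone φ) (x0 : V) (n : ℕ) (S : Set V) (y : V) :
    Ex p (fun ω => RK ends κ φ ω x0 n S y) ≤ HK ends κ φ p x0 n y := by
  classical
  induction n generalizing S y with
  | zero =>
    unfold RK HK
    rw [Ex_const]
  | succ n ih =>
    have hH : ∀ y, 0 ≤ HK ends κ φ p x0 n y := fun y =>
      (Ex_nonneg h0 h1 fun ω => C1_nonneg hκ hφ0 ω x0 n Set.univ y).trans (ih Set.univ y)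
    unfold RK HK
    rw [Ex_sum]
    refine Finset.sum_le_sum fun x' _ => ?_
    rw [Ex_mul_left]
    apply mul_le_mul_of_nonneg_left _ (hκ _ _)
    by_cases hx : x' ∈ S
    · have e1 : ∀ ω : E → Bool, (if x' ∈ S then φ (cl ends ω S x').card *
          ∑ y' ∈ cl ends ω S x', RK ends κ φ ω x0 n (S \ (cl ends ω S x' : Set V)) y' else 0) =
          φ (cl ends ω S x').card *
          ∑ y' ∈ cl ends ω S x', RK ends κ φ ω x0 n (S \ (cl ends ω S x' : Set V)) y' := by
        intro ω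
        rw [if_pos hx]
      rw [Ex_congr e1]
      exact C1_step h0 h1 hκ hφ0 hφ x0 n _ ih S x'
    · have e1 : ∀ ω : E → Bool, (if x' ∈ S then φ (cl ends ω S x').card *
          ∑ y' ∈ cl ends ω S x', RK ends κ φ ω x0 n (S \ (cl ends ω S x' : Set V)) y' else 0) =
          0 := by
        intro ω
        rw [if_neg hx]
      rw [Ex_zero_of e1]
      exact Finset.sum_nonneg fun y' _ =>
        mul_nonneg (C1_TK_nonneg h0 h1 hφ0 x' y') (hH y')

private lemma C2_nonneg {κ : V → V → ℝ} {φ : ℕ → ℝ} (hκ : ∀ x y, 0 ≤ κ x y) (hφ0 : ∀ k, 0 ≤ φ k)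
    (ω : E → Bool) (x0 : V) (n : ℕ) (S : Set V) (y : V) :
    0 ≤ RK ends κ φ ω x0 n S y := by
  induction n generalizing S y with
  | zero => exact hκ y x0
  | succ n ih =>
    unfold RK
    refine Finset.sum_nonneg fun x' _ => mul_nonneg (hκ _ _) ?_
    split_ifs
    · exact mul_nonneg (hφ0 _) (Finset.sum_nonneg fun y' _ => ih _ _)
    · exact le_rfl

/-- It only depends on the edges inside `S`. -/
private lemma C2_dep {ω ω' : E → Bool} (κ : V → V → ℝ) (φ : ℕ → ℝ) (x0 : V) (n : ℕ) (S : Set V) (y : V)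
    (h : ∀ e a b, ends e = s(a, b) → a ∈ S → b ∈ S → ω e = ω' e) :
    RK ends κ φ ω x0 n S y = RK ends κ φ ω' x0 n S y := by
  induction n generalizing S y with
  | zero => rfl
  | succ n ih =>
    unfold RK
    refine Finset.sum_congr rfl fun x' _ => ?_
    have e1 : cl ends ω S x' = cl ends ω' S x' := cl_dep h
    rw [e1]
    by_cases hx : x' ∈ S
    · rw [if_pos hx, if_pos hx]
      congr 2
      refine Finset.sum_congr rfl fun y' _ => ?_
      exact ih _ _ (fun e a b he ha hb => h e a b he ha.1 hb.1)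
    · rw [if_neg hx, if_neg hx]

private lemma C2_TK_nonneg {φ : ℕ → ℝ} {p : ℝ} (h0 : 0 ≤ p) (h1 : p ≤ 1) (hφ0 : ∀ k, 0 ≤ φ k)
    (x y : V) : 0 ≤ TK ends φ p x y := by
  unfold TK
  exact Ex_nonneg h0 h1 fun ω => mul_nonneg (hφ0 _) (by split_ifs <;> norm_num)

/-- One step of the mean bound. -/
private lemma C2_step {κ : V → V → ℝ} {φ : ℕ → ℝ} {p : ℝ} (h0 : 0 ≤ p) (h1 : p ≤ 1)
    (hκ : ∀ x y, 0 ≤ κ x y) (hφ0 : ∀ k, 0 ≤ φ k) (hφ : Monotone φ) (x0 : V) (n : ℕ)
    (g : V → ℝ) (hg : ∀ S y, Ex p (fun ω => RK ends κ φ ω x0 n S y) ≤ g y) (S : Set V) (x' : V) :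
    Ex p (fun ω => φ (cl ends ω S x').card *
      ∑ y' ∈ cl ends ω S x', RK ends κ φ ω x0 n (S \ (cl ends ω S x' : Set V)) y') ≤
      ∑ y', TK ends φ p x' y' * g y' := by
  classical
  have hg0 : ∀ y, 0 ≤ g y := fun y =>
    (Ex_nonneg h0 h1 fun ω => C2_nonneg hκ hφ0 ω x0 n Set.univ y).trans (hg Set.univ y)
  have hdec : ∀ ω : E → Bool, φ (cl ends ω S x').card *
      ∑ y' ∈ cl ends ω S x', RK ends κ φ ω x0 n (S \ (cl ends ω S x' : Set V)) y' =
      ∑ A : Finset V, ∑ y' ∈ A, ((if cl ends ω S x' = A then (1 : ℝ) else 0) *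
        φ A.card) * RK ends κ φ ω x0 n (S \ (A : Set V)) y' := by
    intro ω
    rw [Finset.sum_eq_single (cl ends ω S x')]
    · rw [Finset.mul_sum]
      refine Finset.sum_congr rfl fun y' _ => ?_
      rw [if_pos rfl, one_mul]
    · intro A _ hA
      refine Finset.sum_eq_zero fun y' _ => ?_
      rw [if_neg (Ne.symm hA), zero_mul, zero_mul]
    · intro hh
      exact absurd (Finset.mem_univ _) hh
  have hstep : ∀ (A : Finset V) (y' : V),
      Ex p (fun ω => ((if cl ends ω S x' = A then (1 : ℝ) else 0) *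
        φ A.card) * RK ends κ φ ω x0 n (S \ (A : Set V)) y') ≤
      Ex p (fun ω => ((if cl ends ω S x' = A then (1 : ℝ) else 0) *
        φ A.card) * g y') := by
    intro A y'
    set D : Set E := {e | ∃ a b, ends e = s(a, b) ∧ a ∈ A} with hD
    rw [Ex_indep p D]
    · have hI : 0 ≤ Ex p (fun ω : E → Bool => (if cl ends ω S x' = A then (1 : ℝ) else 0) *
          φ A.card) :=
        Ex_nonneg h0 h1 fun ω => mul_nonneg (by split_ifs <;> norm_num) (hφ0 _)
      refine (mul_le_mul_of_nonneg_left (hg _ y') hI).trans (le_of_eq ?_)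
      rw [mul_comm, ← Ex_mul_left]
      exact Ex_congr fun ω => mul_comm _ _
    · intro ω ω' hh
      have key : ∀ ω ω' : E → Bool, (∀ e ∈ D, ω e = ω' e) → cl ends ω S x' = A →
          cl ends ω' S x' = A := by
        intro ω ω' hh hA
        exact cl_eq_dep (fun e' a b h2 _ _ h5 => hh e' ⟨a, b, h2, h5⟩) hA
      by_cases hc : cl ends ω S x' = A
      · rw [if_pos hc, if_pos (key ω ω' hh hc)]
      · rw [if_neg hc, if_neg]
        intro hc'
        exact hc (key ω' ω (fun e he => (hh e he).symm) hc')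
    · intro ω ω' hh
      apply C2_dep
      intro e' a b h2 h3 h4
      apply hh
      rintro ⟨a', b', h5, h8⟩
      rw [h2] at h5
      rcases Sym2.eq_iff.1 h5 with ⟨rfl, rfl⟩ | ⟨rfl, rfl⟩
      · exact h3.2 h8
      · exact h4.2 h8
  have hdec2 : ∀ ω : E → Bool, ∑ A : Finset V, ∑ y' ∈ A,
      ((if cl ends ω S x' = A then (1 : ℝ) else 0) * φ A.card) * g y' =
      ∑ y' ∈ cl ends ω S x', φ (cl ends ω S x').card * g y' := by
    intro ω
    rw [Finset.sum_eq_single (cl ends ω S x')]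
    · refine Finset.sum_congr rfl fun y' _ => ?_
      rw [if_pos rfl, one_mul]
    · intro A _ hA
      refine Finset.sum_eq_zero fun y' _ => ?_
      rw [if_neg (Ne.symm hA), zero_mul, zero_mul]
    · intro hh
      exact absurd (Finset.mem_univ _) hh
  have hfin : ∀ ω : E → Bool, ∑ y' ∈ cl ends ω S x', φ (cl ends ω S x').card * g y' ≤
      ∑ y', g y' * (φ (cu ends ω x').card * (if y' ∈ cu ends ω x' then (1 : ℝ) else 0)) := by
    intro ω
    have hsub : cl ends ω S x' ⊆ cu ends ω x' := cl_mono (fun _ h => h) (Set.subset_univ _)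
    have hcard : φ (cl ends ω S x').card ≤ φ (cu ends ω x').card :=
      hφ (Finset.card_le_card hsub)
    have e1 : ∑ y', g y' * (φ (cu ends ω x').card * (if y' ∈ cu ends ω x' then (1 : ℝ) else 0)) =
        ∑ y' ∈ cu ends ω x', φ (cu ends ω x').card * g y' := by
      rw [← Finset.sum_subset (Finset.subset_univ (cu ends ω x'))]
      · refine Finset.sum_congr rfl fun y' hy' => ?_
        rw [if_pos hy']
        ring
      · intro y' _ hy'
        rw [if_neg hy']
        ring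
    rw [e1]
    calc _ ≤ ∑ y' ∈ cl ends ω S x', φ (cu ends ω x').card * g y' :=
          Finset.sum_le_sum fun y' _ => mul_le_mul_of_nonneg_right hcard (hg0 y')
      _ ≤ _ := by
          refine Finset.sum_le_sum_of_subset_of_nonneg hsub fun y' _ _ => ?_
          exact mul_nonneg (hφ0 _) (hg0 y')
  calc Ex p (fun ω => φ (cl ends ω S x').card *
      ∑ y' ∈ cl ends ω S x', RK ends κ φ ω x0 n (S \ (cl ends ω S x' : Set V)) y')
      = ∑ A : Finset V, ∑ y' ∈ A, Ex p (fun ω =>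
          ((if cl ends ω S x' = A then (1 : ℝ) else 0) *
          φ A.card) * RK ends κ φ ω x0 n (S \ (A : Set V)) y') := by
        rw [Ex_congr hdec, Ex_sum]
        exact Finset.sum_congr rfl fun A _ => Ex_sum _ _ _
    _ ≤ ∑ A : Finset V, ∑ y' ∈ A, Ex p (fun ω =>
          ((if cl ends ω S x' = A then (1 : ℝ) else 0) * φ A.card) * g y') :=
        Finset.sum_le_sum fun A _ => Finset.sum_le_sum fun y' _ => hstep A y'
    _ = Ex p (fun ω => ∑ A : Finset V, ∑ y' ∈ A,
          ((if cl ends ω S x' = A then (1 : ℝ) else 0) * φ A.card) * g y') := by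
        rw [Ex_sum]
        exact Finset.sum_congr rfl fun A _ => (Ex_sum _ _ _).symm
    _ ≤ Ex p (fun ω => ∑ y', g y' *
          (φ (cu ends ω x').card * (if y' ∈ cu ends ω x' then (1 : ℝ) else 0))) := by
        apply Ex_mono h0 h1
        intro ω
        rw [hdec2 ω]
        exact hfin ω
    _ = ∑ y', TK ends φ p x' y' * g y' := by
        rw [Ex_sum]
        refine Finset.sum_congr rfl fun y' _ => ?_
        rw [Ex_mul_left]
        have : Ex p (fun ω => φ (cu ends ω x').card *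
            (if y' ∈ cu ends ω x' then (1 : ℝ) else 0)) = TK ends φ p x' y' := by
          unfold TK
          apply Ex_congr
          intro ω
          congr
        rw [this]
        ring


/-- The number of ways to go from `y` through `n` distinct members of `T` and then to `x0`. -/
private noncomputable def C2_pv (κ : V → V → ℝ) (φ : ℕ → ℝ) : ℕ → Finset (Finset V) → V → V → ℝ
  | 0, _, y, x0 => κ y x0
  | n + 1, T, y, x0 => ∑ D ∈ T, (∑ x' ∈ D, κ y x') * (φ D.card *
      ∑ y' ∈ D, C2_pv κ φ n (T.erase D) y' x0)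

private lemma C2_pth (κ : V → V → ℝ) (φ : ℕ → ℝ) (n : ℕ) : ∀ (T : Finset (Finset V)) (A B : Finset V),
    pth (fun A B => NK κ A B * φ B.card) n T A B =
      φ B.card * ∑ y ∈ A, ∑ x0 ∈ B, C2_pv κ φ n T y x0 := by
  induction n with
  | zero =>
    intro T A B
    have h1 : pth (fun A B : Finset V => NK κ A B * φ B.card) 0 T A B = NK κ A B * φ B.card := rfl
    rw [h1, mul_comm]
    rfl
  | succ n ih =>
    intro T A B
    have h1 : pth (fun A B : Finset V => NK κ A B * φ B.card) (n + 1) T A B =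
        ∑ D ∈ T, (NK κ A D * φ D.card) *
          pth (fun A B : Finset V => NK κ A B * φ B.card) n (T.erase D) D B := rfl
    have h2 : ∀ y x0, C2_pv κ φ (n + 1) T y x0 = ∑ D ∈ T, (∑ x' ∈ D, κ y x') * (φ D.card *
      ∑ y' ∈ D, C2_pv κ φ n (T.erase D) y' x0) := fun y x0 => rfl
    rw [h1]
    have h3 : ∀ y, ∑ x0 ∈ B, C2_pv κ φ (n + 1) T y x0 = ∑ D ∈ T, ∑ x0 ∈ B,
        (∑ x' ∈ D, κ y x') * (φ D.card * ∑ y' ∈ D, C2_pv κ φ n (T.erase D) y' x0) := by
      intro y
      rw [Finset.sum_congr rfl fun x0 _ => h2 y x0, Finset.sum_comm]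
    rw [Finset.sum_congr rfl fun y _ => h3 y, Finset.sum_comm, Finset.mul_sum]
    refine Finset.sum_congr rfl fun D _ => ?_
    rw [ih, Finset.sum_comm (s := D) (t := B), NK]
    have h4 : ∀ y x0, (∑ x' ∈ D, κ y x') * (φ D.card * ∑ y' ∈ D, C2_pv κ φ n (T.erase D) y' x0) =
        φ D.card * ((∑ x' ∈ D, κ y x') * ∑ y' ∈ D, C2_pv κ φ n (T.erase D) y' x0) := fun y x0 => by
      ring
    rw [Finset.sum_congr rfl fun y _ => Finset.sum_congr rfl fun x0 _ => h4 y x0]
    simp_rw [← Finset.mul_sum]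
    rw [← Finset.sum_mul]
    ring

private lemma C2_cl {ω : E → Bool} {S : Set V} (hS : ∀ u ∈ S, ∀ v, Rch ends ω Set.univ u v → v ∈ S)
    {x : V} (hx : x ∈ S) : cl ends ω S x = cu ends ω x := by
  ext z
  rw [mem_cl, mem_cu]
  refine (inside (B := Sᶜ) (fun w => ?_) hx).symm
  constructor
  · rintro hw ⟨b, hb, hbw⟩
    exact hb (hS w hw b hbw.symm)
  · intro h
    by_contra hw
    exact h ⟨w, hw, Rch.refl w⟩

private lemma C2_GC {ω : E → Bool} {a : ℝ} {D : Finset V} (hD : D ∈ GC ends ω a) {x : V}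
    (hx : x ∈ D) : cu ends ω x = D := by
  obtain ⟨⟨z, rfl⟩, -⟩ := mem_GC.1 hD
  exact cu_eq hx

private lemma C2_le {κ : V → V → ℝ} {φ : ℕ → ℝ} (hκ : ∀ x y, 0 ≤ κ x y) (hφ0 : ∀ k, 0 ≤ φ k)
    (ω : E → Bool) {a : ℝ} (x0 : V) (n : ℕ) :
    ∀ (T : Finset (Finset V)) (S : Set V) (y : V), T ⊆ GC ends ω a → (∀ A ∈ T, ∀ v ∈ A, v ∈ S) →
      (∀ u ∈ S, ∀ v, Rch ends ω Set.univ u v → v ∈ S) →
      C2_pv κ φ n T y x0 ≤ RK ends κ φ ω x0 n S y := by
  classical
  induction n with
  | zero => intro T S y _ _ _; exact le_rfl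
  | succ n ih =>
    intro T S y hT hTS hS
    have h1 : C2_pv κ φ (n + 1) T y x0 = ∑ D ∈ T, ∑ x' ∈ D, κ y x' *
        (φ D.card * ∑ y' ∈ D, C2_pv κ φ n (T.erase D) y' x0) := by
      have : C2_pv κ φ (n + 1) T y x0 = ∑ D ∈ T, (∑ x' ∈ D, κ y x') * (φ D.card *
        ∑ y' ∈ D, C2_pv κ φ n (T.erase D) y' x0) := rfl
      rw [this]
      exact Finset.sum_congr rfl fun D _ => Finset.sum_mul _ _ _
    set g : V → ℝ := fun x' => κ y x' * (if x' ∈ S then φ (cl ends ω S x').card *
      ∑ y' ∈ cl ends ω S x', RK ends κ φ ω x0 n (S \ (cl ends ω S x' : Set V)) y' else 0) with hg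
    have hg0 : ∀ x', 0 ≤ g x' := by
      intro x'
      rw [hg]
      refine mul_nonneg (hκ _ _) ?_
      split_ifs
      · exact mul_nonneg (hφ0 _)
          (Finset.sum_nonneg fun y' _ => C2_nonneg hκ hφ0 ω x0 n _ y')
      · exact le_rfl
    have h2 : RK ends κ φ ω x0 (n + 1) S y = ∑ x', g x' := rfl
    have hterm : ∀ D ∈ T, ∀ x' ∈ D, κ y x' *
        (φ D.card * ∑ y' ∈ D, C2_pv κ φ n (T.erase D) y' x0) ≤ g x' := by
      intro D hD x' hx'
      have hDG := hT hD
      have hxS : x' ∈ S := hTS D hD x' hx'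
      have hcl : cl ends ω S x' = D := by
        rw [C2_cl hS hxS, C2_GC hDG hx']
      have hle : ∑ y' ∈ D, C2_pv κ φ n (T.erase D) y' x0 ≤
          ∑ y' ∈ D, RK ends κ φ ω x0 n (S \ (D : Set V)) y' := by
        refine Finset.sum_le_sum fun y' _ => ih (T.erase D) (S \ (D : Set V)) y' ?_ ?_ ?_
        · exact (Finset.erase_subset _ _).trans hT
        · intro A hA v hv
          have hA' := Finset.mem_erase.1 hA
          refine ⟨hTS A hA'.2 v hv, fun hvD => ?_⟩
          exact (Finset.disjoint_left.1 (GC_disj (hT hA'.2) hDG hA'.1)) hv hvD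
        · rintro u ⟨hu, huD⟩ v huv
          refine ⟨hS u hu v huv, fun hvD => huD ?_⟩
          have h3 : cu ends ω v = D := C2_GC hDG hvD
          have h4 : u ∈ cu ends ω v := mem_cu.2 huv.symm
          rw [h3] at h4
          exact h4
      rw [hg]
      simp only
      rw [if_pos hxS, hcl]
      exact mul_le_mul_of_nonneg_left (mul_le_mul_of_nonneg_left hle (hφ0 _)) (hκ _ _)
    have hdisj : Set.PairwiseDisjoint (T : Set (Finset V)) id := by
      intro A hA B hB hAB
      exact GC_disj (hT hA) (hT hB) hAB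
    rw [h1, h2]
    calc ∑ D ∈ T, ∑ x' ∈ D, κ y x' * (φ D.card * ∑ y' ∈ D, C2_pv κ φ n (T.erase D) y' x0)
        ≤ ∑ D ∈ T, ∑ x' ∈ id D, g x' :=
          Finset.sum_le_sum fun D hD => Finset.sum_le_sum fun x' hx' => hterm D hD x' hx'
      _ = ∑ x' ∈ T.biUnion id, g x' := (Finset.sum_biUnion hdisj).symm
      _ ≤ ∑ x', g x' := Finset.sum_le_sum_of_subset_of_nonneg (Finset.subset_univ _)
          fun x' _ _ => hg0 x'

open scoped Classical in
/-- Cycles of large clusters, pointwise. -/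
private lemma C2_cyc {κ : V → V → ℝ} {φ : ℕ → ℝ} (hκ : ∀ x y, 0 ≤ κ x y) (hφ0 : ∀ k, 0 ≤ φ k)
    (ω : E → Bool) (a : ℝ) (n : ℕ) :
    ∑ A ∈ GC ends ω a, pth (fun A B => NK κ A B * φ B.card) n ((GC ends ω a).erase A) A A ≤
      ∑ x0, φ (cl ends ω Set.univ x0).card * ∑ y ∈ cl ends ω Set.univ x0,
        RK ends κ φ ω x0 n (Set.univ \ (cl ends ω Set.univ x0 : Set V)) y := by
  set g : V → ℝ := fun x0 => φ (cl ends ω Set.univ x0).card *
    ∑ y ∈ cl ends ω Set.univ x0,
      RK ends κ φ ω x0 n (Set.univ \ (cl ends ω Set.univ x0 : Set V)) y with hg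
  have hg0 : ∀ x', 0 ≤ g x' := by
    intro x'
    rw [hg]
    exact mul_nonneg (hφ0 _)
      (Finset.sum_nonneg fun y' _ => C2_nonneg hκ hφ0 ω x' n _ y')
  have hterm : ∀ A ∈ GC ends ω a, ∀ x0 ∈ A,
      φ A.card * ∑ y ∈ A, C2_pv κ φ n ((GC ends ω a).erase A) y x0 ≤ g x0 := by
    intro A hA x0 hx0
    have hcl : cl ends ω Set.univ x0 = A := C2_GC hA hx0
    have hle : ∑ y ∈ A, C2_pv κ φ n ((GC ends ω a).erase A) y x0 ≤
        ∑ y ∈ A, RK ends κ φ ω x0 n (Set.univ \ (A : Set V)) y := by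
      refine Finset.sum_le_sum fun y _ => C2_le hκ hφ0 ω x0 n _ _ y (Finset.erase_subset _ _) ?_ ?_
      · intro B hB v hv
        have hB' := Finset.mem_erase.1 hB
        refine ⟨Set.mem_univ _, fun hvA => ?_⟩
        exact (Finset.disjoint_left.1 (GC_disj hB'.2 hA hB'.1)) hv hvA
      · rintro u ⟨-, huA⟩ v huv
        refine ⟨Set.mem_univ _, fun hvA => huA ?_⟩
        have h3 : cu ends ω v = A := C2_GC hA hvA
        have h4 : u ∈ cu ends ω v := mem_cu.2 huv.symm
        rw [h3] at h4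
        exact h4
    rw [hg]
    simp only
    rw [hcl]
    exact mul_le_mul_of_nonneg_left hle (hφ0 _)
  have hdisj : Set.PairwiseDisjoint (GC ends ω a : Set (Finset V)) id := by
    intro A hA B hB hAB
    exact GC_disj hA hB hAB
  calc ∑ A ∈ GC ends ω a, pth (fun A B => NK κ A B * φ B.card) n ((GC ends ω a).erase A) A A
      = ∑ A ∈ GC ends ω a, ∑ x0 ∈ A,
          φ A.card * ∑ y ∈ A, C2_pv κ φ n ((GC ends ω a).erase A) y x0 := by
        refine Finset.sum_congr rfl fun A _ => ?_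
        rw [C2_pth, Finset.sum_comm, Finset.mul_sum]
    _ ≤ ∑ A ∈ GC ends ω a, ∑ x0 ∈ id A, g x0 :=
        Finset.sum_le_sum fun A hA => Finset.sum_le_sum fun x0 hx0 => hterm A hA x0 hx0
    _ = ∑ x0 ∈ (GC ends ω a).biUnion id, g x0 := (Finset.sum_biUnion hdisj).symm
    _ ≤ ∑ x0, g x0 := Finset.sum_le_sum_of_subset_of_nonneg (Finset.subset_univ _)
        fun x0 _ _ => hg0 x0

open scoped Classical in
/-- Row C2 (compare `cyc_le`, `cyc_mean`). The mean number of weighted cycles of clusters of size at least `a`. -/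
theorem cycK_mean {κ : V → V → ℝ} {φ : ℕ → ℝ} {p : ℝ} (h0 : 0 ≤ p) (h1 : p ≤ 1)
    (hκ : ∀ x y, 0 ≤ κ x y) (hφ0 : ∀ k, 0 ≤ φ k) (hφ : Monotone φ) (a : ℝ) (n : ℕ) :
    Ex p (fun ω => ∑ A ∈ GC ends ω a, pth (fun A B => NK κ A B * φ B.card) n
      ((GC ends ω a).erase A) A A) ≤
      ∑ x0, ∑ y, TK ends φ p x0 y * HK ends κ φ p x0 n y := by
  refine (Ex_mono h0 h1 (fun ω => C2_cyc (ends := ends) hκ hφ0 ω a n)).trans ?_
  rw [Ex_sum]
  refine Finset.sum_le_sum fun x0 _ => ?_
  exact C2_step h0 h1 hκ hφ0 hφ x0 n (HK ends κ φ p x0 n)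
    (fun S y => RK_mean h0 h1 hκ hφ0 hφ x0 n S y) Set.univ x0

end Pool.Agent.PERC29
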