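import Pool.Agent.Lib.MP_29e17e_pr.U.Em
import Pool.Agent.Lib.MP_29e17e_pr.Cutb

set_option autoImplicit false
set_option linter.unusedSectionVars false

/-! Rows 29u-D1, 29u-D2: the rank-one bound for kernels, from the number of closed walks. -/

open Finset Matrix

namespace Pool.Agent.PERC29

variable {ι : Type*} [DecidableEq ι]

/-- Row D1. The matrix of the kernel on the finite set `s`. -/
noncomputable def mat (M : ι → ι → ℝ) (s : Finset ι) : Matrix s s ℝ := fun A B => M A B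

/-- Row D1. Proof: induction on `n` (`UU` is defined by the same recursion). -/
lemma mat_pow (M : ι → ι → ℝ) (s : Finset ι) (n : ℕ) (A B : s) :
    (mat M s ^ n) A B = UU M s n A B := by
  induction n generalizing B with
  | zero =>
    rw [pow_zero, Matrix.one_apply]
    change (if A = B then (1 : ℝ) else 0) = if (A : ι) = (B : ι) then 1 else 0
    by_cases h : A = B
    · rw [if_pos h, if_pos (congrArg Subtype.val h)]
    · rw [if_neg h, if_neg fun h' => h (Subtype.ext h')]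
  | succ n ih =>
    rw [pow_succ, Matrix.mul_apply]
    change _ = ∑ D ∈ s, UU M s n A D * M D B
    rw [← Finset.sum_coe_sort s fun D => UU M s n A D * M D B]
    exact Finset.sum_congr rfl fun D _ => by rw [ih]; rfl

/-- Row D1. Proof: `(M^n) A B = (M^n) B A`, so the sum is the trace of `M^(2n)`. -/
lemma trace_sq (M : ι → ι → ℝ) (hsym : ∀ A B, M A B = M B A) (s : Finset ι) (n : ℕ) :
    ∑ A ∈ s, ∑ B ∈ s, UU M s n A B ^ 2 = ∑ A ∈ s, UU M s (2 * n) A A := by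
  refine Finset.sum_congr rfl fun A hA => ?_
  rw [two_mul, UU_add M s n n hA hA]
  refine Finset.sum_congr rfl fun B hB => ?_
  rw [UU_symm M hsym s n hB hA, sq]

/-- the quadratic form of a power of the kernel -/
private lemma D1_form (M : ι → ι → ℝ) (s : Finset ι) (w : ι → ℝ) (n : ℕ) :
    (fun A : s => w A) ⬝ᵥ ((mat M s ^ n) *ᵥ fun A : s => w A) =
      ∑ A ∈ s, ∑ B ∈ s, w A * UU M s n A B * w B := by
  rw [← Finset.sum_coe_sort s fun A => ∑ B ∈ s, w A * UU M s n A B * w B]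
  refine Finset.sum_congr rfl fun A _ => ?_
  rw [← Finset.sum_coe_sort s fun B => w A * UU M s n A B * w B]
  change w A * ∑ B : s, (mat M s ^ n) A B * w B = _
  rw [Finset.mul_sum]
  refine Finset.sum_congr rfl fun B _ => ?_
  rw [mat_pow]
  ring

/-- Row D1. The number of closed walks is at least the power of the Rayleigh quotient. Proof: with `m = 2 ^ i`,
`N = mat M s ^ m`: `(w · N w)² ≤ (∑ w²)² ∑ N²` and `quad_pow`: `X ^ m ≤ Y ^ (m - 1) * (w · N w)`; so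
`X ^ (2 m) ≤ Y ^ (2 m - 2) * Y ^ 2 * T`. -/
lemma trace_low (M : ι → ι → ℝ) (hsym : ∀ A B, M A B = M B A) (s : Finset ι) (w : ι → ℝ) (i : ℕ)
    (hX : 0 ≤ ∑ A ∈ s, ∑ B ∈ s, w A * M A B * w B) :
    (∑ A ∈ s, ∑ B ∈ s, w A * M A B * w B) ^ (2 * 2 ^ i) ≤
      (∑ A ∈ s, w A ^ 2) ^ (2 * 2 ^ i) * ∑ A ∈ s, UU M s (2 * 2 ^ i) A A := by
  set X := ∑ A ∈ s, ∑ B ∈ s, w A * M A B * w B with hXd
  set Y := ∑ A ∈ s, w A ^ 2 with hYd
  set T := ∑ A ∈ s, UU M s (2 * 2 ^ i) A A with hTd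
  set Q := ∑ A ∈ s, ∑ B ∈ s, w A * UU M s (2 ^ i) A B * w B with hQd
  have hsymm : (mat M s).IsSymm := by
    ext A B
    exact hsym _ _
  have h1 := quad_pow (mat M s) hsymm i fun A : s => w A
  have hX1 : (fun A : s => w A) ⬝ᵥ ((mat M s) *ᵥ fun A : s => w A) = X := by
    rw [hXd, ← Finset.sum_coe_sort s fun A => ∑ B ∈ s, w A * M A B * w B]
    refine Finset.sum_congr rfl fun A _ => ?_
    rw [← Finset.sum_coe_sort s fun B => w A * M A B * w B]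
    change w A * ∑ B : s, M A B * w B = _
    rw [Finset.mul_sum]
    exact Finset.sum_congr rfl fun B _ => by ring
  have hY1 : (fun A : s => w A) ⬝ᵥ (fun A : s => w A) = Y := by
    rw [hYd, ← Finset.sum_coe_sort s fun A => w A ^ 2]
    exact Finset.sum_congr rfl fun A _ => (sq _).symm
  rw [hX1, hY1, D1_form] at h1
  have hY0 : 0 ≤ Y := Finset.sum_nonneg fun A _ => sq_nonneg _
  have hQ : Q ^ 2 ≤ Y ^ 2 * T := by
    have e1 : Q = ∑ p ∈ s ×ˢ s, (w p.1 * w p.2) * UU M s (2 ^ i) p.1 p.2 := by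
      rw [hQd, Finset.sum_product]
      exact Finset.sum_congr rfl fun A _ => Finset.sum_congr rfl fun B _ => by ring
    have e2 : Y ^ 2 = ∑ p ∈ s ×ˢ s, (w p.1 * w p.2) ^ 2 := by
      rw [sq, hYd, Finset.sum_mul_sum, Finset.sum_product]
      exact Finset.sum_congr rfl fun A _ => Finset.sum_congr rfl fun B _ => by ring
    have e3 : T = ∑ p ∈ s ×ˢ s, UU M s (2 ^ i) p.1 p.2 ^ 2 := by
      rw [hTd, ← trace_sq M hsym s (2 ^ i), Finset.sum_product]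
    rw [e1, e2, e3]
    exact Finset.sum_mul_sq_le_sq_mul_sq _ _ _
  obtain ⟨m, hm⟩ : ∃ m, 2 ^ i = m + 1 := ⟨2 ^ i - 1, (Nat.sub_add_cancel Nat.one_le_two_pow).symm⟩
  rw [← hQd] at h1
  rw [hm] at h1 ⊢
  rw [Nat.add_sub_cancel] at h1
  have h2 : (X ^ (m + 1)) ^ 2 ≤ (Y ^ m * Q) ^ 2 := pow_le_pow_left₀ (pow_nonneg hX _) h1 2
  calc X ^ (2 * (m + 1)) = (X ^ (m + 1)) ^ 2 := by rw [mul_comm, pow_mul]
    _ ≤ (Y ^ m * Q) ^ 2 := h2
    _ = Y ^ (2 * m) * Q ^ 2 := by rw [mul_pow, ← pow_mul, mul_comm m 2]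
    _ ≤ Y ^ (2 * m) * (Y ^ 2 * T) := mul_le_mul_of_nonneg_left hQ (pow_nonneg hY0 _)
    _ = Y ^ (2 * (m + 1)) * T := by rw [← mul_assoc, ← pow_add]; ring_nf

private lemma D2_num {ε : ℝ} (h0 : 0 ≤ ε) (h1 : ε ≤ 1) (m : ℕ) (hm : 1 ≤ m) :
    (1 - (2 * m - 1) * ε) * (1 + ε) ^ (m - 1) ≤ (1 - ε) ^ m := by
  have h2 : (1 : ℝ) - (2 * m - 1) * ε ≤ (1 - ε) ^ (2 * m - 1) := by
    have := one_add_mul_le_pow (a := -ε) (by linarith) (2 * m - 1)
    have h3 : ((2 * m - 1 : ℕ) : ℝ) = 2 * m - 1 := by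
      rw [Nat.cast_sub (by omega)]; push_cast; ring
    rw [h3] at this
    have h4 : (1 + -ε) = 1 - ε := by ring
    rw [h4] at this
    linarith
  have h5 : (1 - ε) ^ (2 * m - 1) = (1 - ε) ^ m * (1 - ε) ^ (m - 1) := by
    rw [← pow_add]; congr 1; omega
  have h6 : ((1 - ε) * (1 + ε)) ^ (m - 1) ≤ 1 := pow_le_one₀
    (mul_nonneg (by linarith) (by linarith)) (by nlinarith)
  calc (1 - (2 * m - 1) * ε) * (1 + ε) ^ (m - 1)
      ≤ (1 - ε) ^ (2 * m - 1) * (1 + ε) ^ (m - 1) :=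
        mul_le_mul_of_nonneg_right h2 (pow_nonneg (by linarith) _)
    _ = (1 - ε) ^ m * ((1 - ε) * (1 + ε)) ^ (m - 1) := by rw [h5, mul_pow]; ring
    _ ≤ (1 - ε) ^ m * 1 := mul_le_mul_of_nonneg_left h6 (pow_nonneg (by linarith) _)
    _ = _ := mul_one _

/-- Row D2. Put `m = 2 ^ i`, `X = ∑ w M w`, `Y = ∑ w²`, `T = ∑ UU (2 m) A A`. By `mat_pow`, `trace_sq`
`∑ (N A B - Λ^m w A w B / Z)² = T - 2 Λ^m (w · N w) / Z + Λ^(2m) Y² / Z²` where `N = mat M s ^ m`, and by `quad_pow`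
`w · N w ≥ X^m / Y^(m-1) ≥ (1 - ε)^m / (1 + ε)^(m-1) Λ^m Z ≥ (1 - (2 m - 1) ε) Λ^m Z` (for `(1 + ε)⁻¹ ≥ 1 - ε` and
Bernoulli). So the sum is at most `((1 + ε) - 2 (1 - (2m - 1) ε) + (1 + ε)²) Λ^(2m) ≤ (4 m + 2) ε Λ^(2m) ≤ θ^(2m) Λ^(2m)`.
Also `ε ≤ θ^m`. Apply `rank_one` on the type `s` to the restrictions of `f`, `h`, `w`. -/
theorem rank_one_det (M : ι → ι → ℝ) (hsym : ∀ A B, M A B = M B A) (s : Finset ι) (w : ι → ℝ)
    {Λ Z θ ε : ℝ} (i : ℕ) (hi : 1 ≤ i) (hΛ : 0 < Λ) (hZ : 0 < Z) (hθ0 : 0 < θ) (hθ1 : θ ≤ 1 / 4)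
    (hε0 : 0 ≤ ε) (hε : (4 * 2 ^ i + 2) * ε ≤ θ ^ (2 * 2 ^ i))
    (hX : (1 - ε) * (Λ * Z) ≤ ∑ A ∈ s, ∑ B ∈ s, w A * M A B * w B)
    (hY1 : (1 - ε) * Z ≤ ∑ A ∈ s, w A ^ 2) (hY2 : ∑ A ∈ s, w A ^ 2 ≤ (1 + ε) * Z)
    (hT : ∑ A ∈ s, UU M s (2 * 2 ^ i) A A ≤ (1 + ε) * Λ ^ (2 * 2 ^ i)) (f h : ι → ℝ) :
    |∑ A ∈ s, ∑ B ∈ s, f A * M A B * h B - Λ * ((∑ A ∈ s, f A * w A) * (∑ A ∈ s, h A * w A)) / Z| ≤
      11 * θ * Λ * (Real.sqrt (∑ A ∈ s, f A ^ 2) * Real.sqrt (∑ A ∈ s, h A ^ 2)) := by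
  set m : ℕ := 2 ^ i with hm
  have hm2 : 2 ≤ m := by
    calc 2 = 2 ^ 1 := by norm_num
      _ ≤ 2 ^ i := Nat.pow_le_pow_right (by norm_num) hi
  have hmr : ((2 : ℝ) ^ i) = (m : ℝ) := by rw [hm]; push_cast; rfl
  rw [hmr] at hε
  have hm1 : (2 : ℝ) ≤ m := by exact_mod_cast hm2
  have hθm : θ ^ (2 * m) ≤ θ ^ m := pow_le_pow_of_le_one hθ0.le (by linarith) (by omega)
  have hθm1 : θ ^ m ≤ 1 := pow_le_one₀ hθ0.le (by linarith)
  have hεθ : ε ≤ θ ^ m := by nlinarith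
  have hε1 : ε ≤ 1 / 2 := by nlinarith
  -- conversions
  have c1 : ∀ u v : ι → ℝ, (fun A : s => u A) ⬝ᵥ (mat M s *ᵥ fun A : s => v A) =
      ∑ A ∈ s, ∑ B ∈ s, u A * M A B * v B := by
    intro u v
    unfold dotProduct mulVec dotProduct mat
    rw [← Finset.sum_coe_sort s (fun A => ∑ B ∈ s, u A * M A B * v B)]
    refine Finset.sum_congr rfl fun A _ => ?_
    rw [← Finset.sum_coe_sort s (fun B => u A * M A B * v B), Finset.mul_sum]
    exact Finset.sum_congr rfl fun B _ => by ring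
  have c2 : ∀ u v : ι → ℝ, (fun A : s => u A) ⬝ᵥ (fun A : s => v A) = ∑ A ∈ s, u A * v A := by
    intro u v
    unfold dotProduct
    rw [← Finset.sum_coe_sort s (fun A => u A * v A)]
  have c3 : ∀ u : ι → ℝ, ∑ A ∈ s, u A * u A = ∑ A ∈ s, u A ^ 2 :=
    fun u => Finset.sum_congr rfl fun A _ => by ring
  have hMs : (mat M s).IsSymm := by
    unfold Matrix.IsSymm
    ext A B
    exact hsym B A
  set w' : s → ℝ := fun A => w A with hw'
  set X : ℝ := ∑ A ∈ s, ∑ B ∈ s, w A * M A B * w B with hXd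
  set Y : ℝ := ∑ A ∈ s, w A ^ 2 with hYd
  set Q : ℝ := w' ⬝ᵥ (mat M s ^ m *ᵥ w') with hQd
  have hww : w' ⬝ᵥ w' = Y := by rw [hw', c2, c3]
  have hwMw : w' ⬝ᵥ (mat M s *ᵥ w') = X := by rw [hw', c1]
  have hXpos : 0 < X := lt_of_lt_of_le (by
    have : 0 < 1 - ε := by linarith
    positivity) hX
  have hYpos : 0 < Y := lt_of_lt_of_le (by
    have : 0 < 1 - ε := by linarith
    positivity) hY1
  have hqp := quad_pow (mat M s) hMs i w'
  rw [hwMw, hww, ← hm, ← hQd] at hqp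
  have hQpos : 0 < Q := by
    by_contra hcon
    push Not at hcon
    have h1 : 0 < X ^ m := by positivity
    have h2 : Y ^ (m - 1) * Q ≤ 0 := mul_nonpos_of_nonneg_of_nonpos (by positivity) hcon
    linarith
  have hQ : (1 - (2 * m - 1) * ε) * (Λ ^ m * Z) ≤ Q := by
    have h1 : ((1 - ε) * (Λ * Z)) ^ m ≤ X ^ m := pow_le_pow_left₀
      (mul_nonneg (by linarith) (by positivity)) hX m
    have h2 : Y ^ (m - 1) * Q ≤ ((1 + ε) * Z) ^ (m - 1) * Q :=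
      mul_le_mul_of_nonneg_right (pow_le_pow_left₀ hYpos.le hY2 _) hQpos.le
    have h3 : ((1 + ε) * Z) ^ (m - 1) * ((1 - (2 * m - 1) * ε) * (Λ ^ m * Z)) ≤
        ((1 - ε) * (Λ * Z)) ^ m := by
      have h4 := D2_num hε0 (by linarith) m (by omega)
      have h5 : Z ^ m = Z ^ (m - 1) * Z := by
        rw [← pow_succ]; congr 1; omega
      calc ((1 + ε) * Z) ^ (m - 1) * ((1 - (2 * m - 1) * ε) * (Λ ^ m * Z))
          = ((1 - (2 * m - 1) * ε) * (1 + ε) ^ (m - 1)) * (Λ ^ m * (Z ^ (m - 1) * Z)) := by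
            rw [mul_pow]; ring
        _ ≤ (1 - ε) ^ m * (Λ ^ m * (Z ^ (m - 1) * Z)) :=
            mul_le_mul_of_nonneg_right h4 (by positivity)
        _ = _ := by rw [mul_pow, mul_pow, h5]
    have h6 : ((1 + ε) * Z) ^ (m - 1) * ((1 - (2 * m - 1) * ε) * (Λ ^ m * Z)) ≤
        ((1 + ε) * Z) ^ (m - 1) * Q := by linarith
    exact le_of_mul_le_mul_left h6 (by positivity)
  -- the Hilbert-Schmidt norm
  have hHS : ∑ A : s, ∑ B : s, ((mat M s ^ m) A B - Λ ^ m * (w' A * w' B) / Z) ^ 2 ≤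
      (θ ^ m * Λ ^ m) ^ 2 := by
    have e1 : ∑ A : s, ∑ B : s, ((mat M s ^ m) A B) ^ 2 = ∑ A ∈ s, UU M s (2 * m) A A := by
      rw [← trace_sq M hsym s m, ← Finset.sum_coe_sort s (fun A => ∑ B ∈ s, UU M s m A B ^ 2)]
      refine Finset.sum_congr rfl fun A _ => ?_
      rw [← Finset.sum_coe_sort s (fun B => UU M s m A B ^ 2)]
      exact Finset.sum_congr rfl fun B _ => by rw [mat_pow]
    have e2 : ∑ A : s, ∑ B : s, (mat M s ^ m) A B * (w' A * w' B) = Q := by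
      rw [hQd]
      unfold dotProduct mulVec dotProduct
      refine Finset.sum_congr rfl fun A _ => ?_
      rw [Finset.mul_sum]
      exact Finset.sum_congr rfl fun B _ => by ring
    have e3 : ∑ A : s, ∑ B : s, (w' A * w' B) ^ 2 = Y ^ 2 := by
      have : Y = ∑ A : s, w' A ^ 2 := by
        rw [hYd, ← Finset.sum_coe_sort s (fun A => w A ^ 2)]
      rw [this, sq (∑ A : s, w' A ^ 2), Finset.sum_mul_sum]
      exact Finset.sum_congr rfl fun A _ => Finset.sum_congr rfl fun B _ => by ring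
    have e4 : ∑ A : s, ∑ B : s, ((mat M s ^ m) A B - Λ ^ m * (w' A * w' B) / Z) ^ 2 =
        ∑ A ∈ s, UU M s (2 * m) A A - 2 * Λ ^ m / Z * Q + (Λ ^ m / Z) ^ 2 * Y ^ 2 := by
      rw [← e1, ← e2, ← e3, Finset.mul_sum, Finset.mul_sum, ← Finset.sum_sub_distrib,
        ← Finset.sum_add_distrib]
      refine Finset.sum_congr rfl fun A _ => ?_
      rw [Finset.mul_sum, Finset.mul_sum, ← Finset.sum_sub_distrib, ← Finset.sum_add_distrib]
      exact Finset.sum_congr rfl fun B _ => by ring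
    rw [e4]
    have h1 : 2 * Λ ^ m / Z * ((1 - (2 * m - 1) * ε) * (Λ ^ m * Z)) ≤ 2 * Λ ^ m / Z * Q :=
      mul_le_mul_of_nonneg_left hQ (by positivity)
    have h2 : 2 * Λ ^ m / Z * ((1 - (2 * m - 1) * ε) * (Λ ^ m * Z)) =
        2 * (1 - (2 * m - 1) * ε) * Λ ^ (2 * m) := by
      have : Λ ^ (2 * m) = Λ ^ m * Λ ^ m := by rw [← pow_add]; congr 1; ring
      rw [this]; field_simp
    have h3 : (Λ ^ m / Z) ^ 2 * Y ^ 2 ≤ (1 + ε) ^ 2 * Λ ^ (2 * m) := by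
      have h4 : Y ^ 2 ≤ ((1 + ε) * Z) ^ 2 := pow_le_pow_left₀ hYpos.le hY2 2
      calc (Λ ^ m / Z) ^ 2 * Y ^ 2 ≤ (Λ ^ m / Z) ^ 2 * ((1 + ε) * Z) ^ 2 :=
            mul_le_mul_of_nonneg_left h4 (by positivity)
        _ = _ := by
            have : Λ ^ (2 * m) = Λ ^ m * Λ ^ m := by rw [← pow_add]; congr 1; ring
            rw [this]; field_simp
    have h5 : (θ ^ m * Λ ^ m) ^ 2 = θ ^ (2 * m) * Λ ^ (2 * m) := by
      rw [mul_pow, ← pow_mul, ← pow_mul]; congr 2 <;> ring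
    rw [h5]
    have hΛm : 0 < Λ ^ (2 * m) := by positivity
    have h6 : (4 * (m : ℝ) + 2) * ε * Λ ^ (2 * m) ≤ θ ^ (2 * m) * Λ ^ (2 * m) :=
      mul_le_mul_of_nonneg_right hε hΛm.le
    have h7 : (1 + ε) * Λ ^ (2 * m) - 2 * (1 - (2 * m - 1) * ε) * Λ ^ (2 * m) +
        (1 + ε) ^ 2 * Λ ^ (2 * m) ≤ (4 * (m : ℝ) + 2) * ε * Λ ^ (2 * m) := by
      have h8 : (1 + ε) - 2 * (1 - (2 * m - 1) * ε) + (1 + ε) ^ 2 ≤ (4 * (m : ℝ) + 2) * ε := by
        nlinarith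
      calc _ = ((1 + ε) - 2 * (1 - (2 * m - 1) * ε) + (1 + ε) ^ 2) * Λ ^ (2 * m) := by ring
        _ ≤ _ := mul_le_mul_of_nonneg_right h8 hΛm.le
    linarith
  have hr := rank_one (mat M s) hMs w' i hi hΛ hZ hθ0 hθ1 hHS
    (by rw [hww]; exact (mul_le_mul_of_nonneg_right (by linarith) hZ.le).trans hY1)
    (by rw [hww]; exact hY2.trans (mul_le_mul_of_nonneg_right (by linarith) hZ.le))
    (by
      rw [hwMw]
      refine le_trans ?_ hX
      have : 0 < Λ * Z := by positivity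
      exact mul_le_mul_of_nonneg_right (by linarith) this.le)
    (fun A : s => f A) (fun A : s => h A)
  rw [c1, c2, c2, c2, c2, c3, c3] at hr
  exact hr

end Pool.Agent.PERC29
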