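import Mathlib

set_option autoImplicit false
set_option linter.unusedSectionVars false

/-! Rows 29u-E1, 29u-E2: symmetric matrices which are close to rank one. -/

open Finset Matrix

namespace Pool.Agent.PERC29

variable {ι : Type*} [Fintype ι] [DecidableEq ι]

private lemma E1_dot (f g : ι → ℝ) : (f ⬝ᵥ g) ^ 2 ≤ (∑ A, f A ^ 2) * ∑ A, g A ^ 2 :=
  Finset.sum_mul_sq_le_sq_mul_sq univ f g

private lemma E1_self (f : ι → ℝ) : f ⬝ᵥ f = ∑ A, f A ^ 2 :=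
  Finset.sum_congr rfl fun A _ => (sq (f A)).symm

private lemma E1_symm (N : Matrix ι ι ℝ) (hN : N.IsSymm) (f : ι → ℝ) :
    ∑ A, (N *ᵥ f) A ^ 2 = f ⬝ᵥ ((N * N) *ᵥ f) := by
  rw [← E1_self, ← Matrix.mulVec_mulVec, Matrix.dotProduct_mulVec f N]
  congr 1
  rw [← Matrix.mulVec_transpose, hN.eq]

private lemma E1_cs (N : Matrix ι ι ℝ) (hN : N.IsSymm) (f : ι → ℝ) :
    (∑ A, (N *ᵥ f) A ^ 2) ^ 2 ≤ (∑ A, f A ^ 2) * ∑ A, ((N * N) *ᵥ f) A ^ 2 := by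
  rw [E1_symm N hN]
  exact E1_dot f _

private lemma E1_two (i : ℕ) : 2 ^ (i + 1) - 1 = 2 * (2 ^ i - 1) + 1 := by
  have h : 1 ≤ 2 ^ i := Nat.one_le_two_pow
  rw [pow_succ]
  omega

private lemma E1_mat (M : Matrix ι ι ℝ) (i : ℕ) : M ^ (2 ^ (i + 1)) = M ^ (2 ^ i) * M ^ (2 ^ i) := by
  rw [← pow_add, pow_succ]
  congr 1
  omega

private lemma E1_nonneg (f : ι → ℝ) : 0 ≤ ∑ A, f A ^ 2 := Finset.sum_nonneg fun _ _ => sq_nonneg _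

/-- Row E1. Proof: induction on `i` with the Cauchy-Schwarz inequality `|M g|² = g · M² g ≤ |g| |M² g|`, applied to
the symmetric matrix `M ^ (2 ^ i)`: `|M^k f|⁴ ≤ |f|² |M^(2k) f|²`. -/
lemma pow_step (M : Matrix ι ι ℝ) (hM : M.IsSymm) (i : ℕ) (f : ι → ℝ) :
    (∑ A, (M *ᵥ f) A ^ 2) ^ (2 ^ i) ≤
      (∑ A, f A ^ 2) ^ (2 ^ i - 1) * ∑ A, ((M ^ (2 ^ i)) *ᵥ f) A ^ 2 := by
  induction i with
  | zero => simp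
  | succ i ih =>
    have h1 := E1_cs (M ^ (2 ^ i)) (hM.pow _) f
    rw [← E1_mat] at h1
    have h0 : 0 ≤ (∑ A, (M *ᵥ f) A ^ 2) ^ (2 ^ i) := pow_nonneg (E1_nonneg _) _
    calc (∑ A, (M *ᵥ f) A ^ 2) ^ (2 ^ (i + 1)) = ((∑ A, (M *ᵥ f) A ^ 2) ^ (2 ^ i)) ^ 2 := by
          rw [← pow_mul, pow_succ]
      _ ≤ ((∑ A, f A ^ 2) ^ (2 ^ i - 1) * ∑ A, ((M ^ (2 ^ i)) *ᵥ f) A ^ 2) ^ 2 :=
          pow_le_pow_left₀ h0 ih 2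
      _ = (∑ A, f A ^ 2) ^ (2 * (2 ^ i - 1)) * (∑ A, ((M ^ (2 ^ i)) *ᵥ f) A ^ 2) ^ 2 := by
          rw [mul_pow, ← pow_mul, mul_comm (2 ^ i - 1) 2]
      _ ≤ (∑ A, f A ^ 2) ^ (2 * (2 ^ i - 1)) * ((∑ A, f A ^ 2) * ∑ A, ((M ^ (2 ^ (i + 1))) *ᵥ f) A ^ 2) :=
          mul_le_mul_of_nonneg_left h1 (pow_nonneg (E1_nonneg _) _)
      _ = (∑ A, f A ^ 2) ^ (2 ^ (i + 1) - 1) * ∑ A, ((M ^ (2 ^ (i + 1))) *ᵥ f) A ^ 2 := by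
          rw [E1_two, pow_succ (∑ A, f A ^ 2) (2 * (2 ^ i - 1)), mul_assoc]

private lemma E1_step (M : Matrix ι ι ℝ) (hM : M.IsSymm) (i : ℕ) (w : ι → ℝ)
    (ih : |w ⬝ᵥ (M *ᵥ w)| ^ (2 ^ i) ≤ (w ⬝ᵥ w) ^ (2 ^ i - 1) * |w ⬝ᵥ ((M ^ (2 ^ i)) *ᵥ w)|) :
    |w ⬝ᵥ (M *ᵥ w)| ^ (2 ^ (i + 1)) ≤ (w ⬝ᵥ w) ^ (2 ^ (i + 1) - 1) * (w ⬝ᵥ ((M ^ (2 ^ (i + 1))) *ᵥ w)) := by
  have hw : 0 ≤ w ⬝ᵥ w := by
    rw [E1_self]
    exact E1_nonneg w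
  have h1 : |w ⬝ᵥ ((M ^ (2 ^ i)) *ᵥ w)| ^ 2 ≤ (w ⬝ᵥ w) * (w ⬝ᵥ ((M ^ (2 ^ (i + 1))) *ᵥ w)) := by
    rw [sq_abs, E1_mat, ← E1_symm _ (hM.pow _), E1_self w]
    exact E1_dot w _
  calc |w ⬝ᵥ (M *ᵥ w)| ^ (2 ^ (i + 1)) = (|w ⬝ᵥ (M *ᵥ w)| ^ (2 ^ i)) ^ 2 := by
        rw [← pow_mul, pow_succ]
    _ ≤ ((w ⬝ᵥ w) ^ (2 ^ i - 1) * |w ⬝ᵥ ((M ^ (2 ^ i)) *ᵥ w)|) ^ 2 :=
        pow_le_pow_left₀ (pow_nonneg (abs_nonneg _) _) ih 2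
    _ = (w ⬝ᵥ w) ^ (2 * (2 ^ i - 1)) * |w ⬝ᵥ ((M ^ (2 ^ i)) *ᵥ w)| ^ 2 := by
        rw [mul_pow, ← pow_mul, mul_comm (2 ^ i - 1) 2]
    _ ≤ (w ⬝ᵥ w) ^ (2 * (2 ^ i - 1)) * ((w ⬝ᵥ w) * (w ⬝ᵥ ((M ^ (2 ^ (i + 1))) *ᵥ w))) :=
        mul_le_mul_of_nonneg_left h1 (pow_nonneg hw _)
    _ = (w ⬝ᵥ w) ^ (2 ^ (i + 1) - 1) * (w ⬝ᵥ ((M ^ (2 ^ (i + 1))) *ᵥ w)) := by
        rw [E1_two, pow_succ (w ⬝ᵥ w) (2 * (2 ^ i - 1)), mul_assoc]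

private lemma E1_abs (M : Matrix ι ι ℝ) (hM : M.IsSymm) (i : ℕ) (w : ι → ℝ) :
    |w ⬝ᵥ (M *ᵥ w)| ^ (2 ^ i) ≤ (w ⬝ᵥ w) ^ (2 ^ i - 1) * |w ⬝ᵥ ((M ^ (2 ^ i)) *ᵥ w)| := by
  have hw : 0 ≤ w ⬝ᵥ w := by
    rw [E1_self]
    exact E1_nonneg w
  induction i with
  | zero => simp
  | succ i ih =>
    exact (E1_step M hM i w ih).trans (mul_le_mul_of_nonneg_left (le_abs_self _) (pow_nonneg hw _))

/-- Row E1. Proof: induction on `i`: `(w · M^k w)² ≤ |w|² |M^k w|² = |w|² (w · M^(2k) w)`. -/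
lemma quad_pow (M : Matrix ι ι ℝ) (hM : M.IsSymm) (i : ℕ) (w : ι → ℝ) :
    (w ⬝ᵥ (M *ᵥ w)) ^ (2 ^ i) ≤ (w ⬝ᵥ w) ^ (2 ^ i - 1) * (w ⬝ᵥ ((M ^ (2 ^ i)) *ᵥ w)) := by
  rcases i with _ | i
  · simp
  · have h1 := E1_step M hM i w (E1_abs M hM i w)
    have h2 : |w ⬝ᵥ (M *ᵥ w)| ^ (2 ^ (i + 1)) = (w ⬝ᵥ (M *ᵥ w)) ^ (2 ^ (i + 1)) := by
      have e : Even (2 ^ (i + 1)) := by
        rw [pow_succ]
        exact even_two.mul_left _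
      exact e.pow_abs _
    rwa [h2] at h1

private lemma E2_nn (u : ι → ℝ) : 0 ≤ u ⬝ᵥ u := by
  rw [dotProduct]
  exact Finset.sum_nonneg fun A _ => mul_self_nonneg (u A)

private lemma E2_cs (u v : ι → ℝ) :
    |u ⬝ᵥ v| ≤ Real.sqrt (u ⬝ᵥ u) * Real.sqrt (v ⬝ᵥ v) := by
  rw [← Real.sqrt_mul (E2_nn u), ← Real.sqrt_sq_eq_abs]
  apply Real.sqrt_le_sqrt
  have := Finset.sum_mul_sq_le_sq_mul_sq Finset.univ u v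
  simpa [dotProduct, sq] using this

private lemma E2_hs (E : Matrix ι ι ℝ) (v : ι → ℝ) :
    (E *ᵥ v) ⬝ᵥ (E *ᵥ v) ≤ (∑ A, ∑ B, E A B ^ 2) * (v ⬝ᵥ v) := by
  rw [dotProduct, Finset.sum_mul]
  apply Finset.sum_le_sum
  intro A _
  have := Finset.sum_mul_sq_le_sq_mul_sq Finset.univ (E A) v
  simpa [Matrix.mulVec, dotProduct, sq] using this

private lemma E2_tri (u v : ι → ℝ) {a b : ℝ} (ha : 0 ≤ a) (hb : 0 ≤ b)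
    (hu : u ⬝ᵥ u ≤ a ^ 2) (hv : v ⬝ᵥ v ≤ b ^ 2) :
    (u + v) ⬝ᵥ (u + v) ≤ (a + b) ^ 2 := by
  have h1 : (u + v) ⬝ᵥ (u + v) = u ⬝ᵥ u + 2 * (u ⬝ᵥ v) + v ⬝ᵥ v := by
    rw [add_dotProduct, dotProduct_add, dotProduct_add, dotProduct_comm v u]
    ring
  have h2 : u ⬝ᵥ v ≤ a * b := by
    refine (le_abs_self _).trans ((E2_cs u v).trans ?_)
    have h3 : Real.sqrt (u ⬝ᵥ u) ≤ a := Real.sqrt_le_iff.mpr ⟨ha, hu⟩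
    have h4 : Real.sqrt (v ⬝ᵥ v) ≤ b := Real.sqrt_le_iff.mpr ⟨hb, hv⟩
    exact mul_le_mul h3 h4 (Real.sqrt_nonneg _) ha
  rw [h1]
  nlinarith

private lemma E2_sum (u : ι → ℝ) : ∑ A, u A ^ 2 = u ⬝ᵥ u := by
  simp [dotProduct, sq]

/-- from `pow_step`: a bound of `M ^ m f` gives a bound of `M f` -/
private lemma E2_root (M : Matrix ι ι ℝ) (hM : M.IsSymm) (i : ℕ) (f : ι → ℝ) {c : ℝ}
    (_hc : 0 ≤ c)
    (h : ((M ^ (2 ^ i)) *ᵥ f) ⬝ᵥ ((M ^ (2 ^ i)) *ᵥ f) ≤ (c ^ (2 ^ i)) ^ 2 * (f ⬝ᵥ f)) :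
    (M *ᵥ f) ⬝ᵥ (M *ᵥ f) ≤ c ^ 2 * (f ⬝ᵥ f) := by
  have h1 := pow_step M hM i f
  rw [E2_sum, E2_sum, E2_sum] at h1
  have hm : 2 ^ i ≠ 0 := by positivity
  have h2 : ((M *ᵥ f) ⬝ᵥ (M *ᵥ f)) ^ (2 ^ i) ≤ (c ^ 2 * (f ⬝ᵥ f)) ^ (2 ^ i) := by
    calc ((M *ᵥ f) ⬝ᵥ (M *ᵥ f)) ^ (2 ^ i)
        ≤ (f ⬝ᵥ f) ^ (2 ^ i - 1) * ((c ^ (2 ^ i)) ^ 2 * (f ⬝ᵥ f)) :=
          h1.trans (mul_le_mul_of_nonneg_left h (pow_nonneg (E2_nn f) _))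
      _ = (c ^ 2 * (f ⬝ᵥ f)) ^ (2 ^ i) := by
          rw [mul_pow (c ^ 2), ← pow_mul, ← pow_mul, mul_comm 2 (2 ^ i)]
          have h3 : (f ⬝ᵥ f) ^ (2 ^ i) = (f ⬝ᵥ f) ^ (2 ^ i - 1) * (f ⬝ᵥ f) := by
            rw [← pow_succ, Nat.sub_add_cancel (Nat.one_le_two_pow)]
          rw [h3]
          ring
  exact (pow_le_pow_iff_left₀ (E2_nn _) (mul_nonneg (sq_nonneg _) (E2_nn _)) hm).mp h2

private lemma E2_symm (M : Matrix ι ι ℝ) (hM : M.IsSymm) (u v : ι → ℝ) :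
    u ⬝ᵥ (M *ᵥ v) = (M *ᵥ u) ⬝ᵥ v := by
  rw [dotProduct_mulVec, ← Matrix.mulVec_transpose, hM.eq]

/-- Row E2. Put `m = 2 ^ i ≥ 2`, `ε = θ ^ m ≤ θ ^ 2 ≤ θ / 4 ≤ 1 / 16`, `n = |w|²`, `ŵ = w / |w|`,
`E = M ^ m - Λ ^ m w wᵀ / Z`, `|E v| ≤ ε Λ ^ m |v|` for all `v` (Hilbert-Schmidt norm).
(1) `|M^m ŵ| ≤ Λ^m n / Z + ε Λ^m ≤ (1 + 2 ε) Λ^m`, so by `pow_step` `|M ŵ| ≤ (1 + 2 ε) Λ`.
(2) `ŵ · M ŵ ≥ (1 - ε) Λ Z / n ≥ (1 - 2 ε) Λ`, and `≤ |M ŵ| ≤ (1 + 2 ε) Λ`.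
(3) `|M ŵ - Λ ŵ|² = |M ŵ|² - 2 Λ ŵ · M ŵ + Λ² ≤ 9 ε Λ²`.
(4) if `f' · w = 0` then `M^m f' = E f'` and by `pow_step` `|M f'| ≤ θ Λ |f'|`.
(5) write `f = α ŵ + f'`, `h = β ŵ + h'`; `f · M h = α β ŵ · M ŵ + α (M ŵ - Λ ŵ) · h' + β f' · (M ŵ - Λ ŵ) + f' · M h'`
and `(f · w)(h · w) / Z = α β n / Z`; the error is at most `(3 ε + 6 √ε + θ) Λ |f| |h| ≤ 11 θ Λ |f| |h|`. -/
theorem rank_one (M : Matrix ι ι ℝ) (hM : M.IsSymm) (w : ι → ℝ) {Λ Z θ : ℝ} (i : ℕ) (hi : 1 ≤ i)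
    (hΛ : 0 < Λ) (hZ : 0 < Z) (hθ0 : 0 < θ) (hθ1 : θ ≤ 1 / 4)
    (h1 : ∑ A, ∑ B, ((M ^ (2 ^ i)) A B - Λ ^ (2 ^ i) * (w A * w B) / Z) ^ 2 ≤
      (θ ^ (2 ^ i) * Λ ^ (2 ^ i)) ^ 2)
    (h2 : (1 - θ ^ (2 ^ i)) * Z ≤ w ⬝ᵥ w) (h2' : w ⬝ᵥ w ≤ (1 + θ ^ (2 ^ i)) * Z)
    (h3 : (1 - θ ^ (2 ^ i)) * (Λ * Z) ≤ w ⬝ᵥ (M *ᵥ w)) (f h : ι → ℝ) :
    |f ⬝ᵥ (M *ᵥ h) - Λ * ((f ⬝ᵥ w) * (h ⬝ᵥ w)) / Z| ≤
      11 * θ * Λ * (Real.sqrt (f ⬝ᵥ f) * Real.sqrt (h ⬝ᵥ h)) := by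
  have hm2 : 2 ≤ 2 ^ i := by
    calc 2 = 2 ^ 1 := by norm_num
      _ ≤ 2 ^ i := Nat.pow_le_pow_right (by norm_num) hi
  have he0 : 0 < θ ^ (2 ^ i) := by positivity
  have he2 : θ ^ (2 ^ i) ≤ θ ^ 2 := pow_le_pow_of_le_one hθ0.le (by linarith) hm2
  -- the approximation on vectors
  have hE : ∀ v : ι → ℝ, ∃ y : ι → ℝ,
      (M ^ (2 ^ i)) *ᵥ v = (Λ ^ (2 ^ i) * (w ⬝ᵥ v) / Z) • w + y ∧
      y ⬝ᵥ y ≤ (θ ^ (2 ^ i) * Λ ^ (2 ^ i)) ^ 2 * (v ⬝ᵥ v) := by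
    intro v
    refine ⟨(Matrix.of fun A B => (M ^ (2 ^ i)) A B - Λ ^ (2 ^ i) * (w A * w B) / Z) *ᵥ v,
      ?_, ?_⟩
    · funext A
      simp only [Matrix.mulVec, dotProduct, Pi.add_apply, Pi.smul_apply, smul_eq_mul,
        Matrix.of_apply]
      rw [Finset.mul_sum, Finset.sum_div, Finset.sum_mul, ← Finset.sum_add_distrib]
      refine Finset.sum_congr rfl fun B _ => ?_
      ring
    · refine (E2_hs _ v).trans (mul_le_mul_of_nonneg_right ?_ (E2_nn v))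
      simpa using h1
  have hroot : ∀ v : ι → ℝ, w ⬝ᵥ v = 0 → (M *ᵥ v) ⬝ᵥ (M *ᵥ v) ≤ (θ * Λ) ^ 2 * (v ⬝ᵥ v) := by
    intro v hv
    apply E2_root M hM i v (by positivity)
    obtain ⟨y, hy1, hy2⟩ := hE v
    rw [hy1, hv]
    simpa [mul_pow] using hy2
  generalize hedef : θ ^ (2 ^ i) = e at *
  have he4 : e ≤ θ / 4 := by nlinarith
  have he16 : e ≤ 1 / 16 := by linarith
  obtain ⟨n, hn⟩ : ∃ n, n = w ⬝ᵥ w := ⟨_, rfl⟩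
  rw [← hn] at h2 h2'
  have hn0 : 0 < n := lt_of_lt_of_le (mul_pos (by linarith) hZ) h2
  -- the norm of `M w`
  have hMw : (M *ᵥ w) ⬝ᵥ (M *ᵥ w) ≤ ((1 + 2 * e) * Λ) ^ 2 * n := by
    rw [hn]
    apply E2_root M hM i w (by positivity)
    obtain ⟨y, hy1, hy2⟩ := hE w
    rw [hy1, ← hn]
    rw [← hn] at hy2
    have hL : 0 < Λ ^ (2 ^ i) := by positivity
    have hx : (Λ ^ (2 ^ i) * n / Z) ≤ Λ ^ (2 ^ i) * (1 + e) := by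
      rw [div_le_iff₀ hZ, mul_assoc]
      exact mul_le_mul_of_nonneg_left h2' hL.le
    have hx0 : 0 ≤ Λ ^ (2 ^ i) * n / Z := by positivity
    have hs : Real.sqrt n ^ 2 = n := Real.sq_sqrt hn0.le
    have hs0 := Real.sqrt_nonneg n
    have h5 := E2_tri ((Λ ^ (2 ^ i) * n / Z) • w) y (a := Λ ^ (2 ^ i) * (1 + e) * Real.sqrt n)
      (b := e * Λ ^ (2 ^ i) * Real.sqrt n) (by positivity) (by positivity)
      (by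
        rw [smul_dotProduct, dotProduct_smul, ← hn, smul_eq_mul, smul_eq_mul, mul_pow, hs,
          ← mul_assoc, ← sq]
        exact mul_le_mul_of_nonneg_right (pow_le_pow_left₀ hx0 hx 2) hn0.le)
      (by rw [mul_pow _ (Real.sqrt n), hs]; exact hy2)
    refine h5.trans ?_
    have h6 : Λ ^ (2 ^ i) * (1 + e) * Real.sqrt n + e * Λ ^ (2 ^ i) * Real.sqrt n =
        Λ ^ (2 ^ i) * (1 + 2 * e) * Real.sqrt n := by ring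
    rw [h6, mul_pow _ (Real.sqrt n), hs, mul_pow (1 + 2 * e)]
    apply mul_le_mul_of_nonneg_right _ hn0.le
    apply pow_le_pow_left₀ (by positivity)
    rw [mul_comm]
    apply mul_le_mul_of_nonneg_right _ hL.le
    exact le_self_pow₀ (by linarith) (by positivity)
  -- the quadratic form at `w`
  have hq1 : (1 - 2 * e) * (Λ * n) ≤ w ⬝ᵥ (M *ᵥ w) := by
    refine le_trans ?_ h3
    have : (1 - 2 * e) * n ≤ (1 - e) * Z := by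
      calc (1 - 2 * e) * n ≤ (1 - 2 * e) * ((1 + e) * Z) :=
            mul_le_mul_of_nonneg_left h2' (by linarith)
        _ ≤ (1 - e) * Z := by nlinarith [mul_nonneg (sq_nonneg e) hZ.le]
    calc (1 - 2 * e) * (Λ * n) = Λ * ((1 - 2 * e) * n) := by ring
      _ ≤ Λ * ((1 - e) * Z) := mul_le_mul_of_nonneg_left this hΛ.le
      _ = (1 - e) * (Λ * Z) := by ring
  have hs : Real.sqrt n ^ 2 = n := Real.sq_sqrt hn0.le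
  have hs0 : 0 < Real.sqrt n := Real.sqrt_pos.mpr hn0
  have hMw' : Real.sqrt ((M *ᵥ w) ⬝ᵥ (M *ᵥ w)) ≤ (1 + 2 * e) * Λ * Real.sqrt n := by
    apply Real.sqrt_le_iff.mpr
    refine ⟨by positivity, ?_⟩
    rw [mul_pow _ (Real.sqrt n), hs]
    exact hMw
  have hq2 : w ⬝ᵥ (M *ᵥ w) ≤ (1 + 2 * e) * (Λ * n) := by
    refine (le_abs_self _).trans ((E2_cs _ _).trans ?_)
    rw [← hn]
    calc Real.sqrt n * Real.sqrt ((M *ᵥ w) ⬝ᵥ (M *ᵥ w))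
        ≤ Real.sqrt n * ((1 + 2 * e) * Λ * Real.sqrt n) :=
          mul_le_mul_of_nonneg_left hMw' hs0.le
      _ = (1 + 2 * e) * (Λ * n) := by linear_combination ((1 + 2 * e) * Λ) * hs
  -- the defect
  obtain ⟨g, hg⟩ : ∃ g, g = M *ᵥ w - Λ • w := ⟨_, rfl⟩
  have hgg : g ⬝ᵥ g ≤ (3 * θ * Λ * Real.sqrt n) ^ 2 := by
    have h5 : g ⬝ᵥ g = (M *ᵥ w) ⬝ᵥ (M *ᵥ w) - 2 * Λ * (w ⬝ᵥ (M *ᵥ w)) + Λ ^ 2 * n := by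
      rw [hg, sub_dotProduct, dotProduct_sub, dotProduct_sub, smul_dotProduct, smul_dotProduct,
        dotProduct_smul, dotProduct_smul, ← hn, dotProduct_comm (M *ᵥ w) w]
      simp only [smul_eq_mul]
      ring
    have h6 : g ⬝ᵥ g ≤ (8 * e + 4 * e ^ 2) * (Λ ^ 2 * n) := by
      rw [h5]
      have := mul_le_mul_of_nonneg_left hq1 (by positivity : (0:ℝ) ≤ 2 * Λ)
      nlinarith [hMw, this]
    refine h6.trans ?_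
    rw [mul_pow _ (Real.sqrt n), hs, mul_pow _ Λ]
    have h7 : 8 * e + 4 * e ^ 2 ≤ (3 * θ) ^ 2 := by nlinarith
    calc (8 * e + 4 * e ^ 2) * (Λ ^ 2 * n) ≤ (3 * θ) ^ 2 * (Λ ^ 2 * n) :=
          mul_le_mul_of_nonneg_right h7 (by positivity)
      _ = (3 * θ) ^ 2 * Λ ^ 2 * n := by ring
  have hg' : Real.sqrt (g ⬝ᵥ g) ≤ 3 * θ * Λ * Real.sqrt n :=
    Real.sqrt_le_iff.mpr ⟨by positivity, hgg⟩
  -- decomposition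
  have hdec : ∀ f : ι → ℝ, ∃ (a : ℝ) (f' : ι → ℝ), f = a • w + f' ∧ w ⬝ᵥ f' = 0 ∧
      f ⬝ᵥ w = a * n ∧ |a| * Real.sqrt n ≤ Real.sqrt (f ⬝ᵥ f) ∧
      Real.sqrt (f' ⬝ᵥ f') ≤ Real.sqrt (f ⬝ᵥ f) := by
    intro f
    obtain ⟨a, ha⟩ : ∃ a, a = (f ⬝ᵥ w) / n := ⟨_, rfl⟩
    obtain ⟨f', hf'⟩ : ∃ f', f' = f - a • w := ⟨_, rfl⟩
    have h4 : f ⬝ᵥ w = a * n := by rw [ha]; field_simp
    have h5 : w ⬝ᵥ f' = 0 := by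
      rw [hf', dotProduct_sub, dotProduct_smul, ← hn, dotProduct_comm, h4, smul_eq_mul]
      ring
    have h6 : f = a • w + f' := by rw [hf']; abel
    have h7 : f ⬝ᵥ f = a ^ 2 * n + f' ⬝ᵥ f' := by
      rw [h6, add_dotProduct, dotProduct_add, dotProduct_add, smul_dotProduct, smul_dotProduct,
        dotProduct_smul, dotProduct_smul, ← hn, dotProduct_comm f' w, h5]
      simp only [smul_eq_mul]
      ring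
    refine ⟨a, f', h6, h5, h4, ?_, ?_⟩
    · apply Real.le_sqrt_of_sq_le
      rw [mul_pow, hs, sq_abs, h7]
      linarith [E2_nn f']
    · apply Real.sqrt_le_sqrt
      rw [h7]
      linarith [mul_nonneg (sq_nonneg a) hn0.le]
  obtain ⟨a, f', hf1, hf2, hf3, hf4, hf5⟩ := hdec f
  obtain ⟨b, h', hh1, hh2, hh3, hh4, hh5⟩ := hdec h
  obtain ⟨F, hF⟩ : ∃ F, F = Real.sqrt (f ⬝ᵥ f) := ⟨_, rfl⟩
  obtain ⟨H, hH⟩ : ∃ H, H = Real.sqrt (h ⬝ᵥ h) := ⟨_, rfl⟩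
  have hF0 : 0 ≤ F := hF ▸ Real.sqrt_nonneg _
  have hH0 : 0 ≤ H := hH ▸ Real.sqrt_nonneg _
  rw [← hF] at hf4 hf5
  rw [← hH] at hh4 hh5
  rw [← hF, ← hH, hf3, hh3]
  have hexp : f ⬝ᵥ (M *ᵥ h) = a * b * (w ⬝ᵥ (M *ᵥ w)) + a * (g ⬝ᵥ h') + b * (g ⬝ᵥ f') +
      f' ⬝ᵥ (M *ᵥ h') := by
    have e1 : w ⬝ᵥ (M *ᵥ h') = g ⬝ᵥ h' := by
      rw [E2_symm M hM, hg, sub_dotProduct, smul_dotProduct, hh2]
      simp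
    have e2 : f' ⬝ᵥ (M *ᵥ w) = g ⬝ᵥ f' := by
      rw [dotProduct_comm, hg, sub_dotProduct, smul_dotProduct, hf2]
      simp
    rw [hf1, hh1, Matrix.mulVec_add, Matrix.mulVec_smul, add_dotProduct, dotProduct_add,
      dotProduct_add, smul_dotProduct, smul_dotProduct, dotProduct_smul, dotProduct_smul, e1, e2]
    simp only [smul_eq_mul]
    ring
  have b1 : |a * b * (w ⬝ᵥ (M *ᵥ w)) - Λ * (a * n * (b * n)) / Z| ≤ 3 * e * Λ * (F * H) := by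
    have e1 : a * b * (w ⬝ᵥ (M *ᵥ w)) - Λ * (a * n * (b * n)) / Z =
        (a * b) * (w ⬝ᵥ (M *ᵥ w) - Λ * n * (n / Z)) := by
      field_simp
    have e2 : 1 - e ≤ n / Z := by rw [le_div_iff₀ hZ]; exact h2
    have e3 : n / Z ≤ 1 + e := by rw [div_le_iff₀ hZ]; exact h2'
    have hLn : 0 < Λ * n := by positivity
    have e4 : |w ⬝ᵥ (M *ᵥ w) - Λ * n * (n / Z)| ≤ 3 * e * (Λ * n) := by
      rw [abs_le]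
      have e5 := mul_le_mul_of_nonneg_left e2 hLn.le
      have e6 := mul_le_mul_of_nonneg_left e3 hLn.le
      constructor <;> nlinarith
    rw [e1, abs_mul, abs_mul]
    calc |a| * |b| * |w ⬝ᵥ (M *ᵥ w) - Λ * n * (n / Z)| ≤ |a| * |b| * (3 * e * (Λ * n)) :=
          mul_le_mul_of_nonneg_left e4 (by positivity)
      _ = 3 * e * Λ * ((|a| * Real.sqrt n) * (|b| * Real.sqrt n)) := by
          linear_combination (-(3 * e * Λ * |a| * |b|)) * hs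
      _ ≤ 3 * e * Λ * (F * H) := by
          apply mul_le_mul_of_nonneg_left _ (by positivity)
          exact mul_le_mul hf4 hh4 (by positivity) hF0
  have b2 : |a * (g ⬝ᵥ h')| ≤ 3 * θ * Λ * (F * H) := by
    rw [abs_mul]
    calc |a| * |g ⬝ᵥ h'| ≤ |a| * (Real.sqrt (g ⬝ᵥ g) * Real.sqrt (h' ⬝ᵥ h')) :=
          mul_le_mul_of_nonneg_left (E2_cs _ _) (abs_nonneg _)
      _ ≤ |a| * ((3 * θ * Λ * Real.sqrt n) * H) := by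
          apply mul_le_mul_of_nonneg_left _ (abs_nonneg _)
          exact mul_le_mul hg' hh5 (Real.sqrt_nonneg _) (by positivity)
      _ = 3 * θ * Λ * ((|a| * Real.sqrt n) * H) := by ring
      _ ≤ 3 * θ * Λ * (F * H) := by
          apply mul_le_mul_of_nonneg_left _ (by positivity)
          exact mul_le_mul_of_nonneg_right hf4 hH0
  have b3 : |b * (g ⬝ᵥ f')| ≤ 3 * θ * Λ * (F * H) := by
    rw [abs_mul]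
    calc |b| * |g ⬝ᵥ f'| ≤ |b| * (Real.sqrt (g ⬝ᵥ g) * Real.sqrt (f' ⬝ᵥ f')) :=
          mul_le_mul_of_nonneg_left (E2_cs _ _) (abs_nonneg _)
      _ ≤ |b| * ((3 * θ * Λ * Real.sqrt n) * F) := by
          apply mul_le_mul_of_nonneg_left _ (abs_nonneg _)
          exact mul_le_mul hg' hf5 (Real.sqrt_nonneg _) (by positivity)
      _ = 3 * θ * Λ * (F * (|b| * Real.sqrt n)) := by ring
      _ ≤ 3 * θ * Λ * (F * H) := by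
          apply mul_le_mul_of_nonneg_left _ (by positivity)
          exact mul_le_mul_of_nonneg_left hh4 hF0
  have b4 : |f' ⬝ᵥ (M *ᵥ h')| ≤ θ * Λ * (F * H) := by
    have e1 : Real.sqrt ((M *ᵥ h') ⬝ᵥ (M *ᵥ h')) ≤ θ * Λ * Real.sqrt (h' ⬝ᵥ h') := by
      apply Real.sqrt_le_iff.mpr
      refine ⟨by positivity, ?_⟩
      rw [mul_pow, Real.sq_sqrt (E2_nn h')]
      exact hroot h' hh2
    calc |f' ⬝ᵥ (M *ᵥ h')| ≤ Real.sqrt (f' ⬝ᵥ f') * Real.sqrt ((M *ᵥ h') ⬝ᵥ (M *ᵥ h')) :=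
          E2_cs _ _
      _ ≤ F * (θ * Λ * H) := by
          apply mul_le_mul hf5 _ (Real.sqrt_nonneg _) hF0
          exact e1.trans (mul_le_mul_of_nonneg_left hh5 (by positivity))
      _ = θ * Λ * (F * H) := by ring
  rw [hexp]
  have hFH : 0 ≤ Λ * (F * H) := by positivity
  have hfin : 3 * e * Λ * (F * H) ≤ 3 / 4 * (θ * (Λ * (F * H))) := by
    nlinarith [mul_le_mul_of_nonneg_right he4 hFH]
  have hfin2 : 0 ≤ θ * (Λ * (F * H)) := by positivity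
  rw [abs_le] at b1 b2 b3 b4 ⊢
  constructor <;> nlinarith [b1.1, b1.2, b2.1, b2.2, b3.1, b3.2, b4.1, b4.2]

end Pool.Agent.PERC29
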