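import Mathlib

set_option autoImplicit false
set_option linter.unusedSectionVars false

/-! Rows 29u-F1, 29u-F2: Fourier analysis on a finite abelian group. -/

open Finset

namespace Pool.Agent.PERC29

variable {V : Type*} [Fintype V] [DecidableEq V] [AddCommGroup V]

/-- Powers for the convolution. -/
noncomputable def cp (h : V → ℝ) : ℕ → V → ℝ
  | 0, x => if x = 0 then 1 else 0
  | n + 1, x => ∑ y, cp h n y * h (x - y)

/-- The Fourier transform of an even function (it is real). -/
noncomputable def ft (h : V → ℝ) (χ : AddChar V ℂ) : ℝ := ∑ x, h x * (χ x).re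

private theorem F1_ft (h : V → ℝ) (heven : ∀ x, h (-x) = h x) (χ : AddChar V ℂ) :
    ∑ x, (h x : ℂ) * χ x = (ft h χ : ℂ) := by
  have h1 : ∑ x, (h x : ℂ) * χ x = ∑ x, (h x : ℂ) * (starRingEnd ℂ) (χ x) := by
    rw [← Equiv.sum_comp (Equiv.neg V)]
    refine Finset.sum_congr rfl fun x _ => ?_
    rw [Equiv.neg_apply, heven, AddChar.map_neg_eq_conj]
  have h2 : (2 : ℂ) * ∑ x, (h x : ℂ) * χ x = 2 * (ft h χ : ℂ) := by
    rw [two_mul]
    nth_rewrite 2 [h1]
    rw [← Finset.sum_add_distrib, ft, Complex.ofReal_sum, Finset.mul_sum]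
    refine Finset.sum_congr rfl fun x _ => ?_
    rw [← mul_add, Complex.add_conj, Complex.ofReal_mul]
    push_cast
    ring
  exact mul_left_cancel₀ two_ne_zero h2

private theorem F1_cp (h : V → ℝ) (χ : AddChar V ℂ) (n : ℕ) :
    ∑ x, (cp h n x : ℂ) * χ x = (∑ x, (h x : ℂ) * χ x) ^ n := by
  induction n with
  | zero =>
    simp only [cp, pow_zero]
    rw [Finset.sum_eq_single (0 : V)]
    · simp
    · intro b _ hb
      simp [hb]
    · intro h0
      exact absurd (Finset.mem_univ _) h0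
  | succ n ih =>
    simp only [cp]
    rw [pow_succ, ← ih, Finset.sum_mul_sum]
    calc ∑ x, ((∑ y, cp h n y * h (x - y) : ℝ) : ℂ) * χ x
        = ∑ x, ∑ y, (cp h n y : ℂ) * (h (x - y) : ℂ) * χ x := by
          refine Finset.sum_congr rfl fun x _ => ?_
          push_cast
          rw [Finset.sum_mul]
      _ = ∑ y, ∑ x, (cp h n y : ℂ) * (h (x - y) : ℂ) * χ x := Finset.sum_comm
      _ = _ := by
          refine Finset.sum_congr rfl fun y _ => ?_
          rw [← Equiv.sum_comp (Equiv.addRight y)]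
          refine Finset.sum_congr rfl fun x _ => ?_
          rw [Equiv.coe_addRight, add_sub_cancel_right, AddChar.map_add_eq_mul]
          ring

/-- Row F1. The sum of `ft h χ ^ n` over all characters is `|V|` times the value of the `n`-th convolution power at
`0`, for an even function. Proof: `∑ x, (h x : ℂ) * χ x = ft h χ` (the imaginary part is odd, `χ (-x) = conj (χ x)`);
the transform of `cp h n` is the `n`-th power (induction); orthogonality: `∑ χ, χ x = if x = 0 then |V| else 0`
(`AddChar.sum_apply_eq_ite` and the like). -/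
theorem ft_pow (h : V → ℝ) (heven : ∀ x, h (-x) = h x) (n : ℕ) :
    ∑ χ : AddChar V ℂ, ft h χ ^ n = (Fintype.card V) * cp h n 0 := by
  have key : ((∑ χ : AddChar V ℂ, ft h χ ^ n : ℝ) : ℂ) = (((Fintype.card V) * cp h n 0 : ℝ) : ℂ) := by
    push_cast
    calc ∑ χ : AddChar V ℂ, (ft h χ : ℂ) ^ n = ∑ χ : AddChar V ℂ, ∑ x, (cp h n x : ℂ) * χ x := by
          refine Finset.sum_congr rfl fun χ _ => ?_
          rw [F1_cp, F1_ft h heven]
      _ = ∑ x, ∑ χ : AddChar V ℂ, (cp h n x : ℂ) * χ x := Finset.sum_comm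
      _ = ∑ x, (cp h n x : ℂ) * (if x = 0 then (Fintype.card V : ℂ) else 0) := by
          refine Finset.sum_congr rfl fun x _ => ?_
          rw [← Finset.mul_sum, AddChar.sum_apply_eq_ite]
      _ = _ := by
          rw [Finset.sum_eq_single (0 : V)]
          · rw [if_pos rfl, mul_comm]
          · intro b _ hb
            rw [if_neg hb, mul_zero]
          · intro h0
            exact absurd (Finset.mem_univ _) h0
  exact_mod_cast key

theorem F2_shift (t : V → ℝ) (z : V) (χ : AddChar V ℂ) :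
    ft (fun x => t (x + z) + t (x - z)) χ = 2 * (χ z).re * ft t χ := by
  have h1 : ∑ x, t (x + z) * (χ x).re = ∑ y, t y * (χ (y - z)).re :=
    Fintype.sum_equiv (Equiv.addRight z) _ _ fun x => by
      simp only [Equiv.coe_addRight, add_sub_cancel_right]
  have h2 : ∑ x, t (x - z) * (χ x).re = ∑ y, t y * (χ (y + z)).re :=
    Fintype.sum_equiv (Equiv.subRight z) _ _ fun x => by
      simp only [Equiv.subRight_apply, sub_add_cancel]
  have h3 : ∀ y, (χ (y - z)).re + (χ (y + z)).re = 2 * (χ z).re * (χ y).re := by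
    intro y
    rw [sub_eq_add_neg, AddChar.map_add_eq_mul, AddChar.map_add_eq_mul, AddChar.map_neg_eq_conj,
      Complex.mul_re, Complex.mul_re, Complex.conj_re, Complex.conj_im]
    ring
  unfold ft
  simp only [add_mul, sum_add_distrib]
  rw [h1, h2, ← sum_add_distrib, mul_sum]
  refine sum_congr rfl fun y _ => ?_
  rw [← mul_add, h3]
  ring

theorem F2_one (h : V → ℝ) : ft h 1 = ∑ x, h x := by
  unfold ft
  refine sum_congr rfl fun x _ => ?_
  rw [AddChar.one_apply, Complex.one_re, mul_one]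

theorem F2_re (χ : AddChar V ℂ) (z : V) : |(χ z).re| ≤ 1 := by
  have h := Complex.abs_re_le_norm (χ z)
  rwa [AddChar.norm_apply] at h

/-- Row F2. Proof: let `h x = t (x + z) + t (x - z)`; `h` is even and `ft h χ = 2 (χ z).re * ft t χ` (`t` even), so
`|ft h χ| ≤ 2 ft t χ ≤ 2 ft τ χ` for all `χ`, and `ft h 1 = 2 ∑ t`, `ft τ 1 = ∑ τ` for the trivial character.
Apply `ft_pow` to `h` and to `τ`, separate the trivial character. -/
theorem fourier_trace (t τ : V → ℝ) (z : V) (m : ℕ) (ht : ∀ x, t (-x) = t x) (hτ : ∀ x, τ (-x) = τ x)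
    (hpos : ∀ χ : AddChar V ℂ, 0 ≤ ft t χ) (hle : ∀ χ : AddChar V ℂ, ft t χ ≤ ft τ χ) :
    (Fintype.card V) * cp (fun x => t (x + z) + t (x - z)) (2 * m) 0 ≤
      (2 * ∑ x, t x) ^ (2 * m) +
        4 ^ m * ((Fintype.card V) * cp τ (2 * m) 0 - (∑ x, τ x) ^ (2 * m)) := by
  have heven : ∀ x, (fun x => t (x + z) + t (x - z)) (-x) = (fun x => t (x + z) + t (x - z)) x := by
    intro x
    have e1 : t (-x + z) = t (x - z) := by rw [← ht, neg_add, neg_neg, sub_eq_add_neg]
    have e2 : t (-x - z) = t (x + z) := by rw [← ht, neg_sub, sub_neg_eq_add, add_comm]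
    simp only [e1, e2]
    ring
  rw [← ft_pow _ heven, ← ft_pow _ hτ]
  have hb : ∀ χ : AddChar V ℂ, ft (fun x => t (x + z) + t (x - z)) χ ^ (2 * m)
      ≤ 4 ^ m * ft τ χ ^ (2 * m) := by
    intro χ
    have h1 : |ft (fun x => t (x + z) + t (x - z)) χ| ≤ 2 * ft τ χ := by
      rw [F2_shift, abs_mul, abs_mul, abs_two, abs_of_nonneg (hpos χ)]
      have h2 := F2_re χ z
      have h3 := hpos χ
      have h4 := hle χ
      have h5 : 2 * |(χ z).re| * ft t χ ≤ 2 * 1 * ft t χ :=
        mul_le_mul_of_nonneg_right (by linarith) h3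
      linarith
    have h6 : ft (fun x => t (x + z) + t (x - z)) χ ^ (2 * m)
        = |ft (fun x => t (x + z) + t (x - z)) χ| ^ (2 * m) := by
      rw [pow_mul, pow_mul, sq_abs]
    rw [h6]
    refine (pow_le_pow_left₀ (abs_nonneg _) h1 _).trans (le_of_eq ?_)
    rw [mul_pow, pow_mul 2 2 m]
    norm_num
  rw [← Finset.sum_erase_add _ _ (Finset.mem_univ (1 : AddChar V ℂ)),
    ← Finset.sum_erase_add (Finset.univ : Finset (AddChar V ℂ)) (fun χ => ft τ χ ^ (2 * m))
      (Finset.mem_univ (1 : AddChar V ℂ)), F2_one τ, add_sub_cancel_right]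
  have e1 : ft (fun x => t (x + z) + t (x - z)) 1 = 2 * ∑ x, t x := by
    rw [F2_shift, F2_one, AddChar.one_apply, Complex.one_re, mul_one]
  rw [e1, add_comm]
  exact add_le_add le_rfl ((Finset.sum_le_sum fun χ _ => hb χ).trans (le_of_eq (Finset.mul_sum _ _ _).symm))

end Pool.Agent.PERC29
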