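import Pool.Agent.Lib.MP_29e17e_pr.Rec
import Pool.Agent.Lib.MP_29e17e_pr.U.Cy
import Pool.Agent.Lib.MP_29e17e_pr.U.Fo

set_option autoImplicit false
set_option linter.unusedSectionVars false

/-! Row 29u-F3: the sharp bound for the mean number of long cycles. -/

open Finset

namespace Pool.Agent.PERC29

variable {V : Type*} [Fintype V] [DecidableEq V] [AddCommGroup V] {E : Type*} [Fintype E] [DecidableEq E]
  {ends : E → Sym2 V}

/-- The kernel of the pairs with difference `z` or `-z`. -/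
noncomputable def kz (z : V) (x y : V) : ℝ :=
  (if y = x + z then 1 else 0) + (if y = x - z then 1 else 0)

/-- Translation invariance. -/
private lemma F3_TK {φ : ℕ → ℝ} {p : ℝ}
    (hinv : ∀ x y g : V, TK ends φ p (x + g) (y + g) = TK ends φ p x y) (x y : V) :
    TK ends φ p x y = TK ends φ p 0 (y - x) := by
  have h := hinv 0 (y - x) x
  rw [zero_add, sub_add_cancel] at h
  exact h

/-- The real part of the value of a character at a difference. -/
private lemma F3_re (χ : AddChar V ℂ) (x y : V) :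
    (χ (y - x)).re = (χ x).re * (χ y).re + (χ x).im * (χ y).im := by
  rw [sub_eq_add_neg, AddChar.map_add_eq_mul, AddChar.map_neg_eq_conj, Complex.mul_re,
    Complex.conj_re, Complex.conj_im]
  ring

/-- Row F3. The Fourier transform of a weighted two-point function is not negative: `|V| ft` is the expectation of
`∑ x, ∑ y ∈ cu ω x, φ |cu ω x| Re (χ y * conj (χ x)) = ∑ A ∈ GC ω 0, φ |A| |∑ x ∈ A, χ x|²` (`GC_sum`). -/
lemma ft_TK_nonneg {φ : ℕ → ℝ} {p : ℝ} (h0 : 0 ≤ p) (h1 : p ≤ 1) (hφ0 : ∀ k, 0 ≤ φ k)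
    (hinv : ∀ x y g : V, TK ends φ p (x + g) (y + g) = TK ends φ p x y) (χ : AddChar V ℂ) :
    0 ≤ ft (fun x => TK ends φ p 0 x) χ := by
  have hω : ∀ ω : E → Bool, 0 ≤ ∑ x, ∑ y ∈ cu ends ω x, φ (cu ends ω x).card *
      ((χ x).re * (χ y).re + (χ x).im * (χ y).im) := by
    intro ω
    have e1 : ∑ x, ∑ y ∈ cu ends ω x, φ (cu ends ω x).card *
        ((χ x).re * (χ y).re + (χ x).im * (χ y).im) =
        ∑ A ∈ GC ends ω 0, ∑ x ∈ A, (fun (A : Finset V) (x : V) => ∑ y ∈ A, φ A.card *
          ((χ x).re * (χ y).re + (χ x).im * (χ y).im)) A x := by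
      rw [GC_sum]
      exact Finset.sum_congr rfl fun x _ => by rw [if_pos (cz_nonneg ω x)]
    rw [e1]
    refine Finset.sum_nonneg fun A _ => ?_
    have e2 : ∑ x ∈ A, (fun (A : Finset V) (x : V) => ∑ y ∈ A, φ A.card *
          ((χ x).re * (χ y).re + (χ x).im * (χ y).im)) A x =
        φ A.card * ((∑ x ∈ A, (χ x).re) * (∑ x ∈ A, (χ x).re) +
          (∑ x ∈ A, (χ x).im) * (∑ x ∈ A, (χ x).im)) := by
      rw [Finset.sum_mul_sum, Finset.sum_mul_sum, ← Finset.sum_add_distrib, Finset.mul_sum]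
      refine Finset.sum_congr rfl fun x _ => ?_
      rw [← Finset.sum_add_distrib, Finset.mul_sum]
    rw [e2]
    exact mul_nonneg (hφ0 _) (add_nonneg (mul_self_nonneg _) (mul_self_nonneg _))
  have hE := Ex_nonneg h0 h1 hω
  have e3 : Ex p (fun ω => ∑ x, ∑ y ∈ cu ends ω x, φ (cu ends ω x).card *
      ((χ x).re * (χ y).re + (χ x).im * (χ y).im)) =
      (Fintype.card V) * ft (fun x => TK ends φ p 0 x) χ := by
    rw [Ex_sum]
    have e4 : ∀ x : V, Ex p (fun ω => ∑ y ∈ cu ends ω x, φ (cu ends ω x).card *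
        ((χ x).re * (χ y).re + (χ x).im * (χ y).im)) = ft (fun x => TK ends φ p 0 x) χ := by
      intro x
      have e5 : ∀ ω : E → Bool, ∑ y ∈ cu ends ω x, φ (cu ends ω x).card *
          ((χ x).re * (χ y).re + (χ x).im * (χ y).im) =
          ∑ y, ((χ x).re * (χ y).re + (χ x).im * (χ y).im) *
            (φ (cu ends ω x).card * (if y ∈ cu ends ω x then 1 else 0)) := by
        intro ω
        rw [← Finset.sum_subset (Finset.subset_univ (cu ends ω x))]
        · exact Finset.sum_congr rfl fun y hy => by rw [if_pos hy]; ring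
        · intro y _ hy
          rw [if_neg hy]; ring
      rw [Ex_congr e5, Ex_sum]
      have e6 : ∀ y : V, Ex p (fun ω => ((χ x).re * (χ y).re + (χ x).im * (χ y).im) *
            (φ (cu ends ω x).card * (if y ∈ cu ends ω x then 1 else 0))) =
          TK ends φ p 0 (y - x) * (χ (y - x)).re := by
        intro y
        rw [Ex_mul_left, F3_re, ← F3_TK hinv x y]
        unfold TK
        ring
      rw [Finset.sum_congr rfl fun y _ => e6 y]
      unfold ft
      exact Fintype.sum_equiv (Equiv.subRight x) _ _ fun y => rfl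
    rw [Finset.sum_congr rfl fun x _ => e4 x, Finset.sum_const, Finset.card_univ, nsmul_eq_mul]
  rw [e3] at hE
  have hV : (0 : ℝ) < Fintype.card V := by
    have : 0 < Fintype.card V := Fintype.card_pos_iff.2 ⟨0⟩
    exact_mod_cast this
  exact nonneg_of_mul_nonneg_right hE hV

/-- A sum with the kernel `kz`. -/
private lemma F3_kz (z x : V) (f : V → ℝ) : ∑ y, kz z x y * f y = f (x + z) + f (x - z) := by
  unfold kz
  simp only [add_mul, Finset.sum_add_distrib, ite_mul, one_mul, zero_mul, Finset.sum_ite_eq',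
    Finset.mem_univ, if_true]

/-- One weighted step. -/
private lemma F3_conv (t f : V → ℝ) (z x0 : V) :
    ∑ y, t (y - x0) * (f (y + z) + f (y - z)) =
      ∑ x', f x' * (t (x' - x0 + z) + t (x' - x0 - z)) := by
  have e1 : ∑ y, t (y - x0) * f (y + z) = ∑ x', f x' * t (x' - x0 - z) :=
    Fintype.sum_equiv (Equiv.addRight z) _ _ fun y => by
      change t (y - x0) * f (y + z) = f (y + z) * t (y + z - x0 - z)
      rw [mul_comm]
      congr 2
      abel
  have e2 : ∑ y, t (y - x0) * f (y - z) = ∑ x', f x' * t (x' - x0 + z) :=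
    Fintype.sum_equiv (Equiv.subRight z) _ _ fun y => by
      change t (y - x0) * f (y - z) = f (y - z) * t (y - z - x0 + z)
      rw [mul_comm]
      congr 2
      abel
  simp only [mul_add, Finset.sum_add_distrib]
  rw [e1, e2]
  ring

private lemma F3_HK {φ : ℕ → ℝ} {p : ℝ} (z : V)
    (hinv : ∀ x y g : V, TK ends φ p (x + g) (y + g) = TK ends φ p x y) (n : ℕ) (x0 x1 : V) :
    ∑ y, TK ends φ p x0 y * HK ends (kz z) φ p x1 n y =
      cp (fun x => TK ends φ p 0 (x + z) + TK ends φ p 0 (x - z)) (n + 1) (x1 - x0) := by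
  set t : V → ℝ := fun x => TK ends φ p 0 x with ht
  induction n generalizing x0 with
  | zero =>
    have e1 : ∑ y, TK ends φ p x0 y * HK ends (kz z) φ p x1 0 y =
        ∑ y, t (y - x0) * ((if x1 = y + z then (1 : ℝ) else 0) + (if x1 = y - z then 1 else 0)) := by
      refine Finset.sum_congr rfl fun y _ => ?_
      rw [F3_TK hinv x0 y]
      rfl
    have e2 := F3_conv t (fun y => if x1 = y then (1 : ℝ) else 0) z x0
    rw [e1, e2]
    simp only [ite_mul, one_mul, zero_mul, Finset.sum_ite_eq, Finset.mem_univ, if_true]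
    simp only [cp, ite_mul, one_mul, zero_mul, Finset.sum_ite_eq', Finset.mem_univ, if_true,
      sub_zero, ht]
  | succ n ih =>
    have e1 : ∀ y, TK ends φ p x0 y * HK ends (kz z) φ p x1 (n + 1) y =
        t (y - x0) * (cp (fun x => TK ends φ p 0 (x + z) + TK ends φ p 0 (x - z)) (n + 1)
            (x1 - (y + z)) +
          cp (fun x => TK ends φ p 0 (x + z) + TK ends φ p 0 (x - z)) (n + 1)
            (x1 - (y - z))) := by
      intro y
      rw [F3_TK hinv x0 y, HK]
      congr 1
      rw [F3_kz, ih, ih]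
    rw [Finset.sum_congr rfl fun y _ => e1 y]
    have e2 := F3_conv t (fun y => cp (fun x => TK ends φ p 0 (x + z) + TK ends φ p 0 (x - z))
      (n + 1) (x1 - y)) z x0
    rw [e2]
    change _ = ∑ u, cp (fun x => TK ends φ p 0 (x + z) + TK ends φ p 0 (x - z)) (n + 1) u *
      (TK ends φ p 0 (x1 - x0 - u + z) + TK ends φ p 0 (x1 - x0 - u - z))
    exact Fintype.sum_equiv (Equiv.subLeft x1) _ _ fun y => by
      change _ = cp (fun x => TK ends φ p 0 (x + z) + TK ends φ p 0 (x - z)) (n + 1) (x1 - y) *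
        (TK ends φ p 0 (x1 - x0 - (x1 - y) + z) + TK ends φ p 0 (x1 - x0 - (x1 - y) - z))
      have e3 : x1 - x0 - (x1 - y) = y - x0 := by abel
      rw [e3]

/-- Row F3. `TK φ x y = t (y - x)` with `t = TK φ 0`, `kz` is translation invariant; by induction
`HK (kz z) φ x0 n y = ∑ ..` and the sum over `x0`, `y` is `|V|` times the value at `0` of the `(n+1)`-th convolution
power of `h x = t (x + z) + t (x - z)`. (First show: `∑ y, TK φ x0 y * HK (kz z) φ x1 n y = cp h (n + 1) (x1 - x0)`.)
Similarly `cv ends p n x y = cp τ n (y - x)` with `τ = ta ends p 0`. -/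
lemma HK_cp {φ : ℕ → ℝ} {p : ℝ} (z : V)
    (hinv : ∀ x y g : V, TK ends φ p (x + g) (y + g) = TK ends φ p x y) (n : ℕ) :
    ∑ x0, ∑ y, TK ends φ p x0 y * HK ends (kz z) φ p x0 n y =
      (Fintype.card V) * cp (fun x => TK ends φ p 0 (x + z) + TK ends φ p 0 (x - z)) (n + 1) 0 := by
  rw [Finset.sum_congr rfl fun x0 _ => F3_HK z hinv n x0 x0]
  simp only [sub_self]
  rw [Finset.sum_const, Finset.card_univ, nsmul_eq_mul]

/-- Row F3. -/
lemma cv_cp {p : ℝ} (hinv : ∀ x y g : V, ta ends p (x + g) (y + g) = ta ends p x y) (n : ℕ) (x y : V) :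
    cv ends p n x y = cp (fun x => ta ends p 0 x) n (y - x) := by
  induction n generalizing y with
  | zero =>
    change (if x = y then (1 : ℝ) else 0) = if y - x = 0 then 1 else 0
    exact if_congr (by rw [sub_eq_zero, eq_comm]) rfl rfl
  | succ n ih =>
    change ∑ w, cv ends p n x w * ta ends p w y =
      ∑ u, cp (fun x => ta ends p 0 x) n u * ta ends p 0 (y - x - u)
    exact Fintype.sum_equiv (Equiv.subRight x) _ _ fun w => by
      change _ = cp (fun x => ta ends p 0 x) n (w - x) * ta ends p 0 (y - x - (w - x))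
      have h := hinv 0 (y - w) w
      rw [zero_add, sub_add_cancel] at h
      have e3 : y - x - (w - x) = y - w := by abel
      rw [ih w, e3, h]

/-- The weighted two-point function is symmetric. -/
private lemma F3_symm (φ : ℕ → ℝ) (p : ℝ) (x y : V) : TK ends φ p x y = TK ends φ p y x := by
  unfold TK
  apply Ex_congr
  intro ω
  by_cases h : y ∈ cu ends ω x
  · rw [if_pos h, if_pos (cu_symm.1 h), cu_eq h]
  · rw [if_neg h, if_neg (fun h' => h (cu_symm.1 h')), mul_zero, mul_zero]

private lemma F3_even {φ : ℕ → ℝ} {p : ℝ}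
    (hinv : ∀ x y g : V, TK ends φ p (x + g) (y + g) = TK ends φ p x y) (x : V) :
    TK ends φ p 0 (-x) = TK ends φ p 0 x := by
  have h := hinv 0 (-x) x
  rw [zero_add, neg_add_cancel, F3_symm φ p x 0] at h
  exact h.symm

private lemma F3_ta (p : ℝ) (x y : V) : TK ends (fun _ => 1) p x y = ta ends p x y := by
  unfold TK ta
  exact Ex_congr fun ω => one_mul _

/-- Row F3. Use `ft_TK_nonneg` for `φ` and for `1 - φ` (`ta = TK 1`), `fourier_trace`, `HK_cp` with `n = 2 m - 1`,
`cv_cp`. `∑ y, TK φ 0 y` is the mean of `φ |C| |C|`. -/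
theorem HK_sharp {φ : ℕ → ℝ} {p χ c : ℝ} (h0 : 0 ≤ p) (h1 : p ≤ 1) (z : V) (m : ℕ) (hm : 1 ≤ m)
    (hφ0 : ∀ k, 0 ≤ φ k) (hφ1 : ∀ k, φ k ≤ 1)
    (hinv : ∀ (ψ : ℕ → ℝ) (x y g : V), TK ends ψ p (x + g) (y + g) = TK ends ψ p x y)
    (hχ : Ex p (fun ω => cz ends ω 0) = χ)
    (hc : Ex p (fun ω => φ (cu ends ω 0).card * cz ends ω 0) = c) :
    ∑ x0, ∑ y, TK ends φ p x0 y * HK ends (kz z) φ p x0 (2 * m - 1) y ≤
      (2 * c) ^ (2 * m) + 4 ^ m * ((Fintype.card V) * cv ends p (2 * m) 0 0 - χ ^ (2 * m)) := by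
  have hta : ∀ x y g : V, ta ends p (x + g) (y + g) = ta ends p x y := fun x y g => by
    have h := hinv (fun _ => 1) x y g
    rwa [F3_ta, F3_ta] at h
  have htr := fourier_trace (fun x => TK ends φ p 0 x) (fun x => ta ends p 0 x) z m
    (fun x => F3_even (hinv φ) x)
    (fun x => by
      have h := F3_even (hinv (fun _ => 1)) x
      rwa [F3_ta, F3_ta] at h)
    (fun χ => ft_TK_nonneg h0 h1 hφ0 (hinv φ) χ)
    (fun χ => by
      have h := ft_TK_nonneg h0 h1 (φ := fun k => 1 - φ k) (fun k => sub_nonneg.2 (hφ1 k))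
        (hinv (fun k => 1 - φ k)) χ
      have e1 : ft (fun x => TK ends (fun k => 1 - φ k) p 0 x) χ =
          ft (fun x => ta ends p 0 x) χ - ft (fun x => TK ends φ p 0 x) χ := by
        unfold ft
        rw [← Finset.sum_sub_distrib]
        refine Finset.sum_congr rfl fun x _ => ?_
        have e2 : TK ends (fun k => 1 - φ k) p 0 x = ta ends p 0 x - TK ends φ p 0 x := by
          have e3 : ta ends p 0 x = TK ends (fun k => 1 - φ k) p 0 x + TK ends φ p 0 x := by
            unfold TK ta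
            rw [← Ex_add]
            exact Ex_congr fun ω => by ring
          rw [e3]; ring
        simp only [e2]; ring
      rw [e1] at h
      linarith)
  have e1 : 2 * m - 1 + 1 = 2 * m := by omega
  rw [HK_cp z (hinv φ) (2 * m - 1), e1, cv_cp hta (2 * m) 0 0, sub_zero]
  have e2 : ∑ x, TK ends φ p 0 x = c := by
    unfold TK
    rw [← Ex_sum, ← hc]
    apply Ex_congr
    intro ω
    rw [← Finset.mul_sum]
    unfold cz
    simp
  have e3 : ∑ x, ta ends p 0 x = χ := by
    rw [ta_sum, hχ]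
  rw [e2, e3] at htr
  exact htr

end Pool.Agent.PERC29
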