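import Pool.Agent.Lib.MP_29e17e_pr.U.Mp

set_option autoImplicit false
set_option linter.unusedSectionVars false

/-! Uniqueness and the law of large numbers, in library form. -/

open Finset

namespace Pool.Agent.PERC29

section det

variable {V : Type} [Fintype V] [DecidableEq V] {E : Type} [Fintype E] [DecidableEq E]
  {ends : E → Sym2 V}

open scoped Classical in
/-- The clusters off the giant are small. -/
lemma other_small (ω : E → Bool) (x0 : V) {h' v : ℝ}
    (hv : ((Finset.univ.filter (fun x => x ∉ cu ends ω x0 ∧ h' ≤ cz ends ω x)).card : ℝ) ≤ v)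
    (hh : h' ≤ v) (x : V) (hx : x ∉ cu ends ω x0) : cz ends ω x ≤ v := by
  by_cases h : h' ≤ cz ends ω x
  · have hsub : cu ends ω x ⊆ Finset.univ.filter (fun x => x ∉ cu ends ω x0 ∧ h' ≤ cz ends ω x) := by
      intro y hy
      rw [Finset.mem_filter]
      have e1 : cu ends ω y = cu ends ω x := cu_eq hy
      refine ⟨Finset.mem_univ _, ?_, ?_⟩
      · intro hy0
        apply hx
        have e2 : cu ends ω y = cu ends ω x0 := cu_eq hy0
        rw [← e2, e1]
        exact self_mem_cu ω x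
      · unfold cz
        rw [e1]
        exact h
    refine le_trans ?_ hv
    unfold cz
    exact_mod_cast Finset.card_le_card hsub
  · push Not at h
    linarith

/-- The largest cluster. -/
lemma mxc_eq (ω : E → Bool) (x0 : V) (h : ∀ x, cz ends ω x ≤ cz ends ω x0) :
    mxc ends ω = cz ends ω x0 := by
  apply le_antisymm
  · unfold mxc cz
    rw [Nat.cast_le]
    refine Finset.sup_le fun x _ => ?_
    have := h x
    unfold cz at this
    exact_mod_cast this
  · exact cz_le_mxc ω x0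

end det

lemma lf_le_half {C η : ℝ} (i : ℕ) : lf C η i ≤ 1 / 2 := by
  unfold lf lc
  exact (min_le_left _ _).trans ((min_le_left _ _).trans (min_le_right _ _))

open scoped Classical in
/-- Chebyshev for a sum with known mean. -/
lemma cheb_mean {E : Type} [Fintype E] [DecidableEq E] {q : ℝ} (h0 : 0 ≤ q) (h1 : q ≤ 1)
    (Y : (E → Bool) → ℝ) (t S : ℝ) (ht : 0 < t) (hS : Ex q (fun ω => Y ω ^ 2) - (Ex q Y) ^ 2 ≤ S) :
    Ex q (fun ω => if t ≤ |Y ω - Ex q Y| then (1 : ℝ) else 0) ≤ S / t ^ 2 := by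
  set μ : ℝ := Ex q Y with hμ
  have hpt : ∀ ω, (if t ≤ |Y ω - μ| then (1 : ℝ) else 0) ≤
      (1 / t ^ 2) * (Y ω ^ 2 + ((-(2 * μ)) * Y ω + μ ^ 2)) := by
    intro ω
    have e : Y ω ^ 2 + ((-(2 * μ)) * Y ω + μ ^ 2) = (Y ω - μ) ^ 2 := by ring
    rw [e]
    split_ifs with h
    · rw [one_div, ← div_eq_inv_mul, le_div_iff₀ (by positivity), one_mul, ← sq_abs (Y ω - μ)]
      exact pow_le_pow_left₀ ht.le h 2
    · positivity
  refine (Ex_mono h0 h1 hpt).trans ?_
  rw [Ex_mul_left, Ex_add, Ex_add, Ex_mul_left, Ex_const, ← hμ]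
  rw [one_div, ← div_eq_inv_mul]
  refine div_le_div_of_nonneg_right ?_ (by positivity)
  linarith

open scoped Classical in
/-- Uniqueness of the giant and the law of large numbers, in library form. -/
theorem giant_lib (i : ℕ) (hi : 1 ≤ i) {C η : ℝ} (hC : 1 ≤ C) (hη : 0 < η) (hη1 : η ≤ 1) :
    ∃ c0 : ℝ, 0 < c0 ∧ ∀ L : ℝ, 1 ≤ L → ∃ δ γ : ℝ, 0 < δ ∧ 0 < γ ∧ ∀ r D : ℕ, 1 ≤ D →
      ∃ ξ : ℝ, 0 < ξ ∧ ξ ≤ 1 ∧
      ∀ (V E : Type) [Fintype V] [DecidableEq V] [AddCommGroup V] [Fintype E] [DecidableEq E]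
        (ends : E → Sym2 V) (p q χ : ℝ) (z : V) (w : ℕ → V), HypU ends p q χ C L D →
        HypZ ends p χ C δ γ i r D z w → p + 1 / (c0 * D * χ) ≤ q →
        χ ^ 3 ≤ ξ * (Fintype.card V) → 1 ≤ ξ * Real.sqrt χ →
        Ex q (fun ω => if ∃ x y, y ∉ cu ends ω x ∧ η * (Fintype.card V) / χ ≤ cz ends ω x ∧
          η * (Fintype.card V) / χ ≤ cz ends ω y then (1 : ℝ) else 0) ≤ η ∧
        ∃ m : ℝ, c0 * (Fintype.card V) / χ ≤ m ∧
          Ex q (fun ω => if |mxc ends ω - m| ≤ η * m then (0 : ℝ) else 1) ≤ η := by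
  set η1 : ℝ := η / 8 with hη1def
  have hη10 : 0 < η1 := by positivity
  have hη11 : η1 ≤ 1 := by rw [hη1def]; linarith
  set c1 : ℝ := lf C η1 i with hc1
  have hc10 : 0 < c1 := lf_pos hC i
  have hc1h : c1 ≤ 1 / 2 := lf_le_half i
  refine ⟨c1 / 2, by positivity, ?_⟩
  intro L hL
  set ζ : ℝ := η * c1 / 16 with hζ
  have hζ0 : 0 < ζ := by positivity
  have hζc : ζ ≤ c1 / 16 := by
    rw [hζ]
    have : η * c1 ≤ 1 * c1 := mul_le_mul_of_nonneg_right hη1 hc10.le
    linarith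
  have hζη : ζ ≤ η / 32 := by
    rw [hζ]
    have : η * c1 ≤ η * (1 / 2) := mul_le_mul_of_nonneg_left hc1h hη.le
    linarith
  obtain ⟨δ, γ, hδ, hγ, hmc⟩ := mc_prob i hi (C := C) (η := η1) (ζ := ζ) (L := L) hC hη10 hη11 hL hζ0
    (by rw [← hc1]; linarith)
  refine ⟨δ, γ, hδ, hγ, ?_⟩
  intro r D hD
  obtain ⟨h, ξ1, hh1, hξ1, hξ1', hmc2⟩ := hmc r D hD
  have hh0 : 0 < h := by linarith
  have hC0 : 0 < C := by linarith
  have hL0 : 0 < L := by linarith
  set M' : ℝ := (3 * C * Real.sqrt h + 2 * C * L * h) / (ζ * η1) + 1 with hM'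
  have hM'1 : 1 ≤ M' := by
    have : 0 ≤ (3 * C * Real.sqrt h + 2 * C * L * h) / (ζ * η1) := by positivity
    linarith
  have hM'0 : 0 < M' := by linarith
  set K8 : ℝ := 3 * C * Real.sqrt M' + 2 * C * L * M' with hK8
  have hK80 : 0 < K8 := by positivity
  set K9 : ℝ := K8 + C * K8 ^ 3 / M' with hK9
  have hK90 : 0 < K9 := by positivity
  set ξ : ℝ := min (min ξ1 (ζ / M')) (min (ζ / h) (η1 * ζ ^ 2 / K9)) with hξ
  have hξ0 : 0 < ξ := lt_min (lt_min hξ1 (by positivity)) (lt_min (by positivity) (by positivity))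
  have x1 : ξ ≤ ξ1 := (min_le_left _ _).trans (min_le_left _ _)
  have x2 : ξ ≤ ζ / M' := (min_le_left _ _).trans (min_le_right _ _)
  have x3 : ξ ≤ ζ / h := (min_le_right _ _).trans (min_le_left _ _)
  have x4 : ξ ≤ η1 * ζ ^ 2 / K9 := (min_le_right _ _).trans (min_le_right _ _)
  refine ⟨ξ, hξ0, x1.trans hξ1', ?_⟩
  intro V E _ _ _ _ _ ends p q χ z w H Z hlow hξV hξχ
  have hN0 : (0 : ℝ) < (Fintype.card V) := by
    have : 0 < Fintype.card V := Fintype.card_pos_iff.2 ⟨0⟩
    exact_mod_cast this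
  have hs0 : 0 ≤ Real.sqrt χ := Real.sqrt_nonneg _
  have hχ1 := H.hχ1
  have hχ0 : 0 < χ := by linarith
  have hq0 : 0 ≤ q := by linarith [H.h0, H.hpq]
  have hq1 : q ≤ 1 := H.hq.le
  have hPM := hmc2 V E ends p q χ z w H Z hlow
    (hξV.trans (mul_le_mul_of_nonneg_right x1 hN0.le))
    (hξχ.trans (mul_le_mul_of_nonneg_right x1 hs0))
  set N : ℝ := (Fintype.card V : ℝ) with hN
  set T : ℝ := ζ * N / χ with hT
  have hT0 : 0 < T := by positivity
  set m1 : ℝ := c1 * N / χ with hm1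
  have hT1 : 16 * T ≤ m1 := by
    have e1 : 16 * T = (16 * ζ) * (N / χ) := by rw [hT]; ring
    have e2 : m1 = c1 * (N / χ) := by rw [hm1]; ring
    rw [e1, e2]
    exact mul_le_mul_of_nonneg_right (by linarith) (by positivity)
  have hTη : 32 * T ≤ η * N / χ := by
    have e1 : 32 * T = (32 * ζ) * (N / χ) := by rw [hT]; ring
    have e2 : η * N / χ = η * (N / χ) := by ring
    rw [e1, e2]
    exact mul_le_mul_of_nonneg_right (by linarith) (by positivity)
  have key : ∀ K : ℝ, 0 < K → ξ ≤ ζ / K → K * χ ^ 2 ≤ T := by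
    intro K hK hKξ
    rw [le_div_iff₀ hK] at hKξ
    rw [hT, le_div_iff₀ hχ0]
    have e1 : K * χ ^ 2 * χ = K * χ ^ 3 := by ring
    rw [e1]
    calc K * χ ^ 3 ≤ K * (ξ * N) := mul_le_mul_of_nonneg_left hξV hK.le
      _ = (ξ * K) * N := by ring
      _ ≤ ζ * N := mul_le_mul_of_nonneg_right hKξ hN0.le
  have hhT : h * χ ^ 2 ≤ T := key h hh0 x3
  have hMT : M' * χ ^ 2 ≤ T := key M' hM'0 x2
  -- the magnetisation
  set g : ℝ := 1 / (M' * χ ^ 2) with hg
  have hMχ : 1 ≤ M' * χ ^ 2 := by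
    have : (1 : ℝ) ≤ χ ^ 2 := one_le_pow₀ hχ1
    exact one_le_mul_of_one_le_of_one_le hM'1 this
  have hg0 : 0 < g := by positivity
  have hg1 : g ≤ 1 := by rw [hg, div_le_one (by positivity)]; exact hMχ
  have hginv : 1 / g = M' * χ ^ 2 := by rw [hg]; simp
  set Y : (E → Bool) → ℝ := fun ω => ∑ x, mg ends g x ω with hY
  set μ : ℝ := Ex q Y with hμ
  have hsqrt : ∀ K : ℝ, 0 < K → Real.sqrt (K * χ ^ 2) = Real.sqrt K * χ := by
    intro K hK
    rw [Real.sqrt_mul hK.le, Real.sqrt_sq hχ0.le]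
  have hmm : ∀ y, Ex q (fun ω => min (cz ends ω y) (1 / g)) ≤ K8 * χ := by
    intro y
    rw [hginv]
    refine (H.mn y hMχ).trans (le_of_eq ?_)
    rw [hsqrt M' hM'0, hK8]
    field_simp
  have hMq : ∀ y, Ex q (mg ends g y) ≤ K8 / (M' * χ) := by
    intro y
    rw [hg]
    refine (H.mgq y hMχ).trans (le_of_eq ?_)
    rw [hsqrt M' hM'0, hK8]
    field_simp
  have hμs : μ = ∑ x, Ex q (mg ends g x) := by
    rw [hμ, hY, Ex_sum]
  have hvar := var_mg (ends := ends) (q := q) (g := g) (M := K8 / (M' * χ)) (m := K8 * χ) (W := D)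
    hq0 hq1 hg0 hg1 hMq hmm H.hdeg
  have hvar2 : Ex q (fun ω => Y ω ^ 2) - μ ^ 2 ≤ N * χ * K9 := by
    rw [hμs]
    refine hvar.trans ?_
    have e1 : q * D * (K8 * χ) ^ 2 * (K8 / (M' * χ)) ≤ C * (K8 * χ) ^ 2 * (K8 / (M' * χ)) := by
      refine mul_le_mul_of_nonneg_right ?_ (by positivity)
      exact mul_le_mul_of_nonneg_right H.hqD (by positivity)
    have e2 : C * (K8 * χ) ^ 2 * (K8 / (M' * χ)) = χ * (C * K8 ^ 3 / M') := by
      field_simp
    have e3 : N * χ * K9 = N * (K8 * χ + χ * (C * K8 ^ 3 / M')) := by rw [hK9]; ring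
    rw [e3]
    refine mul_le_mul_of_nonneg_left ?_ hN0.le
    linarith
  have PV : Ex q (fun ω => if T ≤ |Y ω - μ| then (1 : ℝ) else 0) ≤ η1 := by
    refine (cheb_mean hq0 hq1 Y T (N * χ * K9) hT0 hvar2).trans ?_
    rw [div_le_iff₀ (by positivity)]
    have e1 : η1 * T ^ 2 = (η1 * ζ ^ 2) * (N ^ 2 / χ ^ 2) := by rw [hT]; ring
    rw [e1]
    rw [le_div_iff₀ hK90] at x4
    have e2 : ξ * K9 * (N ^ 2 / χ ^ 2) ≤ η1 * ζ ^ 2 * (N ^ 2 / χ ^ 2) :=
      mul_le_mul_of_nonneg_right x4 (by positivity)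
    refine le_trans ?_ e2
    have e3 : ξ * K9 * (N ^ 2 / χ ^ 2) = (ξ * N) * (K9 * N / χ ^ 2) := by ring
    rw [e3]
    have e4 : N * χ * K9 = χ ^ 3 * (K9 * N / χ ^ 2) := by
      field_simp
    rw [e4]
    exact mul_le_mul_of_nonneg_right hξV (by positivity)
  -- the small clusters
  set h' : ℝ := h * χ ^ 2 with hh'
  have hh'1 : 1 ≤ h' := by
    have : (1 : ℝ) ≤ χ ^ 2 := one_le_pow₀ hχ1
    rw [hh']; exact one_le_mul_of_one_le_of_one_le hh1 this
  have PS : Ex q (fun ω => if T < g * ∑ x, min (cz ends ω x) h' then (1 : ℝ) else 0) ≤ η1 := by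
    refine (mark hq0 hq1 (fun ω => g * ∑ x, min (cz ends ω x) h') T hT0 (fun ω => ?_)).trans ?_
    · exact mul_nonneg hg0.le (Finset.sum_nonneg fun x _ => le_min (cz_nonneg _ _) (by linarith))
    rw [div_le_iff₀ hT0, Ex_mul_left, Ex_sum]
    have e1 : ∑ x, Ex q (fun ω => min (cz ends ω x) h') ≤
        N * ((3 * C * Real.sqrt h + 2 * C * L * h) * χ) := by
      calc _ ≤ ∑ _x : V, (3 * C * Real.sqrt h + 2 * C * L * h) * χ := by
            refine Finset.sum_le_sum fun x _ => ?_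
            refine (H.mn x hh'1).trans (le_of_eq ?_)
            rw [hh', hsqrt h hh0]
            field_simp
        _ = _ := by rw [Finset.sum_const, Finset.card_univ, nsmul_eq_mul]
    have e2 : g * ∑ x, Ex q (fun ω => min (cz ends ω x) h') ≤
        g * (N * ((3 * C * Real.sqrt h + 2 * C * L * h) * χ)) := mul_le_mul_of_nonneg_left e1 hg0.le
    refine e2.trans ?_
    have e3 : g * (N * ((3 * C * Real.sqrt h + 2 * C * L * h) * χ)) =
        (3 * C * Real.sqrt h + 2 * C * L * h) / M' * (N / χ) := by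
      rw [hg]; field_simp
    rw [e3]
    have e4 : (3 * C * Real.sqrt h + 2 * C * L * h) / M' ≤ η1 * ζ := by
      rw [div_le_iff₀ hM'0]
      have : η1 * ζ * M' = (3 * C * Real.sqrt h + 2 * C * L * h) + η1 * ζ := by
        rw [hM']; field_simp
      rw [this]
      have : 0 < η1 * ζ := by positivity
      linarith
    have e5 : η1 * T = η1 * ζ * (N / χ) := by rw [hT]; ring
    rw [e5]
    exact mul_le_mul_of_nonneg_right e4 (by positivity)
  -- consequences
  have cons : ∀ ω, MC ends ω m1 h' (3 * T) →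
      (¬ ∃ x y, y ∉ cu ends ω x ∧ η * N / χ ≤ cz ends ω x ∧ η * N / χ ≤ cz ends ω y) ∧
      m1 ≤ mxc ends ω ∧ (¬ T ≤ |Y ω - μ| → ¬ T < g * ∑ x, min (cz ends ω x) h' →
        |mxc ends ω - μ| ≤ 5 * T) := by
    rintro ω ⟨x0, hx0, hv⟩
    have hos := other_small (ends := ends) ω x0 hv (by linarith)
    have hmx : mxc ends ω = cz ends ω x0 := by
      apply mxc_eq
      intro x
      by_cases hx : x ∈ cu ends ω x0
      · have e1 : cu ends ω x = cu ends ω x0 := cu_eq hx
        unfold cz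
        rw [e1]
      · have := hos x hx
        linarith
    refine ⟨?_, by rw [hmx]; exact hx0, ?_⟩
    · rintro ⟨x, y, hxy, hx, hy⟩
      by_cases hxx : x ∈ cu ends ω x0
      · have hyy : y ∉ cu ends ω x0 := by
          intro hy0
          apply hxy
          rw [cu_eq hxx]
          exact hy0
        have := hos y hyy
        linarith
      · have := hos x hxx
        linarith
    · intro h1 h2
      have hs := mg_sum (ends := ends) ω x0 (g := g) (h' := h') hg0 hg1 (by linarith)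
      rw [hginv] at hs
      rw [hmx]
      push Not at h1 h2
      rw [abs_lt] at h1
      have hs1 : cz ends ω x0 - M' * χ ^ 2 ≤ Y ω := hs.1
      have hs2 : Y ω ≤ cz ends ω x0 +
        ((Finset.univ.filter (fun x => x ∉ cu ends ω x0 ∧ h' ≤ cz ends ω x)).card : ℝ) +
        g * ∑ x, min (cz ends ω x) h' := hs.2
      rw [abs_le]
      constructor
      · linarith [h1.1]
      · linarith [h1.2]
  -- the lower bound for `μ`
  have hPM' : Ex q (fun ω => if MC ends ω m1 h' (3 * T) then (0 : ℝ) else 1) ≤ 5 * η1 := hPM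
  have hμ0 : c1 / 2 * N / χ ≤ μ := by
    by_contra hcon
    push Not at hcon
    have hpt : ∀ ω, (1 : ℝ) ≤ (if MC ends ω m1 h' (3 * T) then (0 : ℝ) else 1) +
        ((if T ≤ |Y ω - μ| then (1 : ℝ) else 0) +
          (if T < g * ∑ x, min (cz ends ω x) h' then (1 : ℝ) else 0)) := by
      intro ω
      by_cases g1 : MC ends ω m1 h' (3 * T)
      · by_cases g2 : T ≤ |Y ω - μ|
        · rw [if_pos g2]
          split_ifs <;> norm_num
        · by_cases g3 : T < g * ∑ x, min (cz ends ω x) h'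
          · rw [if_pos g3]
            split_ifs <;> norm_num
          · exfalso
            obtain ⟨-, k1, k2⟩ := cons ω g1
            have k3 := k2 g2 g3
            rw [abs_le] at k3
            have e1 : c1 / 2 * N / χ = m1 / 2 := by rw [hm1]; ring
            rw [e1] at hcon
            linarith [k3.2]
      · rw [if_neg g1]
        split_ifs <;> norm_num
    have h1 := Ex_mono hq0 hq1 hpt
    rw [Ex_const, Ex_add, Ex_add] at h1
    have : 7 * η1 < 1 := by rw [hη1def]; linarith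
    linarith
  refine ⟨?_, μ, hμ0, ?_⟩
  · refine (Ex_mono hq0 hq1 (g := fun ω => if MC ends ω m1 h' (3 * T) then (0 : ℝ) else 1)
      fun ω => ?_).trans ?_
    · by_cases g1 : MC ends ω m1 h' (3 * T)
      · rw [if_neg (cons ω g1).1, if_pos g1]
      · rw [if_neg g1]
        split_ifs <;> norm_num
    · have : 5 * η1 ≤ η := by rw [hη1def]; linarith
      linarith
  · have h5 : 5 * T ≤ η * μ := by
      have e1 : η * (c1 / 2 * N / χ) ≤ η * μ := mul_le_mul_of_nonneg_left hμ0 hη.le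
      have e2 : η * (c1 / 2 * N / χ) = 8 * T := by rw [hT, hζ]; ring
      linarith
    have hpt : ∀ ω, (if |mxc ends ω - μ| ≤ η * μ then (0 : ℝ) else 1) ≤
        (if MC ends ω m1 h' (3 * T) then (0 : ℝ) else 1) +
        ((if T ≤ |Y ω - μ| then (1 : ℝ) else 0) +
          (if T < g * ∑ x, min (cz ends ω x) h' then (1 : ℝ) else 0)) := by
      intro ω
      by_cases g1 : MC ends ω m1 h' (3 * T)
      · by_cases g2 : T ≤ |Y ω - μ|
        · rw [if_pos g2]
          split_ifs <;> norm_num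
        · by_cases g3 : T < g * ∑ x, min (cz ends ω x) h'
          · rw [if_pos g3]
            split_ifs <;> norm_num
          · have k3 := (cons ω g1).2.2 g2 g3
            rw [if_pos (k3.trans h5), if_pos g1, if_neg g2, if_neg g3]
            norm_num
      · rw [if_neg g1]
        split_ifs <;> norm_num
    refine (Ex_mono hq0 hq1 hpt).trans ?_
    rw [Ex_add, Ex_add]
    have : 7 * η1 ≤ η := by rw [hη1def]; linarith
    linarith

end Pool.Agent.PERC29
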