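import Pool.Agent.Lib.MP_29e17e_pr.U.Cy
import Pool.Agent.Lib.MP_29e17e_pr.Sec
import Pool.Agent.Lib.MP_29e17e_pr.Rec

set_option autoImplicit false
set_option linter.unusedSectionVars false

/-! Rows 29u-M1 .. 29u-M4: truncated first and second moments, for a general kernel `κ` and the weights `Fn a |A|`. -/

open Finset

namespace Pool.Agent.PERC29

variable {V : Type*} [Fintype V] [DecidableEq V] {E : Type*} [Fintype E] [DecidableEq E]
  {ends : E → Sym2 V}

open scoped Classical in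
/-- The clusters with at least `a` and at most `b` vertices. -/
noncomputable def GCb (ends : E → Sym2 V) (ω : E → Bool) (a b : ℝ) : Finset (Finset V) :=
  (GC ends ω a).filter (fun A => (A.card : ℝ) ≤ b)

open scoped Classical in
/-- The weighted number of pairs. -/
noncomputable def Xk (κ : V → V → ℝ) (a : ℝ) (s : Finset (Finset V)) : ℝ :=
  ∑ A ∈ s, ∑ B ∈ s, if A = B then 0 else Fn a A.card * (NK κ A B * Fn a B.card)

/-- The weighted number of vertices. -/
noncomputable def Yk (a : ℝ) (s : Finset (Finset V)) : ℝ := ∑ A ∈ s, Fn a A.card * A.card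

open scoped Classical in
/-- The degree of a cluster. -/
noncomputable def dgK (κ : V → V → ℝ) (s : Finset (Finset V)) (A : Finset V) : ℝ :=
  ∑ B ∈ s, if A = B then 0 else NK κ A B

open scoped Classical in
/-- The number of cycles of length `n + 1`. -/
noncomputable def ccK (ends : E → Sym2 V) (κ : V → V → ℝ) (ω : E → Bool) (a : ℝ) (n : ℕ) : ℝ :=
  ∑ A ∈ GC ends ω a, pth (NK κ) n ((GC ends ω a).erase A) A A

open scoped Classical in
/-- Sums over pairs of distinct clusters with weights. -/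
private lemma M1_sum2 (ω : E → Bool) (a : ℝ) (κ : V → V → ℝ) (F G : Finset V → ℝ) :
    ∑ A ∈ GC ends ω a, ∑ B ∈ GC ends ω a, (if A = B then 0 else F A * (NK κ A B * G B)) =
      ∑ x, ∑ y, κ x y * ((if y ∈ cu ends ω x then 0 else 1) *
        ((if a ≤ cz ends ω x then F (cu ends ω x) else 0) *
          (if a ≤ cz ends ω y then G (cu ends ω y) else 0))) := by
  have e1 : ∀ A, ∑ B ∈ GC ends ω a, (if A = B then 0 else F A * (NK κ A B * G B)) =
      ∑ x ∈ A, ∑ B ∈ GC ends ω a, ∑ y ∈ B, (if A = B then 0 else F A * (κ x y * G B)) := by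
    intro A
    rw [Finset.sum_comm]
    refine Finset.sum_congr rfl fun B _ => ?_
    by_cases h : A = B
    · simp [h]
    · simp only [if_neg h, NK]
      rw [Finset.sum_mul, Finset.mul_sum]
      refine Finset.sum_congr rfl fun x _ => ?_
      rw [Finset.sum_mul, Finset.mul_sum]
  rw [Finset.sum_congr rfl fun A _ => e1 A,
    GC_sum ω a (fun A x => ∑ B ∈ GC ends ω a, ∑ y ∈ B,
      (if A = B then 0 else F A * (κ x y * G B)))]
  refine Finset.sum_congr rfl fun x _ => ?_
  by_cases hx : a ≤ cz ends ω x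
  · rw [if_pos hx, GC_sum ω a (fun B y => if cu ends ω x = B then 0 else
      F (cu ends ω x) * (κ x y * G B))]
    refine Finset.sum_congr rfl fun y _ => ?_
    by_cases hy : a ≤ cz ends ω y
    · have h3 : cu ends ω x = cu ends ω y ↔ y ∈ cu ends ω x := by
        constructor
        · intro h; rw [h]; exact self_mem_cu ω y
        · intro h; exact (cu_eq h).symm
      rw [if_pos hy, if_pos hx, if_pos hy]
      by_cases h : y ∈ cu ends ω x
      · rw [if_pos (h3.2 h), if_pos h]; ring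
      · rw [if_neg (fun h2 => h (h3.1 h2)), if_neg h]; ring
    · rw [if_neg hy, if_neg hy]; ring
  · rw [if_neg hx]
    symm
    apply Finset.sum_eq_zero
    intro y _
    rw [if_neg hx]; ring

private lemma M1_Fn_ite (a k : ℝ) (c : ℝ) : (if a ≤ k then Fn a k * c else 0) = Fn a k * c := by
  split_ifs with h
  · rfl
  · have : Fn a k = 0 := by
      unfold Fn
      exact max_eq_right (by linarith)
    rw [this, zero_mul]

private lemma M1_NK_symm {κ : V → V → ℝ} (hs : ∀ x y, κ x y = κ y x) (A B : Finset V) :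
    NK κ A B = NK κ B A := by
  unfold NK
  rw [Finset.sum_comm]
  exact Finset.sum_congr rfl fun y _ => Finset.sum_congr rfl fun x _ => hs x y

private lemma M1_NK_nonneg {κ : V → V → ℝ} (hκ : ∀ x y, 0 ≤ κ x y) (A B : Finset V) :
    0 ≤ NK κ A B :=
  Finset.sum_nonneg fun x _ => Finset.sum_nonneg fun y _ => hκ x y

private lemma M1_Fn_le {a b k : ℝ} (ha : 0 ≤ a) (hb : 0 < b) (hk : 0 ≤ k) :
    Fn a k * (if k ≤ b then 0 else 1) ≤ k ^ 2 / b := by
  split_ifs with h
  · rw [mul_zero]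
    positivity
  · rw [mul_one, le_div_iff₀ hb]
    have h1 : Fn a k ≤ k := by
      unfold Fn
      exact max_le (by linarith) hk
    have h2 : b ≤ k := (not_le.1 h).le
    rw [pow_two]
    exact mul_le_mul h1 h2 hb.le hk

/-- A symmetric sum that is not negative. -/
private lemma M1_split (S : Finset (Finset V)) (P : Finset V → Prop) [DecidablePred P]
    (T : Finset V → Finset V → ℝ) (hT : ∀ A B, 0 ≤ T A B) (hs : ∀ A B, T A B = T B A) :
    ∑ A ∈ S, ∑ B ∈ S, T A B - 2 * ∑ A ∈ S, ∑ B ∈ S, (if P A then 0 else T A B) ≤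
      ∑ A ∈ S.filter P, ∑ B ∈ S.filter P, T A B := by
  have h1 : ∑ A ∈ S.filter P, ∑ B ∈ S.filter P, T A B =
      ∑ A ∈ S, ∑ B ∈ S, (if P A then (if P B then T A B else 0) else 0) := by
    rw [Finset.sum_filter]
    refine Finset.sum_congr rfl fun A _ => ?_
    split_ifs with h
    · rw [Finset.sum_filter]
    · rw [Finset.sum_const_zero]
  have h2 : ∑ A ∈ S, ∑ B ∈ S, (if P A then 0 else T A B) =
      ∑ A ∈ S, ∑ B ∈ S, (if P B then 0 else T A B) := by
    rw [Finset.sum_comm]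
    refine Finset.sum_congr rfl fun A _ => Finset.sum_congr rfl fun B _ => ?_
    rw [hs]
  have h3 : 2 * ∑ A ∈ S, ∑ B ∈ S, (if P A then 0 else T A B) =
      ∑ A ∈ S, ∑ B ∈ S, ((if P A then 0 else T A B) + (if P B then 0 else T A B)) := by
    rw [two_mul]
    nth_rw 2 [h2]
    rw [← Finset.sum_add_distrib]
    exact Finset.sum_congr rfl fun A _ => by rw [← Finset.sum_add_distrib]
  rw [h1, h3, ← Finset.sum_sub_distrib]
  refine Finset.sum_le_sum fun A _ => ?_
  rw [← Finset.sum_sub_distrib]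
  refine Finset.sum_le_sum fun B _ => ?_
  have := hT A B
  split_ifs <;> linarith

/-- Row M1. Proof. Pointwise: `Xk κ a (GCb) ≥ ∑_{A ≠ B in GC} F_A N_AB F_B - 2 ∑_{A in GC, |A| > b} ∑_{B in GC, B ≠ A} F_A N_AB F_B`
(`F = Fn a |·|`, `NK` is symmetric). Both sums are sums over pairs of vertices (as `GC_sum2` with the weights, or `GC_sum`
twice; `Fn a k = 0` for `k ≤ a`), and by `two` (with `Φ A = Fn a |A| * 1[|A| > b]`, `h A = Fn a |A|`) the mean of the
second one is at most `∑ x, ∑ y, κ x y * (ν / b) * cg`, since `Fn a k * 1[k > b] ≤ k ^ 2 / b`. -/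
lemma Xk_mean {κ : V → V → ℝ} {p a b cg ν W : ℝ} (h0 : 0 ≤ p) (h1 : p ≤ 1) (ha : 0 ≤ a) (hb : 0 < b)
    (hκ : ∀ x y, 0 ≤ κ x y) (hs : ∀ x y, κ x y = κ y x) (hW : ∀ x, ∑ y, κ x y ≤ W)
    (hc : ∀ x, Ex p (fun ω => Fn a (cz ends ω x)) = cg)
    (hν : ∀ x, Ex p (fun ω => cz ends ω x ^ 2) ≤ ν) :
    ∑ x, ∑ y, κ x y * Ex p (fun ω => (if y ∈ cu ends ω x then 0 else 1) *
        (Fn a (cz ends ω x) * Fn a (cz ends ω y))) -
        2 * ((Fintype.card V) * (W * (cg * (ν / b)))) ≤
      Ex p (fun ω => Xk κ a (GCb ends ω a b)) := by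
  classical
  have hpt : ∀ ω : E → Bool, ∑ x, ∑ y, κ x y * ((if y ∈ cu ends ω x then (0 : ℝ) else 1) *
        (Fn a (cz ends ω x) * Fn a (cz ends ω y))) -
        2 * ∑ x, ∑ y, κ x y * ((if y ∈ cu ends ω x then (0 : ℝ) else 1) *
          ((Fn a (cz ends ω x) * (if cz ends ω x ≤ b then 0 else 1)) * Fn a (cz ends ω y))) ≤
        Xk κ a (GCb ends ω a b) := by
    intro ω
    have h := M1_split (GC ends ω a) (fun A => (A.card : ℝ) ≤ b)
      (fun A B => if A = B then 0 else Fn a A.card * (NK κ A B * Fn a B.card))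
      (fun A B => by
        split_ifs
        · exact le_rfl
        · exact mul_nonneg (Fn_nonneg _ _) (mul_nonneg (M1_NK_nonneg hκ _ _) (Fn_nonneg _ _)))
      (fun A B => by
        by_cases hAB : A = B
        · rw [if_pos hAB, if_pos hAB.symm]
        · rw [if_neg hAB, if_neg (Ne.symm hAB), M1_NK_symm hs A B]; ring)
    have e1 := M1_sum2 (ends := ends) ω a κ (fun A => Fn a A.card) (fun A => Fn a A.card)
    have e2 := M1_sum2 (ends := ends) ω a κ
      (fun A => Fn a A.card * (if (A.card : ℝ) ≤ b then 0 else 1)) (fun A => Fn a A.card)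
    have e3 : ∀ A B : Finset V, (if (A.card : ℝ) ≤ b then (0 : ℝ) else
        (if A = B then 0 else Fn a A.card * (NK κ A B * Fn a B.card))) =
        if A = B then 0 else (Fn a A.card * (if (A.card : ℝ) ≤ b then 0 else 1)) *
          (NK κ A B * Fn a B.card) := by
      intro A B
      split_ifs <;> ring
    rw [Finset.sum_congr rfl fun A _ => Finset.sum_congr rfl fun B _ => e3 A B, e1, e2] at h
    have e4 : ∀ x : V, (if a ≤ cz ends ω x then Fn a ((cu ends ω x).card : ℝ) else 0) =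
        Fn a (cz ends ω x) := by
      intro x
      have := M1_Fn_ite a (cz ends ω x) 1
      rw [mul_one] at this
      exact this
    have e5 : ∀ x : V, (if a ≤ cz ends ω x then Fn a ((cu ends ω x).card : ℝ) *
        (if ((cu ends ω x).card : ℝ) ≤ b then 0 else 1) else 0) =
        Fn a (cz ends ω x) * (if cz ends ω x ≤ b then 0 else 1) :=
      fun x => M1_Fn_ite a (cz ends ω x) _
    simp only [e4, e5] at h
    exact h
  have hE := Ex_mono h0 h1 hpt
  have e6 : Ex p (fun ω => ∑ x, ∑ y, κ x y * ((if y ∈ cu ends ω x then (0 : ℝ) else 1) *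
        (Fn a (cz ends ω x) * Fn a (cz ends ω y))) -
        2 * ∑ x, ∑ y, κ x y * ((if y ∈ cu ends ω x then (0 : ℝ) else 1) *
          ((Fn a (cz ends ω x) * (if cz ends ω x ≤ b then 0 else 1)) * Fn a (cz ends ω y)))) =
      ∑ x, ∑ y, κ x y * Ex p (fun ω => (if y ∈ cu ends ω x then (0 : ℝ) else 1) *
        (Fn a (cz ends ω x) * Fn a (cz ends ω y))) -
      2 * ∑ x, ∑ y, κ x y * Ex p (fun ω => (if y ∈ cu ends ω x then (0 : ℝ) else 1) *
          ((Fn a (cz ends ω x) * (if cz ends ω x ≤ b then 0 else 1)) * Fn a (cz ends ω y))) := by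
    have e7 : ∀ g : V → V → (E → Bool) → ℝ, Ex p (fun ω => ∑ x, ∑ y, κ x y * g x y ω) =
        ∑ x, ∑ y, κ x y * Ex p (g x y) := by
      intro g
      rw [Ex_sum]
      refine Finset.sum_congr rfl fun x _ => ?_
      rw [Ex_sum]
      exact Finset.sum_congr rfl fun y _ => Ex_mul_left _ _ _
    have e8 := e7 (fun x y ω => (if y ∈ cu ends ω x then (0 : ℝ) else 1) *
        (Fn a (cz ends ω x) * Fn a (cz ends ω y)))
    have e9 := e7 (fun x y ω => (if y ∈ cu ends ω x then (0 : ℝ) else 1) *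
          ((Fn a (cz ends ω x) * (if cz ends ω x ≤ b then 0 else 1)) * Fn a (cz ends ω y)))
    rw [← e8, ← e9]
    have e10 : ∀ (f g : (E → Bool) → ℝ), Ex p (fun ω => f ω - 2 * g ω) = Ex p f - 2 * Ex p g := by
      intro f g
      have : Ex p (fun ω => f ω - 2 * g ω) = Ex p (fun ω => f ω + (-2) * g ω) :=
        Ex_congr fun ω => by ring
      rw [this, Ex_add, Ex_mul_left]
      ring
    exact e10 _ _
  rw [e6] at hE
  have hlast : ∑ x, ∑ y, κ x y * Ex p (fun ω => (if y ∈ cu ends ω x then (0 : ℝ) else 1) *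
      ((Fn a (cz ends ω x) * (if cz ends ω x ≤ b then 0 else 1)) * Fn a (cz ends ω y))) ≤
      (Fintype.card V) * (W * (cg * (ν / b))) := by
    have hx : ∀ x : V, ∑ y, κ x y * Ex p (fun ω => (if y ∈ cu ends ω x then (0 : ℝ) else 1) *
        ((Fn a (cz ends ω x) * (if cz ends ω x ≤ b then 0 else 1)) * Fn a (cz ends ω y))) ≤
        W * (cg * (ν / b)) := by
      intro x
      have hν0 : 0 ≤ ν := (Ex_nonneg h0 h1 fun ω => sq_nonneg _).trans (hν x)
      have hcg : 0 ≤ cg := by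
        rw [← hc x]
        exact Ex_nonneg h0 h1 fun ω => Fn_nonneg _ _
      have hνb : 0 ≤ ν / b := div_nonneg hν0 hb.le
      have hterm : ∀ y : V, Ex p (fun ω => (if y ∈ cu ends ω x then (0 : ℝ) else 1) *
          ((Fn a (cz ends ω x) * (if cz ends ω x ≤ b then 0 else 1)) * Fn a (cz ends ω y))) ≤
          cg * (ν / b) := by
        intro y
        have h3 := two (ends := ends) h0 h1 x y
          (fun A => Fn a A.card * (if (A.card : ℝ) ≤ b then 0 else 1))
          (fun A => mul_nonneg (Fn_nonneg _ _) (by split_ifs <;> norm_num))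
          (fun A => Fn a A.card) (fun A => Fn_nonneg _ _)
          (fun A B hAB => Fn_mono a (by exact_mod_cast Finset.card_le_card hAB))
        refine h3.trans ?_
        rw [mul_comm]
        have h4 : Ex p (fun ω => Fn a ((cu ends ω y).card : ℝ)) = cg := hc y
        rw [h4]
        refine mul_le_mul_of_nonneg_left ?_ hcg
        have h5 : Ex p (fun ω => Fn a ((cu ends ω x).card : ℝ) *
            (if ((cu ends ω x).card : ℝ) ≤ b then 0 else 1)) ≤
            Ex p (fun ω => (1 / b) * cz ends ω x ^ 2) :=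
          Ex_mono h0 h1 fun ω => by
            have := M1_Fn_le (k := cz ends ω x) ha hb (cz_nonneg ω x)
            unfold cz at this ⊢
            rw [one_div_mul_eq_div]
            exact this
        refine h5.trans ?_
        rw [Ex_mul_left, one_div_mul_eq_div]
        exact div_le_div_of_nonneg_right (hν x) hb.le
      calc _ ≤ ∑ y, κ x y * (cg * (ν / b)) :=
            Finset.sum_le_sum fun y _ => mul_le_mul_of_nonneg_left (hterm y) (hκ x y)
        _ = (∑ y, κ x y) * (cg * (ν / b)) := by rw [Finset.sum_mul]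
        _ ≤ W * (cg * (ν / b)) :=
            mul_le_mul_of_nonneg_right (hW x) (mul_nonneg hcg hνb)
    calc _ ≤ ∑ _x : V, W * (cg * (ν / b)) := Finset.sum_le_sum fun x _ => hx x
      _ = (Fintype.card V) * (W * (cg * (ν / b))) := by
          rw [Finset.sum_const, Finset.card_univ, nsmul_eq_mul]
  linarith

open scoped Classical in
/-- Row M2a. Triples (compare `T3`, `T3_mean`, `T3_low` in `Sec.lean`). -/
noncomputable def U3 (ends : E → Sym2 V) (κ : V → V → ℝ) (ω : E → Bool) (f : ℝ → ℝ) : ℝ :=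
  ∑ x, ∑ y, ∑ x', ∑ y', κ x y * κ x' y' *
    ((if y ∈ cu ends ω x then 0 else 1) * ((if y' ∈ cu ends ω x then 0 else 1) *
      ((if y' ∈ cu ends ω y then 0 else 1) *
      ((if x' ∈ cu ends ω x then 1 else 0) * (f (cz ends ω y) * f (cz ends ω y'))))))

/-- Row M2a. -/
lemma U3_mean {κ : V → V → ℝ} {p χ P W : ℝ} {f : ℝ → ℝ} (h0 : 0 ≤ p) (h1 : p ≤ 1)
    (hκ : ∀ x y, 0 ≤ κ x y) (hW : ∀ x, ∑ y, κ x y ≤ W) (hf0 : ∀ k, 0 ≤ f k) (hf : Monotone f)
    (hχ : ∀ x, Ex p (fun ω => cz ends ω x) = χ)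
    (hP : ∀ x, Ex p (fun ω => f (cz ends ω x)) ≤ P) :
    Ex p (fun ω => U3 ends κ ω f) ≤ W ^ 2 * P ^ 2 * (Fintype.card V) * χ := by
  classical
  rcases isEmpty_or_nonempty V with hV | hV
  · unfold U3
    simp only [Finset.univ_eq_empty, Finset.sum_empty, Fintype.card_of_isEmpty, Nat.cast_zero,
      mul_zero, zero_mul]
    rw [Ex_const]
  obtain ⟨o⟩ := hV
  have hW0 : 0 ≤ W := (Finset.sum_nonneg fun y _ => hκ o y).trans (hW o)
  have hP0 : 0 ≤ P := (Ex_nonneg h0 h1 fun ω => hf0 _).trans (hP o)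
  have hmono : ∀ A B : Finset V, A ⊆ B → f (A.card : ℝ) ≤ f (B.card : ℝ) := fun A B hAB =>
    hf (by exact_mod_cast Finset.card_le_card hAB)
  unfold U3
  rw [Ex_sum]
  have hx : ∀ x : V, Ex p (fun ω => ∑ y, ∑ x', ∑ y', κ x y * κ x' y' *
      ((if y ∈ cu ends ω x then (0 : ℝ) else 1) * ((if y' ∈ cu ends ω x then 0 else 1) *
      ((if y' ∈ cu ends ω y then 0 else 1) *
      ((if x' ∈ cu ends ω x then 1 else 0) * (f (cz ends ω y) * f (cz ends ω y'))))))) ≤
      W ^ 2 * P ^ 2 * χ := by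
    intro x
    have hterm : ∀ y x' y', Ex p (fun ω => κ x y * κ x' y' *
        ((if y ∈ cu ends ω x then (0 : ℝ) else 1) * ((if y' ∈ cu ends ω x then 0 else 1) *
        ((if y' ∈ cu ends ω y then 0 else 1) *
        ((if x' ∈ cu ends ω x then 1 else 0) * (f (cz ends ω y) * f (cz ends ω y'))))))) ≤
        κ x y * κ x' y' *
          (Ex p (fun ω => if x' ∈ cu ends ω x then (1 : ℝ) else 0) * P ^ 2) := by
      intro y x' y'
      rw [Ex_mul_left]
      refine mul_le_mul_of_nonneg_left ?_ (mul_nonneg (hκ _ _) (hκ _ _))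
      have h3 := three (ends := ends) h0 h1 x y y'
        (fun A => if x' ∈ A then (1 : ℝ) else 0)
        (fun A => f (A.card : ℝ))
        (fun A => f (A.card : ℝ))
        (fun A => by split_ifs <;> norm_num) (fun A => hf0 _) (fun A => hf0 _)
        (fun A B hAB => by
          by_cases hA : x' ∈ A
          · rw [if_pos hA, if_pos (hAB hA)]
          · rw [if_neg hA]; split_ifs <;> norm_num)
        hmono hmono
      refine h3.trans ?_
      refine mul_le_mul_of_nonneg_left ?_ (Ex_nonneg h0 h1 fun ω => by split_ifs <;> norm_num)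
      rw [pow_two]
      exact mul_le_mul (hP y) (hP y') (Ex_nonneg h0 h1 fun ω => hf0 _) hP0
    rw [Ex_sum]
    calc ∑ y, Ex p (fun ω => ∑ x', ∑ y', κ x y * κ x' y' *
          ((if y ∈ cu ends ω x then (0 : ℝ) else 1) * ((if y' ∈ cu ends ω x then 0 else 1) *
          ((if y' ∈ cu ends ω y then 0 else 1) *
          ((if x' ∈ cu ends ω x then 1 else 0) * (f (cz ends ω y) * f (cz ends ω y')))))))
        = ∑ y, ∑ x', ∑ y', Ex p (fun ω => κ x y * κ x' y' *
          ((if y ∈ cu ends ω x then (0 : ℝ) else 1) * ((if y' ∈ cu ends ω x then 0 else 1) *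
          ((if y' ∈ cu ends ω y then 0 else 1) *
          ((if x' ∈ cu ends ω x then 1 else 0) * (f (cz ends ω y) * f (cz ends ω y'))))))) := by
          refine Finset.sum_congr rfl fun y _ => ?_
          rw [Ex_sum]
          refine Finset.sum_congr rfl fun x' _ => ?_
          rw [Ex_sum]
      _ ≤ ∑ y, ∑ x', ∑ y', κ x y * κ x' y' *
          (Ex p (fun ω => if x' ∈ cu ends ω x then (1 : ℝ) else 0) * P ^ 2) :=
          Finset.sum_le_sum fun y _ => Finset.sum_le_sum fun x' _ => Finset.sum_le_sum fun y' _ =>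
            hterm y x' y'
      _ = (∑ y, κ x y) * ∑ x', (∑ y', κ x' y') *
          (Ex p (fun ω => if x' ∈ cu ends ω x then (1 : ℝ) else 0) * P ^ 2) := by
          rw [Finset.sum_mul]
          refine Finset.sum_congr rfl fun y _ => ?_
          rw [Finset.mul_sum]
          refine Finset.sum_congr rfl fun x' _ => ?_
          rw [Finset.sum_mul, Finset.mul_sum]
          exact Finset.sum_congr rfl fun y' _ => by ring
      _ ≤ W * ∑ x', W * (Ex p (fun ω => if x' ∈ cu ends ω x then (1 : ℝ) else 0) * P ^ 2) := by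
          have hnn : ∀ x', 0 ≤ Ex p (fun ω => if x' ∈ cu ends ω x then (1 : ℝ) else 0) * P ^ 2 :=
            fun x' => mul_nonneg (Ex_nonneg h0 h1 fun ω => by split_ifs <;> norm_num)
              (sq_nonneg P)
          refine mul_le_mul (hW x) (Finset.sum_le_sum fun x' _ =>
            mul_le_mul_of_nonneg_right (hW x') (hnn x')) ?_ hW0
          exact Finset.sum_nonneg fun x' _ => mul_nonneg
            (Finset.sum_nonneg fun y' _ => hκ _ _) (hnn x')
      _ = W ^ 2 * P ^ 2 * ∑ x', Ex p (fun ω => if x' ∈ cu ends ω x then (1 : ℝ) else 0) := by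
          rw [Finset.mul_sum, Finset.mul_sum]
          exact Finset.sum_congr rfl fun x' _ => by ring
      _ = W ^ 2 * P ^ 2 * χ := by
          rw [← Ex_sum, ← hχ x]
          congr 1
          refine Ex_congr fun ω => ?_
          unfold cz
          rw [Finset.sum_ite_mem, Finset.univ_inter, Finset.sum_const, nsmul_eq_mul, mul_one]
  calc _ ≤ ∑ _x : V, W ^ 2 * P ^ 2 * χ := Finset.sum_le_sum fun x _ => hx x
    _ = W ^ 2 * P ^ 2 * (Fintype.card V) * χ := by
        rw [Finset.sum_const, Finset.card_univ, nsmul_eq_mul]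
        ring

private lemma M2a_cu_iff (ω : E → Bool) (x y : V) :
    cu ends ω x = cu ends ω y ↔ y ∈ cu ends ω x := by
  constructor
  · intro h; rw [h]; exact self_mem_cu ω y
  · intro h; exact (cu_eq h).symm

private lemma M2a_swap4 {α : Type*} (s : Finset α) (f : α → V → V → V → V → ℝ) :
    ∑ A ∈ s, ∑ x, ∑ y, ∑ z, ∑ w, f A x y z w = ∑ x, ∑ y, ∑ z, ∑ w, ∑ A ∈ s, f A x y z w := by
  rw [Finset.sum_comm]
  refine Finset.sum_congr rfl fun x _ => ?_
  rw [Finset.sum_comm]
  refine Finset.sum_congr rfl fun y _ => ?_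
  rw [Finset.sum_comm]
  refine Finset.sum_congr rfl fun z _ => ?_
  rw [Finset.sum_comm]

open scoped Classical in
private lemma M2a_one (ω : E → Bool) (a : ℝ) (Φ : Finset V → ℝ) (x : V) :
    ∑ A ∈ GC ends ω a, (if x ∈ A then (1 : ℝ) else 0) * Φ A =
      (if a ≤ cz ends ω x then (1 : ℝ) else 0) * Φ (cu ends ω x) := by
  by_cases h : a ≤ cz ends ω x
  · rw [if_pos h, Finset.sum_eq_single (cu ends ω x)]
    · rw [if_pos (self_mem_cu ω x)]
    · intro B hB hne
      rw [if_neg, zero_mul]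
      intro hx
      obtain ⟨⟨x0, rfl⟩, -⟩ := mem_GC.1 hB
      exact hne (cu_eq hx).symm
    · intro hn
      exact absurd (mem_GC.2 ⟨⟨x, rfl⟩, h⟩) hn
  · rw [if_neg h, zero_mul]
    refine Finset.sum_eq_zero fun A hA => ?_
    rw [if_neg, zero_mul]
    intro hx
    obtain ⟨⟨x0, rfl⟩, h2⟩ := mem_GC.1 hA
    apply h
    unfold cz
    rw [cu_eq hx]
    exact h2

open scoped Classical in
private lemma M2a_NK (κ : V → V → ℝ) (A B : Finset V) : NK κ A B =
    ∑ x, ∑ y, (if x ∈ A then (1 : ℝ) else 0) * ((if y ∈ B then (1 : ℝ) else 0) * κ x y) := by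
  unfold NK
  rw [← Finset.sum_filter_add_sum_filter_not Finset.univ (fun x => x ∈ A)]
  have h1 : ∑ x ∈ Finset.univ.filter (fun x => ¬ x ∈ A),
      ∑ y, (if x ∈ A then (1 : ℝ) else 0) * ((if y ∈ B then (1 : ℝ) else 0) * κ x y) = 0 := by
    refine Finset.sum_eq_zero fun x hx => Finset.sum_eq_zero fun y _ => ?_
    rw [if_neg (Finset.mem_filter.1 hx).2, zero_mul]
  rw [h1, add_zero]
  have h2 : Finset.univ.filter (fun x => x ∈ A) = A := by ext; simp
  rw [h2]
  refine Finset.sum_congr rfl fun x hx => ?_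
  rw [← Finset.sum_filter_add_sum_filter_not Finset.univ (fun y => y ∈ B)]
  have h3 : ∑ y ∈ Finset.univ.filter (fun y => ¬ y ∈ B),
      (if x ∈ A then (1 : ℝ) else 0) * ((if y ∈ B then (1 : ℝ) else 0) * κ x y) = 0 := by
    refine Finset.sum_eq_zero fun y hy => ?_
    rw [if_neg (Finset.mem_filter.1 hy).2, zero_mul, mul_zero]
  have h4 : Finset.univ.filter (fun y => y ∈ B) = B := by ext; simp
  rw [h3, add_zero, h4]
  refine Finset.sum_congr rfl fun y hy => ?_
  rw [if_pos hx, if_pos hy, one_mul, one_mul]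

open scoped Classical in
private lemma M2a_NK2 (κ : V → V → ℝ) (A B C D : Finset V) : NK κ A B * NK κ C D =
    ∑ x, ∑ y, ∑ z, ∑ w, (if x ∈ A then (1 : ℝ) else 0) * ((if y ∈ B then (1 : ℝ) else 0) *
      ((if z ∈ C then (1 : ℝ) else 0) * ((if w ∈ D then (1 : ℝ) else 0) *
        (κ x y * κ z w)))) := by
  rw [M2a_NK κ A B, M2a_NK κ C D, Finset.sum_mul]
  refine Finset.sum_congr rfl fun x _ => ?_
  rw [Finset.sum_mul]
  refine Finset.sum_congr rfl fun y _ => ?_
  rw [Finset.mul_sum]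
  refine Finset.sum_congr rfl fun z _ => ?_
  rw [Finset.mul_sum]
  refine Finset.sum_congr rfl fun w _ => ?_
  ring

open scoped Classical in
/-- Row M2a. The sum over distinct triples of clusters. -/
lemma U3_low {κ : V → V → ℝ} (ω : E → Bool) {a : ℝ} {f : ℝ → ℝ} (hκ : ∀ x y, 0 ≤ κ x y)
    (hf0 : ∀ k, 0 ≤ f k) :
    ∑ A ∈ GC ends ω a, ∑ B ∈ GC ends ω a, ∑ B' ∈ GC ends ω a,
      (if A = B then 0 else if A = B' then 0 else if B = B' then 0 else
        (NK κ A B * f B.card) * (NK κ A B' * f B'.card)) ≤ U3 ends κ ω f := by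
  set c : Finset V → Finset V → Finset V → ℝ := fun A B B' =>
    if A = B then 0 else if A = B' then 0 else if B = B' then 0 else f B.card * f B'.card with hc
  have h1 : ∀ A B B', (if A = B then 0 else if A = B' then 0 else if B = B' then 0 else
      (NK κ A B * f B.card) * (NK κ A B' * f B'.card)) = ∑ x, ∑ y, ∑ x', ∑ y',
        (if x ∈ A then (1 : ℝ) else 0) * ((if y ∈ B then (1 : ℝ) else 0) *
          ((if y' ∈ B' then (1 : ℝ) else 0) * ((if x' ∈ A then (1 : ℝ) else 0) *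
            (c A B B' * (κ x y * κ x' y'))))) := by
    intro A B B'
    have e2 : (if A = B then 0 else if A = B' then 0 else if B = B' then 0 else
        (NK κ A B * f B.card) * (NK κ A B' * f B'.card)) = c A B B' * (NK κ A B * NK κ A B') := by
      simp only [hc]
      split_ifs
      · simp
      · simp
      · simp
      · ring
    rw [e2, M2a_NK2, Finset.mul_sum]
    refine Finset.sum_congr rfl fun x _ => ?_
    rw [Finset.mul_sum]
    refine Finset.sum_congr rfl fun y _ => ?_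
    rw [Finset.mul_sum]
    refine Finset.sum_congr rfl fun z _ => ?_
    rw [Finset.mul_sum]
    refine Finset.sum_congr rfl fun w _ => ?_
    ring
  simp only [h1]
  simp only [M2a_swap4]
  unfold U3
  refine Finset.sum_le_sum fun x _ => Finset.sum_le_sum fun y _ => Finset.sum_le_sum fun x' _ =>
    Finset.sum_le_sum fun y' _ => ?_
  simp only [← Finset.mul_sum]
  have h2 : ∀ A B, ∑ B' ∈ GC ends ω a, (if y' ∈ B' then (1 : ℝ) else 0) *
      ((if x' ∈ A then (1 : ℝ) else 0) * (c A B B' * (κ x y * κ x' y'))) =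
      (if a ≤ cz ends ω y' then (1 : ℝ) else 0) * ((if x' ∈ A then (1 : ℝ) else 0) *
        (c A B (cu ends ω y') * (κ x y * κ x' y'))) :=
    fun A B => M2a_one ω a (fun B' => (if x' ∈ A then (1 : ℝ) else 0) *
      (c A B B' * (κ x y * κ x' y'))) y'
  simp only [h2]
  have h3 : ∀ A, ∑ B ∈ GC ends ω a, (if y ∈ B then (1 : ℝ) else 0) *
      ((if a ≤ cz ends ω y' then (1 : ℝ) else 0) * ((if x' ∈ A then (1 : ℝ) else 0) *
        (c A B (cu ends ω y') * (κ x y * κ x' y')))) =
      (if a ≤ cz ends ω y then (1 : ℝ) else 0) * ((if a ≤ cz ends ω y' then (1 : ℝ) else 0) *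
        ((if x' ∈ A then (1 : ℝ) else 0) *
        (c A (cu ends ω y) (cu ends ω y') * (κ x y * κ x' y')))) :=
    fun A => M2a_one ω a (fun B => (if a ≤ cz ends ω y' then (1 : ℝ) else 0) *
      ((if x' ∈ A then (1 : ℝ) else 0) *
        (c A B (cu ends ω y') * (κ x y * κ x' y')))) y
  simp only [h3]
  rw [M2a_one ω a (fun A => (if a ≤ cz ends ω y then (1 : ℝ) else 0) *
    ((if a ≤ cz ends ω y' then (1 : ℝ) else 0) *
        ((if x' ∈ A then (1 : ℝ) else 0) *
        (c A (cu ends ω y) (cu ends ω y') * (κ x y * κ x' y')))))]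
  have ez : ∀ v, ((cu ends ω v).card : ℝ) = cz ends ω v := fun v => rfl
  simp only [hc, M2a_cu_iff, ez]
  have hn : 0 ≤ κ x y * κ x' y' := mul_nonneg (hκ _ _) (hκ _ _)
  have hm : 0 ≤ f (cz ends ω y) * f (cz ends ω y') := mul_nonneg (hf0 _) (hf0 _)
  have hnm : 0 ≤ κ x y * κ x' y' * (f (cz ends ω y) * f (cz ends ω y')) := mul_nonneg hn hm
  have hmn : f (cz ends ω y) * f (cz ends ω y') * (κ x y * κ x' y') =
      κ x y * κ x' y' * (f (cz ends ω y) * f (cz ends ω y')) := mul_comm _ _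
  by_cases i1 : a ≤ cz ends ω x <;> by_cases i2 : y ∈ cu ends ω x <;>
    by_cases i3 : y' ∈ cu ends ω x <;> by_cases i4 : y' ∈ cu ends ω y <;>
    by_cases i5 : x' ∈ cu ends ω x <;> by_cases i6 : a ≤ cz ends ω y <;>
    by_cases i7 : a ≤ cz ends ω y' <;> simp [i1, i2, i3, i4, i5, i6, i7, hnm, hmn]

open scoped Classical in
/-- Row M2b. Quadruples (compare `T4`, `T4_mean`, `T4_low` in `Sec.lean`). -/
noncomputable def U4 (ends : E → Sym2 V) (κ : V → V → ℝ) (ω : E → Bool) (f : ℝ → ℝ) : ℝ :=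
  ∑ x, ∑ y, ∑ z, ∑ w, κ x y * κ z w *
    ((if y ∈ cu ends ω x then 0 else 1) * ((if z ∈ cu ends ω x then 0 else 1) *
      ((if w ∈ cu ends ω x then 0 else 1) * ((if z ∈ cu ends ω y then 0 else 1) *
      ((if w ∈ cu ends ω y then 0 else 1) * ((if w ∈ cu ends ω z then 0 else 1) *
      (f (cz ends ω x) * (f (cz ends ω y) * (f (cz ends ω z) * f (cz ends ω w))))))))))

private lemma M2b_mono {f : ℝ → ℝ} (hf : Monotone f) (A B : Finset V) (h : A ⊆ B) :
    f (A.card : ℝ) ≤ f (B.card : ℝ) :=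
  hf (by exact_mod_cast Finset.card_le_card h)

/-- Row M2b. -/
lemma U4_mean {κ : V → V → ℝ} {p P W : ℝ} {f : ℝ → ℝ} (h0 : 0 ≤ p) (h1 : p ≤ 1)
    (hκ : ∀ x y, 0 ≤ κ x y) (hW : ∀ x, ∑ y, κ x y ≤ W) (hf0 : ∀ k, 0 ≤ f k) (hf : Monotone f)
    (hP : ∀ x, Ex p (fun ω => f (cz ends ω x)) ≤ P) :
    Ex p (fun ω => U4 ends κ ω f) ≤ W ^ 2 * (Fintype.card V) ^ 2 * P ^ 4 := by
  classical
  rcases isEmpty_or_nonempty V with hV | hV
  · unfold U4
    simp only [Finset.univ_eq_empty, Finset.sum_empty, Fintype.card_of_isEmpty, Nat.cast_zero]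
    rw [Ex_const]
    simp
  obtain ⟨o⟩ := hV
  have hP0 : 0 ≤ P := (Ex_nonneg h0 h1 fun ω => hf0 _).trans (hP o)
  have hterm : ∀ x y z w, Ex p (fun ω => κ x y * κ z w *
      ((if y ∈ cu ends ω x then (0 : ℝ) else 1) * ((if z ∈ cu ends ω x then 0 else 1) *
      ((if w ∈ cu ends ω x then 0 else 1) * ((if z ∈ cu ends ω y then 0 else 1) *
      ((if w ∈ cu ends ω y then 0 else 1) * ((if w ∈ cu ends ω z then 0 else 1) *
      (f (cz ends ω x) * (f (cz ends ω y) * (f (cz ends ω z) * f (cz ends ω w))))))))))) ≤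
      κ x y * κ z w * P ^ 4 := by
    intro x y z w
    rw [Ex_mul_left]
    refine mul_le_mul_of_nonneg_left ?_ (mul_nonneg (hκ _ _) (hκ _ _))
    have h4 := four (ends := ends) h0 h1 x y z w
      (fun A => f (A.card : ℝ)) (fun A => f (A.card : ℝ)) (fun A => f (A.card : ℝ))
      (fun A => f (A.card : ℝ))
      (fun A => hf0 _) (fun A => hf0 _) (fun A => hf0 _)
      (fun A => hf0 _) (M2b_mono hf) (M2b_mono hf) (M2b_mono hf) (M2b_mono hf)
    refine h4.trans ?_
    have e : ∀ v, 0 ≤ Ex p (fun ω => f ((cu ends ω v).card : ℝ)) :=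
      fun v => Ex_nonneg h0 h1 fun ω => hf0 _
    have : P ^ 4 = P * (P * (P * P)) := by ring
    rw [this]
    exact mul_le_mul (hP x) (mul_le_mul (hP y) (mul_le_mul (hP z) (hP w) (e w) hP0)
      (mul_nonneg (e z) (e w)) hP0) (mul_nonneg (e y) (mul_nonneg (e z) (e w))) hP0
  unfold U4
  calc _ = ∑ x, ∑ y, ∑ z, ∑ w, Ex p (fun ω => κ x y * κ z w *
      ((if y ∈ cu ends ω x then (0 : ℝ) else 1) * ((if z ∈ cu ends ω x then 0 else 1) *
      ((if w ∈ cu ends ω x then 0 else 1) * ((if z ∈ cu ends ω y then 0 else 1) *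
      ((if w ∈ cu ends ω y then 0 else 1) * ((if w ∈ cu ends ω z then 0 else 1) *
      (f (cz ends ω x) * (f (cz ends ω y) * (f (cz ends ω z) * f (cz ends ω w))))))))))) := by
        rw [Ex_sum]
        refine Finset.sum_congr rfl fun x _ => ?_
        rw [Ex_sum]
        refine Finset.sum_congr rfl fun y _ => ?_
        rw [Ex_sum]
        refine Finset.sum_congr rfl fun z _ => ?_
        rw [Ex_sum]
    _ ≤ ∑ x, ∑ y, ∑ z, ∑ w, κ x y * κ z w * P ^ 4 :=
        Finset.sum_le_sum fun x _ => Finset.sum_le_sum fun y _ => Finset.sum_le_sum fun z _ =>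
          Finset.sum_le_sum fun w _ => hterm x y z w
    _ = (∑ x, ∑ y, κ x y) ^ 2 * P ^ 4 := by
        rw [pow_two, Finset.sum_mul_sum]
        have e1 : ∀ x z, (∑ y, κ x y) * (∑ w, κ z w) =
            ∑ y, ∑ w, κ x y * κ z w := fun x z => Finset.sum_mul_sum _ _ _ _
        rw [Finset.sum_mul]
        refine Finset.sum_congr rfl fun x _ => ?_
        rw [Finset.sum_mul, Finset.sum_comm]
        refine Finset.sum_congr rfl fun z _ => ?_
        rw [e1, Finset.sum_mul]
        refine Finset.sum_congr rfl fun y _ => ?_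
        rw [Finset.sum_mul]
    _ ≤ (∑ _x : V, W) ^ 2 * P ^ 4 := by
        refine mul_le_mul_of_nonneg_right ?_ (pow_nonneg hP0 4)
        refine pow_le_pow_left₀ (Finset.sum_nonneg fun x _ => Finset.sum_nonneg fun y _ =>
          hκ _ _) (Finset.sum_le_sum fun x _ => hW x) 2
    _ = W ^ 2 * (Fintype.card V) ^ 2 * P ^ 4 := by
        rw [Finset.sum_const, Finset.card_univ, nsmul_eq_mul]
        ring

private lemma M2b_cu_iff (ω : E → Bool) (x y : V) :
    cu ends ω x = cu ends ω y ↔ y ∈ cu ends ω x := by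
  constructor
  · intro h; rw [h]; exact self_mem_cu ω y
  · intro h; exact (cu_eq h).symm

private lemma M2b_swap4 {α : Type*} (s : Finset α) (g : α → V → V → V → V → ℝ) :
    ∑ A ∈ s, ∑ x, ∑ y, ∑ z, ∑ w, g A x y z w = ∑ x, ∑ y, ∑ z, ∑ w, ∑ A ∈ s, g A x y z w := by
  rw [Finset.sum_comm]
  refine Finset.sum_congr rfl fun x _ => ?_
  rw [Finset.sum_comm]
  refine Finset.sum_congr rfl fun y _ => ?_
  rw [Finset.sum_comm]
  refine Finset.sum_congr rfl fun z _ => ?_
  rw [Finset.sum_comm]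

open scoped Classical in
private lemma M2b_one (ω : E → Bool) (a : ℝ) (Φ : Finset V → ℝ) (x : V) :
    ∑ A ∈ GC ends ω a, (if x ∈ A then (1 : ℝ) else 0) * Φ A =
      (if a ≤ cz ends ω x then (1 : ℝ) else 0) * Φ (cu ends ω x) := by
  by_cases h : a ≤ cz ends ω x
  · rw [if_pos h, Finset.sum_eq_single (cu ends ω x)]
    · rw [if_pos (self_mem_cu ω x)]
    · intro B hB hne
      rw [if_neg, zero_mul]
      intro hx
      obtain ⟨⟨x0, rfl⟩, -⟩ := mem_GC.1 hB
      exact hne (cu_eq hx).symm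
    · intro hn
      exact absurd (mem_GC.2 ⟨⟨x, rfl⟩, h⟩) hn
  · rw [if_neg h, zero_mul]
    refine Finset.sum_eq_zero fun A hA => ?_
    rw [if_neg, zero_mul]
    intro hx
    obtain ⟨⟨x0, rfl⟩, h2⟩ := mem_GC.1 hA
    apply h
    unfold cz
    rw [cu_eq hx]
    exact h2

open scoped Classical in
private lemma M2b_NK (κ : V → V → ℝ) (A B : Finset V) : NK κ A B =
    ∑ x, ∑ y, (if x ∈ A then (1 : ℝ) else 0) * ((if y ∈ B then (1 : ℝ) else 0) * κ x y) := by
  unfold NK
  rw [← Finset.sum_filter_add_sum_filter_not Finset.univ (fun x => x ∈ A)]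
  have h1 : ∑ x ∈ Finset.univ.filter (fun x => ¬ x ∈ A),
      ∑ y, (if x ∈ A then (1 : ℝ) else 0) * ((if y ∈ B then (1 : ℝ) else 0) * κ x y) = 0 := by
    refine Finset.sum_eq_zero fun x hx => Finset.sum_eq_zero fun y _ => ?_
    rw [if_neg (Finset.mem_filter.1 hx).2, zero_mul]
  rw [h1, add_zero]
  have h2 : Finset.univ.filter (fun x => x ∈ A) = A := by ext; simp
  rw [h2]
  refine Finset.sum_congr rfl fun x hx => ?_
  rw [← Finset.sum_filter_add_sum_filter_not Finset.univ (fun y => y ∈ B)]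
  have h3 : ∑ y ∈ Finset.univ.filter (fun y => ¬ y ∈ B),
      (if x ∈ A then (1 : ℝ) else 0) * ((if y ∈ B then (1 : ℝ) else 0) * κ x y) = 0 := by
    refine Finset.sum_eq_zero fun y hy => ?_
    rw [if_neg (Finset.mem_filter.1 hy).2, zero_mul, mul_zero]
  have h4 : Finset.univ.filter (fun y => y ∈ B) = B := by ext; simp
  rw [h3, add_zero, h4]
  refine Finset.sum_congr rfl fun y hy => ?_
  rw [if_pos hx, if_pos hy, one_mul, one_mul]

open scoped Classical in
private lemma M2b_NKNK (κ : V → V → ℝ) (A B C D : Finset V) : NK κ A B * NK κ C D =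
    ∑ x, ∑ y, ∑ z, ∑ w, (if x ∈ A then (1 : ℝ) else 0) * ((if y ∈ B then (1 : ℝ) else 0) *
      ((if z ∈ C then (1 : ℝ) else 0) * ((if w ∈ D then (1 : ℝ) else 0) *
        (κ x y * κ z w)))) := by
  rw [M2b_NK κ A B, M2b_NK κ C D, Finset.sum_mul]
  refine Finset.sum_congr rfl fun x _ => ?_
  rw [Finset.sum_mul]
  refine Finset.sum_congr rfl fun y _ => ?_
  rw [Finset.mul_sum]
  refine Finset.sum_congr rfl fun z _ => ?_
  rw [Finset.mul_sum]
  refine Finset.sum_congr rfl fun w _ => ?_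
  ring

open scoped Classical in
/-- Row M2b. -/
lemma U4_low {κ : V → V → ℝ} (ω : E → Bool) {a : ℝ} {f : ℝ → ℝ} (hκ : ∀ x y, 0 ≤ κ x y)
    (hf0 : ∀ k, 0 ≤ f k) :
    ∑ A ∈ GC ends ω a, ∑ B ∈ GC ends ω a, ∑ A' ∈ GC ends ω a, ∑ B' ∈ GC ends ω a,
      (if A = B then 0 else if A = A' then 0 else if A = B' then 0 else if B = A' then 0 else
        if B = B' then 0 else if A' = B' then 0 else
          (f A.card * (NK κ A B * f B.card)) * (f A'.card * (NK κ A' B' * f B'.card))) ≤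
      U4 ends κ ω f := by
  set c : Finset V → Finset V → Finset V → Finset V → ℝ := fun A B A' B' =>
    if A = B then 0 else if A = A' then 0 else if A = B' then 0 else if B = A' then 0 else
        if B = B' then 0 else if A' = B' then 0 else
          f A.card * (f B.card * (f A'.card * f B'.card)) with hc
  have h1 : ∀ A B A' B', (if A = B then 0 else if A = A' then 0 else if A = B' then 0 else
      if B = A' then 0 else if B = B' then 0 else if A' = B' then 0 else
        (f A.card * (NK κ A B * f B.card)) * (f A'.card * (NK κ A' B' * f B'.card))) =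
        ∑ x, ∑ y, ∑ z, ∑ w,
        (if x ∈ A then (1 : ℝ) else 0) * ((if y ∈ B then (1 : ℝ) else 0) *
          ((if z ∈ A' then (1 : ℝ) else 0) * ((if w ∈ B' then (1 : ℝ) else 0) *
            (c A B A' B' * (κ x y * κ z w))))) := by
    intro A B A' B'
    have e2 : (if A = B then 0 else if A = A' then 0 else if A = B' then 0 else
      if B = A' then 0 else if B = B' then 0 else if A' = B' then 0 else
        (f A.card * (NK κ A B * f B.card)) * (f A'.card * (NK κ A' B' * f B'.card))) =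
        c A B A' B' * (NK κ A B * NK κ A' B') := by
      simp only [hc]
      split_ifs <;> ring
    rw [e2, M2b_NKNK, Finset.mul_sum]
    refine Finset.sum_congr rfl fun x _ => ?_
    rw [Finset.mul_sum]
    refine Finset.sum_congr rfl fun y _ => ?_
    rw [Finset.mul_sum]
    refine Finset.sum_congr rfl fun z _ => ?_
    rw [Finset.mul_sum]
    refine Finset.sum_congr rfl fun w _ => ?_
    ring
  simp only [h1]
  simp only [M2b_swap4]
  unfold U4
  refine Finset.sum_le_sum fun x _ => Finset.sum_le_sum fun y _ => Finset.sum_le_sum fun z _ =>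
    Finset.sum_le_sum fun w _ => ?_
  simp only [← Finset.mul_sum]
  have h2 : ∀ A B A', ∑ B' ∈ GC ends ω a, (if w ∈ B' then (1 : ℝ) else 0) *
      (c A B A' B' * (κ x y * κ z w)) =
      (if a ≤ cz ends ω w then (1 : ℝ) else 0) *
        (c A B A' (cu ends ω w) * (κ x y * κ z w)) :=
    fun A B A' => M2b_one ω a (fun B' => c A B A' B' * (κ x y * κ z w)) w
  simp only [h2]
  have h3 : ∀ A B, ∑ A' ∈ GC ends ω a, (if z ∈ A' then (1 : ℝ) else 0) *
      ((if a ≤ cz ends ω w then (1 : ℝ) else 0) *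
        (c A B A' (cu ends ω w) * (κ x y * κ z w))) =
      (if a ≤ cz ends ω z then (1 : ℝ) else 0) * ((if a ≤ cz ends ω w then (1 : ℝ) else 0) *
        (c A B (cu ends ω z) (cu ends ω w) * (κ x y * κ z w))) :=
    fun A B => M2b_one ω a (fun A' => (if a ≤ cz ends ω w then (1 : ℝ) else 0) *
        (c A B A' (cu ends ω w) * (κ x y * κ z w))) z
  simp only [h3]
  have h4 : ∀ A, ∑ B ∈ GC ends ω a, (if y ∈ B then (1 : ℝ) else 0) *
      ((if a ≤ cz ends ω z then (1 : ℝ) else 0) * ((if a ≤ cz ends ω w then (1 : ℝ) else 0) *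
        (c A B (cu ends ω z) (cu ends ω w) * (κ x y * κ z w)))) =
      (if a ≤ cz ends ω y then (1 : ℝ) else 0) *
      ((if a ≤ cz ends ω z then (1 : ℝ) else 0) * ((if a ≤ cz ends ω w then (1 : ℝ) else 0) *
        (c A (cu ends ω y) (cu ends ω z) (cu ends ω w) * (κ x y * κ z w)))) :=
    fun A => M2b_one ω a (fun B => (if a ≤ cz ends ω z then (1 : ℝ) else 0) *
      ((if a ≤ cz ends ω w then (1 : ℝ) else 0) *
        (c A B (cu ends ω z) (cu ends ω w) * (κ x y * κ z w)))) y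
  simp only [h4]
  rw [M2b_one ω a (fun A => (if a ≤ cz ends ω y then (1 : ℝ) else 0) *
      ((if a ≤ cz ends ω z then (1 : ℝ) else 0) * ((if a ≤ cz ends ω w then (1 : ℝ) else 0) *
        (c A (cu ends ω y) (cu ends ω z) (cu ends ω w) * (κ x y * κ z w)))))]
  simp only [hc, M2b_cu_iff]
  have hn : 0 ≤ κ x y * κ z w := mul_nonneg (hκ _ _) (hκ _ _)
  have hff : 0 ≤ κ x y * κ z w * (f (cz ends ω x) * (f (cz ends ω y) *
      (f (cz ends ω z) * f (cz ends ω w)))) :=
    mul_nonneg hn (mul_nonneg (hf0 _) (mul_nonneg (hf0 _) (mul_nonneg (hf0 _) (hf0 _))))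
  by_cases j1 : y ∈ cu ends ω x
  · simp [j1]
  by_cases j2 : z ∈ cu ends ω x
  · simp [j1, j2]
  by_cases j3 : w ∈ cu ends ω x
  · simp [j1, j2, j3]
  by_cases j4 : z ∈ cu ends ω y
  · simp [j1, j2, j3, j4]
  by_cases j5 : w ∈ cu ends ω y
  · simp [j1, j2, j3, j4, j5]
  by_cases j6 : w ∈ cu ends ω z
  · simp [j1, j2, j3, j4, j5, j6]
  have e0 : ∀ v, ((cu ends ω v).card : ℝ) = cz ends ω v := fun v => rfl
  simp only [if_neg j1, if_neg j2, if_neg j3, if_neg j4, if_neg j5, if_neg j6, one_mul, e0]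
  have e3 : f (cz ends ω x) * (f (cz ends ω y) * (f (cz ends ω z) * f (cz ends ω w))) *
      (κ x y * κ z w) = κ x y * κ z w * (f (cz ends ω x) * (f (cz ends ω y) *
      (f (cz ends ω z) * f (cz ends ω w)))) := mul_comm _ _
  rw [e3]
  have ind : ∀ (v : V) (t : ℝ), 0 ≤ t → t ≤ κ x y * κ z w * (f (cz ends ω x) * (f (cz ends ω y) *
      (f (cz ends ω z) * f (cz ends ω w)))) → 0 ≤ (if a ≤ cz ends ω v then (1 : ℝ) else 0) * t ∧
      (if a ≤ cz ends ω v then (1 : ℝ) else 0) * t ≤ κ x y * κ z w * (f (cz ends ω x) *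
      (f (cz ends ω y) * (f (cz ends ω z) * f (cz ends ω w)))) := by
    intro v t ht ht2
    split_ifs
    · rw [one_mul]; exact ⟨ht, ht2⟩
    · rw [zero_mul]; exact ⟨le_rfl, hff⟩
  have i1 := ind w _ hff le_rfl
  have i2 := ind z _ i1.1 i1.2
  have i3 := ind y _ i2.1 i2.2
  exact (ind x _ i3.1 i3.2).2

/-- distinct triples -/
private noncomputable def M2c_F3 {ι : Type*} [DecidableEq ι] (N : ι → ι → ℝ) (A B B' : ι) : ℝ :=
  if A = B then 0 else if A = B' then 0 else if B = B' then 0 else N A B * N A B'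

/-- distinct quadruples -/
private noncomputable def M2c_F4 {ι : Type*} [DecidableEq ι] (N : ι → ι → ℝ) (A B A' B' : ι) : ℝ :=
  if A = B then 0 else if A = A' then 0 else if A = B' then 0 else if B = A' then 0 else
        if B = B' then 0 else if A' = B' then 0 else N A B * N A' B'

private lemma M2c_cyc {ι : Type*} [DecidableEq ι] (S : Finset ι) (N : ι → ι → ℝ)
    (hs : ∀ A B, N A B = N B A) :
    ∑ A ∈ S, pth N 1 (S.erase A) A A = ∑ A ∈ S, ∑ B ∈ S, if A = B then 0 else N A B ^ 2 := by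
  refine Finset.sum_congr rfl fun A hA => ?_
  have h1 : pth N 1 (S.erase A) A A = ∑ D ∈ S.erase A, N A D * N D A := rfl
  rw [h1, ← Finset.sum_erase S (f := fun B => if A = B then (0 : ℝ) else N A B ^ 2) (a := A)
    (by simp)]
  refine Finset.sum_congr rfl fun B hB => ?_
  have h : ¬ A = B := fun h => (Finset.ne_of_mem_erase hB) h.symm
  rw [if_neg h, hs B A]
  ring

private lemma M2c_dg {ι : Type*} [DecidableEq ι] (S : Finset ι) (N : ι → ι → ℝ) :
    ∑ A ∈ S, (∑ B ∈ S, if A = B then 0 else N A B) ^ 2 =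
      ∑ A ∈ S, ∑ B ∈ S, ∑ B' ∈ S, M2c_F3 N A B B' +
        ∑ A ∈ S, ∑ B ∈ S, if A = B then 0 else N A B ^ 2 := by
  rw [← Finset.sum_add_distrib]
  refine Finset.sum_congr rfl fun A _ => ?_
  rw [sq, Finset.sum_mul_sum, ← Finset.sum_add_distrib]
  refine Finset.sum_congr rfl fun B hB => ?_
  have h1 : (if A = B then (0 : ℝ) else N A B ^ 2) =
      ∑ B' ∈ S, if B = B' then (if A = B then (0 : ℝ) else N A B ^ 2) else 0 := by
    rw [Finset.sum_ite_eq, if_pos hB]
  rw [h1, ← Finset.sum_add_distrib]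
  refine Finset.sum_congr rfl fun B' _ => ?_
  unfold M2c_F3
  by_cases h2 : A = B
  · simp [h2]
  · by_cases h3 : A = B'
    · subst h3
      simp [h2, Ne.symm h2]
    · by_cases h4 : B = B'
      · subst h4
        simp [h2]
        ring
      · simp [h2, h3, h4]

private lemma M2c_pt {ι : Type*} [DecidableEq ι] (N : ι → ι → ℝ)
    (hs : ∀ A B, N A B = N B A) (A B A' B' : ι) :
    (if A = B then 0 else N A B) * (if A' = B' then 0 else N A' B') =
      M2c_F4 N A B A' B' + (if A = A' then M2c_F3 N A B B' else 0) +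
      (if A = B' then M2c_F3 N A B A' else 0) + (if B = A' then M2c_F3 N B A B' else 0) +
      (if B = B' then M2c_F3 N B A A' else 0) +
      (if A = A' then (if B = B' then (if A = B then 0 else N A B ^ 2) else 0) else 0) +
      (if A = B' then (if B = A' then (if A = B then 0 else N A B ^ 2) else 0) else 0) := by
  unfold M2c_F4 M2c_F3
  by_cases h1 : A = B
  · subst h1
    simp
  · by_cases h2 : A' = B'
    · subst h2
      by_cases h3 : A = A'
      · subst h3
        simp [h1, Ne.symm h1]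
      · by_cases h4 : B = A'
        · subst h4
          simp [h1, Ne.symm h1]
        · simp [h1, Ne.symm h1, h3, h4]
    · by_cases h3 : A = A'
      · subst h3
        by_cases h4 : B = B'
        · subst h4
          simp [h1, Ne.symm h1]
          ring
        · simp [h1, Ne.symm h1, h2, h4]
      · by_cases h4 : A = B'
        · subst h4
          by_cases h5 : B = A'
          · subst h5
            simp [h1, Ne.symm h1]
            rw [hs B A]
            ring
          · simp [h1, Ne.symm h1, h2, h3, h5]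
            exact Or.inl (hs A' A)
        · by_cases h5 : B = A'
          · subst h5
            simp [h1, Ne.symm h1, h2, h4]
            exact Or.inl (hs A B)
          · by_cases h6 : B = B'
            · subst h6
              simp [h1, Ne.symm h1, h2, h3, h5]
              rw [hs A B, hs A' B]
            · simp [h1, h2, h3, h4, h5, h6]

private lemma M2c_TT {ι : Type*} [DecidableEq ι] (S : Finset ι) (N : ι → ι → ℝ)
    (hs : ∀ A B, N A B = N B A) :
    (∑ A ∈ S, ∑ B ∈ S, if A = B then 0 else N A B) ^ 2 =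
      ∑ A ∈ S, ∑ B ∈ S, ∑ A' ∈ S, ∑ B' ∈ S, M2c_F4 N A B A' B' +
      4 * (∑ A ∈ S, ∑ B ∈ S, ∑ B' ∈ S, M2c_F3 N A B B') +
        2 * ∑ A ∈ S, ∑ B ∈ S, if A = B then 0 else N A B ^ 2 := by
  have h0 : (∑ A ∈ S, ∑ B ∈ S, if A = B then 0 else N A B) ^ 2 =
      ∑ A ∈ S, ∑ B ∈ S, ∑ A' ∈ S, ∑ B' ∈ S,
        (if A = B then 0 else N A B) * (if A' = B' then 0 else N A' B') := by
    rw [sq, Finset.sum_mul]
    refine Finset.sum_congr rfl fun A _ => ?_
    rw [Finset.sum_mul]
    refine Finset.sum_congr rfl fun B _ => ?_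
    rw [Finset.mul_sum]
    refine Finset.sum_congr rfl fun A' _ => ?_
    rw [Finset.mul_sum]
  rw [h0]
  simp_rw [M2c_pt N hs, Finset.sum_add_distrib]
  have e1 : ∑ A ∈ S, ∑ B ∈ S, ∑ A' ∈ S, ∑ B' ∈ S, (if A = A' then M2c_F3 N A B B' else 0) =
      ∑ A ∈ S, ∑ B ∈ S, ∑ B' ∈ S, M2c_F3 N A B B' := by
    refine Finset.sum_congr rfl fun A hA => Finset.sum_congr rfl fun B hB => ?_
    rw [Finset.sum_comm]
    refine Finset.sum_congr rfl fun B' _ => ?_
    rw [Finset.sum_ite_eq, if_pos hA]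
  have e2 : ∑ A ∈ S, ∑ B ∈ S, ∑ A' ∈ S, ∑ B' ∈ S, (if A = B' then M2c_F3 N A B A' else 0) =
      ∑ A ∈ S, ∑ B ∈ S, ∑ B' ∈ S, M2c_F3 N A B B' := by
    refine Finset.sum_congr rfl fun A hA => Finset.sum_congr rfl fun B hB =>
      Finset.sum_congr rfl fun A' _ => ?_
    rw [Finset.sum_ite_eq, if_pos hA]
  have e3 : ∑ A ∈ S, ∑ B ∈ S, ∑ A' ∈ S, ∑ B' ∈ S, (if B = A' then M2c_F3 N B A B' else 0) =
      ∑ A ∈ S, ∑ B ∈ S, ∑ B' ∈ S, M2c_F3 N A B B' := by
    rw [Finset.sum_comm]
    refine Finset.sum_congr rfl fun B hB => Finset.sum_congr rfl fun A hA => ?_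
    rw [Finset.sum_comm]
    refine Finset.sum_congr rfl fun B' _ => ?_
    rw [Finset.sum_ite_eq, if_pos hB]
  have e4 : ∑ A ∈ S, ∑ B ∈ S, ∑ A' ∈ S, ∑ B' ∈ S, (if B = B' then M2c_F3 N B A A' else 0) =
      ∑ A ∈ S, ∑ B ∈ S, ∑ B' ∈ S, M2c_F3 N A B B' := by
    rw [Finset.sum_comm]
    refine Finset.sum_congr rfl fun B hB => Finset.sum_congr rfl fun A hA =>
      Finset.sum_congr rfl fun A' _ => ?_
    rw [Finset.sum_ite_eq, if_pos hB]
  have e5 : ∑ A ∈ S, ∑ B ∈ S, ∑ A' ∈ S, ∑ B' ∈ S,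
      (if A = A' then (if B = B' then (if A = B then 0 else N A B ^ 2) else 0) else 0) =
      ∑ A ∈ S, ∑ B ∈ S, if A = B then 0 else N A B ^ 2 := by
    refine Finset.sum_congr rfl fun A hA => Finset.sum_congr rfl fun B hB => ?_
    rw [Finset.sum_comm]
    simp_rw [Finset.sum_ite_eq, if_pos hA]
    rw [Finset.sum_ite_eq, if_pos hB]
  have e6 : ∑ A ∈ S, ∑ B ∈ S, ∑ A' ∈ S, ∑ B' ∈ S,
      (if A = B' then (if B = A' then (if A = B then 0 else N A B ^ 2) else 0) else 0) =
      ∑ A ∈ S, ∑ B ∈ S, if A = B then 0 else N A B ^ 2 := by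
    refine Finset.sum_congr rfl fun A hA => Finset.sum_congr rfl fun B hB => ?_
    simp_rw [Finset.sum_ite_eq, if_pos hA]
    rw [Finset.sum_ite_eq, if_pos hB]
  rw [e1, e2, e3, e4, e5, e6]
  ring

private lemma M2c_NK_symm {κ : V → V → ℝ} (hs : ∀ x y, κ x y = κ y x) (A B : Finset V) :
    NK κ A B = NK κ B A := by
  unfold NK
  rw [Finset.sum_comm]
  exact Finset.sum_congr rfl fun y _ => Finset.sum_congr rfl fun x _ => hs x y

private lemma M2c_NK_nonneg {κ : V → V → ℝ} (hκ : ∀ x y, 0 ≤ κ x y) (A B : Finset V) :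
    0 ≤ NK κ A B :=
  Finset.sum_nonneg fun x _ => Finset.sum_nonneg fun y _ => hκ x y

private lemma M2c_bd {κ : V → V → ℝ} (ω : E → Bool) {a b : ℝ} (ha : 0 ≤ a) (hb : 0 ≤ b)
    (hκ : ∀ x y, 0 ≤ κ x y) (hs : ∀ x y, κ x y = κ y x) :
    Xk κ a (GCb ends ω a b) ^ 2 ≤ U4 ends κ ω (Fn a) + 4 * (b ^ 2 * U3 ends κ ω (Fn a)) +
      2 * (b ^ 4 * ccK ends κ ω a 1) := by
  classical
  set S := GCb ends ω a b with hS
  set G := GC ends ω a with hG
  have hsub : S ⊆ G := by
    rw [hS, hG]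
    unfold GCb
    exact Finset.filter_subset _ _
  have hF0 : ∀ A : Finset V, 0 ≤ Fn a (A.card : ℝ) := fun A => Fn_nonneg _ _
  have hFb : ∀ A ∈ S, Fn a (A.card : ℝ) ≤ b := by
    intro A hA
    have h1 : (A.card : ℝ) ≤ b := by
      rw [hS] at hA
      unfold GCb at hA
      exact (Finset.mem_filter.1 hA).2
    unfold Fn
    exact max_le (by linarith) hb
  have hN0 : ∀ A B : Finset V, 0 ≤ NK κ A B := fun A B => M2c_NK_nonneg hκ A B
  set M : Finset V → Finset V → ℝ := fun A B => Fn a A.card * (NK κ A B * Fn a B.card) with hM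
  have hMs : ∀ A B, M A B = M B A := by
    intro A B
    simp only [hM]
    rw [M2c_NK_symm hs A B]
    ring
  have hM0 : ∀ A B, 0 ≤ M A B := fun A B => mul_nonneg (hF0 A) (mul_nonneg (hN0 A B) (hF0 B))
  have h1 := M2c_TT S M hMs
  have h5 : Xk κ a S = ∑ A ∈ S, ∑ B ∈ S, if A = B then 0 else M A B := by
    unfold Xk
    congr!
  have h4 : ∑ A ∈ S, ∑ B ∈ S, ∑ A' ∈ S, ∑ B' ∈ S, M2c_F4 M A B A' B' ≤
      U4 ends κ ω (Fn a) := by
    refine le_trans ?_ (U4_low (ends := ends) ω (a := a) (f := Fn a) hκ (fun k => Fn_nonneg _ _))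
    have hnn : ∀ A B A' B', 0 ≤ M2c_F4 M A B A' B' := by
      intro A B A' B'
      unfold M2c_F4
      split_ifs
      all_goals first | exact le_refl _ | exact mul_nonneg (hM0 _ _) (hM0 _ _)
    calc _ ≤ ∑ A ∈ G, ∑ B ∈ G, ∑ A' ∈ G, ∑ B' ∈ G, M2c_F4 M A B A' B' := by
          refine (Finset.sum_le_sum_of_subset_of_nonneg hsub fun A _ _ => Finset.sum_nonneg fun B _ =>
            Finset.sum_nonneg fun A' _ => Finset.sum_nonneg fun B' _ => hnn A B A' B').trans ?_
          refine Finset.sum_le_sum fun A _ => ?_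
          refine (Finset.sum_le_sum_of_subset_of_nonneg hsub fun B _ _ =>
            Finset.sum_nonneg fun A' _ => Finset.sum_nonneg fun B' _ => hnn A B A' B').trans ?_
          refine Finset.sum_le_sum fun B _ => ?_
          refine (Finset.sum_le_sum_of_subset_of_nonneg hsub fun A' _ _ =>
            Finset.sum_nonneg fun B' _ => hnn A B A' B').trans ?_
          refine Finset.sum_le_sum fun A' _ => ?_
          exact Finset.sum_le_sum_of_subset_of_nonneg hsub fun B' _ _ => hnn A B A' B'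
      _ = _ := by
          unfold M2c_F4
          congr!
  have h3 : ∑ A ∈ S, ∑ B ∈ S, ∑ B' ∈ S, M2c_F3 M A B B' ≤ b ^ 2 * U3 ends κ ω (Fn a) := by
    refine le_trans ?_ (mul_le_mul_of_nonneg_left
      (U3_low (ends := ends) ω (a := a) (f := Fn a) hκ (fun k => Fn_nonneg _ _)) (sq_nonneg b))
    set R : Finset V → Finset V → Finset V → ℝ := fun A B B' =>
      (if A = B then 0 else if A = B' then 0 else if B = B' then 0 else
        (NK κ A B * Fn a B.card) * (NK κ A B' * Fn a B'.card)) with hR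
    have hR0 : ∀ A B B', 0 ≤ R A B B' := by
      intro A B B'
      simp only [hR]
      split_ifs
      all_goals first
        | exact le_refl _
        | exact mul_nonneg (mul_nonneg (hN0 _ _) (hF0 _)) (mul_nonneg (hN0 _ _) (hF0 _))
    have hle : ∀ A ∈ S, ∀ B B', M2c_F3 M A B B' ≤ b ^ 2 * R A B B' := by
      intro A hA B B'
      have hF2 : Fn a (A.card : ℝ) ^ 2 ≤ b ^ 2 := pow_le_pow_left₀ (hF0 A) (hFb A hA) 2
      unfold M2c_F3
      simp only [hR, hM]
      split_ifs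
      · simp
      · simp
      · simp
      · have e : Fn a (A.card : ℝ) * (NK κ A B * Fn a (B.card : ℝ)) *
            (Fn a (A.card : ℝ) * (NK κ A B' * Fn a (B'.card : ℝ))) =
            Fn a (A.card : ℝ) ^ 2 * ((NK κ A B * Fn a (B.card : ℝ)) *
              (NK κ A B' * Fn a (B'.card : ℝ))) := by ring
        rw [e]
        exact mul_le_mul_of_nonneg_right hF2
          (mul_nonneg (mul_nonneg (hN0 _ _) (hF0 _)) (mul_nonneg (hN0 _ _) (hF0 _)))
    calc _ ≤ ∑ A ∈ S, ∑ B ∈ S, ∑ B' ∈ S, b ^ 2 * R A B B' :=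
          Finset.sum_le_sum fun A hA => Finset.sum_le_sum fun B _ => Finset.sum_le_sum fun B' _ =>
            hle A hA B B'
      _ ≤ ∑ A ∈ G, ∑ B ∈ G, ∑ B' ∈ G, b ^ 2 * R A B B' := by
          have hnn : ∀ A B B', 0 ≤ b ^ 2 * R A B B' :=
            fun A B B' => mul_nonneg (sq_nonneg b) (hR0 A B B')
          refine (Finset.sum_le_sum_of_subset_of_nonneg hsub fun A _ _ => Finset.sum_nonneg fun B _ =>
            Finset.sum_nonneg fun B' _ => hnn A B B').trans ?_
          refine Finset.sum_le_sum fun A _ => ?_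
          refine (Finset.sum_le_sum_of_subset_of_nonneg hsub fun B _ _ =>
            Finset.sum_nonneg fun B' _ => hnn A B B').trans ?_
          refine Finset.sum_le_sum fun B _ => ?_
          exact Finset.sum_le_sum_of_subset_of_nonneg hsub fun B' _ _ => hnn A B B'
      _ = b ^ 2 * ∑ A ∈ G, ∑ B ∈ G, ∑ B' ∈ G, R A B B' := by
          simp only [Finset.mul_sum]
      _ = _ := by
          simp only [hR]
          congr!
  have h2 : ∑ A ∈ S, ∑ B ∈ S, (if A = B then 0 else M A B ^ 2) ≤ b ^ 4 * ccK ends κ ω a 1 := by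
    have hc : ccK ends κ ω a 1 = ∑ A ∈ G, ∑ B ∈ G, if A = B then 0 else NK κ A B ^ 2 := by
      rw [← M2c_cyc G (NK κ) (fun A B => M2c_NK_symm hs A B)]
      unfold ccK
      congr!
    rw [hc]
    have hle : ∀ A ∈ S, ∀ B ∈ S, (if A = B then 0 else M A B ^ 2) ≤
        b ^ 4 * (if A = B then 0 else NK κ A B ^ 2) := by
      intro A hA B hB
      split_ifs
      · simp
      · have hAB : Fn a (A.card : ℝ) * Fn a (B.card : ℝ) ≤ b * b :=
          mul_le_mul (hFb A hA) (hFb B hB) (hF0 B) hb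
        have h2 : (Fn a (A.card : ℝ) * Fn a (B.card : ℝ)) ^ 2 ≤ (b * b) ^ 2 :=
          pow_le_pow_left₀ (mul_nonneg (hF0 A) (hF0 B)) hAB 2
        have e : M A B ^ 2 = (Fn a (A.card : ℝ) * Fn a (B.card : ℝ)) ^ 2 * NK κ A B ^ 2 := by
          simp only [hM]
          ring
        rw [e]
        calc _ ≤ (b * b) ^ 2 * NK κ A B ^ 2 := mul_le_mul_of_nonneg_right h2 (sq_nonneg _)
          _ = _ := by ring
    have hnn : ∀ A B, 0 ≤ b ^ 4 * (if A = B then 0 else NK κ A B ^ 2) := by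
      intro A B
      refine mul_nonneg (by positivity) ?_
      split_ifs
      · exact le_refl _
      · exact sq_nonneg _
    calc _ ≤ ∑ A ∈ S, ∑ B ∈ S, b ^ 4 * (if A = B then 0 else NK κ A B ^ 2) :=
          Finset.sum_le_sum fun A hA => Finset.sum_le_sum fun B hB => hle A hA B hB
      _ ≤ ∑ A ∈ G, ∑ B ∈ G, b ^ 4 * (if A = B then 0 else NK κ A B ^ 2) := by
          refine (Finset.sum_le_sum_of_subset_of_nonneg hsub fun A _ _ => Finset.sum_nonneg fun B _ =>
            hnn A B).trans ?_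
          refine Finset.sum_le_sum fun A _ => ?_
          exact Finset.sum_le_sum_of_subset_of_nonneg hsub fun B _ _ => hnn A B
      _ = _ := by
          simp only [Finset.mul_sum]
  rw [h5, h1]
  linarith

/-- Row M2c. Proof: copy the private lemmas `S3_*` of `Sec.lean` (the algebraic identity for `(∑ ∑)^2`), apply the
identity `S3_TT` to the kernel `Fn a |A| * (NK κ A B * Fn a |B|)` on the set `GCb`: distinct quadruples are bounded by
`U4_low` with `f = Fn a` (the sum over `GCb` is at most the sum over `GC`, the terms are not negative), distinct triples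
(`A` is used twice, `Fn a |A| ^ 2 ≤ b ^ 2`) by `b ^ 2 * U3`, and pairs by `b ^ 4 * ccK 1`
(`∑ A ∈ S, pth N 1 (S.erase A) A A = ∑ ∑ [A ≠ B] N A B ^ 2`, `S3_cyc`). `Fn a k ≤ k` for `0 ≤ a`, `0 ≤ k`. -/
theorem Xk_sq {κ : V → V → ℝ} {p a b χ cg W : ℝ} (h0 : 0 ≤ p) (h1 : p ≤ 1) (ha : 0 ≤ a) (hb : 0 ≤ b)
    (hκ : ∀ x y, 0 ≤ κ x y) (hs : ∀ x y, κ x y = κ y x) (hW : ∀ x, ∑ y, κ x y ≤ W)
    (hχ : ∀ x, Ex p (fun ω => cz ends ω x) = χ)
    (hc : ∀ x, Ex p (fun ω => Fn a (cz ends ω x)) = cg) :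
    Ex p (fun ω => Xk κ a (GCb ends ω a b) ^ 2) ≤
      W ^ 2 * (Fintype.card V) ^ 2 * cg ^ 4 + 4 * (b ^ 2 * (W ^ 2 * cg ^ 2 * (Fintype.card V) * χ)) +
        2 * (b ^ 4 * Ex p (fun ω => ccK ends κ ω a 1)) := by
  have hmono : Monotone (Fn a) := fun k l h => Fn_mono a h
  have h3 := U3_mean (ends := ends) (κ := κ) (f := Fn a) h0 h1 hκ hW (fun k => Fn_nonneg a k) hmono hχ
    (fun x => (hc x).le)
  have h4 := U4_mean (ends := ends) (κ := κ) (f := Fn a) h0 h1 hκ hW (fun k => Fn_nonneg a k) hmono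
    (fun x => (hc x).le)
  calc Ex p (fun ω => Xk κ a (GCb ends ω a b) ^ 2)
      ≤ Ex p (fun ω => U4 ends κ ω (Fn a) + 4 * (b ^ 2 * U3 ends κ ω (Fn a)) +
          2 * (b ^ 4 * ccK ends κ ω a 1)) :=
        Ex_mono h0 h1 fun ω => M2c_bd ω ha hb hκ hs
    _ = Ex p (fun ω => U4 ends κ ω (Fn a)) + 4 * (b ^ 2 * Ex p (fun ω => U3 ends κ ω (Fn a))) +
          2 * (b ^ 4 * Ex p (fun ω => ccK ends κ ω a 1)) := by
        rw [Ex_add, Ex_add, Ex_mul_left, Ex_mul_left, Ex_mul_left, Ex_mul_left]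
    _ ≤ _ := by
        have e1 : 4 * (b ^ 2 * Ex p (fun ω => U3 ends κ ω (Fn a))) ≤
            4 * (b ^ 2 * (W ^ 2 * cg ^ 2 * (Fintype.card V) * χ)) :=
          mul_le_mul_of_nonneg_left (mul_le_mul_of_nonneg_left h3 (sq_nonneg b)) (by norm_num)
        linarith

private lemma M3_Fn_le {a k : ℝ} (ha : 0 ≤ a) (hk : 0 ≤ k) : Fn a k ≤ k := by
  unfold Fn
  exact max_le (by linarith) hk

open scoped Classical in
/-- The truncated weight of a vertex. -/
private noncomputable def M3_f (a b k : ℝ) : ℝ := if a ≤ k then (if k ≤ b then Fn a k else 0) else 0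

private lemma M3_f_nonneg (a b k : ℝ) : 0 ≤ M3_f a b k := by
  unfold M3_f
  split_ifs
  · exact Fn_nonneg a k
  · exact le_rfl
  · exact le_rfl

private lemma M3_f_le (a b k : ℝ) : M3_f a b k ≤ Fn a k := by
  unfold M3_f
  split_ifs
  · exact le_rfl
  · exact Fn_nonneg a k
  · exact Fn_nonneg a k

private lemma M3_f_le_b {a b k : ℝ} (ha : 0 ≤ a) (hb : 0 ≤ b) (hk : 0 ≤ k) : M3_f a b k ≤ b := by
  unfold M3_f
  split_ifs with h1 h2
  · exact (M3_Fn_le ha hk).trans h2
  · exact hb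
  · exact hb

private lemma M3_f_low {a b k : ℝ} (ha : 0 ≤ a) (hb : 0 < b) (hk : 0 ≤ k) :
    Fn a k - (1 / b) * k ^ 2 ≤ M3_f a b k := by
  have hq : 0 ≤ (1 / b) * k ^ 2 := mul_nonneg (by positivity) (sq_nonneg k)
  unfold M3_f
  split_ifs with h1 h2
  · linarith
  · have h3 := M3_Fn_le ha hk
    have h4 : b ≤ k := (not_le.1 h2).le
    have h5 : k ≤ (1 / b) * k ^ 2 := by
      have h6 : (1 / b) * k ^ 2 = k * (k / b) := by ring
      rw [h6]
      have h7 : 1 ≤ k / b := by rw [le_div_iff₀ hb]; linarith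
      nlinarith
    linarith
  · have h3 : Fn a k = 0 := by
      unfold Fn
      exact max_eq_right (by linarith [not_le.1 h1])
    rw [h3]
    linarith

private lemma M3_Yk (ω : E → Bool) (a b : ℝ) :
    Yk a (GCb ends ω a b) = ∑ x, M3_f a b (cz ends ω x) := by
  classical
  have h1 := GC_sum (ends := ends) ω a (fun A _ => if (A.card : ℝ) ≤ b then Fn a A.card else 0)
  have h2 : Yk a (GCb ends ω a b) =
      ∑ A ∈ GC ends ω a, ∑ _x ∈ A, (if (A.card : ℝ) ≤ b then Fn a A.card else 0) := by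
    unfold Yk GCb
    rw [Finset.sum_filter]
    refine Finset.sum_congr rfl fun A _ => ?_
    rw [Finset.sum_const, nsmul_eq_mul]
    split_ifs
    · ring
    · ring
  rw [h2, h1]
  refine Finset.sum_congr rfl fun x _ => ?_
  unfold M3_f cz
  rfl

/-- Row M3. `∑ A ∈ GC, Fn a |A| * |A| = ∑ x, Fn a (cz x)` (`GC_sum`); the part `|A| > b` has mean at most
`|V| ν / b`. -/
lemma Yk_mean {p a b cg ν : ℝ} (h0 : 0 ≤ p) (h1 : p ≤ 1) (ha : 0 ≤ a) (hb : 0 < b)
    (hc : ∀ x, Ex p (fun ω => Fn a (cz ends ω x)) = cg)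
    (hν : ∀ x, Ex p (fun ω => cz ends ω x ^ 2) ≤ ν) :
    (Fintype.card V) * cg - (Fintype.card V) * (ν / b) ≤ Ex p (fun ω => Yk a (GCb ends ω a b)) := by
  have h : ∀ ω : E → Bool, ∑ x, (Fn a (cz ends ω x) + (-(1 / b)) * cz ends ω x ^ 2) ≤
      Yk a (GCb ends ω a b) := by
    intro ω
    rw [M3_Yk]
    refine Finset.sum_le_sum fun x _ => ?_
    have := M3_f_low ha hb (cz_nonneg (ends := ends) ω x)
    linarith
  refine le_trans ?_ (Ex_mono h0 h1 h)
  rw [Ex_sum]
  have h3 : ∀ x : V, cg - ν / b ≤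
      Ex p (fun ω => Fn a (cz ends ω x) + (-(1 / b)) * cz ends ω x ^ 2) := by
    intro x
    rw [Ex_add, Ex_mul_left, hc x]
    have h4 : (1 / b) * Ex p (fun ω => cz ends ω x ^ 2) ≤ (1 / b) * ν :=
      mul_le_mul_of_nonneg_left (hν x) (by positivity)
    have h5 : (1 / b) * ν = ν / b := by ring
    linarith
  calc (Fintype.card V : ℝ) * cg - (Fintype.card V) * (ν / b)
      = ∑ _x : V, (cg - ν / b) := by
        rw [Finset.sum_const, Finset.card_univ, nsmul_eq_mul]
        ring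
    _ ≤ _ := Finset.sum_le_sum fun x _ => h3 x

/-- Row M3. `Yk ^ 2` is the sum over pairs of distinct clusters (at most `∑ x, ∑ y, [y ∉ cu x] Fn (cz x) Fn (cz y)`, `two`)
plus `∑ A, Fn a |A| ^ 2 |A| ^ 2 ≤ b ^ 2 ∑ A, Fn a |A| * |A|` over `GCb`. -/
lemma Yk_sq {p a b χ cg : ℝ} (h0 : 0 ≤ p) (h1 : p ≤ 1) (ha : 0 ≤ a) (hb : 0 ≤ b)
    (hχ : ∀ x, Ex p (fun ω => cz ends ω x) = χ)
    (hc : ∀ x, Ex p (fun ω => Fn a (cz ends ω x)) = cg) :
    Ex p (fun ω => Yk a (GCb ends ω a b) ^ 2) ≤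
      (Fintype.card V) ^ 2 * cg ^ 2 + b ^ 2 * ((Fintype.card V) * χ) := by
  classical
  have h : ∀ ω : E → Bool, Yk a (GCb ends ω a b) ^ 2 ≤
      ∑ x, ((∑ y, (if y ∈ cu ends ω x then 0 else 1) * (Fn a (cz ends ω x) * Fn a (cz ends ω y))) +
        b ^ 2 * cz ends ω x) := by
    intro ω
    rw [M3_Yk, sq, Finset.sum_mul]
    refine Finset.sum_le_sum fun x _ => ?_
    rw [Finset.mul_sum]
    have e1 : ∀ y, M3_f a b (cz ends ω x) * M3_f a b (cz ends ω y) ≤
        (if y ∈ cu ends ω x then (0 : ℝ) else 1) * (Fn a (cz ends ω x) * Fn a (cz ends ω y)) +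
        (if y ∈ cu ends ω x then b ^ 2 else 0) := by
      intro y
      by_cases hy : y ∈ cu ends ω x
      · rw [if_pos hy, if_pos hy, zero_mul, zero_add, sq]
        exact mul_le_mul (M3_f_le_b ha hb (cz_nonneg ω x)) (M3_f_le_b ha hb (cz_nonneg ω y))
          (M3_f_nonneg _ _ _) hb
      · rw [if_neg hy, if_neg hy, one_mul, add_zero]
        exact mul_le_mul (M3_f_le _ _ _) (M3_f_le _ _ _) (M3_f_nonneg _ _ _) (Fn_nonneg _ _)
    refine (Finset.sum_le_sum fun y _ => e1 y).trans ?_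
    rw [Finset.sum_add_distrib]
    refine add_le_add le_rfl (le_of_eq ?_)
    rw [Finset.sum_ite_mem, Finset.univ_inter, Finset.sum_const, nsmul_eq_mul]
    unfold cz
    ring
  refine (Ex_mono h0 h1 h).trans ?_
  rw [Ex_sum]
  have h3 : ∀ x : V, Ex p (fun ω => (∑ y, (if y ∈ cu ends ω x then (0 : ℝ) else 1) *
      (Fn a (cz ends ω x) * Fn a (cz ends ω y))) + b ^ 2 * cz ends ω x) ≤
      (Fintype.card V) * cg ^ 2 + b ^ 2 * χ := by
    intro x
    rw [Ex_add, Ex_mul_left, hχ x, Ex_sum]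
    refine add_le_add ?_ le_rfl
    have h4 : ∀ y : V, Ex p (fun ω => (if y ∈ cu ends ω x then (0 : ℝ) else 1) *
        (Fn a (cz ends ω x) * Fn a (cz ends ω y))) ≤ cg ^ 2 := by
      intro y
      have h5 := two (ends := ends) h0 h1 x y (fun A => Fn a (A.card : ℝ))
        (fun A => Fn_nonneg _ _) (fun A => Fn a (A.card : ℝ)) (fun A => Fn_nonneg _ _)
        (fun A B hAB => Fn_mono a (by exact_mod_cast Finset.card_le_card hAB))
      have h6 : Ex p (fun ω => Fn a ((cu ends ω x).card : ℝ)) = cg := hc x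
      have h7 : Ex p (fun ω => Fn a ((cu ends ω y).card : ℝ)) = cg := hc y
      rw [h6, h7] at h5
      rw [sq]
      refine le_trans (le_of_eq ?_) h5
      refine Ex_congr fun ω => ?_
      unfold cz
      congr!
    calc _ ≤ ∑ _y : V, cg ^ 2 := Finset.sum_le_sum fun y _ => h4 y
      _ = (Fintype.card V) * cg ^ 2 := by
        rw [Finset.sum_const, Finset.card_univ, nsmul_eq_mul]
  calc _ ≤ ∑ _x : V, ((Fintype.card V : ℝ) * cg ^ 2 + b ^ 2 * χ) :=
        Finset.sum_le_sum fun x _ => h3 x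
    _ = (Fintype.card V) ^ 2 * cg ^ 2 + b ^ 2 * ((Fintype.card V) * χ) := by
        rw [Finset.sum_const, Finset.card_univ, nsmul_eq_mul]
        ring

/-- distinct triples -/
private noncomputable def M4_F3 {ι : Type*} [DecidableEq ι] (N : ι → ι → ℝ) (A B B' : ι) : ℝ :=
  if A = B then 0 else if A = B' then 0 else if B = B' then 0 else N A B * N A B'

private lemma M4_cyc {ι : Type*} [DecidableEq ι] (S : Finset ι) (N : ι → ι → ℝ)
    (hs : ∀ A B, N A B = N B A) :
    ∑ A ∈ S, pth N 1 (S.erase A) A A = ∑ A ∈ S, ∑ B ∈ S, if A = B then 0 else N A B ^ 2 := by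
  refine Finset.sum_congr rfl fun A hA => ?_
  have h1 : pth N 1 (S.erase A) A A = ∑ D ∈ S.erase A, N A D * N D A := rfl
  rw [h1, ← Finset.sum_erase S (f := fun B => if A = B then (0 : ℝ) else N A B ^ 2) (a := A)
    (by simp)]
  refine Finset.sum_congr rfl fun B hB => ?_
  have h : ¬ A = B := fun h => (Finset.ne_of_mem_erase hB) h.symm
  rw [if_neg h, hs B A]
  ring

private lemma M4_dg {ι : Type*} [DecidableEq ι] (S : Finset ι) (N : ι → ι → ℝ) :
    ∑ A ∈ S, (∑ B ∈ S, if A = B then 0 else N A B) ^ 2 =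
      ∑ A ∈ S, ∑ B ∈ S, ∑ B' ∈ S, M4_F3 N A B B' +
        ∑ A ∈ S, ∑ B ∈ S, if A = B then 0 else N A B ^ 2 := by
  rw [← Finset.sum_add_distrib]
  refine Finset.sum_congr rfl fun A _ => ?_
  rw [sq, Finset.sum_mul_sum, ← Finset.sum_add_distrib]
  refine Finset.sum_congr rfl fun B hB => ?_
  have h1 : (if A = B then (0 : ℝ) else N A B ^ 2) =
      ∑ B' ∈ S, if B = B' then (if A = B then (0 : ℝ) else N A B ^ 2) else 0 := by
    rw [Finset.sum_ite_eq, if_pos hB]
  rw [h1, ← Finset.sum_add_distrib]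
  refine Finset.sum_congr rfl fun B' _ => ?_
  unfold M4_F3
  by_cases h2 : A = B
  · simp [h2]
  · by_cases h3 : A = B'
    · subst h3
      simp [h2, Ne.symm h2]
    · by_cases h4 : B = B'
      · subst h4
        simp [h2]
        ring
      · simp [h2, h3, h4]

private lemma M4_symm {κ : V → V → ℝ} (hs : ∀ x y, κ x y = κ y x) (A B : Finset V) :
    NK κ A B = NK κ B A := by
  unfold NK
  rw [Finset.sum_comm]
  exact Finset.sum_congr rfl fun y _ => Finset.sum_congr rfl fun x _ => hs x y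

open scoped Classical in
/-- The second moment of the degrees, pointwise. -/
private lemma M4_pt {κ : V → V → ℝ} (ω : E → Bool) {a : ℝ} (hκ : ∀ x y, 0 ≤ κ x y)
    (hs : ∀ x y, κ x y = κ y x) :
    ∑ A ∈ GC ends ω a, dgK κ (GC ends ω a) A ^ 2 ≤
      U3 ends κ ω (fun k => if a ≤ k then (1 : ℝ) else 0) + ccK ends κ ω a 1 := by
  have h1 := M4_dg (GC ends ω a) (NK κ)
  have h2 := M4_cyc (GC ends ω a) (NK κ) (M4_symm hs)
  have h3 := U3_low (ends := ends) (κ := κ) ω (a := a) (f := fun k => if a ≤ k then (1 : ℝ) else 0) hκ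
    (fun k => by split_ifs <;> norm_num)
  have hcard : ∀ A ∈ GC ends ω a, (if a ≤ (A.card : ℝ) then (1 : ℝ) else 0) = 1 := by
    intro A hA
    rw [if_pos (mem_GC.1 hA).2]
  have h4 : ∑ A ∈ GC ends ω a, ∑ B ∈ GC ends ω a, ∑ B' ∈ GC ends ω a, M4_F3 (NK κ) A B B' ≤
      U3 ends κ ω (fun k => if a ≤ k then (1 : ℝ) else 0) := by
    refine le_trans (le_of_eq ?_) h3
    refine Finset.sum_congr rfl fun A _ => Finset.sum_congr rfl fun B hB =>
      Finset.sum_congr rfl fun B' hB' => ?_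
    unfold M4_F3
    rw [hcard B hB, hcard B' hB', mul_one, mul_one]
  have h5 : ∑ A ∈ GC ends ω a, dgK κ (GC ends ω a) A ^ 2 =
      ∑ A ∈ GC ends ω a, (∑ B ∈ GC ends ω a, if A = B then 0 else NK κ A B) ^ 2 := by
    unfold dgK
    congr!
  have h6 : ccK ends κ ω a 1 = ∑ A ∈ GC ends ω a, pth (NK κ) 1 ((GC ends ω a).erase A) A A := by
    unfold ccK
    congr!
  rw [h5, h1, h6, h2]
  linarith

/-- Row M4. Compare `dg_sq` in `Sec.lean`; `U3_low`, `U3_mean` with `f k = if a ≤ k then 1 else 0`. -/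
lemma dgK_sq {κ : V → V → ℝ} {p a χ P W : ℝ} (h0 : 0 ≤ p) (h1 : p ≤ 1)
    (hκ : ∀ x y, 0 ≤ κ x y) (hs : ∀ x y, κ x y = κ y x) (hW : ∀ x, ∑ y, κ x y ≤ W)
    (hχ : ∀ x, Ex p (fun ω => cz ends ω x) = χ)
    (hP : ∀ x, Ex p (fun ω => if a ≤ cz ends ω x then (1 : ℝ) else 0) ≤ P) :
    Ex p (fun ω => ∑ A ∈ GC ends ω a, dgK κ (GC ends ω a) A ^ 2) ≤
      W ^ 2 * P ^ 2 * (Fintype.card V) * χ + Ex p (fun ω => ccK ends κ ω a 1) := by
  classical
  have hf0 : ∀ k : ℝ, 0 ≤ (fun k : ℝ => if a ≤ k then (1 : ℝ) else 0) k := fun k => by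
    dsimp only
    split_ifs <;> norm_num
  have hf : Monotone (fun k : ℝ => if a ≤ k then (1 : ℝ) else 0) := by
    intro k l hkl
    dsimp only
    by_cases hk : a ≤ k
    · rw [if_pos hk, if_pos (hk.trans hkl)]
    · rw [if_neg hk]
      split_ifs <;> norm_num
  have h3 := U3_mean (ends := ends) (κ := κ) (p := p) (χ := χ) (P := P) (W := W)
    (f := fun k => if a ≤ k then (1 : ℝ) else 0) h0 h1 hκ hW hf0 hf hχ hP
  refine le_trans (Ex_mono h0 h1 (fun ω => M4_pt (ends := ends) (κ := κ) ω (a := a) hκ hs)) ?_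
  rw [Ex_add]
  linarith

end Pool.Agent.PERC29
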