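import Pool.Agent.Lib.MP_29e17e_pr.U.Wa
import Pool.Agent.Lib.MP_29e17e_pr.U.Ed
import Pool.Agent.Lib.MP_29e17e_pr.U.Cc
import Pool.Agent.Lib.MP_29e17e_pr.U.Fc
import Pool.Agent.Lib.MP_29e17e_pr.U.Sm

set_option autoImplicit false
set_option linter.unusedSectionVars false

/-! Rows 29u-K1 .. 29u-K8: the kernel of the large clusters is close to rank one. -/

open Finset

namespace Pool.Agent.PERC29

variable {V : Type*} [Fintype V] [DecidableEq V] {E : Type*} [Fintype E] [DecidableEq E]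
  {ends : E → Sym2 V}

/-- The weight of a cluster of size `k`: `(1 - a / k)⁺`. -/
noncomputable def gq (a : ℝ) (k : ℕ) : ℝ := Fn a k / k

/-- The symmetric kernel on the clusters. -/
noncomputable def MK (κ : V → V → ℝ) (a : ℝ) (A B : Finset V) : ℝ :=
  if A = B then 0 else Real.sqrt (gq a A.card) * (NK κ A B * Real.sqrt (gq a B.card))

/-- The approximate eigenvector. -/
noncomputable def wK (a : ℝ) (A : Finset V) : ℝ := Real.sqrt (gq a A.card) * A.card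

open scoped Classical in
/-- The good clusters: more than `a` and at most `b` vertices, and not too many short cycles. -/
noncomputable def gs (ends : E → Sym2 V) (κ : V → V → ℝ) (ω : E → Bool) (a b : ℝ) (v : ℕ → ℝ)
    (n : ℕ) : Finset (Finset V) :=
  (GC ends ω a).filter (fun A => a < (A.card : ℝ) ∧ (A.card : ℝ) ≤ b ∧
    ∀ l, 1 ≤ l → l < n → pth (NK κ) l ((GC ends ω a).erase A) A A ≤ v (l + 1))

open scoped Classical in
/-- The bad clusters. -/
noncomputable def bs (ends : E → Sym2 V) (κ : V → V → ℝ) (ω : E → Bool) (a : ℝ) (v : ℕ → ℝ)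
    (n : ℕ) : Finset (Finset V) :=
  (GC ends ω a).filter (fun A => ∃ l, 1 ≤ l ∧ l < n ∧
    v (l + 1) < pth (NK κ) l ((GC ends ω a).erase A) A A)

/-- Row K1. -/
lemma gq_nonneg (a : ℝ) (k : ℕ) : 0 ≤ gq a k := by
  exact div_nonneg (Fn_nonneg _ _) (Nat.cast_nonneg _)

/-- Row K1. -/
lemma gq_mono {a : ℝ} (ha : 0 ≤ a) : Monotone (gq a) := by
  intro k l hkl
  have hkl' : (k : ℝ) ≤ l := by exact_mod_cast hkl
  rcases Nat.eq_zero_or_pos k with rfl | hk
  · have h0 : gq a 0 = 0 := by simp [gq]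
    rw [h0]
    exact gq_nonneg a l
  · have hk' : (0 : ℝ) < k := by exact_mod_cast hk
    have hl' : (0 : ℝ) < l := lt_of_lt_of_le hk' hkl'
    rcases le_or_gt (k : ℝ) a with h | h
    · have h0 : gq a k = 0 := by
        unfold gq Fn
        rw [max_eq_right (by linarith), zero_div]
      rw [h0]
      exact gq_nonneg a l
    · unfold gq Fn
      rw [max_eq_left (by linarith), max_eq_left (by linarith), div_le_div_iff₀ hk' hl']
      nlinarith [mul_le_mul_of_nonneg_left hkl' ha]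

/-- Row K1. -/
lemma gq_le_one {a : ℝ} (ha : 0 ≤ a) (k : ℕ) : gq a k ≤ 1 := by
  rcases Nat.eq_zero_or_pos k with rfl | hk
  · simp [gq]
  · have hk' : (0 : ℝ) < k := by exact_mod_cast hk
    unfold gq Fn
    rw [div_le_one hk']
    exact max_le (by linarith) hk'.le

/-- Row K1. `1 - a / k ≤ k / a`. -/
lemma gq_le {a : ℝ} (ha : 0 < a) (k : ℕ) : gq a k ≤ k / a := by
  rcases Nat.eq_zero_or_pos k with rfl | hk
  · simp [gq]
  · have hk' : (0 : ℝ) < k := by exact_mod_cast hk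
    unfold gq Fn
    rw [div_le_div_iff₀ hk' ha]
    rcases le_or_gt (k : ℝ) a with h | h
    · rw [max_eq_right (by linarith), zero_mul]
      positivity
    · rw [max_eq_left (by linarith)]
      nlinarith [mul_pos hk' ha, sq_nonneg ((k : ℝ) - a)]

/-- Row K1. -/
lemma gq_mul {a : ℝ} (ha : 0 ≤ a) (k : ℕ) : gq a k * k = Fn a k := by
  rcases Nat.eq_zero_or_pos k with rfl | hk
  · unfold Fn
    rw [Nat.cast_zero, mul_zero, max_eq_right (by linarith)]
  · have hk' : (0 : ℝ) < k := by exact_mod_cast hk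
    unfold gq
    exact div_mul_cancel₀ _ hk'.ne'

/-- Row K1. -/
lemma MK_nonneg {κ : V → V → ℝ} (hκ : ∀ x y, 0 ≤ κ x y) (a : ℝ) (A B : Finset V) :
    0 ≤ MK κ a A B := by
  unfold MK
  split_ifs
  · exact le_rfl
  · exact mul_nonneg (Real.sqrt_nonneg _) (mul_nonneg
      (Finset.sum_nonneg fun x _ => Finset.sum_nonneg fun y _ => hκ x y) (Real.sqrt_nonneg _))

/-- Row K1. -/
lemma MK_symm {κ : V → V → ℝ} (hs : ∀ x y, κ x y = κ y x) (a : ℝ) (A B : Finset V) :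
    MK κ a A B = MK κ a B A := by
  have hN : NK κ A B = NK κ B A := by
    unfold NK
    rw [Finset.sum_comm]
    exact Finset.sum_congr rfl fun y _ => Finset.sum_congr rfl fun x _ => hs x y
  unfold MK
  by_cases h : A = B
  · rw [if_pos h, if_pos h.symm]
  · rw [if_neg h, if_neg (fun e => h e.symm), hN]
    ring

/-- Row K1. -/
lemma MK_le {κ : V → V → ℝ} (hκ : ∀ x y, 0 ≤ κ x y) {a : ℝ} (ha : 0 ≤ a) (A B : Finset V) :
    MK κ a A B ≤ NK κ A B := by
  have hN : 0 ≤ NK κ A B := Finset.sum_nonneg fun x _ => Finset.sum_nonneg fun y _ => hκ x y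
  unfold MK
  split_ifs
  · exact hN
  · have h1 : Real.sqrt (gq a A.card) ≤ 1 := Real.sqrt_le_one.mpr (gq_le_one ha _)
    have h2 : Real.sqrt (gq a B.card) ≤ 1 := Real.sqrt_le_one.mpr (gq_le_one ha _)
    have h3 : NK κ A B * Real.sqrt (gq a B.card) ≤ NK κ A B := mul_le_of_le_one_right hN h2
    have h4 : 0 ≤ NK κ A B * Real.sqrt (gq a B.card) := mul_nonneg hN (Real.sqrt_nonneg _)
    exact (mul_le_of_le_one_left h4 h1).trans h3

/-- Row K1. -/
lemma wMw (κ : V → V → ℝ) {a : ℝ} (ha : 0 ≤ a) (s : Finset (Finset V)) :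
    ∑ A ∈ s, ∑ B ∈ s, wK a A * MK κ a A B * wK a B = Xk κ a s := by
  unfold Xk
  refine Finset.sum_congr rfl fun A _ => Finset.sum_congr rfl fun B _ => ?_
  unfold MK
  by_cases h : A = B
  · rw [if_pos h, if_pos h, mul_zero, zero_mul]
  · rw [if_neg h, if_neg h, ← gq_mul ha A.card, ← gq_mul ha B.card]
    have h1 : Real.sqrt (gq a A.card) * Real.sqrt (gq a A.card) = gq a A.card :=
      Real.mul_self_sqrt (gq_nonneg a _)
    have h2 : Real.sqrt (gq a B.card) * Real.sqrt (gq a B.card) = gq a B.card :=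
      Real.mul_self_sqrt (gq_nonneg a _)
    unfold wK
    calc Real.sqrt (gq a A.card) * (A.card : ℝ) *
          (Real.sqrt (gq a A.card) * (NK κ A B * Real.sqrt (gq a B.card))) *
          (Real.sqrt (gq a B.card) * (B.card : ℝ))
        = (Real.sqrt (gq a A.card) * Real.sqrt (gq a A.card)) * (A.card : ℝ) *
          (NK κ A B * ((Real.sqrt (gq a B.card) * Real.sqrt (gq a B.card)) * (B.card : ℝ))) := by
          ring
      _ = _ := by rw [h1, h2]

/-- Row K1. -/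
lemma ww {a : ℝ} (ha : 0 ≤ a) (s : Finset (Finset V)) : ∑ A ∈ s, wK a A ^ 2 = Yk a s := by
  unfold Yk
  refine Finset.sum_congr rfl fun A _ => ?_
  unfold wK
  rw [mul_pow, Real.sq_sqrt (gq_nonneg a _), ← gq_mul ha A.card]
  ring

/-- Row K2. Proof. `closed_refined` for `M = MK κ a`, `n = 2 m`, `s = gs ..`: the paths of length one vanish
(`MK A A = 0`), the others are at most `pth (NK κ) l ((GC).erase A) A A ≤ v (l + 1) ≤ u (l + 1)` (`pth_mono`, `MK_le`).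
The main term: `pth_conj` with `M' A B = if A = B then 0 else NK κ A B * gq a B.card`, `r A = √(gq a A.card) > 0` on `s`
(since `a < |A|`), then `pth_mono` (`M' ≤ NK κ * gq`, `s ⊆ GC`). -/
theorem trace_up {κ : V → V → ℝ} (hκ : ∀ x y, 0 ≤ κ x y) (ω : E → Bool) {a b : ℝ} (ha : 0 < a)
    (v u : ℕ → ℝ) (hu0 : u 0 = 1) (hu : ∀ n, 0 ≤ u n) (hmul : ∀ l m, u l * u m ≤ u (l + m))
    (m : ℕ) (hm : 1 ≤ m) (hvu : ∀ l, 2 ≤ l → v l ≤ u l) :
    ∑ A ∈ gs ends κ ω a b v (2 * m - 1), UU (MK κ a) (gs ends κ ω a b v (2 * m - 1)) (2 * m) A A ≤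
      ∑ A ∈ GC ends ω a, pth (fun A B => NK κ A B * gq a B.card) (2 * m - 1)
        ((GC ends ω a).erase A) A A +
      ((GC ends ω a).card : ℝ) *
        (k2 (2 * m - 1) * ∑ j ∈ Finset.range (2 * m - 1), u (2 * m - 1 - j) * u (j + 1)) := by
  have hNK : ∀ A B : Finset V, 0 ≤ NK κ A B := fun A B =>
    Finset.sum_nonneg fun x _ => Finset.sum_nonneg fun y _ => hκ x y
  have hMK : ∀ A B : Finset V, 0 ≤ MK κ a A B := by
    intro A B
    unfold MK
    split_ifs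
    · exact le_rfl
    · exact mul_nonneg (Real.sqrt_nonneg _) (mul_nonneg (hNK A B) (Real.sqrt_nonneg _))
  set s := gs ends κ ω a b v (2 * m - 1) with hs
  have key : ∀ (P : Finset V → Prop) (inst : DecidablePred P) (t : Finset (Finset V)) (A : Finset V),
      A ∈ @Finset.filter _ P inst t → A ∈ t ∧ P A := fun P inst t A h => Finset.mem_filter.1 h
  have hmem : ∀ A, A ∈ s → A ∈ GC ends ω a ∧ a < (A.card : ℝ) ∧
      ∀ l, 1 ≤ l → l < 2 * m - 1 → pth (NK κ) l ((GC ends ω a).erase A) A A ≤ v (l + 1) := by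
    intro A hA
    rw [hs] at hA
    unfold gs at hA
    obtain ⟨h1, h2, _, h4⟩ := key _ _ _ _ hA
    exact ⟨h1, h2, h4⟩
  have hsub : s ⊆ GC ends ω a := fun A hA => (hmem A hA).1
  have hgq : ∀ A : Finset V, 0 ≤ gq a A.card := fun A => gq_nonneg a A.card
  have hN' : ∀ A B : Finset V, 0 ≤ NK κ A B * gq a B.card := fun A B => mul_nonneg (hNK A B) (hgq B)
  set M' : Finset V → Finset V → ℝ := fun A B => if A = B then 0 else NK κ A B * gq a B.card with hM'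
  have hM'0 : ∀ A B, 0 ≤ M' A B := by
    intro A B
    rw [hM']
    dsimp only
    split_ifs
    · exact le_rfl
    · exact hN' A B
  have hM'N : ∀ A B, M' A B ≤ NK κ A B * gq a B.card := by
    intro A B
    rw [hM']
    dsimp only
    split_ifs
    · exact hN' A B
    · exact le_rfl
  set r : Finset V → ℝ := fun A => Real.sqrt (gq a A.card) with hr
  have hrpos : ∀ A ∈ s, 0 < r A := by
    intro A hA
    have h2 := (hmem A hA).2.1
    have h3 : (0 : ℝ) < A.card := ha.trans h2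
    refine Real.sqrt_pos.2 ?_
    unfold gq Fn
    refine div_pos ?_ h3
    exact lt_of_lt_of_le (sub_pos.2 h2) (le_max_left _ _)
  have hconj : ∀ A ∈ s, ∀ B ∈ s, M' A B * r A = r B * MK κ a A B := by
    intro A _ B _
    rw [hM', hr]
    dsimp only
    unfold MK
    split_ifs with hAB
    · rw [zero_mul, mul_zero]
    · have e : gq a B.card = Real.sqrt (gq a B.card) * Real.sqrt (gq a B.card) :=
        (Real.mul_self_sqrt (hgq B)).symm
      calc NK κ A B * gq a B.card * Real.sqrt (gq a A.card)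
          = NK κ A B * (Real.sqrt (gq a B.card) * Real.sqrt (gq a B.card)) *
            Real.sqrt (gq a A.card) := by rw [← e]
        _ = _ := by ring
  have hmain : ∀ A ∈ s, pth (MK κ a) (2 * m - 1) (s.erase A) A A ≤
      pth (fun A B => NK κ A B * gq a B.card) (2 * m - 1) ((GC ends ω a).erase A) A A := by
    intro A hA
    have h1 := (pth_conj (MK κ a) M' r s hrpos hconj (2 * m - 1)).1 (s.erase A)
      (Finset.erase_subset A s) A hA A hA
    have h2 : pth (MK κ a) (2 * m - 1) (s.erase A) A A = pth M' (2 * m - 1) (s.erase A) A A := by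
      have h3 := hrpos A hA
      have h4 : r A * pth (MK κ a) (2 * m - 1) (s.erase A) A A =
          r A * pth M' (2 * m - 1) (s.erase A) A A := by rw [← h1, mul_comm]
      exact mul_left_cancel₀ h3.ne' h4
    rw [h2]
    exact pth_mono hM'0 hM'N (2 * m - 1) (Finset.erase_subset_erase A hsub) A A
  have hcyc : ∀ l, l + 1 < 2 * m → ∀ A ∈ s, pth (MK κ a) l (s.erase A) A A ≤ u (l + 1) := by
    intro l hl A hA
    rcases Nat.eq_zero_or_pos l with h0 | h0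
    · subst h0
      change MK κ a A A ≤ u (0 + 1)
      unfold MK
      rw [if_pos rfl]
      exact hu _
    · refine (pth_mono hMK (fun A B => MK_le hκ ha.le A B) l
        (Finset.erase_subset_erase A hsub) A A).trans ?_
      exact ((hmem A hA).2.2 l h0 (by omega)).trans (hvu (l + 1) (by omega))
  have hstep : ∀ A ∈ s, UU (MK κ a) s (2 * m) A A ≤
      pth (fun A B => NK κ A B * gq a B.card) (2 * m - 1) ((GC ends ω a).erase A) A A +
        k2 (2 * m - 1) * ∑ j ∈ Finset.range (2 * m - 1), u (2 * m - 1 - j) * u (j + 1) := by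
    intro A hA
    have h1 := closed_refined (MK κ a) hMK s u hu0 hu hmul (2 * m) (by omega) hcyc A hA
    exact h1.trans (add_le_add (hmain A hA) le_rfl)
  have hconst : 0 ≤ k2 (2 * m - 1) *
      ∑ j ∈ Finset.range (2 * m - 1), u (2 * m - 1 - j) * u (j + 1) :=
    mul_nonneg (k2_nonneg _) (Finset.sum_nonneg fun j _ => mul_nonneg (hu _) (hu _))
  refine (Finset.sum_le_sum hstep).trans ?_
  rw [Finset.sum_add_distrib, Finset.sum_const, nsmul_eq_mul]
  refine add_le_add ?_ ?_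
  · exact Finset.sum_le_sum_of_subset_of_nonneg hsub fun A _ _ => pth_nonneg hN' _ _ A A
  · exact mul_le_mul_of_nonneg_right (Nat.cast_le.2 (Finset.card_le_card hsub)) hconst

/-- Row K4. The mean number of bad clusters (Markov for each length). -/
lemma bad_mean {κ : V → V → ℝ} {p : ℝ} (h0 : 0 ≤ p) (h1 : p ≤ 1) (hκ : ∀ x y, 0 ≤ κ x y) (a : ℝ)
    (v : ℕ → ℝ) (hv : ∀ l, 0 < v l) (n : ℕ) :
    Ex p (fun ω => ((bs ends κ ω a v n).card : ℝ)) ≤
      ∑ l ∈ Finset.Ico 1 n, Ex p (fun ω => ccK ends κ ω a l) / v (l + 1) := by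
  classical
  have hN : ∀ A B : Finset V, 0 ≤ NK κ A B := fun A B =>
    Finset.sum_nonneg fun x _ => Finset.sum_nonneg fun y _ => hκ x y
  have h2 : ∑ l ∈ Finset.Ico 1 n, Ex p (fun ω => ccK ends κ ω a l) / v (l + 1) =
      Ex p (fun ω => ∑ l ∈ Finset.Ico 1 n, (v (l + 1))⁻¹ * ccK ends κ ω a l) := by
    rw [Ex_sum]
    refine Finset.sum_congr rfl fun l _ => ?_
    rw [Ex_mul_left, div_eq_inv_mul]
  rw [h2]
  refine Ex_mono h0 h1 fun ω => ?_
  have h3 : ∀ A : Finset V, ∀ l, 0 ≤ (v (l + 1))⁻¹ * pth (NK κ) l ((GC ends ω a).erase A) A A :=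
    fun A l => mul_nonneg (inv_nonneg.2 (hv _).le) (pth_nonneg hN _ _ _ _)
  calc ((bs ends κ ω a v n).card : ℝ) = ∑ A ∈ bs ends κ ω a v n, (1 : ℝ) := by
        rw [Finset.sum_const, nsmul_eq_mul, mul_one]
    _ ≤ ∑ A ∈ bs ends κ ω a v n, ∑ l ∈ Finset.Ico 1 n,
          (v (l + 1))⁻¹ * pth (NK κ) l ((GC ends ω a).erase A) A A := by
        refine Finset.sum_le_sum fun A hA => ?_
        unfold bs at hA
        obtain ⟨-, l, hl1, hl2, hl⟩ := Finset.mem_filter.1 hA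
        refine le_trans ?_ (Finset.single_le_sum (fun l _ => h3 A l) (Finset.mem_Ico.2 ⟨hl1, hl2⟩))
        rw [inv_mul_eq_div, le_div_iff₀ (hv _), one_mul]
        exact hl.le
    _ ≤ ∑ A ∈ GC ends ω a, ∑ l ∈ Finset.Ico 1 n,
          (v (l + 1))⁻¹ * pth (NK κ) l ((GC ends ω a).erase A) A A := by
        refine Finset.sum_le_sum_of_subset_of_nonneg ?_ fun A _ _ => Finset.sum_nonneg fun l _ => h3 A l
        unfold bs
        exact Finset.filter_subset _ _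
    _ = ∑ l ∈ Finset.Ico 1 n, (v (l + 1))⁻¹ * ccK ends κ ω a l := by
        rw [Finset.sum_comm]
        refine Finset.sum_congr rfl fun l _ => ?_
        unfold ccK
        rw [Finset.mul_sum]

private lemma K5_Fn_le {a : ℝ} (ha : 0 ≤ a) (k : ℕ) {b : ℝ} (hb : 0 ≤ b) (hk : (k : ℝ) ≤ b) :
    Fn a k ≤ b := by
  unfold Fn
  exact max_le (by linarith) hb

private lemma K5_NK_nonneg {κ : V → V → ℝ} (hκ : ∀ x y, 0 ≤ κ x y) (A B : Finset V) :
    0 ≤ NK κ A B :=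
  Finset.sum_nonneg fun x _ => Finset.sum_nonneg fun y _ => hκ x y

private lemma K5_NK_symm {κ : V → V → ℝ} (hs : ∀ x y, κ x y = κ y x) (A B : Finset V) :
    NK κ A B = NK κ B A := by
  unfold NK
  rw [Finset.sum_comm]
  exact Finset.sum_congr rfl fun y _ => Finset.sum_congr rfl fun x _ => hs x y

private lemma K5_gs_sub {κ : V → V → ℝ} (ω : E → Bool) (a b : ℝ) (v : ℕ → ℝ) (n : ℕ) :
    gs ends κ ω a b v n ⊆ GCb ends ω a b := by
  intro A hA
  unfold gs at hA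
  unfold GCb
  simp only [Finset.mem_filter] at hA ⊢
  exact ⟨hA.1, hA.2.2.1⟩

/-- A cluster of `GCb` outside `gs` is bad or has weight zero. -/
private lemma K5_out {κ : V → V → ℝ} (ω : E → Bool) (a b : ℝ) (v : ℕ → ℝ) (n : ℕ) (A : Finset V)
    (hA : A ∈ GCb ends ω a b) (hA' : A ∉ gs ends κ ω a b v n) :
    A ∈ bs ends κ ω a v n ∨ Fn a A.card = 0 := by
  unfold GCb at hA
  rw [Finset.mem_filter] at hA
  by_cases h : a < (A.card : ℝ)
  · left
    unfold gs at hA'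
    unfold bs
    simp only [Finset.mem_filter] at hA' ⊢
    refine ⟨hA.1, ?_⟩
    by_contra hcon
    apply hA'
    refine ⟨hA.1, h, hA.2, ?_⟩
    intro l h1 h2
    by_contra h3
    exact hcon ⟨l, h1, h2, lt_of_not_ge h3⟩
  · right
    unfold Fn
    exact max_eq_right (by linarith [not_lt.1 h])

/-- A sum over a set, compared with the sum over a subset. -/
private lemma K5_sum_out (ends : E → Sym2 V) (κ : V → V → ℝ) (ω : E → Bool) (a b : ℝ) (v : ℕ → ℝ) (n : ℕ)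
    (f g : Finset V → ℝ) (hfg : ∀ A ∈ GCb ends ω a b, A ∈ bs ends κ ω a v n → f A ≤ g A)
    (hf : ∀ A ∈ GCb ends ω a b, Fn a A.card = 0 → f A ≤ 0)
    (hg : ∀ A ∈ bs ends κ ω a v n, 0 ≤ g A) :
    ∑ A ∈ GCb ends ω a b \ gs ends κ ω a b v n, f A ≤ ∑ A ∈ bs ends κ ω a v n, g A := by
  classical
  have h1 : ∑ A ∈ GCb ends ω a b \ gs ends κ ω a b v n, f A ≤
      ∑ A ∈ GCb ends ω a b \ gs ends κ ω a b v n,
        if A ∈ bs ends κ ω a v n then g A else 0 := by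
    refine Finset.sum_le_sum fun A hA => ?_
    rw [Finset.mem_sdiff] at hA
    rcases K5_out ω a b v n A hA.1 hA.2 with h | h
    · rw [if_pos h]
      exact hfg A hA.1 h
    · split_ifs with h2
      · exact hfg A hA.1 h2
      · exact hf A hA.1 h
  refine h1.trans ?_
  rw [← Finset.sum_filter]
  refine Finset.sum_le_sum_of_subset_of_nonneg ?_ fun A hA _ => hg A hA
  intro A hA
  rw [Finset.mem_filter] at hA
  exact hA.2

/-- Row K5. Proof. A cluster of `GCb` which is not in `gs` is bad or has exactly `a` vertices (`Fn a a = 0`). If `A` is bad and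
`|A| ≤ b` its contribution to `Xk` is at most `2 b ^ 2 dgK A ≤ 2 b ^ 2 (lam + dgK A ^ 2 / lam)` (`Fn a |A| ≤ b`). -/
lemma Xs_low {κ : V → V → ℝ} (hκ : ∀ x y, 0 ≤ κ x y) (hs : ∀ x y, κ x y = κ y x) (ω : E → Bool)
    {a b lam : ℝ} (ha : 0 ≤ a) (hb : 0 ≤ b) (hlam : 0 < lam) (v : ℕ → ℝ) (n : ℕ) :
    Xk κ a (GCb ends ω a b) - 2 * b ^ 2 * (lam * ((bs ends κ ω a v n).card : ℝ) +
        (1 / lam) * ∑ A ∈ GC ends ω a, dgK κ (GC ends ω a) A ^ 2) ≤
      Xk κ a (gs ends κ ω a b v n) := by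
  classical
  set G := GCb ends ω a b with hG
  set S := gs ends κ ω a b v n with hS
  set Bd := bs ends κ ω a v n with hBd
  have hSG : S ⊆ G := K5_gs_sub ω a b v n
  have hGG : G ⊆ GC ends ω a := by
    rw [hG]; unfold GCb; exact Finset.filter_subset _ _
  have hBG : Bd ⊆ GC ends ω a := by
    rw [hBd]; unfold bs; exact Finset.filter_subset _ _
  have hGb : ∀ A ∈ G, (A.card : ℝ) ≤ b := by
    intro A hA
    rw [hG] at hA
    unfold GCb at hA
    exact (Finset.mem_filter.1 hA).2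
  have hN := K5_NK_nonneg hκ
  have hF : ∀ A : Finset V, 0 ≤ Fn a A.card := fun A => Fn_nonneg _ _
  let T : Finset V → Finset V → ℝ := fun A B =>
    if A = B then 0 else Fn a A.card * (NK κ A B * Fn a B.card)
  have hT0 : ∀ A B, 0 ≤ T A B := by
    intro A B
    show 0 ≤ (if A = B then (0 : ℝ) else Fn a A.card * (NK κ A B * Fn a B.card))
    split_ifs
    · exact le_rfl
    · exact mul_nonneg (hF A) (mul_nonneg (hN A B) (hF B))
  have hTs : ∀ A B, T A B = T B A := by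
    intro A B
    show (if A = B then (0 : ℝ) else Fn a A.card * (NK κ A B * Fn a B.card)) =
      (if B = A then (0 : ℝ) else Fn a B.card * (NK κ B A * Fn a A.card))
    by_cases h : A = B
    · rw [if_pos h, if_pos h.symm]
    · rw [if_neg h, if_neg (fun h' => h h'.symm), K5_NK_symm hs A B]
      ring
  have hX : ∀ s : Finset (Finset V), Xk κ a s = ∑ A ∈ s, ∑ B ∈ s, T A B := by
    intro s
    unfold Xk
    refine Finset.sum_congr rfl fun A _ => Finset.sum_congr rfl fun B _ => ?_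
    show _ = (if A = B then (0 : ℝ) else Fn a A.card * (NK κ A B * Fn a B.card))
    by_cases h : A = B
    · rw [if_pos h]
    · rw [if_neg h]
  have hd0 : ∀ A, 0 ≤ dgK κ (GC ends ω a) A := by
    intro A
    unfold dgK
    refine Finset.sum_nonneg fun B _ => ?_
    split_ifs
    · exact le_rfl
    · exact hN A B
  -- the row sums
  have hrow : ∀ A ∈ G, ∑ B ∈ G, T A B ≤ Fn a A.card * (b * dgK κ (GC ends ω a) A) := by
    intro A _
    have h1 : ∑ B ∈ G, T A B ≤ ∑ B ∈ GC ends ω a,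
        Fn a A.card * (b * (if A = B then 0 else NK κ A B)) := by
      have h2 : ∑ B ∈ G, T A B ≤ ∑ B ∈ G, Fn a A.card * (b * (if A = B then 0 else NK κ A B)) := by
        refine Finset.sum_le_sum fun B hB => ?_
        show (if A = B then (0 : ℝ) else Fn a A.card * (NK κ A B * Fn a B.card)) ≤ _
        by_cases h : A = B
        · rw [if_pos h, if_pos h]
          simp
        · rw [if_neg h, if_neg h]
          refine mul_le_mul_of_nonneg_left ?_ (hF A)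
          rw [mul_comm b]
          exact mul_le_mul_of_nonneg_left (K5_Fn_le ha _ hb (hGb B hB)) (hN A B)
      refine h2.trans (Finset.sum_le_sum_of_subset_of_nonneg hGG fun B _ _ => ?_)
      refine mul_nonneg (hF A) (mul_nonneg hb ?_)
      split_ifs
      · exact le_rfl
      · exact hN A B
    refine h1.trans (le_of_eq ?_)
    rw [← Finset.mul_sum, ← Finset.mul_sum]
    rfl
  -- the difference
  have hdiff : ∑ A ∈ G, ∑ B ∈ G, T A B - ∑ A ∈ S, ∑ B ∈ S, T A B ≤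
      2 * ∑ A ∈ G \ S, ∑ B ∈ G, T A B := by
    have e1 : ∑ A ∈ G, ∑ B ∈ G, T A B =
        ∑ A ∈ G \ S, ∑ B ∈ G, T A B + ∑ A ∈ S, ∑ B ∈ G, T A B :=
      (Finset.sum_sdiff hSG).symm
    have e2 : ∑ A ∈ S, ∑ B ∈ G, T A B =
        ∑ A ∈ S, ∑ B ∈ G \ S, T A B + ∑ A ∈ S, ∑ B ∈ S, T A B := by
      rw [← Finset.sum_add_distrib]
      exact Finset.sum_congr rfl fun A _ => (Finset.sum_sdiff hSG).symm
    have e3 : ∑ A ∈ S, ∑ B ∈ G \ S, T A B ≤ ∑ A ∈ G \ S, ∑ B ∈ G, T A B := by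
      rw [Finset.sum_comm]
      refine Finset.sum_le_sum fun B _ => ?_
      calc ∑ A ∈ S, T A B = ∑ A ∈ S, T B A := Finset.sum_congr rfl fun A _ => hTs A B
        _ ≤ ∑ A ∈ G, T B A :=
            Finset.sum_le_sum_of_subset_of_nonneg hSG fun A _ _ => hT0 B A
    linarith
  have hmain : ∑ A ∈ G \ S, ∑ B ∈ G, T A B ≤
      ∑ A ∈ Bd, b ^ 2 * (lam + (1 / lam) * dgK κ (GC ends ω a) A ^ 2) := by
    refine K5_sum_out ends κ ω a b v n _ _ ?_ ?_ ?_
    · intro A hA _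
      refine (hrow A hA).trans ?_
      have h1 : Fn a A.card ≤ b := K5_Fn_le ha _ hb (hGb A hA)
      have h2 : Fn a A.card * (b * dgK κ (GC ends ω a) A) ≤
          b * (b * dgK κ (GC ends ω a) A) :=
        mul_le_mul_of_nonneg_right h1 (mul_nonneg hb (hd0 A))
      have h3 : dgK κ (GC ends ω a) A ≤ lam + (1 / lam) * dgK κ (GC ends ω a) A ^ 2 := by
        have h4 : 0 < 1 / lam := by positivity
        have h5 : 0 ≤ (1 / lam) * (lam - dgK κ (GC ends ω a) A) ^ 2 := by positivity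
        have h6 : (1 / lam) * (lam - dgK κ (GC ends ω a) A) ^ 2 =
            lam - 2 * dgK κ (GC ends ω a) A + (1 / lam) * dgK κ (GC ends ω a) A ^ 2 := by
          field_simp
          ring
        have := hd0 A
        linarith
      have h4 : b ^ 2 * dgK κ (GC ends ω a) A ≤
          b ^ 2 * (lam + (1 / lam) * dgK κ (GC ends ω a) A ^ 2) :=
        mul_le_mul_of_nonneg_left h3 (sq_nonneg b)
      calc Fn a A.card * (b * dgK κ (GC ends ω a) A) ≤ b * (b * dgK κ (GC ends ω a) A) := h2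
        _ = b ^ 2 * dgK κ (GC ends ω a) A := by ring
        _ ≤ _ := h4
    · intro A hA h0
      refine (hrow A hA).trans ?_
      rw [h0, zero_mul]
    · intro A _
      have h4 : 0 < 1 / lam := by positivity
      positivity
  have hsum : ∑ A ∈ Bd, b ^ 2 * (lam + (1 / lam) * dgK κ (GC ends ω a) A ^ 2) ≤
      b ^ 2 * (lam * (Bd.card : ℝ) +
        (1 / lam) * ∑ A ∈ GC ends ω a, dgK κ (GC ends ω a) A ^ 2) := by
    rw [← Finset.mul_sum, Finset.sum_add_distrib, Finset.sum_const, nsmul_eq_mul,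
      ← Finset.mul_sum, mul_comm (Bd.card : ℝ) lam]
    refine mul_le_mul_of_nonneg_left ?_ (sq_nonneg b)
    have h4 : 0 ≤ 1 / lam := by positivity
    have h5 : ∑ A ∈ Bd, dgK κ (GC ends ω a) A ^ 2 ≤
        ∑ A ∈ GC ends ω a, dgK κ (GC ends ω a) A ^ 2 :=
      Finset.sum_le_sum_of_subset_of_nonneg hBG fun A _ _ => sq_nonneg _
    have h6 := mul_le_mul_of_nonneg_left h5 h4
    linarith
  rw [hX G, hX S]
  have h7 : 2 * b ^ 2 * (lam * (Bd.card : ℝ) +
        (1 / lam) * ∑ A ∈ GC ends ω a, dgK κ (GC ends ω a) A ^ 2) =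
      2 * (b ^ 2 * (lam * (Bd.card : ℝ) +
        (1 / lam) * ∑ A ∈ GC ends ω a, dgK κ (GC ends ω a) A ^ 2)) := by ring
  rw [h7]
  linarith

/-- Row K5. -/
lemma Ys_low {κ : V → V → ℝ} (ω : E → Bool) {a b : ℝ} (ha : 0 ≤ a) (hb : 0 ≤ b) (v : ℕ → ℝ) (n : ℕ) :
    Yk a (GCb ends ω a b) - b ^ 2 * ((bs ends κ ω a v n).card : ℝ) ≤
      Yk a (gs ends κ ω a b v n) := by
  classical
  have hSG : gs ends κ ω a b v n ⊆ GCb ends ω a b := K5_gs_sub ω a b v n
  have hGb : ∀ A ∈ GCb ends ω a b, (A.card : ℝ) ≤ b := by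
    intro A hA
    unfold GCb at hA
    exact (Finset.mem_filter.1 hA).2
  have h1 : ∑ A ∈ GCb ends ω a b \ gs ends κ ω a b v n, Fn a A.card * (A.card : ℝ) ≤
      ∑ A ∈ bs ends κ ω a v n, b ^ 2 := by
    refine K5_sum_out ends κ ω a b v n _ _ ?_ ?_ ?_
    · intro A hA _
      have h2 : Fn a A.card ≤ b := K5_Fn_le ha _ hb (hGb A hA)
      rw [sq]
      exact mul_le_mul h2 (hGb A hA) (Nat.cast_nonneg _) hb
    · intro A _ h0
      rw [h0, zero_mul]
    · intro A _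
      exact sq_nonneg b
  rw [Finset.sum_const, nsmul_eq_mul] at h1
  unfold Yk
  have h2 : ∑ A ∈ GCb ends ω a b, Fn a A.card * (A.card : ℝ) =
      ∑ A ∈ GCb ends ω a b \ gs ends κ ω a b v n, Fn a A.card * (A.card : ℝ) +
        ∑ A ∈ gs ends κ ω a b v n, Fn a A.card * (A.card : ℝ) :=
    (Finset.sum_sdiff hSG).symm
  rw [h2]
  linarith

/-- Row K5. -/
lemma Ys_up {κ : V → V → ℝ} (ω : E → Bool) {a b : ℝ} (ha : 0 ≤ a) (v : ℕ → ℝ) (n : ℕ) :
    Yk a (gs ends κ ω a b v n) ≤ Yk a (GCb ends ω a b) := by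
  unfold Yk
  exact Finset.sum_le_sum_of_subset_of_nonneg (K5_gs_sub ω a b v n) fun A _ _ =>
    mul_nonneg (Fn_nonneg _ _) (Nat.cast_nonneg _)

private lemma K6_sum {s 𝒜 : Finset (Finset V)} (hA : 𝒜 ⊆ s) (F : Finset V → ℝ) :
    ∑ A ∈ s, (if A ∈ 𝒜 then F A else 0) = ∑ A ∈ 𝒜, F A := by
  rw [← Finset.sum_filter, Finset.filter_mem_eq_inter, Finset.inter_eq_right.2 hA]

private lemma K6_gq {a : ℝ} (ha : 0 < a) {A : Finset V} (h : 2 * a ≤ (A.card : ℝ)) :
    1 / 2 ≤ gq a A.card := by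
  have h1 : (0 : ℝ) < A.card := by linarith
  unfold gq Fn
  rw [le_div_iff₀ h1]
  refine le_trans ?_ (le_max_left _ _)
  linarith

private lemma K6_sq {a : ℝ} (ha : 0 < a) (𝒜 : Finset (Finset V))
    (hA2 : ∀ A ∈ 𝒜, 2 * a ≤ (A.card : ℝ)) :
    ∑ A ∈ 𝒜, ((Real.sqrt (gq a A.card))⁻¹) ^ 2 ≤ 2 * (𝒜.card : ℝ) := by
  have h1 : ∑ A ∈ 𝒜, ((Real.sqrt (gq a A.card))⁻¹) ^ 2 ≤ ∑ A ∈ 𝒜, (2 : ℝ) := by
    refine Finset.sum_le_sum fun A hA => ?_
    have h2 := K6_gq ha (hA2 A hA)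
    have h3 : 0 < gq a A.card := by linarith
    rw [inv_pow, Real.sq_sqrt h3.le]
    rw [inv_le_comm₀ h3 (by norm_num)]
    linarith
  rw [Finset.sum_const, nsmul_eq_mul] at h1
  linarith

/-- Row K6. Proof. Use `h` with `f A = if A ∈ 𝒜 then (√(gq a |A|))⁻¹ else 0` and the same with `ℬ`:
`∑ f M h = ∑ ∑ NK` (the families are disjoint, so `A ≠ B`), `∑ f w = ∑ |A|`, `∑ f ^ 2 ≤ 2 |𝒜|` (`gq ≥ 1 / 2`). -/
lemma union_low {κ : V → V → ℝ} {a Λ Z θ : ℝ} (ha : 0 < a) (hΛ : 0 ≤ Λ) (hθ : 0 ≤ θ)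
    (s 𝒜 ℬ : Finset (Finset V)) (hA : 𝒜 ⊆ s) (hB : ℬ ⊆ s) (hd : Disjoint 𝒜 ℬ)
    (hA2 : ∀ A ∈ 𝒜, 2 * a ≤ (A.card : ℝ)) (hB2 : ∀ A ∈ ℬ, 2 * a ≤ (A.card : ℝ))
    (h : ∀ f h : Finset V → ℝ, |∑ A ∈ s, ∑ B ∈ s, f A * MK κ a A B * h B -
        Λ * ((∑ A ∈ s, f A * wK a A) * (∑ A ∈ s, h A * wK a A)) / Z| ≤
      11 * θ * Λ * (Real.sqrt (∑ A ∈ s, f A ^ 2) * Real.sqrt (∑ A ∈ s, h A ^ 2))) :
    Λ * ((∑ A ∈ 𝒜, (A.card : ℝ)) * (∑ B ∈ ℬ, (B.card : ℝ))) / Z -
        22 * θ * Λ * (Real.sqrt 𝒜.card * Real.sqrt ℬ.card) ≤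
      ∑ A ∈ 𝒜, ∑ B ∈ ℬ, NK κ A B := by
  have hpos : ∀ A : Finset V, 2 * a ≤ (A.card : ℝ) → 0 < Real.sqrt (gq a A.card) := by
    intro A hA'
    have h2 := K6_gq ha hA'
    exact Real.sqrt_pos.2 (by linarith)
  have key := h (fun A => if A ∈ 𝒜 then (Real.sqrt (gq a A.card))⁻¹ else 0)
    (fun A => if A ∈ ℬ then (Real.sqrt (gq a A.card))⁻¹ else 0)
  have e1 : ∑ A ∈ s, ∑ B ∈ s, (if A ∈ 𝒜 then (Real.sqrt (gq a A.card))⁻¹ else 0) * MK κ a A B *
      (if B ∈ ℬ then (Real.sqrt (gq a B.card))⁻¹ else 0) = ∑ A ∈ 𝒜, ∑ B ∈ ℬ, NK κ A B := by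
    rw [← K6_sum hA]
    refine Finset.sum_congr rfl fun A _ => ?_
    by_cases hAm : A ∈ 𝒜
    · simp only [if_pos hAm]
      rw [← K6_sum hB]
      refine Finset.sum_congr rfl fun B _ => ?_
      by_cases hBm : B ∈ ℬ
      · simp only [if_pos hBm]
        have hne : A ≠ B := by
          rintro rfl
          exact (Finset.disjoint_left.1 hd) hAm hBm
        unfold MK
        rw [if_neg hne]
        have h1 := (hpos A (hA2 A hAm)).ne'
        have h2 := (hpos B (hB2 B hBm)).ne'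
        field_simp
      · simp only [if_neg hBm, mul_zero]
    · simp only [if_neg hAm, zero_mul, Finset.sum_const_zero]
  have e2 : ∀ (𝒞 : Finset (Finset V)), 𝒞 ⊆ s → (∀ A ∈ 𝒞, 2 * a ≤ (A.card : ℝ)) →
      ∑ A ∈ s, (if A ∈ 𝒞 then (Real.sqrt (gq a A.card))⁻¹ else 0) * wK a A =
        ∑ A ∈ 𝒞, (A.card : ℝ) := by
    intro 𝒞 hC hC2
    rw [← K6_sum hC]
    refine Finset.sum_congr rfl fun A _ => ?_
    by_cases hAm : A ∈ 𝒞
    · simp only [if_pos hAm]
      unfold wK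
      have h1 := (hpos A (hC2 A hAm)).ne'
      field_simp
    · simp only [if_neg hAm, zero_mul]
  have e3 : ∀ (𝒞 : Finset (Finset V)), 𝒞 ⊆ s → (∀ A ∈ 𝒞, 2 * a ≤ (A.card : ℝ)) →
      Real.sqrt (∑ A ∈ s, (if A ∈ 𝒞 then (Real.sqrt (gq a A.card))⁻¹ else 0) ^ 2) ≤
        Real.sqrt 2 * Real.sqrt 𝒞.card := by
    intro 𝒞 hC hC2
    rw [← Real.sqrt_mul (by norm_num : (0 : ℝ) ≤ 2)]
    refine Real.sqrt_le_sqrt ?_
    have e4 : ∑ A ∈ s, (if A ∈ 𝒞 then (Real.sqrt (gq a A.card))⁻¹ else 0) ^ 2 =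
        ∑ A ∈ 𝒞, ((Real.sqrt (gq a A.card))⁻¹) ^ 2 := by
      rw [← K6_sum hC]
      refine Finset.sum_congr rfl fun A _ => ?_
      by_cases hAm : A ∈ 𝒞
      · simp only [if_pos hAm]
      · simp only [if_neg hAm]
        norm_num
    rw [e4]
    exact K6_sq ha 𝒞 hC2
  rw [e1, e2 𝒜 hA hA2, e2 ℬ hB hB2] at key
  have h1 := (abs_le.1 key).1
  have h5 : Real.sqrt (∑ A ∈ s, (if A ∈ 𝒜 then (Real.sqrt (gq a A.card))⁻¹ else 0) ^ 2) *
      Real.sqrt (∑ A ∈ s, (if A ∈ ℬ then (Real.sqrt (gq a A.card))⁻¹ else 0) ^ 2) ≤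
      2 * (Real.sqrt 𝒜.card * Real.sqrt ℬ.card) := by
    refine le_trans (mul_le_mul (e3 𝒜 hA hA2) (e3 ℬ hB hB2) (Real.sqrt_nonneg _)
      (mul_nonneg (Real.sqrt_nonneg _) (Real.sqrt_nonneg _))) (le_of_eq ?_)
    have h6 : Real.sqrt 2 * Real.sqrt 2 = 2 := Real.mul_self_sqrt (by norm_num)
    linear_combination (Real.sqrt 𝒜.card * Real.sqrt ℬ.card) * h6
  have h7 : 11 * θ * Λ * (Real.sqrt (∑ A ∈ s, (if A ∈ 𝒜 then (Real.sqrt (gq a A.card))⁻¹ else 0) ^ 2) *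
      Real.sqrt (∑ A ∈ s, (if A ∈ ℬ then (Real.sqrt (gq a A.card))⁻¹ else 0) ^ 2)) ≤
      11 * θ * Λ * (2 * (Real.sqrt 𝒜.card * Real.sqrt ℬ.card)) :=
    mul_le_mul_of_nonneg_left h5 (by positivity)
  linarith

open scoped Classical in
private lemma K7_mem_gs {κ : V → V → ℝ} {ω : E → Bool} {a b : ℝ} {v : ℕ → ℝ} {n : ℕ} {A : Finset V} :
    A ∈ gs ends κ ω a b v n ↔ A ∈ GC ends ω a ∧ (a < (A.card : ℝ) ∧ (A.card : ℝ) ≤ b ∧
      ∀ l, 1 ≤ l → l < n → pth (NK κ) l ((GC ends ω a).erase A) A A ≤ v (l + 1)) := by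
  unfold gs
  simp only [Finset.mem_filter]

open scoped Classical in
private lemma K7_mem_bs {κ : V → V → ℝ} {ω : E → Bool} {a : ℝ} {v : ℕ → ℝ} {n : ℕ} {A : Finset V} :
    A ∈ bs ends κ ω a v n ↔ A ∈ GC ends ω a ∧ ∃ l, 1 ≤ l ∧ l < n ∧
      v (l + 1) < pth (NK κ) l ((GC ends ω a).erase A) A A := by
  unfold bs
  simp only [Finset.mem_filter]

open scoped Classical in
/-- Row K7. The near contacts, for a good configuration. Proof. `rank_one_det` for `MK κ a`, `wK a` on `s = gs ..` (use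
`wMw`, `ww`), then `union_low` for `𝒜 ∩ s`, `ℬ ∩ s`; the clusters of `𝒜` outside `s` have more than `b` vertices (together at
most `#{x | b < cz x}` vertices) or are bad with at most `b` vertices each; `√|𝒜| √|ℬ| ≤ |GC| ≤ ng`. -/
theorem near_det {κ : V → V → ℝ} (hκ : ∀ x y, 0 ≤ κ x y) (hs : ∀ x y, κ x y = κ y x) (ω : E → Bool)
    {a b Λ Z θ ε ng lost t : ℝ} (v : ℕ → ℝ) (n i : ℕ) (hi : 1 ≤ i) (ha : 0 < a) (hb : 0 ≤ b)
    (hΛ : 0 < Λ) (hZ : 0 < Z) (hθ0 : 0 < θ) (hθ1 : θ ≤ 1 / 4) (ht : 0 ≤ t)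
    (hε0 : 0 ≤ ε) (hε : (4 * 2 ^ i + 2) * ε ≤ θ ^ (2 * 2 ^ i))
    (hX : (1 - ε) * (Λ * Z) ≤ Xk κ a (gs ends κ ω a b v n))
    (hY1 : (1 - ε) * Z ≤ Yk a (gs ends κ ω a b v n)) (hY2 : Yk a (gs ends κ ω a b v n) ≤ (1 + ε) * Z)
    (hT : ∑ A ∈ gs ends κ ω a b v n, UU (MK κ a) (gs ends κ ω a b v n) (2 * 2 ^ i) A A ≤
      (1 + ε) * Λ ^ (2 * 2 ^ i))
    (hng : ((GC ends ω a).card : ℝ) ≤ ng)
    (hlost : ((Finset.univ.filter (fun x => b < cz ends ω x)).card : ℝ) +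
      b * ((bs ends κ ω a v n).card : ℝ) ≤ lost)
    (𝒜 ℬ : Finset (Finset V)) (hA : 𝒜 ⊆ GC ends ω (2 * a)) (hB : ℬ ⊆ GC ends ω (2 * a))
    (hd : Disjoint 𝒜 ℬ) (hAt : t + lost ≤ ∑ A ∈ 𝒜, (A.card : ℝ))
    (hBt : t + lost ≤ ∑ A ∈ ℬ, (A.card : ℝ)) :
    Λ * t ^ 2 / Z - 22 * θ * Λ * ng ≤ ∑ A ∈ 𝒜, ∑ B ∈ ℬ, NK κ A B := by
  set s := gs ends κ ω a b v n with hsdef
  have hsG : s ⊆ GC ends ω a := fun A hA' => (K7_mem_gs.1 hA').1
  have hcore := rank_one_det (MK κ a) (MK_symm hs a) s (wK a) (Λ := Λ) (Z := Z) (θ := θ) (ε := ε) i hi hΛ hZ hθ0 hθ1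
    hε0 hε (by rw [wMw κ ha.le s]; exact hX) (by rw [ww ha.le s]; exact hY1) (by rw [ww ha.le s]; exact hY2) hT
  have hNK : ∀ A B : Finset V, 0 ≤ NK κ A B := fun A B =>
    Finset.sum_nonneg fun x _ => Finset.sum_nonneg fun y _ => hκ x y
  have hbig : ∀ 𝒞 : Finset (Finset V), 𝒞 ⊆ GC ends ω (2 * a) → ∀ A ∈ 𝒞, 2 * a ≤ (A.card : ℝ) := by
    intro 𝒞 h𝒞 A hA'
    exact (mem_GC.1 (h𝒞 hA')).2
  have hsub : ∀ 𝒞 : Finset (Finset V), 𝒞 ⊆ GC ends ω (2 * a) → 𝒞 ⊆ GC ends ω a := by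
    intro 𝒞 h𝒞 A hA'
    have h1 := mem_GC.1 (h𝒞 hA')
    exact mem_GC.2 ⟨h1.1, by linarith [h1.2]⟩
  have hun := union_low (κ := κ) (a := a) (Λ := Λ) (Z := Z) (θ := θ) ha hΛ.le hθ0.le s (𝒜 ∩ s) (ℬ ∩ s)
    Finset.inter_subset_right Finset.inter_subset_right
    (hd.mono Finset.inter_subset_left Finset.inter_subset_left)
    (fun A hA' => hbig 𝒜 hA A (Finset.mem_inter.1 hA').1)
    (fun A hA' => hbig ℬ hB A (Finset.mem_inter.1 hA').1) hcore
  -- the lost vertices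
  have hpart : ∀ 𝒞 : Finset (Finset V), 𝒞 ⊆ GC ends ω (2 * a) → t + lost ≤ ∑ A ∈ 𝒞, (A.card : ℝ) →
      t ≤ ∑ A ∈ 𝒞 ∩ s, (A.card : ℝ) := by
    intro 𝒞 h𝒞 hC
    have h1 : ∑ A ∈ 𝒞, (A.card : ℝ) = ∑ A ∈ 𝒞 ∩ s, (A.card : ℝ) + ∑ A ∈ 𝒞 \ s, (A.card : ℝ) :=
      (Finset.sum_inter_add_sum_sdiff 𝒞 s _).symm
    have h2 : ∑ A ∈ 𝒞 \ s, (A.card : ℝ) =
        ∑ A ∈ (𝒞 \ s).filter (fun A => b < (A.card : ℝ)), (A.card : ℝ) +
        ∑ A ∈ (𝒞 \ s).filter (fun A => ¬ b < (A.card : ℝ)), (A.card : ℝ) :=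
      (Finset.sum_filter_add_sum_filter_not _ _ _).symm
    have h3 : ∑ A ∈ (𝒞 \ s).filter (fun A => b < (A.card : ℝ)), (A.card : ℝ) ≤
        ((Finset.univ.filter (fun x => b < cz ends ω x)).card : ℝ) := by
      have h4 : ((((𝒞 \ s).filter (fun A => b < (A.card : ℝ))).biUnion id).card : ℝ) =
          ∑ A ∈ (𝒞 \ s).filter (fun A => b < (A.card : ℝ)), (A.card : ℝ) := by
        rw [Finset.card_biUnion]
        · push_cast
          rfl
        · intro A hA' B hB' hne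
          have hA1 := (Finset.mem_sdiff.1 (Finset.mem_filter.1 hA').1).1
          have hB1 := (Finset.mem_sdiff.1 (Finset.mem_filter.1 hB').1).1
          exact GC_disj (h𝒞 hA1) (h𝒞 hB1) hne
      rw [← h4]
      have h5 : ((𝒞 \ s).filter (fun A => b < (A.card : ℝ))).biUnion id ⊆
          Finset.univ.filter (fun x => b < cz ends ω x) := by
        intro x hx
        rw [Finset.mem_biUnion] at hx
        obtain ⟨A, hA', hxA⟩ := hx
        rw [Finset.mem_filter, Finset.mem_sdiff] at hA'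
        rw [Finset.mem_filter]
        refine ⟨Finset.mem_univ x, ?_⟩
        obtain ⟨⟨y, hy⟩, -⟩ := mem_GC.1 (h𝒞 hA'.1.1)
        have hxy : x ∈ cu ends ω y := by rw [hy]; exact hxA
        unfold cz
        rw [cu_eq hxy, hy]
        exact hA'.2
      exact_mod_cast Finset.card_le_card h5
    have h6 : ∑ A ∈ (𝒞 \ s).filter (fun A => ¬ b < (A.card : ℝ)), (A.card : ℝ) ≤
        b * ((bs ends κ ω a v n).card : ℝ) := by
      have h7 : (𝒞 \ s).filter (fun A => ¬ b < (A.card : ℝ)) ⊆ bs ends κ ω a v n := by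
        intro A hA'
        rw [Finset.mem_filter, Finset.mem_sdiff, not_lt] at hA'
        rw [K7_mem_bs]
        have hAG := hsub 𝒞 h𝒞 hA'.1.1
        refine ⟨hAG, ?_⟩
        by_contra hno
        apply hA'.1.2
        rw [hsdef, K7_mem_gs]
        have h8 := hbig 𝒞 h𝒞 A hA'.1.1
        refine ⟨hAG, by linarith, hA'.2, fun l hl1 hl2 => ?_⟩
        by_contra h9
        exact hno ⟨l, hl1, hl2, not_le.1 h9⟩
      calc ∑ A ∈ (𝒞 \ s).filter (fun A => ¬ b < (A.card : ℝ)), (A.card : ℝ)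
          ≤ ∑ _A ∈ (𝒞 \ s).filter (fun A => ¬ b < (A.card : ℝ)), b := by
            refine Finset.sum_le_sum fun A hA' => ?_
            exact not_lt.1 (Finset.mem_filter.1 hA').2
        _ = (((𝒞 \ s).filter (fun A => ¬ b < (A.card : ℝ))).card : ℝ) * b := by
            rw [Finset.sum_const, nsmul_eq_mul]
        _ ≤ ((bs ends κ ω a v n).card : ℝ) * b := by
            apply mul_le_mul_of_nonneg_right _ hb
            exact_mod_cast Finset.card_le_card h7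
        _ = _ := mul_comm _ _
    linarith
  have hA3 := hpart 𝒜 hA hAt
  have hB3 := hpart ℬ hB hBt
  -- the main term
  have hmain : Λ * t ^ 2 / Z ≤ Λ * ((∑ A ∈ 𝒜 ∩ s, (A.card : ℝ)) * (∑ B ∈ ℬ ∩ s, (B.card : ℝ))) / Z := by
    apply div_le_div_of_nonneg_right _ hZ.le
    apply mul_le_mul_of_nonneg_left _ hΛ.le
    rw [sq]
    exact mul_le_mul hA3 hB3 ht (ht.trans hA3)
  -- the error term
  have hcardG : ∀ 𝒞 : Finset (Finset V), Real.sqrt ((𝒞 ∩ s).card : ℝ) ≤ Real.sqrt ng := by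
    intro 𝒞
    apply Real.sqrt_le_sqrt
    refine le_trans ?_ hng
    exact_mod_cast Finset.card_le_card (Finset.inter_subset_right.trans hsG)
  have hng0 : 0 ≤ ng := le_trans (Nat.cast_nonneg _) hng
  have herr : Real.sqrt ((𝒜 ∩ s).card : ℝ) * Real.sqrt ((ℬ ∩ s).card : ℝ) ≤ ng := by
    calc Real.sqrt ((𝒜 ∩ s).card : ℝ) * Real.sqrt ((ℬ ∩ s).card : ℝ) ≤ Real.sqrt ng * Real.sqrt ng :=
          mul_le_mul (hcardG 𝒜) (hcardG ℬ) (Real.sqrt_nonneg _) (Real.sqrt_nonneg _)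
      _ = ng := Real.mul_self_sqrt hng0
  have herr' : 22 * θ * Λ * (Real.sqrt ((𝒜 ∩ s).card : ℝ) * Real.sqrt ((ℬ ∩ s).card : ℝ)) ≤ 22 * θ * Λ * ng :=
    mul_le_mul_of_nonneg_left herr (by positivity)
  have hlast : ∑ A ∈ 𝒜 ∩ s, ∑ B ∈ ℬ ∩ s, NK κ A B ≤ ∑ A ∈ 𝒜, ∑ B ∈ ℬ, NK κ A B := by
    refine (Finset.sum_le_sum fun A _ => Finset.sum_le_sum_of_subset_of_nonneg Finset.inter_subset_left
      fun B _ _ => hNK A B).trans ?_
    exact Finset.sum_le_sum_of_subset_of_nonneg Finset.inter_subset_left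
      fun A _ _ => Finset.sum_nonneg fun B _ => hNK A B
  linarith

open scoped Classical in
/-- Row K8. Proof. `T ≥ (1 - e4) L (1 - 1[T < (1 - e4) L]) + (e + e4) L 1[(1 + e) L < T]` pointwise. -/
lemma upper_from_mean {p : ℝ} (h0 : 0 ≤ p) (h1 : p ≤ 1) (T : (E → Bool) → ℝ) {L e1 e4 e π : ℝ}
    (hL : 0 < L) (hT0 : ∀ ω, 0 ≤ T ω) (he4 : 0 ≤ e4) (he4' : e4 ≤ 1) (he : 0 ≤ e)
    (hmean : Ex p T ≤ (1 + e1) * L)
    (hlow : Ex p (fun ω => if T ω < (1 - e4) * L then (1 : ℝ) else 0) ≤ π) :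
    e * Ex p (fun ω => if (1 + e) * L < T ω then (1 : ℝ) else 0) ≤ e1 + e4 + π := by
  set A : (E → Bool) → ℝ := fun ω => if T ω < (1 - e4) * L then (1 : ℝ) else 0 with hA
  set B : (E → Bool) → ℝ := fun ω => if (1 + e) * L < T ω then (1 : ℝ) else 0 with hB
  have hpt : ∀ ω, (1 - e4) * L + ((-((1 - e4) * L)) * A ω + ((e + e4) * L) * B ω) ≤ T ω := by
    intro ω
    have hT := hT0 ω
    simp only [hA, hB]
    have k1 : 0 ≤ e4 * L := mul_nonneg he4 hL.le
    have k2 : 0 ≤ e * L := mul_nonneg he hL.le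
    split_ifs with g1 g2 g2
    · exfalso; nlinarith
    · nlinarith
    · nlinarith
    · nlinarith
  have hm := Ex_mono h0 h1 hpt
  rw [Ex_add, Ex_const, Ex_add, Ex_mul_left, Ex_mul_left] at hm
  have hA0 : 0 ≤ Ex p A := Ex_nonneg h0 h1 fun ω => by simp only [hA]; split_ifs <;> norm_num
  have hB0 : 0 ≤ Ex p B := Ex_nonneg h0 h1 fun ω => by simp only [hB]; split_ifs <;> norm_num
  have h3 : ((1 - e4) - (1 - e4) * Ex p A + (e + e4) * Ex p B) * L ≤ (1 + e1) * L := by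
    have : ((1 - e4) - (1 - e4) * Ex p A + (e + e4) * Ex p B) * L =
        (1 - e4) * L + (-((1 - e4) * L) * Ex p A + (e + e4) * L * Ex p B) := by ring
    rw [this]
    exact hm.trans hmean
  have h4 := le_of_mul_le_mul_right h3 hL
  have h5 : 0 ≤ e4 * Ex p A := mul_nonneg he4 hA0
  have h6 : 0 ≤ e4 * Ex p B := mul_nonneg he4 hB0
  nlinarith

open scoped Classical in
/-- Row K8. Chebyshev. -/
lemma cheb {p : ℝ} (h0 : 0 ≤ p) (h1 : p ≤ 1) (X : (E → Bool) → ℝ) (L e : ℝ) (he : 0 < e) (hL : 0 < L) :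
    Ex p (fun ω => if e * L ≤ |X ω - L| then (1 : ℝ) else 0) ≤
      (Ex p (fun ω => X ω ^ 2) - 2 * L * Ex p X + L ^ 2) / (e * L) ^ 2 := by
  have hq : 0 < e * L := mul_pos he hL
  have hpt : ∀ ω, (if e * L ≤ |X ω - L| then (1 : ℝ) else 0) ≤
      (1 / (e * L) ^ 2) * ((X ω ^ 2 + (-(2 * L)) * X ω) + L ^ 2) := by
    intro ω
    have e1 : (X ω ^ 2 + (-(2 * L)) * X ω) + L ^ 2 = |X ω - L| ^ 2 := by
      rw [sq_abs]; ring
    rw [e1]
    split_ifs with g
    · rw [one_div, inv_mul_eq_div, le_div_iff₀ (by positivity), one_mul]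
      exact pow_le_pow_left₀ hq.le g 2
    · positivity
  refine (Ex_mono h0 h1 hpt).trans (le_of_eq ?_)
  rw [Ex_mul_left, Ex_add, Ex_add, Ex_mul_left, Ex_const]
  ring

open scoped Classical in
/-- Row K8. Markov. -/
lemma mark {p : ℝ} (h0 : 0 ≤ p) (h1 : p ≤ 1) (X : (E → Bool) → ℝ) (t : ℝ) (ht : 0 < t)
    (hX : ∀ ω, 0 ≤ X ω) :
    Ex p (fun ω => if t < X ω then (1 : ℝ) else 0) ≤ Ex p X / t := by
  have hpt : ∀ ω, (if t < X ω then (1 : ℝ) else 0) ≤ (1 / t) * X ω := by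
    intro ω
    have := hX ω
    split_ifs with g
    · rw [one_div, inv_mul_eq_div, le_div_iff₀ ht, one_mul]
      exact g.le
    · positivity
  refine (Ex_mono h0 h1 hpt).trans (le_of_eq ?_)
  rw [Ex_mul_left]
  ring

end Pool.Agent.PERC29
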