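import Pool.Agent.Lib.MP_29e17e_pr.U.Fl
import Pool.Agent.Lib.MP_29e17e_pr.Brd

set_option autoImplicit false
set_option linter.unusedSectionVars false

/-! Uniqueness and the law of large numbers, for Cayley graphs of finite abelian groups. -/

open Finset

namespace Pool.Agent.PERC29

variable {V : Type} [Fintype V] [DecidableEq V] [AddCommGroup V] (G : SimpleGraph V)
  [Fintype G.edgeSet]

/-- Translations are automorphisms. -/
def trs (hG : ∀ x y g : V, G.Adj (x + g) (y + g) ↔ G.Adj x y) (g : V) : G ≃g G where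
  toEquiv := Equiv.addRight g
  map_rel_iff' := by
    intro a b
    exact hG a b g

lemma trs_apply (hG : ∀ x y g : V, G.Adj (x + g) (y + g) ↔ G.Adj x y) (g x : V) :
    trs G hG g x = x + g := rfl

/-- The weighted two-point function is invariant. -/
lemma TK_map (φ : G ≃g G) (ψ : ℕ → ℝ) (p : ℝ) (x y : V) :
    TK (gends G) ψ p (φ x) (φ y) = TK (gends G) ψ p x y := by
  classical
  unfold TK
  have h1 : ∀ ω : G.edgeSet → Bool,
      ψ (cu (gends G) ω (φ x)).card * (if φ y ∈ cu (gends G) ω (φ x) then (1 : ℝ) else 0) =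
      (fun ω' : G.edgeSet → Bool => ψ (cu (gends G) ω' x).card *
        (if y ∈ cu (gends G) ω' x then (1 : ℝ) else 0)) (fun e => ω (φ.mapEdgeSet e)) := by
    intro ω
    have h2 := cz_map G φ ω x
    unfold cz at h2
    have h3 : (cu (gends G) (fun e => ω (φ.mapEdgeSet e)) x).card =
        (cu (gends G) ω (φ x)).card := by exact_mod_cast h2
    have h4 := cu_map G φ ω x y
    show _ = ψ (cu (gends G) (fun e => ω (φ.mapEdgeSet e)) x).card *
        (if y ∈ cu (gends G) (fun e => ω (φ.mapEdgeSet e)) x then (1 : ℝ) else 0)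
    rw [h3]
    congr 1
    exact if_congr h4.symm rfl rfl
  rw [Ex_congr h1]
  exact Ex_equiv p φ.mapEdgeSet (fun ω' : G.edgeSet → Bool => ψ (cu (gends G) ω' x).card *
        (if y ∈ cu (gends G) ω' x then (1 : ℝ) else 0))

open scoped Classical in
/-- The number of edges at a vertex. -/
lemma inc_le (v : V) (D : ℕ) (hD : Nat.card (G.neighborSet v) = D) :
    (Finset.univ.filter (fun e => v ∈ gends G e)).card ≤ D := by
  rw [← hD, Nat.card_eq_fintype_card, ← Finset.card_univ]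
  have hsub : Finset.univ.filter (fun e => v ∈ gends G e) ⊆
      (Finset.univ : Finset (G.neighborSet v)).image
        (fun u => (⟨s(v, u.1), (SimpleGraph.mem_edgeSet G).2 u.2⟩ : G.edgeSet)) := by
    intro e he
    rw [Finset.mem_filter] at he
    rw [Finset.mem_image]
    obtain ⟨u, hu⟩ := Sym2.mem_iff_exists.1 he.2
    have h2 : gends G e ∈ G.edgeSet := e.2
    rw [hu] at h2
    refine ⟨⟨u, (SimpleGraph.mem_edgeSet G).1 h2⟩, Finset.mem_univ _, ?_⟩
    exact Subtype.ext hu.symm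
  exact (Finset.card_le_card hsub).trans Finset.card_image_le

/-- The number `χ` is large. -/
lemma chi_large {i : ℕ} (hi : 1 ≤ i) {C c ξ χ N : ℝ} (hC : 0 < C) (hξ : 0 < ξ) (hχ : 1 ≤ χ)
    (hc0 : 0 < c) (hc : c * C ≤ ξ ^ (2 * (2 ^ i - 1))) (h1 : χ ^ 3 ≤ c * N)
    (h2 : N ≤ C * χ ^ (2 ^ i + 2)) : 1 ≤ ξ * Real.sqrt χ := by
  have hχ0 : 0 < χ := by linarith
  have hm : 2 ≤ 2 ^ i := by
    calc 2 = 2 ^ 1 := by norm_num
      _ ≤ 2 ^ i := Nat.pow_le_pow_right (by norm_num) hi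
  have h3 : χ ^ 3 ≤ (c * C) * (χ ^ 3 * χ ^ (2 ^ i - 1)) := by
    have e : χ ^ (2 ^ i + 2) = χ ^ 3 * χ ^ (2 ^ i - 1) := by
      rw [← pow_add]
      congr 1
      omega
    calc χ ^ 3 ≤ c * N := h1
      _ ≤ c * (C * χ ^ (2 ^ i + 2)) := mul_le_mul_of_nonneg_left h2 hc0.le
      _ = _ := by rw [e]; ring
  have h4 : 1 ≤ (c * C) * χ ^ (2 ^ i - 1) := by
    have h5 : 0 < χ ^ 3 := by positivity
    have h6 : χ ^ 3 * 1 ≤ χ ^ 3 * ((c * C) * χ ^ (2 ^ i - 1)) := by
      calc χ ^ 3 * 1 = χ ^ 3 := mul_one _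
        _ ≤ _ := h3
        _ = _ := by ring
    exact le_of_mul_le_mul_left h6 h5
  by_contra hcon
  push Not at hcon
  have hs0 : 0 ≤ Real.sqrt χ := Real.sqrt_nonneg _
  have h5 : (ξ * Real.sqrt χ) ^ (2 * (2 ^ i - 1)) < 1 :=
    pow_lt_one₀ (by positivity) hcon (by omega)
  have h6 : (ξ * Real.sqrt χ) ^ (2 * (2 ^ i - 1)) = ξ ^ (2 * (2 ^ i - 1)) * χ ^ (2 ^ i - 1) := by
    rw [mul_pow, pow_mul (Real.sqrt χ), Real.sq_sqrt hχ0.le]
  rw [h6] at h5
  have h7 : (c * C) * χ ^ (2 ^ i - 1) ≤ ξ ^ (2 * (2 ^ i - 1)) * χ ^ (2 ^ i - 1) :=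
    mul_le_mul_of_nonneg_right hc (by positivity)
  linarith

open scoped Classical in
/-- The theorem for graphs. -/
theorem giant_graph (i : ℕ) (hi : 1 ≤ i) {C η : ℝ} (hC : 1 ≤ C) (hη : 0 < η) (hη1 : η ≤ 1) :
    ∃ c0 : ℝ, 0 < c0 ∧ ∀ L : ℝ, 1 ≤ L → ∃ δ : ℝ, 0 < δ ∧ ∀ r D : ℕ, 1 ≤ D →
      ∃ c : ℝ, 0 < c ∧
      ∀ (V : Type) [Fintype V] [AddCommGroup V] (G : SimpleGraph V) (p q : ℝ) (z : V),
        (∀ x y g : V, G.Adj (x + g) (y + g) ↔ G.Adj x y) →
        (∀ x, Nat.card (G.neighborSet x) = D) → 0 < p → p < q → q < 1 → q * D ≤ C →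
        (∀ s, p ≤ s → s ≤ q → ∀ k : ℕ, 1 ≤ k →
          prob G s (fun ω => k ≤ clusterSize G ω 0) ≤ C * (1 / Real.sqrt k + D * (s - p))) →
        (∀ n : ℕ, 2 ≤ n → n ≤ 2 * 2 ^ i → conv G p (2 * n) 0 0 ≤
          C * (chi G p 0 ^ (n - 2) + chi G p 0 ^ (2 * n) / (Fintype.card V))) →
        conv G p (2 * 2 ^ i) 0 0 ≤ (1 + δ) * chi G p 0 ^ (2 * 2 ^ i) / (Fintype.card V) →
        conv G p 3 0 z ≤ δ →
        (∃ w : G.Walk 0 z, w.length = r) →
        (Fintype.card V) ≤ C * chi G p 0 ^ (2 ^ i + 2) →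
        chi G p 0 ^ 3 ≤ c * (Fintype.card V) →
        p + 1 / (c0 * D * chi G p 0) ≤ q → q ≤ p + L / (D * chi G p 0) →
        prob G q (fun ω => ∃ x y, ¬ (openGraph G ω).Reachable x y ∧
          η * (Fintype.card V) / chi G p 0 ≤ (clusterSize G ω x : ℝ) ∧
          η * (Fintype.card V) / chi G p 0 ≤ (clusterSize G ω y : ℝ)) ≤ η ∧
        ∃ m : ℝ, c0 * (Fintype.card V) / chi G p 0 ≤ m ∧
          prob G q (fun ω => ¬ |(maxCluster G ω : ℝ) - m| ≤ η * m) ≤ η := by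
  obtain ⟨c0, hc0, h1⟩ := giant_lib i hi hC hη hη1
  refine ⟨c0, hc0, ?_⟩
  intro L hL
  obtain ⟨δ, γ, hδ, hγ, h2⟩ := h1 L hL
  refine ⟨min δ γ, lt_min hδ hγ, ?_⟩
  intro r D hD1
  obtain ⟨ξ, hξ, hξ1, h3⟩ := h2 r D hD1
  have hC0 : 0 < C := by linarith
  refine ⟨min ξ (ξ ^ (2 * (2 ^ i - 1)) / C), lt_min hξ (by positivity), ?_⟩
  intro V _ _ G p q z hG hD h0 hpq hq hqD hT hQ hS hO hW hVK hV hlow hup
  have hp1 : p ≤ 1 := by linarith
  have hD0 : (0 : ℝ) < D := by exact_mod_cast hD1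
  have hN0 : (0 : ℝ) < (Fintype.card V) := by
    have : 0 < Fintype.card V := Fintype.card_pos_iff.2 ⟨0⟩
    exact_mod_cast this
  have hF : ∀ (s : ℝ) (F : ℝ → ℝ) (x : V),
      Ex s (fun ω : G.edgeSet → Bool => F (cz (gends G) ω x)) =
      Ex s (fun ω => F (cz (gends G) ω 0)) := by
    intro s F x
    have h := Ex_cz_map G (trs G hG x) s F 0
    rw [trs_apply, zero_add] at h
    exact h
  have hχ : ∀ x, Ex p (fun ω => cz (gends G) ω x) = chi G p 0 := by
    intro x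
    rw [chi_eq]
    exact hF p (fun c => c) x
  have hχ1 : 1 ≤ chi G p 0 := by
    rw [← hχ 0]
    have := Ex_mono h0.le hp1 (f := fun _ : G.edgeSet → Bool => (1 : ℝ))
      (g := fun ω => cz (gends G) ω 0) (fun ω => one_le_cz ω 0)
    rwa [Ex_const] at this
  set χ : ℝ := chi G p 0 with hχdef
  have hχ0 : 0 < χ := by linarith
  have hU : HypU (gends G) p q χ C L D := by
    refine ⟨h0, hpq, hq, hC, hL, hD1, hχ1, hqD, fun x => nb_deg G x D (hD x), hχ, ?_, ?_⟩
    · intro s hs hs2 x k hk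
      have h4 := hT s hs hs2 k hk
      rw [tail_eq] at h4
      refine le_trans (le_of_eq ?_) h4
      exact hF s (fun c => if (k : ℝ) ≤ c then 1 else 0) x
    · linarith
  obtain ⟨w, hw⟩ := hW
  have hadj : ∀ l < r, G.Adj (w.getVert l) (w.getVert (l + 1)) := by
    intro l hl
    exact w.adj_getVert_succ (by rw [hw]; exact hl)
  have hZ : HypZ (gends G) p χ C δ γ i r D z w.getVert := by
    refine ⟨?_, ?_, ?_, ?_, hVK, w.getVert_zero, ?_, ?_, ?_⟩
    · intro ψ x y g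
      exact TK_map G (trs G hG g) ψ p x y
    · intro n hn hn2
      rw [← conv_eq]
      exact hQ n hn hn2
    · rw [← conv_eq]
      refine hS.trans ?_
      refine div_le_div_of_nonneg_right ?_ hN0.le
      refine mul_le_mul_of_nonneg_right ?_ (by positivity)
      linarith [min_le_right δ γ]
    · rw [← conv_eq]
      exact hO.trans (min_le_left _ _)
    · rw [← hw]
      exact w.getVert_length
    · intro x l hl
      have h5 : G.Adj (x + w.getVert l) (x + w.getVert (l + 1)) := by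
        rw [add_comm x, add_comm x]
        exact (hG _ _ x).2 (hadj l hl)
      exact ⟨⟨s(x + w.getVert l, x + w.getVert (l + 1)), (SimpleGraph.mem_edgeSet G).2 h5⟩, rfl⟩
    · intro v
      exact inc_le G v D (hD v)
  have hV1 : χ ^ 3 ≤ ξ * (Fintype.card V) :=
    hV.trans (mul_le_mul_of_nonneg_right (min_le_left _ _) hN0.le)
  have hV2 : χ ^ 3 ≤ (ξ ^ (2 * (2 ^ i - 1)) / C) * (Fintype.card V) :=
    hV.trans (mul_le_mul_of_nonneg_right (min_le_right _ _) hN0.le)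
  have hχl : 1 ≤ ξ * Real.sqrt χ := chi_large hi hC0 hξ hχ1 (by positivity)
    (le_of_eq (by field_simp)) hV2 hVK
  obtain ⟨a1, m, hm, a2⟩ := h3 V G.edgeSet (gends G) p q χ z w.getVert hU hZ hlow hV1 hχl
  refine ⟨?_, m, hm, ?_⟩
  · refine le_trans (le_of_eq ?_) a1
    unfold prob
    rw [expect_eq]
    refine Ex_congr fun ω => ?_
    have hiff : (∃ x y, ¬ (openGraph G ω).Reachable x y ∧
          η * (Fintype.card V) / χ ≤ (clusterSize G ω x : ℝ) ∧
          η * (Fintype.card V) / χ ≤ (clusterSize G ω y : ℝ)) ↔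
        ∃ x y, y ∉ cu (gends G) ω x ∧ η * (Fintype.card V) / χ ≤ cz (gends G) ω x ∧
          η * (Fintype.card V) / χ ≤ cz (gends G) ω y := by
      simp only [mem_cu, rch_iff, cz_eq]
    simp only [hiff]
  · refine le_trans (le_of_eq ?_) a2
    unfold prob
    rw [expect_eq]
    refine Ex_congr fun ω => ?_
    have hme : (maxCluster G ω : ℝ) = mxc (gends G) ω := maxCluster_eq G ω
    by_cases h : |mxc (gends G) ω - m| ≤ η * m
    · simp [hme, h]
    · simp [hme, h]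

end Pool.Agent.PERC29
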