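import Pool.Agent.Lib.MP_29e17e_pr.Rec

set_option autoImplicit false
set_option linter.unusedSectionVars false

/-! Rows 29u-L1, 29u-L2: the lower bound for pairs of distinct clusters. -/

open Finset

namespace Pool.Agent.PERC29

variable {V : Type*} [Fintype V] [DecidableEq V] {E : Type*} [Fintype E] [DecidableEq E]
  {ends : E → Sym2 V}

/-- A walk whose vertices avoid `S` is a path inside `Sᶜ`. -/
private lemma L1_walk {ω : E → Bool} {a b : V} (T : Set V) (q : (openG ends ω).Walk a b)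
    (hq : ∀ w ∈ q.support, w ∈ T) : Rch ends ω T a b := by
  induction q with
  | nil => exact Rch.refl _
  | @cons a c b hadj p ih =>
    have hadj' := hadj
    obtain ⟨-, e, h3, h4⟩ := hadj'
    have ha : a ∈ T := hq a (by simp)
    have hc : c ∈ T := by
      refine hq c ?_
      rw [SimpleGraph.Walk.support_cons]
      exact List.mem_cons_of_mem _ (p.start_mem_support)
    refine Relation.ReflTransGen.head ⟨ha, hc, e, h3, h4⟩ (ih (fun w hw => hq w ?_))
    rw [SimpleGraph.Walk.support_cons]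
    exact List.mem_cons_of_mem _ hw

/-- If `y ↔ v` then either inside `Sᶜ` or disjointly through a vertex of `S`. -/
private lemma L1_through (ω : E → Bool) (y v : V) (S : Finset V) (hv : Rch ends ω Set.univ y v) :
    Rch ends ω ((S : Finset V) : Set V)ᶜ y v ∨
      ∃ s ∈ S, opn (dsj (Pth ends y s) (Pth ends s v)) ω = 1 := by
  classical
  obtain ⟨p0⟩ := exists_walk hv
  obtain ⟨p, hp⟩ : ∃ p : (openG ends ω).Walk y v, p.IsPath := ⟨_, p0.bypass_isPath⟩
  by_cases h : ∃ s ∈ S, s ∈ p.support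
  · right
    obtain ⟨s, hs, hz'⟩ := h
    refine ⟨s, hs, ?_⟩
    have hnd : (p.takeUntil s hz').edges.Disjoint (p.dropUntil s hz').edges := by
      have h1 : p.edges.Nodup := hp.isTrail.edges_nodup
      rw [← p.take_spec hz', SimpleGraph.Walk.edges_append] at h1
      exact (List.nodup_append'.1 h1).2.2
    unfold opn
    rw [if_pos]
    refine ⟨opL ends ω (p.takeUntil s hz').edges ∪ opL ends ω (p.dropUntil s hz').edges,
      ⟨opL ends ω (p.takeUntil s hz').edges, walk_mem_Pth _ _ (fun s hs => hs),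
      opL ends ω (p.dropUntil s hz').edges, walk_mem_Pth _ _ (fun s hs => hs),
      opL_disjoint (fun s hs hs' => hnd hs hs'), rfl⟩, ?_⟩
    intro e he
    simp only [Finset.mem_union, opL, Finset.mem_filter] at he
    tauto
  · left
    refine L1_walk _ p (fun w hw => ?_)
    intro hwS
    exact h ⟨w, Finset.mem_coe.1 hwS, hw⟩

private lemma L1_opn_nonneg (𝒜 : Set (Finset E)) (ω : E → Bool) : 0 ≤ opn 𝒜 ω := by
  unfold opn
  split_ifs <;> norm_num

private lemma L1_pt (ω : E → Bool) (y : V) (S : Finset V) :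
    cz ends ω y ≤ ((cl ends ω ((S : Finset V) : Set V)ᶜ y).card : ℝ) +
      ∑ s ∈ S, ∑ v, opn (dsj (Pth ends y s) (Pth ends s v)) ω := by
  classical
  have e1 : cz ends ω y = ∑ v, (if v ∈ cu ends ω y then (1 : ℝ) else 0) := by
    unfold cz
    simp
  have e2 : ((cl ends ω ((S : Finset V) : Set V)ᶜ y).card : ℝ) =
      ∑ v, (if v ∈ cl ends ω ((S : Finset V) : Set V)ᶜ y then (1 : ℝ) else 0) := by
    simp
  rw [e1, e2, Finset.sum_comm (s := S), ← Finset.sum_add_distrib]
  refine Finset.sum_le_sum fun v _ => ?_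
  have hnn : 0 ≤ ∑ s ∈ S, opn (dsj (Pth ends y s) (Pth ends s v)) ω :=
    Finset.sum_nonneg fun s _ => L1_opn_nonneg _ _
  by_cases hv : v ∈ cu ends ω y
  · rw [if_pos hv]
    rcases L1_through ω y v S (mem_cu.1 hv) with h | ⟨s, hs, h⟩
    · rw [if_pos (mem_cl.2 h)]
      linarith
    · have h2 : (1 : ℝ) ≤ ∑ s ∈ S, opn (dsj (Pth ends y s) (Pth ends s v)) ω := by
        calc (1 : ℝ) = opn (dsj (Pth ends y s) (Pth ends s v)) ω := h.symm
          _ ≤ _ := Finset.single_le_sum (f := fun s =>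
            opn (dsj (Pth ends y s) (Pth ends s v)) ω) (fun s _ => L1_opn_nonneg _ _) hs
      have h3 : (0 : ℝ) ≤ if v ∈ cl ends ω ((S : Finset V) : Set V)ᶜ y then (1 : ℝ) else 0 := by
        split_ifs <;> norm_num
      linarith
  · rw [if_neg hv]
    have h3 : (0 : ℝ) ≤ if v ∈ cl ends ω ((S : Finset V) : Set V)ᶜ y then (1 : ℝ) else 0 := by
      split_ifs <;> norm_num
    linarith

open scoped Classical in
/-- Row L1. Exploration of the cluster of `x`: given `cu ω x = S` the edges inside `Sᶜ` are fresh. Proof as in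
`two` (sum over the values `A` of `cu ω x`; `Ex_indep`: the event `cu ω x = A` depends on the edges which touch `A`,
`cl ω Aᶜ y` on the edges inside `Aᶜ`; if `y ∉ cu ω x` then `cu ω y = cl ω (cu ω x)ᶜ y`). -/
lemma explore {p : ℝ} (x y : V) (Φ Ψ : Finset V → ℝ) :
    Ex p (fun ω => (if y ∈ cu ends ω x then 0 else 1) * (Φ (cu ends ω x) * Ψ (cu ends ω y))) =
      Ex p (fun ω => (if y ∈ cu ends ω x then 0 else 1) * (Φ (cu ends ω x) *
        Ex p (fun ω' => Ψ (cl ends ω' ((cu ends ω x : Finset V) : Set V)ᶜ y)))) := by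
  classical
  have hdec : ∀ ω : E → Bool, ∀ K : Finset V → ℝ, K (cu ends ω x) =
      ∑ A : Finset V, (if cu ends ω x = A then 1 else 0) * K A := by
    intro ω K
    rw [Finset.sum_eq_single (cu ends ω x)]
    · rw [if_pos rfl, one_mul]
    · intro A _ hA
      rw [if_neg (Ne.symm hA), zero_mul]
    · intro hh
      exact absurd (Finset.mem_univ _) hh
  have d1 : ∀ ω : E → Bool, (if y ∈ cu ends ω x then (0 : ℝ) else 1) *
      (Φ (cu ends ω x) * Ψ (cu ends ω y)) =
      ∑ A : Finset V, (if cu ends ω x = A then 1 else 0) *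
        ((if y ∈ A then 0 else 1) * (Φ A * Ψ (cu ends ω y))) := fun ω =>
    hdec ω (fun A => (if y ∈ A then 0 else 1) * (Φ A * Ψ (cu ends ω y)))
  have d2 : ∀ ω : E → Bool, (if y ∈ cu ends ω x then (0 : ℝ) else 1) * (Φ (cu ends ω x) *
        Ex p (fun ω' => Ψ (cl ends ω' ((cu ends ω x : Finset V) : Set V)ᶜ y))) =
      ∑ A : Finset V, (if cu ends ω x = A then 1 else 0) *
        ((if y ∈ A then 0 else 1) * (Φ A *
          Ex p (fun ω' => Ψ (cl ends ω' ((A : Finset V) : Set V)ᶜ y)))) := fun ω =>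
    hdec ω (fun A => (if y ∈ A then 0 else 1) * (Φ A *
          Ex p (fun ω' => Ψ (cl ends ω' ((A : Finset V) : Set V)ᶜ y))))
  rw [Ex_congr d1, Ex_sum, Ex_congr d2, Ex_sum]
  refine Finset.sum_congr rfl fun A _ => ?_
  by_cases hy : y ∈ A
  · rw [Ex_zero_of, Ex_zero_of]
    · intro ω
      rw [if_pos hy]
      ring
    · intro ω
      rw [if_pos hy]
      ring
  · set D : Set E := {e | ∃ a b, ends e = s(a, b) ∧ a ∈ A} with hD
    have hcl : ∀ ω : E → Bool, cu ends ω x = A →
        cu ends ω y = cl ends ω ((A : Set V))ᶜ y := by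
      intro ω hA
      ext z
      rw [mem_cu, mem_cl]
      apply inside (B := ({x} : Set V))
      · intro w
        simp only [Set.mem_compl_iff, Finset.mem_coe, ← hA, mem_cu, Set.mem_singleton_iff,
          exists_eq_left]
      · simpa using hy
    have e1 : ∀ ω : E → Bool, (if cu ends ω x = A then (1 : ℝ) else 0) *
        ((if y ∈ A then 0 else 1) * (Φ A * Ψ (cu ends ω y))) =
        ((if cu ends ω x = A then (1 : ℝ) else 0) * Φ A) * Ψ (cl ends ω ((A : Set V))ᶜ y) := by
      intro ω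
      by_cases hA : cu ends ω x = A
      · rw [hcl ω hA, if_neg hy]
        ring
      · rw [if_neg hA]
        ring
    have e2 : ∀ ω : E → Bool, (if cu ends ω x = A then (1 : ℝ) else 0) *
        ((if y ∈ A then 0 else 1) * (Φ A *
          Ex p (fun ω' => Ψ (cl ends ω' ((A : Finset V) : Set V)ᶜ y)))) =
        Ex p (fun ω' => Ψ (cl ends ω' ((A : Finset V) : Set V)ᶜ y)) *
          ((if cu ends ω x = A then (1 : ℝ) else 0) * Φ A) := by
      intro ω
      rw [if_neg hy]
      ring
    rw [Ex_congr e1, Ex_indep p D, Ex_congr e2, Ex_mul_left, mul_comm]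
    · intro ω ω' hh
      have key : ∀ ω ω' : E → Bool, (∀ e ∈ D, ω e = ω' e) → cu ends ω x = A →
          cu ends ω' x = A := by
        intro ω ω' hh hA
        exact cl_eq_dep (fun e' a b h2 _ _ h5 => hh e' ⟨a, b, h2, h5⟩) hA
      by_cases hc : cu ends ω x = A
      · rw [if_pos hc, if_pos (key ω ω' hh hc)]
      · rw [if_neg hc, if_neg]
        intro hc'
        exact hc (key ω' ω (fun e he => (hh e he).symm) hc')
    · intro ω ω' hh
      rw [cl_dep (S := ((A : Set V))ᶜ) (ω' := ω')]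
      intro e' a b h2 h3 h4
      apply hh
      rintro ⟨a', b', h5, h8⟩
      rw [h2] at h5
      rcases Sym2.eq_iff.1 h5 with ⟨rfl, rfl⟩ | ⟨rfl, rfl⟩
      · exact h3 h8
      · exact h4 h8

/-- Row L1. Removing the set `S` of vertices decreases the mean size of the cluster of `y ∉ S` by at most
`∑ s ∈ S, τ(y,s) χ`: a vertex `v ∈ cu ω y` outside `cl ω Sᶜ y` is joined to `y` by a path through some `s ∈ S`, so
`y ↔ s` and `s ↔ v` occur disjointly (`bk` with the families `Pth ends y s`, `Pth ends s v`, as in `Tree.lean`;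
`ta ends p y s * ta ends p s v`). Then `Fn a` is increasing and `Fn_add`. -/
lemma remove_low {p χ a : ℝ} (h0 : 0 ≤ p) (h1 : p ≤ 1)
    (hχ : ∀ x, Ex p (fun ω => cz ends ω x) = χ) (S : Finset V) (y : V) (hy : y ∉ S) :
    Ex p (fun ω => Fn a (cz ends ω y)) - χ * ∑ s ∈ S, ta ends p y s ≤
      Ex p (fun ω => Fn a ((cl ends ω ((S : Finset V) : Set V)ᶜ y).card : ℝ)) := by
  classical
  have e1 : ∀ a b : V, Ex p (opn (Pth ends a b)) = ta ends p a b := by
    intro a b
    unfold ta
    exact Ex_congr fun ω => opn_Pth a b ω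
  have hpt : ∀ ω : E → Bool, Fn a (cz ends ω y) ≤
      Fn a ((cl ends ω ((S : Finset V) : Set V)ᶜ y).card : ℝ) +
        ∑ s ∈ S, ∑ v, opn (dsj (Pth ends y s) (Pth ends s v)) ω := by
    intro ω
    have hR : 0 ≤ ∑ s ∈ S, ∑ v, opn (dsj (Pth ends y s) (Pth ends s v)) ω :=
      Finset.sum_nonneg fun s _ => Finset.sum_nonneg fun v _ => L1_opn_nonneg _ _
    have h2 := Fn_mono a (L1_pt (ends := ends) ω y S)
    have h3 := Fn_add a (k := ((cl ends ω ((S : Finset V) : Set V)ᶜ y).card : ℝ)) hR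
    linarith
  have h4 := Ex_mono h0 h1 hpt
  rw [Ex_add, Ex_sum] at h4
  have h5 : ∑ s ∈ S, Ex p (fun ω => ∑ v, opn (dsj (Pth ends y s) (Pth ends s v)) ω) ≤
      χ * ∑ s ∈ S, ta ends p y s := by
    rw [Finset.mul_sum]
    refine Finset.sum_le_sum fun s _ => ?_
    rw [Ex_sum]
    calc ∑ v, Ex p (fun ω => opn (dsj (Pth ends y s) (Pth ends s v)) ω) ≤
        ∑ v, ta ends p y s * ta ends p s v := by
          refine Finset.sum_le_sum fun v _ => ?_
          have h6 := bk h0 h1 (Pth ends y s) (Pth ends s v)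
          rw [e1, e1] at h6
          exact h6
      _ = χ * ta ends p y s := by
          rw [← Finset.mul_sum, ta_sum, hχ s, mul_comm]
  linarith

/-- Row L2. Proof: `explore` with `Φ A = Fn a |A|`, `Ψ A = Fn a |A|`; `remove_low` if `y ∉ cu ω x`; if `y ∈ cu ω x` then
`Ex Fn a (cz y) - χ ∑ s ∈ cu ω x, τ(y,s) ≤ χ - χ τ(y,y) = 0` (`Fn a k ≤ k` for `0 ≤ a`, `0 ≤ k`). So the right hand side is
at least `Ex [Fn a (cz x) * (Ex Fn a (cz y) - χ ∑ s ∈ cu ω x, τ(y,s))]`, and
`Ex [Fn a (cz x) ∑ s ∈ cu ω x, τ(y,s)] ≤ ∑ s, Gf x s * τ(s,y) ≤ χ * cv 3 x y` (`Gf_le`; `ta` is symmetric). -/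
theorem pair_low {p χ a : ℝ} (h0 : 0 ≤ p) (h1 : p ≤ 1) (ha : 0 ≤ a)
    (hχ : ∀ x, Ex p (fun ω => cz ends ω x) = χ) (x y : V) :
    Ex p (fun ω => Fn a (cz ends ω x)) * Ex p (fun ω => Fn a (cz ends ω y)) -
        χ ^ 2 * cv ends p 3 x y ≤
      Ex p (fun ω => (if y ∈ cu ends ω x then 0 else 1) *
        (Fn a (cz ends ω x) * Fn a (cz ends ω y))) := by
  have hex := explore (ends := ends) (p := p) x y (fun A => Fn a (A.card : ℝ))
    (fun A => Fn a (A.card : ℝ))
  have hrw : Ex p (fun ω => (if y ∈ cu ends ω x then 0 else 1) *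
        (Fn a (cz ends ω x) * Fn a (cz ends ω y))) =
      Ex p (fun ω => (if y ∈ cu ends ω x then 0 else 1) * (Fn a (cz ends ω x) *
        Ex p (fun ω' => Fn a ((cl ends ω' ((cu ends ω x : Finset V) : Set V)ᶜ y).card : ℝ)))) := hex
  rw [hrw]
  have hχ0 : 0 ≤ χ := by
    rw [← hχ x]
    exact Ex_nonneg h0 h1 fun ω => cz_nonneg ω x
  have hFn : ∀ k : ℝ, 0 ≤ k → Fn a k ≤ k := by
    intro k hk
    unfold Fn
    exact max_le (by linarith) hk
  have hM : Ex p (fun ω => Fn a (cz ends ω y)) ≤ χ := by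
    rw [← hχ y]
    exact Ex_mono h0 h1 fun ω => hFn _ (cz_nonneg ω y)
  obtain ⟨M, hMdef⟩ : ∃ M, M = Ex p (fun ω => Fn a (cz ends ω y)) := ⟨_, rfl⟩
  rw [← hMdef] at hM ⊢
  have hpt : ∀ ω : E → Bool, M * Fn a (cz ends ω x) +
        (-χ) * (Fn a (cz ends ω x) * ∑ s ∈ cu ends ω x, ta ends p y s) ≤
      (if y ∈ cu ends ω x then 0 else 1) * (Fn a (cz ends ω x) *
        Ex p (fun ω' => Fn a ((cl ends ω' ((cu ends ω x : Finset V) : Set V)ᶜ y).card : ℝ))) := by
    intro ω
    have hF := Fn_nonneg a (cz ends ω x)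
    have hgoal : M * Fn a (cz ends ω x) +
        (-χ) * (Fn a (cz ends ω x) * ∑ s ∈ cu ends ω x, ta ends p y s) =
        Fn a (cz ends ω x) * (M - χ * ∑ s ∈ cu ends ω x, ta ends p y s) := by ring
    rw [hgoal]
    by_cases hy : y ∈ cu ends ω x
    · rw [if_pos hy, zero_mul]
      have h2 : 1 ≤ ∑ s ∈ cu ends ω x, ta ends p y s := by
        calc (1 : ℝ) = ta ends p y y := (ta_self p y).symm
          _ ≤ _ := Finset.single_le_sum (f := fun s => ta ends p y s)
            (fun s _ => ta_nonneg h0 h1 y s) hy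
      have h3 : χ * 1 ≤ χ * ∑ s ∈ cu ends ω x, ta ends p y s :=
        mul_le_mul_of_nonneg_left h2 hχ0
      exact mul_nonpos_of_nonneg_of_nonpos hF (by linarith)
    · rw [if_neg hy, one_mul]
      apply mul_le_mul_of_nonneg_left _ hF
      have h2 := remove_low (ends := ends) (a := a) h0 h1 hχ (cu ends ω x) y hy
      rw [← hMdef] at h2
      exact h2
  refine le_trans ?_ (Ex_mono h0 h1 hpt)
  rw [Ex_add, Ex_mul_left, Ex_mul_left]
  have hcv1 : ∀ u v, cv ends p 1 u v = ta ends p u v := by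
    intro u v
    change ∑ w, (if u = w then (1 : ℝ) else 0) * ta ends p w v = ta ends p u v
    simp
  have hcv2 : ∀ u v, cv ends p 2 u v = ∑ z, ta ends p u z * ta ends p z v := by
    intro u v
    change ∑ z, cv ends p 1 u z * ta ends p z v = _
    exact Finset.sum_congr rfl fun z _ => by rw [hcv1 u z]
  have htas : ∀ u v, ta ends p u v = ta ends p v u := by
    intro u v
    unfold ta
    apply Ex_congr
    intro ω
    exact if_congr cu_symm rfl rfl
  have hmain : Ex p (fun ω => Fn a (cz ends ω x) * ∑ s ∈ cu ends ω x, ta ends p y s) ≤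
      χ * cv ends p 3 x y := by
    have hstep : Ex p (fun ω => Fn a (cz ends ω x) * ∑ s ∈ cu ends ω x, ta ends p y s) ≤
        Ex p (fun ω => ∑ s, ta ends p y s * (cz ends ω x * (if s ∈ cu ends ω x then (1 : ℝ) else 0))) := by
      apply Ex_mono h0 h1
      intro ω
      have h2 : ∑ s, ta ends p y s * (cz ends ω x * (if s ∈ cu ends ω x then (1 : ℝ) else 0)) =
          cz ends ω x * ∑ s ∈ cu ends ω x, ta ends p y s := by
        rw [Finset.mul_sum, ← Finset.sum_filter_add_sum_filter_not Finset.univ (fun s => s ∈ cu ends ω x)]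
        have h3 : ∑ s ∈ Finset.univ.filter (fun s => ¬ s ∈ cu ends ω x),
            ta ends p y s * (cz ends ω x * (if s ∈ cu ends ω x then (1 : ℝ) else 0)) = 0 := by
          apply Finset.sum_eq_zero
          intro s hs
          rw [if_neg (Finset.mem_filter.1 hs).2]
          ring
        rw [h3, add_zero]
        have h4 : Finset.univ.filter (fun s => s ∈ cu ends ω x) = cu ends ω x := by
          ext s
          simp
        rw [h4]
        apply Finset.sum_congr rfl
        intro s hs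
        rw [if_pos hs]
        ring
      rw [h2]
      exact mul_le_mul_of_nonneg_right (hFn _ (cz_nonneg ω x))
        (Finset.sum_nonneg fun s _ => ta_nonneg h0 h1 y s)
    refine hstep.trans ?_
    rw [Ex_sum]
    have h5 : ∀ s, Ex p (fun ω => ta ends p y s *
        (cz ends ω x * (if s ∈ cu ends ω x then (1 : ℝ) else 0))) = ta ends p y s * Gf ends p x s := by
      intro s
      rw [Ex_mul_left]
      unfold Gf
      congr 1
    rw [Finset.sum_congr rfl fun s _ => h5 s]
    calc ∑ s, ta ends p y s * Gf ends p x s ≤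
        ∑ s, ta ends p y s * (χ * ∑ z, ta ends p x z * ta ends p z s) :=
          Finset.sum_le_sum fun s _ =>
            mul_le_mul_of_nonneg_left (Gf_le h0 h1 hχ x s) (ta_nonneg h0 h1 y s)
      _ = χ * cv ends p 3 x y := by
          change _ = χ * ∑ s, cv ends p 2 x s * ta ends p s y
          rw [Finset.mul_sum]
          apply Finset.sum_congr rfl
          intro s _
          rw [hcv2 x s, htas s y]
          ring
  have hfin := mul_le_mul_of_nonneg_left hmain hχ0
  nlinarith [hfin]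

end Pool.Agent.PERC29
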