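import Pool.Agent.Lib.MP_29e17e_pr.Two

set_option autoImplicit false
set_option linter.unusedSectionVars false

/-! Rows 29u-G1 .. 29u-G4: surgery: near contacts between two unions of clusters produce contacts. -/

open Finset

namespace Pool.Agent.PERC29

/-- Row G1. A set of vertices with few conflicts contains a large set without conflicts (greedy choice, or a maximal
conflict free subset). -/
lemma greedy {α : Type*} [DecidableEq α] (R : α → α → Prop) [DecidableRel R] (hsym : ∀ x y, R x y → R y x)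
    (hrefl : ∀ x, R x x) (X : Finset α) (L : ℕ) (hL : ∀ x ∈ X, (X.filter (fun y => R x y)).card ≤ L) :
    ∃ Y ⊆ X, (∀ x ∈ Y, ∀ y ∈ Y, x ≠ y → ¬ R x y) ∧ X.card ≤ L * Y.card := by
  obtain ⟨Y, hY, hmax⟩ := Finset.exists_max_image
    (X.powerset.filter (fun Y => ∀ x ∈ Y, ∀ y ∈ Y, x ≠ y → ¬ R x y)) Finset.card ⟨∅, by simp⟩
  rw [Finset.mem_filter, Finset.mem_powerset] at hY
  refine ⟨Y, hY.1, hY.2, ?_⟩
  have hcov : X ⊆ Y.biUnion (fun y => X.filter (fun x => R y x)) := by
    intro x hx
    rw [Finset.mem_biUnion]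
    by_contra hcon
    push Not at hcon
    have hno : ∀ y ∈ Y, ¬ R y x := by
      intro y hy h
      exact hcon y hy (Finset.mem_filter.mpr ⟨hx, h⟩)
    have hxY : x ∉ Y := fun h => hno x h (hrefl x)
    have h1 : insert x Y ∈ X.powerset.filter (fun Y => ∀ x ∈ Y, ∀ y ∈ Y, x ≠ y → ¬ R x y) := by
      rw [Finset.mem_filter, Finset.mem_powerset]
      refine ⟨Finset.insert_subset hx hY.1, ?_⟩
      intro a ha b hb hab
      rcases Finset.mem_insert.mp ha with ha | ha
      · rcases Finset.mem_insert.mp hb with hb | hb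
        · exact absurd (ha.trans hb.symm) hab
        · rw [ha]
          exact fun h => hno b hb (hsym _ _ h)
      · rcases Finset.mem_insert.mp hb with hb | hb
        · rw [hb]
          exact hno a ha
        · exact hY.2 a ha b hb hab
    have h2 := hmax _ h1
    rw [Finset.card_insert_of_notMem hxY] at h2
    lia
  calc X.card ≤ (Y.biUnion (fun y => X.filter (fun x => R y x))).card := Finset.card_le_card hcov
    _ ≤ ∑ y ∈ Y, (X.filter (fun x => R y x)).card := Finset.card_biUnion_le
    _ ≤ ∑ _y ∈ Y, L := Finset.sum_le_sum fun y hy => hL y (hY.1 hy)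
    _ = L * Y.card := by rw [Finset.sum_const, smul_eq_mul, mul_comm]

variable {V : Type*} [Fintype V] [DecidableEq V] {E : Type*} [Fintype E] [DecidableEq E]
  {ends : E → Sym2 V}

/-- The union of the clusters of the points of `a`. -/
noncomputable def UC (ends : E → Sym2 V) (ω : E → Bool) (a : Finset V) : Finset V :=
  a.biUnion (cu ends ω)

open scoped Classical in
/-- The number of edges between two sets of vertices. -/
noncomputable def eb (ends : E → Sym2 V) (A B : Finset V) : ℕ :=
  (Finset.univ.filter (fun e => ∃ x ∈ A, ∃ y ∈ B, ends e = s(x, y))).card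

/-- Two paths are in conflict if they have a common vertex or if an edge joins them. -/
def Cft (ends : E → Sym2 V) (π : V → ℕ → V) (r : ℕ) (x x' : V) : Prop :=
  ∃ l ≤ r, ∃ l' ≤ r, π x l = π x' l' ∨ ∃ e, ends e = s(π x l, π x' l')

/-- The edges at the path of a site. -/
def Inc (ends : E → Sym2 V) (π : V → ℕ → V) (r : ℕ) (x : V) (e : E) : Prop :=
  ∃ l ≤ r, π x l ∈ ends e

/-- The last point in `A` and the first later point in `B` of a path from `A` to `B`. -/
lemma G2_ij (q : ℕ → V) (r : ℕ) (A B : Finset V) (hAB : Disjoint A B) (h0 : q 0 ∈ A) (hr : q r ∈ B) :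
    ∃ i j : ℕ, i < j ∧ j ≤ r ∧ q i ∈ A ∧ q j ∈ B ∧ ∀ l, i < l → l < j → q l ∉ A ∧ q l ∉ B := by
  classical
  set i := Nat.findGreatest (fun l => q l ∈ A) r with hi
  have hiA : q i ∈ A := Nat.findGreatest_spec (P := fun l => q l ∈ A) (Nat.zero_le r) h0
  have hir : i ≤ r := Nat.findGreatest_le r
  have hne : i ≠ r := by
    intro h
    rw [h] at hiA
    exact Finset.disjoint_left.1 hAB hiA hr
  have hlt : i < r := lt_of_le_of_ne hir hne
  have hex : ∃ j, i < j ∧ q j ∈ B := ⟨r, hlt, hr⟩
  refine ⟨i, Nat.find hex, (Nat.find_spec hex).1, Nat.find_min' hex ⟨hlt, hr⟩, hiA, (Nat.find_spec hex).2, ?_⟩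
  intro l hl hlj
  constructor
  · intro hA
    have h1 : l ≤ r := le_of_lt (lt_of_lt_of_le hlj (Nat.find_min' hex ⟨hlt, hr⟩))
    have h2 : l ≤ i := Nat.le_findGreatest (P := fun l => q l ∈ A) h1 hA
    omega
  · intro hB
    exact Nat.find_min hex hlj ⟨hl, hB⟩

/-- A union of clusters is closed under open edges. -/
lemma G2_closed {ω : E → Bool} {a : Finset V} {u v : V} {e : E} (hu : u ∈ UC ends ω a) (he : ω e = true)
    (hen : ends e = s(u, v)) : v ∈ UC ends ω a := by
  unfold UC at hu ⊢
  rw [Finset.mem_biUnion] at hu ⊢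
  obtain ⟨y, hy, hyu⟩ := hu
  refine ⟨y, hy, ?_⟩
  rw [mem_cu] at hyu ⊢
  exact Relation.ReflTransGen.tail hyu ⟨Set.mem_univ _, Set.mem_univ _, e, he, hen⟩

lemma G2_self {ω : E → Bool} {a : Finset V} {y : V} (hy : y ∈ a) : y ∈ UC ends ω a := by
  unfold UC
  rw [Finset.mem_biUnion]
  exact ⟨y, hy, self_mem_cu ω y⟩

/-- A set which contains `a` and which no open edge leaves contains the clusters of the points of `a`. -/
lemma G2_sub {ω : E → Bool} {a S : Finset V} (ha : ∀ y ∈ a, y ∈ S)
    (hS : ∀ u v e, u ∈ S → ω e = true → ends e = s(u, v) → v ∈ S) : UC ends ω a ⊆ S := by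
  intro z hz
  unfold UC at hz
  rw [Finset.mem_biUnion] at hz
  obtain ⟨y, hy, hyz⟩ := hz
  rw [mem_cu] at hyz
  induction hyz with
  | refl => exact ha y hy
  | tail _ hcd ih =>
    obtain ⟨-, -, e, h3, h4⟩ := hcd
    exact hS _ _ e ih h3 h4

/-- The clusters of `a` survive if the open edges inside their union stay open. -/
lemma G2_sup {ω ω' : E → Bool} {a : Finset V}
    (h : ∀ u v e, u ∈ UC ends ω a → v ∈ UC ends ω a → ω e = true → ends e = s(u, v) → ω' e = true) :
    UC ends ω a ⊆ UC ends ω' a := by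
  intro z hz
  have hz' := hz
  unfold UC at hz'
  rw [Finset.mem_biUnion] at hz'
  obtain ⟨y, hy, hyz⟩ := hz'
  rw [mem_cu] at hyz
  clear hz
  induction hyz with
  | refl => exact G2_self hy
  | @tail c d hyc hcd ih =>
    obtain ⟨-, -, e, h3, h4⟩ := hcd
    have hc : c ∈ UC ends ω a := by
      unfold UC
      rw [Finset.mem_biUnion]
      exact ⟨y, hy, by rw [mem_cu]; exact hyc⟩
    exact G2_closed ih (h c d e hc (G2_closed hc h3 h4) h3 h4) h4

open scoped Classical in
/-- Row G2. The surgery at the sites of `Y` (paths from `A` to `B`, pairwise without conflicts). For `x ∈ Y` let `i` be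
the last index `≤ r` with `π x i ∈ A` and `j` the first index `> i` with `π x j ∈ B`; the interior vertices `π x l`,
`i < l < j`, are outside `A ∪ B`. The new configuration `ω'` is closed at all edges which contain an interior vertex of
a site of `Y`, except the edges joining `π x l` and `π x (l+1)` for `i ≤ l`, `l + 1 < j`, which are open (if `j = i + 1` nothing
changes at this site). Then: (1) `ω'` agrees with `ω` except at edges at the paths of `Y`; (2) the cluster union of `a` is
`A ∪ I`, `I` = the interior vertices (no open edge of `ω'` leaves `A ∪ I`, the clusters inside `A` are unchanged, the interior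
vertices are joined to `π x i ∈ A`), and the cluster union of `b` is `B`; (3) `π x (j-1)` is in the new `A` and `π x j ∈ B`;
(4) the new number of edges between them is at most the old one plus `D` for each interior vertex. -/
lemma surgery_one (π : V → ℕ → V) (r D : ℕ)
    (hedge : ∀ x, ∀ l < r, ∃ e, ends e = s(π x l, π x (l + 1)))
    (hdeg : ∀ v, (Finset.univ.filter (fun e => v ∈ ends e)).card ≤ D)
    (ω : E → Bool) (a b Y : Finset V) (hAB : Disjoint (UC ends ω a) (UC ends ω b))
    (hY : ∀ x ∈ Y, π x 0 ∈ UC ends ω a ∧ π x r ∈ UC ends ω b)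
    (hc : ∀ x ∈ Y, ∀ x' ∈ Y, x ≠ x' → ¬ Cft ends π r x x') :
    ∃ ω' : E → Bool, (∀ e, (∀ x ∈ Y, ¬ Inc ends π r x e) → ω' e = ω e) ∧
      (∀ x ∈ Y, ∃ l < r, π x l ∈ UC ends ω' a ∧ π x (l + 1) ∈ UC ends ω' b) ∧
      eb ends (UC ends ω' a) (UC ends ω' b) ≤
        eb ends (UC ends ω a) (UC ends ω b) + D * (r + 1) * Y.card := by
  classical
  have hex : ∀ x : V, ∃ i j : ℕ, x ∈ Y → (i < j ∧ j ≤ r ∧ π x i ∈ UC ends ω a ∧ π x j ∈ UC ends ω b ∧
      ∀ l, i < l → l < j → π x l ∉ UC ends ω a ∧ π x l ∉ UC ends ω b) := by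
    intro x
    by_cases hx : x ∈ Y
    · obtain ⟨i, j, h⟩ := G2_ij (π x) r _ _ hAB (hY x hx).1 (hY x hx).2
      exact ⟨i, j, fun _ => h⟩
    · exact ⟨0, 0, fun h => absurd h hx⟩
  choose i j hij using hex
  set A := UC ends ω a with hA
  set B := UC ends ω b with hB
  -- the interior vertices
  set I : Finset V := Y.biUnion (fun x => ((Finset.range (r + 1)).filter (fun l => i x < l ∧ l < j x)).image (π x))
    with hI
  have memI : ∀ v, v ∈ I ↔ ∃ x ∈ Y, ∃ l, i x < l ∧ l < j x ∧ π x l = v := by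
    intro v
    rw [hI, Finset.mem_biUnion]
    constructor
    · rintro ⟨x, hx, hv⟩
      rw [Finset.mem_image] at hv
      obtain ⟨l, hl, hv⟩ := hv
      rw [Finset.mem_filter] at hl
      exact ⟨x, hx, l, hl.2.1, hl.2.2, hv⟩
    · rintro ⟨x, hx, l, h1, h2, hv⟩
      refine ⟨x, hx, ?_⟩
      rw [Finset.mem_image]
      refine ⟨l, ?_, hv⟩
      rw [Finset.mem_filter, Finset.mem_range]
      have := (hij x hx).2.1
      exact ⟨by omega, h1, h2⟩
  have hIA : ∀ v ∈ I, v ∉ A ∧ v ∉ B := by
    intro v hv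
    obtain ⟨x, hx, l, h1, h2, rfl⟩ := (memI v).1 hv
    exact (hij x hx).2.2.2.2 l h1 h2
  -- the new open edges
  set P : E → Prop := fun e => ∃ x ∈ Y, ∃ l, i x ≤ l ∧ l + 1 < j x ∧ ends e = s(π x l, π x (l + 1)) with hP
  set Q : E → Prop := fun e => ∃ v ∈ I, v ∈ ends e with hQ
  have hPAI : ∀ e, P e → ∀ v ∈ ends e, v ∈ A ∪ I := by
    rintro e ⟨x, hx, l, h1, h2, h3⟩ v hv
    rw [h3, Sym2.mem_iff] at hv
    rw [Finset.mem_union]
    rcases hv with rfl | rfl
    · rcases Nat.eq_or_lt_of_le h1 with h | h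
      · left
        rw [← h]
        exact (hij x hx).2.2.1
      · right
        exact (memI _).2 ⟨x, hx, l, h, by omega, rfl⟩
    · right
      exact (memI _).2 ⟨x, hx, l + 1, by omega, h2, rfl⟩
  set ω' : E → Bool := fun e => if P e then true else if Q e then false else ω e with hω'
  have hP1 : ∀ e, P e → ω' e = true := fun e he => by simp only [hω', if_pos he]
  have hP2 : ∀ e, ¬ P e → Q e → ω' e = false := fun e he hq => by simp only [hω', if_neg he, if_pos hq]
  have hP3 : ∀ e, ¬ P e → ¬ Q e → ω' e = ω e := fun e he hq => by simp only [hω', if_neg he, if_neg hq]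
  have hkeep : ∀ e, ω e = true → ¬ Q e → ω' e = true := by
    intro e he hq
    by_cases hp : P e
    · exact hP1 e hp
    · rw [hP3 e hp hq, he]
  -- the new cluster union of a
  have hUa : UC ends ω' a = A ∪ I := by
    apply Finset.Subset.antisymm
    · apply G2_sub
      · intro y hy
        exact Finset.mem_union_left _ (G2_self hy)
      · intro u v e hu he hen
        by_cases hp : P e
        · exact hPAI e hp v (by rw [hen]; exact Sym2.mem_mk_right u v)
        · by_cases hq : Q e
          · rw [hP2 e hp hq] at he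
            exact absurd he (by simp)
          · rw [hP3 e hp hq] at he
            rcases Finset.mem_union.1 hu with hu | hu
            · exact Finset.mem_union_left _ (G2_closed hu he hen)
            · exact absurd ⟨u, hu, by rw [hen]; exact Sym2.mem_mk_left u v⟩ hq
    · have hsub : A ⊆ UC ends ω' a := by
        apply G2_sup
        intro u v e hu hv he hen
        apply hkeep e he
        rintro ⟨w, hw, hwe⟩
        rw [hen, Sym2.mem_iff] at hwe
        rcases hwe with rfl | rfl
        · exact (hIA _ hw).1 hu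
        · exact (hIA _ hw).1 hv
      apply Finset.union_subset hsub
      intro v hv
      obtain ⟨x, hx, l, h1, h2, rfl⟩ := (memI v).1 hv
      have hind : ∀ m, i x + m < j x → π x (i x + m) ∈ UC ends ω' a := by
        intro m
        induction m with
        | zero => intro _; exact hsub (hij x hx).2.2.1
        | succ m ih =>
          intro hm
          have h3 := ih (by omega)
          obtain ⟨e, he⟩ := hedge x (i x + m) (by have := (hij x hx).2.1; omega)
          have h4 : P e := ⟨x, hx, i x + m, by omega, by omega, he⟩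
          exact G2_closed h3 (hP1 e h4) he
      have h5 := hind (l - i x) (by omega)
      rwa [show i x + (l - i x) = l by omega] at h5
  -- the new cluster union of b
  have hUb : UC ends ω' b = B := by
    apply Finset.Subset.antisymm
    · apply G2_sub
      · intro y hy
        exact G2_self hy
      · intro u v e hu he hen
        by_cases hp : P e
        · exfalso
          have h3 := hPAI e hp u (by rw [hen]; exact Sym2.mem_mk_left u v)
          rcases Finset.mem_union.1 h3 with h3 | h3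
          · exact Finset.disjoint_left.1 hAB h3 hu
          · exact (hIA _ h3).2 hu
        · by_cases hq : Q e
          · rw [hP2 e hp hq] at he
            exact absurd he (by simp)
          · rw [hP3 e hp hq] at he
            exact G2_closed hu he hen
    · apply G2_sup
      intro u v e hu hv he hen
      apply hkeep e he
      rintro ⟨w, hw, hwe⟩
      rw [hen, Sym2.mem_iff] at hwe
      rcases hwe with rfl | rfl
      · exact (hIA _ hw).2 hu
      · exact (hIA _ hw).2 hv
  refine ⟨ω', ?_, ?_, ?_⟩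
  · intro e he
    apply hP3
    · rintro ⟨x, hx, l, h1, h2, h3⟩
      have := (hij x hx).2.1
      exact he x hx ⟨l, by omega, by rw [h3]; exact Sym2.mem_mk_left _ _⟩
    · rintro ⟨v, hv, hve⟩
      obtain ⟨x, hx, l, h1, h2, rfl⟩ := (memI v).1 hv
      have := (hij x hx).2.1
      exact he x hx ⟨l, by omega, hve⟩
  · intro x hx
    obtain ⟨h1, h2, h3, h4, h5⟩ := hij x hx
    refine ⟨j x - 1, by omega, ?_, ?_⟩
    · rw [hUa]
      by_cases h : j x - 1 = i x
      · rw [h]
        exact Finset.mem_union_left _ h3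
      · exact Finset.mem_union_right _ ((memI _).2 ⟨x, hx, j x - 1, by omega, by omega, rfl⟩)
    · rw [hUb, show j x - 1 + 1 = j x by omega]
      exact h4
  · rw [hUa, hUb]
    have hcard : I.card ≤ (r + 1) * Y.card := by
      rw [hI]
      refine le_trans Finset.card_biUnion_le ?_
      rw [mul_comm, ← smul_eq_mul, ← Finset.sum_const]
      apply Finset.sum_le_sum
      intro x _
      refine le_trans Finset.card_image_le (le_trans (Finset.card_filter_le _ _) ?_)
      rw [Finset.card_range]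
    unfold eb
    have hsub : (Finset.univ.filter (fun e => ∃ x ∈ A ∪ I, ∃ y ∈ B, ends e = s(x, y))) ⊆
        (Finset.univ.filter (fun e => ∃ x ∈ A, ∃ y ∈ B, ends e = s(x, y))) ∪
          I.biUnion (fun v => Finset.univ.filter (fun e => v ∈ ends e)) := by
      intro e he
      rw [Finset.mem_filter] at he
      obtain ⟨-, x, hx, y, hy, hxy⟩ := he
      rw [Finset.mem_union]
      rcases Finset.mem_union.1 hx with hx | hx
      · left
        rw [Finset.mem_filter]
        exact ⟨Finset.mem_univ _, x, hx, y, hy, hxy⟩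
      · right
        rw [Finset.mem_biUnion]
        refine ⟨x, hx, ?_⟩
        rw [Finset.mem_filter]
        exact ⟨Finset.mem_univ _, by rw [hxy]; exact Sym2.mem_mk_left x y⟩
    refine le_trans (Finset.card_le_card hsub) (le_trans (Finset.card_union_le _ _) ?_)
    refine Nat.add_le_add_left ?_ _
    refine le_trans Finset.card_biUnion_le ?_
    calc ∑ v ∈ I, (Finset.univ.filter (fun e => v ∈ ends e)).card ≤ ∑ v ∈ I, D :=
          Finset.sum_le_sum fun v _ => hdeg v
      _ = I.card * D := by rw [Finset.sum_const, smul_eq_mul]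
      _ ≤ (r + 1) * Y.card * D := Nat.mul_le_mul_right D hcard
      _ = D * (r + 1) * Y.card := by ring

/-- The weight changes by a bounded factor. -/
lemma G3_wt {p c : ℝ} (hc0 : 0 < c) (hc1 : c ≤ 1) (hcp : c ≤ p) (hcp' : c ≤ 1 - p)
    (ω ω' : E → Bool) (J : Finset E) (N : ℕ) (hJ : J.card ≤ N) (h : ∀ e, e ∉ J → ω' e = ω e) :
    wt p ω * c ^ N ≤ wt p ω' := by
  have hw : ∀ b : Bool, c ≤ (if b = true then p else 1 - p) ∧ (if b = true then p else 1 - p) ≤ 1 := by
    intro b
    cases b
    · simp only [Bool.false_eq_true, if_false]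
      constructor <;> linarith
    · simp only [if_true]
      constructor <;> linarith
  unfold wt
  rw [← Finset.prod_mul_prod_compl J (fun e => if ω e = true then p else 1 - p),
    ← Finset.prod_mul_prod_compl J (fun e => if ω' e = true then p else 1 - p)]
  have h1 : ∏ e ∈ Jᶜ, (if ω' e = true then p else 1 - p)
      = ∏ e ∈ Jᶜ, (if ω e = true then p else 1 - p) := by
    apply Finset.prod_congr rfl
    intro e he
    rw [h e (Finset.mem_compl.1 he)]
  have h2 : ∏ e ∈ J, (if ω e = true then p else 1 - p) ≤ 1 := by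
    apply Finset.prod_le_one
    · intro e _
      exact hc0.le.trans (hw _).1
    · intro e _
      exact (hw _).2
  have h3 : c ^ N ≤ ∏ e ∈ J, (if ω' e = true then p else 1 - p) := by
    calc c ^ N ≤ c ^ J.card := pow_le_pow_of_le_one hc0.le hc1 hJ
      _ = ∏ _e ∈ J, c := by rw [Finset.prod_const]
      _ ≤ _ := by
        apply Finset.prod_le_prod
        · intro e _
          exact hc0.le
        · intro e _
          exact (hw _).1
  have h4 : 0 ≤ ∏ e ∈ Jᶜ, (if ω e = true then p else 1 - p) := by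
    apply Finset.prod_nonneg
    intro e _
    exact hc0.le.trans (hw _).1
  rw [h1]
  calc (∏ e ∈ J, (if ω e = true then p else 1 - p)) *
        (∏ e ∈ Jᶜ, (if ω e = true then p else 1 - p)) * c ^ N
      ≤ 1 * (∏ e ∈ Jᶜ, (if ω e = true then p else 1 - p)) * c ^ N := by
        apply mul_le_mul_of_nonneg_right _ (pow_nonneg hc0.le _)
        exact mul_le_mul_of_nonneg_right h2 h4
    _ = c ^ N * (∏ e ∈ Jᶜ, (if ω e = true then p else 1 - p)) := by ring
    _ ≤ _ := mul_le_mul_of_nonneg_right h3 h4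

/-- The number of the configurations which agree with a given one outside `J`. -/
lemma G3_cnt (J : Finset E) (N : ℕ) (hJ : J.card ≤ N) (ω' : E → Bool) (W : Finset (E → Bool))
    (hW : ∀ ω ∈ W, ∀ e, e ∉ J → ω' e = ω e) : W.card ≤ 2 ^ N := by
  have h1 : W.card ≤ J.powerset.card := by
    apply Finset.card_le_card_of_injOn (fun ω => J.filter (fun e => ω e = true))
    · intro ω _
      rw [Finset.mem_coe, Finset.mem_powerset]
      exact Finset.filter_subset _ _
    · intro ω hω ω2 hω2 he
      funext e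
      by_cases hJe : e ∈ J
      · have h2 : e ∈ J.filter (fun e => ω e = true) ↔ e ∈ J.filter (fun e => ω2 e = true) := by
          simp only at he
          rw [he]
        rw [Finset.mem_filter, Finset.mem_filter] at h2
        have h3 : ω e = true ↔ ω2 e = true := by
          constructor
          · intro h; exact (h2.1 ⟨hJe, h⟩).2
          · intro h; exact (h2.2 ⟨hJe, h⟩).2
        cases h4 : ω e <;> cases h5 : ω2 e <;> simp_all
      · rw [← hW ω hω e hJe, ← hW ω2 hω2 e hJe]
  rw [Finset.card_powerset] at h1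
  exact h1.trans (Nat.pow_le_pow_right (by norm_num) hJ)

open scoped Classical in
/-- The number of the edges at the paths of `Y`. -/
lemma G3_edges (π : V → ℕ → V) (r D : ℕ)
    (hdeg : ∀ v, (Finset.univ.filter (fun e => v ∈ ends e)).card ≤ D) (Y : Finset V) :
    (Finset.univ.filter (fun e => ∃ x ∈ Y, Inc ends π r x e)).card ≤ D * (r + 1) * Y.card := by
  have hsub : Finset.univ.filter (fun e => ∃ x ∈ Y, Inc ends π r x e) ⊆
      Y.biUnion (fun x => (Finset.range (r + 1)).biUnion
        (fun l => Finset.univ.filter (fun e => π x l ∈ ends e))) := by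
    intro e he
    simp only [Finset.mem_filter, Finset.mem_univ, true_and, Inc] at he
    obtain ⟨x, hx, l, hl, h⟩ := he
    simp only [Finset.mem_biUnion, Finset.mem_range, Finset.mem_filter, Finset.mem_univ, true_and]
    exact ⟨x, hx, l, by omega, h⟩
  calc _ ≤ _ := Finset.card_le_card hsub
    _ ≤ Y.card * ((r + 1) * D) := by
      apply Finset.card_biUnion_le_card_mul
      intro x _
      calc _ ≤ (Finset.range (r + 1)).card * D :=
            Finset.card_biUnion_le_card_mul _ _ _ (fun l _ => hdeg _)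
        _ = _ := by rw [Finset.card_range]
    _ = _ := by ring

open scoped Classical in
/-- The number of the sites whose path uses a contact. -/
lemma G3_sites (π : V → ℕ → V) (r : ℕ)
    (hedge : ∀ x, ∀ l < r, ∃ e, ends e = s(π x l, π x (l + 1)))
    (hcov : ∀ v, (Finset.univ.filter (fun x => ∃ l ≤ r, π x l = v)).card ≤ r + 1)
    (A B : Finset V) (Q : Finset V)
    (hQ : ∀ x ∈ Q, ∃ l < r, π x l ∈ A ∧ π x (l + 1) ∈ B) :
    Q.card ≤ 2 * (r + 1) * eb ends A B := by
  have hsub : Q ⊆
      (Finset.univ.filter (fun e => ∃ x ∈ A, ∃ y ∈ B, ends e = s(x, y))).biUnion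
        (fun e => Finset.univ.filter (fun x => ∃ l ≤ r, π x l ∈ ends e)) := by
    intro x hx
    obtain ⟨l, hl, h1, h2⟩ := hQ x hx
    obtain ⟨e, he⟩ := hedge x l hl
    simp only [Finset.mem_biUnion, Finset.mem_filter, Finset.mem_univ, true_and]
    refine ⟨e, ⟨_, h1, _, h2, he⟩, l, hl.le, ?_⟩
    rw [he]
    exact Sym2.mem_mk_left _ _
  calc Q.card ≤ _ := Finset.card_le_card hsub
    _ ≤ _ * (2 * (r + 1)) := by
      apply Finset.card_biUnion_le_card_mul
      intro e _
      induction h : ends e using Sym2.ind with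
      | _ u v =>
        calc (Finset.univ.filter (fun x => ∃ l ≤ r, π x l ∈ s(u, v))).card
            ≤ (Finset.univ.filter (fun x => ∃ l ≤ r, π x l = u) ∪
                Finset.univ.filter (fun x => ∃ l ≤ r, π x l = v)).card := by
              apply Finset.card_le_card
              intro x hx
              simp only [Finset.mem_filter, Finset.mem_univ, true_and, Sym2.mem_iff] at hx
              obtain ⟨l, hl, h1 | h1⟩ := hx
              · exact Finset.mem_union_left _ (by simpa using ⟨l, hl, h1⟩)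
              · exact Finset.mem_union_right _ (by simpa using ⟨l, hl, h1⟩)
          _ ≤ _ := Finset.card_union_le _ _
          _ ≤ (r + 1) + (r + 1) := Nat.add_le_add (hcov u) (hcov v)
          _ = 2 * (r + 1) := by ring
    _ = _ := by
      unfold eb
      ring

open scoped Classical in
/-- Row G3. The counting for fixed representatives. Let `S` be the set of the configurations of the event. For `ω ∈ S`
`greedy` (with the relation `Cft`, `R x x` holds) gives a conflict free `X' ω` with `M' ≤ |X' ω|`, `M1 ≤ L * M'..`; here we only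
need `hM : M1 ≥ L * M'`, so `|X' ω| ≥ M'`. For every subset `Y` of `X' ω` with `k` elements choose `ω' = F ω Y` by `surgery_one`.
Then `∑_{ω ∈ S} wt p ω * (M'.choose k) ≤ ∑_{(ω,Y)} wt p ω ≤ c ^ (-(D (r+1) k)) ∑_{(ω,Y)} wt p (F ω Y)` (at most `D (r+1) k`
edges are changed, each changes the weight by a factor at least `c = min p (1-p)`), and every `ω'` is `F ω Y` for at most
`2 ^ R * 2 ^ (D (r+1) k)` pairs: `Y` is a subset of `Q = {x | ∃ l < r, π x l ∈ UC ω' a ∧ π x (l+1) ∈ UC ω' b}`, which has at most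
`2 (r+1) eb ≤ R` elements (each edge between the two sets is used by at most `2 (r+1)` sites, by `hcov`), and `ω` is determined
by `ω'`, `Y` and its values at the edges at the paths of `Y`. The sum of all weights is one. -/
lemma surgery_fixed {p c : ℝ} (hc0 : 0 < c) (hc1 : c ≤ 1) (hcp : c ≤ p) (hcp' : c ≤ 1 - p)
    (π : V → ℕ → V) (r D L M' k k1 R : ℕ)
    (hedge : ∀ x, ∀ l < r, ∃ e, ends e = s(π x l, π x (l + 1)))
    (hdeg : ∀ v, (Finset.univ.filter (fun e => v ∈ ends e)).card ≤ D)
    (hconf : ∀ x, (Finset.univ.filter (fun x' => Cft ends π r x x')).card ≤ L)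
    (hcov : ∀ v, (Finset.univ.filter (fun x => ∃ l ≤ r, π x l = v)).card ≤ r + 1)
    (hR : 2 * (r + 1) * (k1 + D * (r + 1) * k) ≤ R) (hL : 1 ≤ L) (a b : Finset V) :
    Ex p (fun ω => if Disjoint (UC ends ω a) (UC ends ω b) ∧
      L * M' ≤ (Finset.univ.filter (fun x => π x 0 ∈ UC ends ω a ∧ π x r ∈ UC ends ω b)).card ∧
      eb ends (UC ends ω a) (UC ends ω b) ≤ k1 then (1 : ℝ) else 0) * (M'.choose k : ℝ) ≤
      (2 / c) ^ (D * (r + 1) * k) * 2 ^ R := by
  have hp0 : 0 < p := lt_of_lt_of_le hc0 hcp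
  have hp1 : p ≤ 1 := by linarith
  have hg : ∀ ω : E → Bool, ∃ X' : Finset V,
      (L * M' ≤ (Finset.univ.filter
        (fun x => π x 0 ∈ UC ends ω a ∧ π x r ∈ UC ends ω b)).card → M' ≤ X'.card) ∧
      (∀ x ∈ X', π x 0 ∈ UC ends ω a ∧ π x r ∈ UC ends ω b) ∧
      (∀ x ∈ X', ∀ y ∈ X', x ≠ y → ¬ Cft ends π r x y) := by
    intro ω
    obtain ⟨Y, h1, h2, h3⟩ := greedy (Cft ends π r)
      (fun x y ⟨l, hl, l', hl', h⟩ => ⟨l', hl', l, hl, by
        rcases h with h | ⟨e, he⟩
        · exact Or.inl h.symm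
        · exact Or.inr ⟨e, by rw [he, Sym2.eq_swap]⟩⟩)
      (fun x => ⟨0, Nat.zero_le _, 0, Nat.zero_le _, Or.inl rfl⟩)
      (Finset.univ.filter (fun x => π x 0 ∈ UC ends ω a ∧ π x r ∈ UC ends ω b)) L
      (fun x _ => (Finset.card_le_card (by
        intro y hy
        simp only [Finset.mem_filter, Finset.mem_univ, true_and] at hy ⊢
        exact hy.2)).trans (hconf x))
    refine ⟨Y, fun h => ?_, fun x hx => ?_, h2⟩
    · exact Nat.le_of_mul_le_mul_left (h.trans h3) (by omega)
    · simpa using h1 hx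
  choose X' hX1 hX2 hX3 using hg
  have hs : ∀ (ω : E → Bool) (Y : Finset V), ∃ ω' : E → Bool,
      (Disjoint (UC ends ω a) (UC ends ω b) → Y ⊆ X' ω →
      (∀ e, (∀ x ∈ Y, ¬ Inc ends π r x e) → ω' e = ω e) ∧
      (∀ x ∈ Y, ∃ l < r, π x l ∈ UC ends ω' a ∧ π x (l + 1) ∈ UC ends ω' b) ∧
      eb ends (UC ends ω' a) (UC ends ω' b) ≤
        eb ends (UC ends ω a) (UC ends ω b) + D * (r + 1) * Y.card) := by
    intro ω Y
    by_cases h1 : Disjoint (UC ends ω a) (UC ends ω b)
    · by_cases h2 : Y ⊆ X' ω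
      · obtain ⟨ω', h⟩ := surgery_one π r D hedge hdeg ω a b Y h1 (fun x hx => hX2 ω x (h2 hx))
          (fun x hx x' hx' => hX3 ω x (h2 hx) x' (h2 hx'))
        exact ⟨ω', fun _ _ => h⟩
      · exact ⟨ω, fun _ h => absurd h h2⟩
    · exact ⟨ω, fun h => absurd h h1⟩
  choose F hF using hs
  obtain ⟨N, hN⟩ : ∃ N, N = D * (r + 1) * k := ⟨_, rfl⟩
  rw [← hN]
  obtain ⟨S, hS⟩ : ∃ S : Finset (E → Bool), ∀ ω, ω ∈ S ↔ (Disjoint (UC ends ω a) (UC ends ω b) ∧
      L * M' ≤ (Finset.univ.filter (fun x => π x 0 ∈ UC ends ω a ∧ π x r ∈ UC ends ω b)).card ∧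
      eb ends (UC ends ω a) (UC ends ω b) ≤ k1) :=
    ⟨Finset.univ.filter (fun ω => Disjoint (UC ends ω a) (UC ends ω b) ∧
      L * M' ≤ (Finset.univ.filter (fun x => π x 0 ∈ UC ends ω a ∧ π x r ∈ UC ends ω b)).card ∧
      eb ends (UC ends ω a) (UC ends ω b) ≤ k1), fun ω => by
        rw [Finset.mem_filter]; exact ⟨fun h => h.2, fun h => ⟨Finset.mem_univ _, h⟩⟩⟩
  have e1 : Ex p (fun ω => if Disjoint (UC ends ω a) (UC ends ω b) ∧
      L * M' ≤ (Finset.univ.filter (fun x => π x 0 ∈ UC ends ω a ∧ π x r ∈ UC ends ω b)).card ∧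
      eb ends (UC ends ω a) (UC ends ω b) ≤ k1 then (1 : ℝ) else 0) = ∑ ω ∈ S, wt p ω := by
    unfold Ex
    rw [← Finset.sum_subset (Finset.subset_univ S)]
    · apply Finset.sum_congr rfl
      intro ω hω
      beta_reduce
      rw [if_pos ((hS ω).1 hω), mul_one]
    · intro ω _ hω
      beta_reduce
      rw [if_neg (fun h => hω ((hS ω).2 h)), mul_zero]
  rw [e1]
  obtain ⟨T, hT⟩ : ∃ T : Finset (Σ _ : E → Bool, Finset V),
      T = S.sigma (fun ω => (X' ω).powersetCard k) := ⟨_, rfl⟩
  have hTm : ∀ t ∈ T, t.1 ∈ S ∧ t.2 ⊆ X' t.1 ∧ t.2.card = k := by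
    intro t ht
    rw [hT, Finset.mem_sigma, Finset.mem_powersetCard] at ht
    exact ⟨ht.1, ht.2.1, ht.2.2⟩
  have e2 : (∑ ω ∈ S, wt p ω) * (M'.choose k : ℝ) ≤ ∑ t ∈ T, wt p t.1 := by
    rw [hT, Finset.sum_sigma, Finset.sum_mul]
    apply Finset.sum_le_sum
    intro ω hω
    simp only [Finset.sum_const, Finset.card_powersetCard, nsmul_eq_mul]
    rw [mul_comm]
    apply mul_le_mul_of_nonneg_right _ (wt_nonneg hp0.le hp1 ω)
    exact_mod_cast Nat.choose_le_choose k (hX1 ω ((hS ω).1 hω).2.1)
  have e3 : ∀ t ∈ T, wt p t.1 ≤ (1 / c) ^ N * wt p (F t.1 t.2) := by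
    intro t ht
    obtain ⟨h1, h2, h3⟩ := hTm t ht
    have h4 := hF t.1 t.2 ((hS _).1 h1).1 h2
    have h5 := G3_wt hc0 hc1 hcp hcp' t.1 (F t.1 t.2)
      (Finset.univ.filter (fun e => ∃ x ∈ t.2, Inc ends π r x e)) N
      ((G3_edges π r D hdeg t.2).trans (by rw [h3, hN]))
      (fun e he => h4.1 e (fun x hx hI => he (by
        rw [Finset.mem_filter]; exact ⟨Finset.mem_univ _, x, hx, hI⟩)))
    have hcN : 0 < c ^ N := pow_pos hc0 N
    rw [div_pow, one_pow, one_div, inv_mul_eq_div, le_div_iff₀ hcN]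
    exact h5
  have e4 : ∀ ω' : E → Bool, (T.filter (fun t => F t.1 t.2 = ω')).card ≤ 2 ^ N * 2 ^ R := by
    intro ω'
    rcases (T.filter (fun t => F t.1 t.2 = ω')).eq_empty_or_nonempty with h0 | ⟨t0, ht0⟩
    · rw [h0, Finset.card_empty]
      exact Nat.zero_le _
    obtain ⟨Q, hQ⟩ : ∃ Q : Finset V, Q = Finset.univ.filter
      (fun x => ∃ l < r, π x l ∈ UC ends ω' a ∧ π x (l + 1) ∈ UC ends ω' b) := ⟨_, rfl⟩
    have hQR : Q.card ≤ R := by
      rw [Finset.mem_filter] at ht0
      obtain ⟨h1, h2, h3⟩ := hTm t0 ht0.1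
      have h4 := (hF t0.1 t0.2 ((hS _).1 h1).1 h2).2.2
      rw [ht0.2, h3] at h4
      have h5 := G3_sites π r hedge hcov (UC ends ω' a) (UC ends ω' b) Q (by
        intro x hx
        rw [hQ, Finset.mem_filter] at hx
        exact hx.2)
      calc Q.card ≤ _ := h5
        _ ≤ 2 * (r + 1) * (k1 + D * (r + 1) * k) := by
          apply Nat.mul_le_mul_left
          exact h4.trans (Nat.add_le_add_right ((hS _).1 h1).2.2 _)
        _ ≤ R := hR
    have h6 : (T.filter (fun t => F t.1 t.2 = ω')).card ≤ 2 ^ N * Q.powerset.card := by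
      apply Finset.card_le_mul_card_image_of_maps_to (f := fun t => t.2)
      · intro t ht
        rw [Finset.mem_filter] at ht
        obtain ⟨h1, h2, h3⟩ := hTm t ht.1
        have h4 := (hF t.1 t.2 ((hS _).1 h1).1 h2).2.1
        rw [ht.2] at h4
        rw [Finset.mem_powerset]
        intro x hx
        rw [hQ, Finset.mem_filter]
        exact ⟨Finset.mem_univ _, h4 x hx⟩
      · intro Y _
        by_cases hY : Y.card = k
        · rw [← Finset.card_image_of_injOn (f := fun t : (Σ _ : E → Bool, Finset V) => t.1)]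
          · apply G3_cnt (Finset.univ.filter (fun e => ∃ x ∈ Y, Inc ends π r x e)) N
              ((G3_edges π r D hdeg Y).trans (by rw [hY, hN])) ω'
            intro ω hω e he
            rw [Finset.mem_image] at hω
            obtain ⟨t, ht, rfl⟩ := hω
            rw [Finset.mem_filter, Finset.mem_filter] at ht
            obtain ⟨⟨ht1, ht2⟩, ht3⟩ := ht
            obtain ⟨h1, h2, h3⟩ := hTm t ht1
            have h4 := (hF t.1 t.2 ((hS _).1 h1).1 h2).1
            rw [ht2, ht3] at h4
            exact h4 e (fun x hx hI => he (by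
              rw [Finset.mem_filter]; exact ⟨Finset.mem_univ _, x, hx, hI⟩))
          · intro t ht t2 ht2 h
            rw [Finset.mem_coe, Finset.mem_filter] at ht ht2
            obtain ⟨ω1, Y1⟩ := t
            obtain ⟨ω2, Y2⟩ := t2
            have h7 : Y1 = Y2 := ht.2.trans ht2.2.symm
            simp only at h
            rw [h, h7]
        · have : (T.filter (fun t => F t.1 t.2 = ω')).filter (fun t => t.2 = Y) = ∅ := by
            apply Finset.filter_eq_empty_iff.2
            intro t ht h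
            rw [Finset.mem_filter] at ht
            exact hY (by rw [← h]; exact (hTm t ht.1).2.2)
          rw [this, Finset.card_empty]
          exact Nat.zero_le _
    calc _ ≤ 2 ^ N * Q.powerset.card := h6
      _ ≤ 2 ^ N * 2 ^ R := by
        rw [Finset.card_powerset]
        exact Nat.mul_le_mul_left _ (Nat.pow_le_pow_right (by norm_num) hQR)
  have e5 : ∑ t ∈ T, wt p (F t.1 t.2) ≤ 2 ^ N * 2 ^ R := by
    rw [← Finset.sum_fiberwise T (fun t => F t.1 t.2) (fun t => wt p (F t.1 t.2))]
    calc ∑ ω' : E → Bool, ∑ t ∈ T.filter (fun t => F t.1 t.2 = ω'), wt p (F t.1 t.2)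
        ≤ ∑ ω' : E → Bool, (2 ^ N * 2 ^ R) * wt p ω' := by
          apply Finset.sum_le_sum
          intro ω' _
          have h1 : ∑ t ∈ T.filter (fun t => F t.1 t.2 = ω'), wt p (F t.1 t.2)
              = ((T.filter (fun t => F t.1 t.2 = ω')).card : ℝ) * wt p ω' := by
            rw [← nsmul_eq_mul, ← Finset.sum_const]
            apply Finset.sum_congr rfl
            intro t ht
            rw [(Finset.mem_filter.1 ht).2]
          rw [h1]
          apply mul_le_mul_of_nonneg_right _ (wt_nonneg hp0.le hp1 ω')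
          exact_mod_cast e4 ω'
      _ = (2 ^ N * 2 ^ R) * 1 := by
        rw [← Finset.mul_sum]
        congr 1
        have h1 := Ex_const (E := E) p 1
        unfold Ex at h1
        simpa using h1
      _ = 2 ^ N * 2 ^ R := mul_one _
  calc (∑ ω ∈ S, wt p ω) * (M'.choose k : ℝ) ≤ ∑ t ∈ T, wt p t.1 := e2
    _ ≤ ∑ t ∈ T, (1 / c) ^ N * wt p (F t.1 t.2) := Finset.sum_le_sum e3
    _ = (1 / c) ^ N * ∑ t ∈ T, wt p (F t.1 t.2) := by rw [Finset.mul_sum]
    _ ≤ (1 / c) ^ N * (2 ^ N * 2 ^ R) := by
      apply mul_le_mul_of_nonneg_left e5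
      positivity
    _ = (2 / c) ^ N * 2 ^ R := by
      rw [div_pow, div_pow, one_pow]
      ring

private lemma G4_choose (n k : ℕ) (hk : 1 ≤ k) (hkn : k ≤ n) :
    ((n : ℝ) / k) ^ k ≤ (n.choose k : ℝ) := by
  have hk0 : (0 : ℝ) < k := by exact_mod_cast hk
  have h1 : (n.choose k : ℝ) = (n.descFactorial k : ℝ) / (k.factorial : ℝ) := by
    rw [Nat.choose_eq_descFactorial_div_factorial, Nat.cast_div (Nat.factorial_dvd_descFactorial n k)]
    exact_mod_cast k.factorial_ne_zero
  have hf : (0 : ℝ) < (k.factorial : ℝ) := by exact_mod_cast k.factorial_pos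
  rw [h1, div_pow, div_le_div_iff₀ (by positivity) hf]
  have h2 : n ^ k * k.factorial ≤ n.descFactorial k * k ^ k := by
    rw [← Nat.descFactorial_self k, Nat.descFactorial_eq_prod_range, Nat.descFactorial_eq_prod_range]
    rw [← Finset.card_range k]
    simp only [Finset.card_range]
    have e1 : n ^ k = ∏ _i ∈ Finset.range k, n := by simp
    have e2 : k ^ k = ∏ _i ∈ Finset.range k, k := by simp
    rw [e1, e2, ← Finset.prod_mul_distrib, ← Finset.prod_mul_distrib]
    refine Finset.prod_le_prod' fun i hi => ?_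
    have hi' : i < k := Finset.mem_range.1 hi
    obtain ⟨m, rfl⟩ := Nat.exists_eq_add_of_lt hi'
    obtain ⟨t, rfl⟩ := Nat.exists_eq_add_of_le hkn
    have a1 : i + m + 1 - i = m + 1 := by omega
    have a2 : i + m + 1 + t - i = m + 1 + t := by omega
    rw [a1, a2]
    nlinarith
  exact_mod_cast h2

private lemma G4_count {V : Type*} [Fintype V] [DecidableEq V] (n0 : ℕ) :
    (Finset.univ.filter (fun a : Finset V => a.card ≤ n0)).card ≤ (Fintype.card V + 1) ^ n0 := by
  classical
  have h : Finset.univ.filter (fun a : Finset V => a.card ≤ n0) ⊆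
      Finset.univ.image (fun f : Fin n0 → Option V => Finset.univ.filter (fun v => ∃ i, f i = some v)) := by
    intro a ha
    rw [Finset.mem_filter] at ha
    rw [Finset.mem_image]
    refine ⟨fun i => a.toList[(i : ℕ)]?, Finset.mem_univ _, ?_⟩
    ext v
    simp only [Finset.mem_filter, Finset.mem_univ, true_and]
    constructor
    · rintro ⟨i, hi⟩
      have := List.mem_of_getElem? hi
      simpa using this
    · intro hv
      have hv' : v ∈ a.toList := by simpa using hv
      obtain ⟨i, hi⟩ := List.mem_iff_getElem?.1 hv'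
      have hlt : i < a.toList.length := by
        by_contra hcon
        rw [List.getElem?_eq_none (by omega)] at hi
        exact absurd hi (by simp)
      rw [Finset.length_toList] at hlt
      exact ⟨⟨i, by omega⟩, hi⟩
  calc _ ≤ _ := Finset.card_le_card h
    _ ≤ _ := Finset.card_image_le
    _ = _ := by simp

open scoped Classical in
/-- Row G4. The union bound over the representatives: there are at most `(|V| + 1) ^ n0` sets with at most `n0` elements
(for example: the image of the maps `Fin n0 → Option V`), and `(M'.choose k) ≥ (M' / k) ^ k` (`Nat.choose` bounds: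
`(n / k) ^ k ≤ n.choose k` for `k ≤ n`). -/
theorem surgery_all {p c : ℝ} (hc0 : 0 < c) (hc1 : c ≤ 1) (hcp : c ≤ p) (hcp' : c ≤ 1 - p)
    (π : V → ℕ → V) (r D L M' k n0 : ℕ) (hL : 1 ≤ L) (hk : 1 ≤ k) (hkM : k ≤ M')
    (hedge : ∀ x, ∀ l < r, ∃ e, ends e = s(π x l, π x (l + 1)))
    (hdeg : ∀ v, (Finset.univ.filter (fun e => v ∈ ends e)).card ≤ D)
    (hconf : ∀ x, (Finset.univ.filter (fun x' => Cft ends π r x x')).card ≤ L)
    (hcov : ∀ v, (Finset.univ.filter (fun x => ∃ l ≤ r, π x l = v)).card ≤ r + 1) :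
    Ex p (fun ω => if ∃ a b : Finset V, a.card ≤ n0 ∧ b.card ≤ n0 ∧
        Disjoint (UC ends ω a) (UC ends ω b) ∧
        L * M' ≤ (Finset.univ.filter (fun x => π x 0 ∈ UC ends ω a ∧ π x r ∈ UC ends ω b)).card ∧
        eb ends (UC ends ω a) (UC ends ω b) ≤ k then (1 : ℝ) else 0) ≤
      ((Fintype.card V : ℝ) + 1) ^ (2 * n0) *
        ((2 / c) ^ (D * (r + 1)) * 2 ^ (2 * (r + 1) * (1 + D * (r + 1))) * ((k : ℝ) / M')) ^ k := by
  have hp0 : 0 ≤ p := hc0.le.trans hcp
  have hp1 : p ≤ 1 := by linarith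
  have hM0 : (0 : ℝ) < M' := by exact_mod_cast (lt_of_lt_of_le (by omega) hkM : 0 < M')
  have hk0 : (0 : ℝ) < k := by exact_mod_cast (by omega : 0 < k)
  set B : ℝ := (2 / c) ^ (D * (r + 1)) * 2 ^ (2 * (r + 1) * (1 + D * (r + 1))) * ((k : ℝ) / M') with hB
  have hB0 : 0 ≤ B := by positivity
  set F : Finset (Finset V) := Finset.univ.filter (fun a : Finset V => a.card ≤ n0) with hF
  let g : Finset V × Finset V → (E → Bool) → ℝ := fun q ω =>
    if Disjoint (UC ends ω q.1) (UC ends ω q.2) ∧
      L * M' ≤ (Finset.univ.filter (fun x => π x 0 ∈ UC ends ω q.1 ∧ π x r ∈ UC ends ω q.2)).card ∧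
      eb ends (UC ends ω q.1) (UC ends ω q.2) ≤ k then (1 : ℝ) else 0
  have hg0 : ∀ q ω, 0 ≤ g q ω := by
    intro q ω
    simp only [g]
    split_ifs
    · exact zero_le_one
    · exact le_rfl
  have hfix : ∀ q, Ex p (g q) ≤ B ^ k := by
    intro q
    have h1 := surgery_fixed (E := E) hc0 hc1 hcp hcp' π r D L M' k k
      (2 * (r + 1) * (k + D * (r + 1) * k)) hedge hdeg hconf hcov le_rfl hL q.1 q.2
    have h2 := G4_choose M' k hk hkM
    have h3 : 0 ≤ Ex p (g q) := Ex_nonneg hp0 hp1 (hg0 q)
    have h4 : Ex p (g q) * ((M' : ℝ) / k) ^ k ≤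
        (2 / c) ^ (D * (r + 1) * k) * 2 ^ (2 * (r + 1) * (k + D * (r + 1) * k)) :=
      (mul_le_mul_of_nonneg_left h2 h3).trans h1
    have h5 : B ^ k * ((M' : ℝ) / k) ^ k =
        (2 / c) ^ (D * (r + 1) * k) * 2 ^ (2 * (r + 1) * (k + D * (r + 1) * k)) := by
      rw [hB, ← mul_pow]
      have e1 : (2 / c) ^ (D * (r + 1)) * 2 ^ (2 * (r + 1) * (1 + D * (r + 1))) * ((k : ℝ) / M') *
          ((M' : ℝ) / k) = (2 / c) ^ (D * (r + 1)) * 2 ^ (2 * (r + 1) * (1 + D * (r + 1))) := by
        field_simp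
      rw [e1, mul_pow, ← pow_mul, ← pow_mul]
      congr 2
      ring
    have h6 : (0 : ℝ) < ((M' : ℝ) / k) ^ k := by positivity
    rw [← h5] at h4
    exact le_of_mul_le_mul_right h4 h6
  have hun : ∀ ω : E → Bool, (if ∃ a b : Finset V, a.card ≤ n0 ∧ b.card ≤ n0 ∧
        Disjoint (UC ends ω a) (UC ends ω b) ∧
        L * M' ≤ (Finset.univ.filter (fun x => π x 0 ∈ UC ends ω a ∧ π x r ∈ UC ends ω b)).card ∧
        eb ends (UC ends ω a) (UC ends ω b) ≤ k then (1 : ℝ) else 0) ≤ ∑ q ∈ F ×ˢ F, g q ω := by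
    intro ω
    split_ifs with h
    · obtain ⟨a, b, ha, hb, hd, hl, he⟩ := h
      have hq : (a, b) ∈ F ×ˢ F := by
        rw [Finset.mem_product]
        exact ⟨Finset.mem_filter.2 ⟨Finset.mem_univ _, ha⟩, Finset.mem_filter.2 ⟨Finset.mem_univ _, hb⟩⟩
      have h1 : g (a, b) ω = 1 := if_pos ⟨hd, hl, he⟩
      rw [← h1]
      exact Finset.single_le_sum (f := fun q => g q ω) (fun q _ => hg0 q ω) hq
    · exact Finset.sum_nonneg fun q _ => hg0 q ω
  refine (Ex_mono hp0 hp1 hun).trans ?_
  rw [Ex_sum]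
  refine (Finset.sum_le_sum fun q _ => hfix q).trans ?_
  rw [Finset.sum_const, nsmul_eq_mul, Finset.card_product]
  have hcount : ((F.card * F.card : ℕ) : ℝ) ≤ ((Fintype.card V : ℝ) + 1) ^ (2 * n0) := by
    have h1 : F.card ≤ (Fintype.card V + 1) ^ n0 := G4_count n0
    have h2 : F.card * F.card ≤ (Fintype.card V + 1) ^ (2 * n0) := by
      rw [two_mul, pow_add]
      exact Nat.mul_le_mul h1 h1
    exact_mod_cast h2
  exact mul_le_mul_of_nonneg_right hcount (pow_nonneg hB0 k)

end Pool.Agent.PERC29
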