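import Pool.Agent.Lib.MP_29e17e_pr.U.Fc
import Pool.Agent.Lib.MP_29e17e_pr.U.Su

set_option autoImplicit false
set_option linter.unusedSectionVars false

/-! Rows 29u-X1, X2, Q1, Q2, P1, P2, Z1, Z2, Z3: contacts and sprinkling. -/

open Finset

namespace Pool.Agent.PERC29

variable {V : Type*} [Fintype V] [DecidableEq V] {E : Type*} [Fintype E] [DecidableEq E]
  {ends : E → Sym2 V}

open scoped Classical in
private lemma X1_dep (ω ω1 ω2 : E → Bool) (Γ : Finset V) (x : V)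
    (h : ∀ e ∈ {e : E | ∃ a b, ends e = s(a, b) ∧ a ∉ Γ ∧ b ∉ Γ}, ω1 e = ω2 e) :
    cl ends (orc ω ω1) ((Γ : Set V)ᶜ) x = cl ends (orc ω ω2) ((Γ : Set V)ᶜ) x := by
  apply cl_dep
  intro e a b h1 h2 h3
  have h4 : ω1 e = ω2 e := h e ⟨a, b, h1, by simpa using h2, by simpa using h3⟩
  simp only [orc, h4]

open scoped Classical in
private lemma X1_term {s : ℝ} (hs0 : 0 ≤ s) (hs1 : s ≤ 1) (ω : E → Bool) (Γ : Finset V) (k : ℕ)
    (h' : ℝ) (x : V) (S : Finset V) :
    Ex s (fun ω' => (if cl ends (orc ω ω') ((Γ : Set V)ᶜ) x = S then (1 : ℝ) else 0) *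
        ((if h' ≤ (S.card : ℝ) ∧ k ≤ eb ends Γ S then (1 : ℝ) else 0) *
        (if ∀ e ∈ Finset.univ.filter (fun e => ∃ u ∈ Γ, ∃ v ∈ S, ends e = s(u, v)),
          ω' e = false then (1 : ℝ) else 0))) ≤
      (1 - s) ^ k * Ex s (fun ω' =>
        (if cl ends (orc ω ω') ((Γ : Set V)ᶜ) x = S then (1 : ℝ) else 0) *
        (if h' ≤ (S.card : ℝ) then (1 : ℝ) else 0)) := by
  have hpow : 0 ≤ (1 - s) ^ k := pow_nonneg (by linarith) k
  by_cases hc : h' ≤ (S.card : ℝ) ∧ k ≤ eb ends Γ S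
  · rw [if_pos hc, if_pos hc.1]
    have e1 : ∀ ω' : E → Bool, (if cl ends (orc ω ω') ((Γ : Set V)ᶜ) x = S then (1 : ℝ) else 0) *
        ((1 : ℝ) * (if ∀ e ∈ Finset.univ.filter (fun e => ∃ u ∈ Γ, ∃ v ∈ S, ends e = s(u, v)),
          ω' e = false then (1 : ℝ) else 0)) =
        (if cl ends (orc ω ω') ((Γ : Set V)ᶜ) x = S then (1 : ℝ) else 0) *
        (if ∀ e ∈ Finset.univ.filter (fun e => ∃ u ∈ Γ, ∃ v ∈ S, ends e = s(u, v)),
          ω' e = false then (1 : ℝ) else 0) := by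
      intro ω'
      rw [one_mul]
    have e2 : ∀ ω' : E → Bool, (if cl ends (orc ω ω') ((Γ : Set V)ᶜ) x = S then (1 : ℝ) else 0) *
        (1 : ℝ) = (if cl ends (orc ω ω') ((Γ : Set V)ᶜ) x = S then (1 : ℝ) else 0) := by
      intro ω'
      rw [mul_one]
    rw [Ex_congr e1, Ex_congr e2]
    rw [Ex_indep s {e : E | ∃ a b, ends e = s(a, b) ∧ a ∉ Γ ∧ b ∉ Γ}
      (fun ω' => if cl ends (orc ω ω') ((Γ : Set V)ᶜ) x = S then (1 : ℝ) else 0)
      (fun ω' => if ∀ e ∈ Finset.univ.filter (fun e => ∃ u ∈ Γ, ∃ v ∈ S, ends e = s(u, v)),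
          ω' e = false then (1 : ℝ) else 0)]
    · rw [Ex_closed, mul_comm]
      apply mul_le_mul_of_nonneg_right
      · apply pow_le_pow_of_le_one (by linarith) (by linarith)
        exact hc.2
      · exact Ex_nonneg hs0 hs1 fun ω' => by split_ifs <;> norm_num
    · intro ω1 ω2 h
      rw [X1_dep ω ω1 ω2 Γ x h]
    · intro ω1 ω2 h
      have key : ∀ ω1 ω2 : E → Bool,
          (∀ e ∉ {e : E | ∃ a b, ends e = s(a, b) ∧ a ∉ Γ ∧ b ∉ Γ}, ω1 e = ω2 e) →
          (∀ e ∈ Finset.univ.filter (fun e => ∃ u ∈ Γ, ∃ v ∈ S, ends e = s(u, v)),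
            ω1 e = false) →
          (∀ e ∈ Finset.univ.filter (fun e => ∃ u ∈ Γ, ∃ v ∈ S, ends e = s(u, v)),
            ω2 e = false) := by
        intro ω1 ω2 h h1 e he
        rw [← h e, h1 e he]
        obtain ⟨-, u, hu, v, hv, huv⟩ := Finset.mem_filter.1 he
        rintro ⟨a, b, h2, h3, h4⟩
        rw [huv] at h2
        rcases Sym2.eq_iff.1 h2 with ⟨rfl, rfl⟩ | ⟨rfl, rfl⟩
        · exact h3 hu
        · exact h4 hu
      exact if_congr ⟨key ω1 ω2 h, key ω2 ω1 (fun e he => (h e he).symm)⟩ rfl rfl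
  · rw [if_neg hc]
    refine le_trans (le_of_eq (Ex_zero_of fun ω' => ?_)) (mul_nonneg hpow (Ex_nonneg hs0 hs1
      fun ω' => ?_))
    · rw [zero_mul, mul_zero]
    · split_ifs <;> norm_num

open scoped Classical in
/-- Row X1. Fix `ω` and `Γ`. Proof. Sum over the values `S` of `cl (orc ω ω') Γᶜ x`. The event that it is equal to `S` depends on
the coordinates of `ω'` at the edges with both ends in `Γᶜ` only (`cl_dep`, `reach_dep`); the event that `ω'` is closed at all edges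
between `Γ` and `S` depends on the other edges if `x ∉ Γ` (then `S ⊆ Γᶜ`); if `x ∈ Γ` then always `S = {x}`. There are
`eb ends Γ S ≥ k` such edges, so its probability is `(1 - s) ^ (eb ends Γ S) ≤ (1 - s) ^ k` (`Ex_indep`, and the probability that
`ω'` vanishes on a finite set `F` of edges is `(1 - s) ^ |F|`; see `union_bound` in `Uni.lean` / `Spr.lean`). -/
lemma sprinkle_cut {s : ℝ} (hs0 : 0 ≤ s) (hs1 : s ≤ 1) (ω : E → Bool) (Γ : Finset V) (k : ℕ)
    (h' : ℝ) (x : V) :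
    Ex s (fun ω' => if h' ≤ ((cl ends (orc ω ω') ((Γ : Set V)ᶜ) x).card : ℝ) ∧
        k ≤ eb ends Γ (cl ends (orc ω ω') ((Γ : Set V)ᶜ) x) ∧
        (∀ e, (∃ u ∈ Γ, ∃ v ∈ cl ends (orc ω ω') ((Γ : Set V)ᶜ) x, ends e = s(u, v)) →
          ω' e = false) then (1 : ℝ) else 0) ≤
      (1 - s) ^ k * Ex s (fun ω' =>
        if h' ≤ ((cl ends (orc ω ω') ((Γ : Set V)ᶜ) x).card : ℝ) then (1 : ℝ) else 0) := by
  have e1 : ∀ ω' : E → Bool, (if h' ≤ ((cl ends (orc ω ω') ((Γ : Set V)ᶜ) x).card : ℝ) ∧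
        k ≤ eb ends Γ (cl ends (orc ω ω') ((Γ : Set V)ᶜ) x) ∧
        (∀ e, (∃ u ∈ Γ, ∃ v ∈ cl ends (orc ω ω') ((Γ : Set V)ᶜ) x, ends e = s(u, v)) →
          ω' e = false) then (1 : ℝ) else 0) =
      ∑ S : Finset V, (if cl ends (orc ω ω') ((Γ : Set V)ᶜ) x = S then (1 : ℝ) else 0) *
        ((if h' ≤ (S.card : ℝ) ∧ k ≤ eb ends Γ S then (1 : ℝ) else 0) *
        (if ∀ e ∈ Finset.univ.filter (fun e => ∃ u ∈ Γ, ∃ v ∈ S, ends e = s(u, v)),
          ω' e = false then (1 : ℝ) else 0)) := by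
    intro ω'
    rw [Finset.sum_eq_single (cl ends (orc ω ω') ((Γ : Set V)ᶜ) x)]
    · rw [if_pos rfl, one_mul]
      by_cases h1 : h' ≤ ((cl ends (orc ω ω') ((Γ : Set V)ᶜ) x).card : ℝ) ∧
        k ≤ eb ends Γ (cl ends (orc ω ω') ((Γ : Set V)ᶜ) x)
      · by_cases h2 : ∀ e, (∃ u ∈ Γ, ∃ v ∈ cl ends (orc ω ω') ((Γ : Set V)ᶜ) x,
            ends e = s(u, v)) → ω' e = false
        · rw [if_pos ⟨h1.1, h1.2, h2⟩, if_pos h1, if_pos, mul_one]
          intro e he
          exact h2 e (Finset.mem_filter.1 he).2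
        · rw [if_neg (fun h => h2 h.2.2), if_pos h1, if_neg, mul_zero]
          intro h3
          exact h2 fun e he => h3 e (Finset.mem_filter.2 ⟨Finset.mem_univ _, he⟩)
      · rw [if_neg (fun h => h1 ⟨h.1, h.2.1⟩), if_neg h1, zero_mul]
    · intro S _ hS
      rw [if_neg (Ne.symm hS), zero_mul]
    · intro h
      exact absurd (Finset.mem_univ _) h
  have e2 : ∀ ω' : E → Bool,
      (if h' ≤ ((cl ends (orc ω ω') ((Γ : Set V)ᶜ) x).card : ℝ) then (1 : ℝ) else 0) =
      ∑ S : Finset V, (if cl ends (orc ω ω') ((Γ : Set V)ᶜ) x = S then (1 : ℝ) else 0) *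
        (if h' ≤ (S.card : ℝ) then (1 : ℝ) else 0) := by
    intro ω'
    rw [Finset.sum_eq_single (cl ends (orc ω ω') ((Γ : Set V)ᶜ) x)]
    · rw [if_pos rfl, one_mul]
    · intro S _ hS
      rw [if_neg (Ne.symm hS), zero_mul]
    · intro h
      exact absurd (Finset.mem_univ _) h
  rw [Ex_congr e1, Ex_congr e2, Ex_sum, Ex_sum, Finset.mul_sum]
  exact Finset.sum_le_sum fun S _ => X1_term hs0 hs1 ω Γ k h' x S

/-- Row X2. -/
lemma eb_symm (A B : Finset V) : eb ends A B = eb ends B A := by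
  classical
  unfold eb
  congr 1
  ext e
  simp only [Finset.mem_filter, Finset.mem_univ, true_and]
  constructor
  · rintro ⟨x, hx, y, hy, h⟩
    exact ⟨y, hy, x, hx, by rw [h, Sym2.eq_swap]⟩
  · rintro ⟨x, hx, y, hy, h⟩
    exact ⟨y, hy, x, hx, by rw [h, Sym2.eq_swap]⟩

/-- Row X2. -/
lemma eb_mono {A A' B B' : Finset V} (hA : A ⊆ A') (hB : B ⊆ B') :
    eb ends A B ≤ eb ends A' B' := by
  classical
  unfold eb
  apply Finset.card_le_card
  intro e he
  simp only [Finset.mem_filter, Finset.mem_univ, true_and] at he ⊢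
  obtain ⟨x, hx, y, hy, h⟩ := he
  exact ⟨x, hA hx, y, hB hy, h⟩

/-- Row X2. `B` is a union of clusters; `∑ x ∈ C, eb A C / |C| = eb A C` for each of them, and every edge between `A` and
`B` is an edge between `A` and a cluster. -/
lemma eb_sum (ω : E → Bool) (A B : Finset V) (hB : ∀ x ∈ B, cu ends ω x ⊆ B) :
    (eb ends A B : ℝ) ≤ ∑ x ∈ B, (eb ends A (cu ends ω x) : ℝ) / cz ends ω x := by
  classical
  have hcz : ∀ x, 0 < cz ends ω x := fun x => by
    unfold cz
    exact_mod_cast Finset.card_pos.2 ⟨x, self_mem_cu ω x⟩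
  have hR : ∑ x ∈ B, (eb ends A (cu ends ω x) : ℝ) / cz ends ω x
      = ∑ e : E, ∑ x ∈ B, (if (∃ u ∈ A, ∃ v ∈ cu ends ω x, ends e = s(u, v)) then
          1 / cz ends ω x else 0) := by
    rw [Finset.sum_comm]
    refine Finset.sum_congr rfl fun x _ => ?_
    unfold eb
    rw [← Finset.sum_filter, Finset.sum_const, nsmul_eq_mul, div_eq_mul_one_div]
  have hL : (eb ends A B : ℝ) = ∑ e : E, (if (∃ u ∈ A, ∃ v ∈ B, ends e = s(u, v)) then
      (1 : ℝ) else 0) := by
    unfold eb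
    rw [Finset.sum_boole]
  rw [hR, hL]
  refine Finset.sum_le_sum fun e _ => ?_
  split_ifs with h
  · obtain ⟨u, hu, v, hv, he⟩ := h
    have h1 : (1 : ℝ) = ∑ x ∈ cu ends ω v, 1 / cz ends ω x := by
      have h2 : ∀ x ∈ cu ends ω v, 1 / cz ends ω x = 1 / cz ends ω v := fun x hx => by
        have h3 := cu_eq hx
        unfold cz
        rw [h3]
      rw [Finset.sum_congr rfl h2, Finset.sum_const, nsmul_eq_mul]
      have h4 : ((cu ends ω v).card : ℝ) = cz ends ω v := rfl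
      rw [h4, mul_one_div_cancel (hcz v).ne']
    calc (1 : ℝ) = ∑ x ∈ cu ends ω v, 1 / cz ends ω x := h1
      _ = ∑ x ∈ cu ends ω v, (if (∃ u ∈ A, ∃ v ∈ cu ends ω x, ends e = s(u, v)) then
          1 / cz ends ω x else 0) := by
          refine Finset.sum_congr rfl fun x hx => ?_
          rw [if_pos ⟨u, hu, v, cu_symm.1 hx, he⟩]
      _ ≤ _ := by
          refine Finset.sum_le_sum_of_subset_of_nonneg (hB v hv) fun x _ _ => ?_
          split_ifs
          · exact (one_div_pos.2 (hcz x)).le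
          · exact le_rfl
  · refine Finset.sum_nonneg fun x _ => ?_
    split_ifs
    · exact (one_div_pos.2 (hcz x)).le
    · exact le_rfl

open scoped Classical in
/-- Contacts: any two disjoint unions of clusters which contain at least `v` vertices of clusters with at least `a` vertices
are joined by more than `k` edges. -/
def Cont (ends : E → Sym2 V) (ω : E → Bool) (a v : ℝ) (k : ℕ) : Prop :=
  ∀ A B : Finset V, (∀ x ∈ A, cu ends ω x ⊆ A) → (∀ x ∈ B, cu ends ω x ⊆ B) → Disjoint A B →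
    v ≤ ((A.filter (fun x => a ≤ cz ends ω x)).card : ℝ) →
    v ≤ ((B.filter (fun x => a ≤ cz ends ω x)).card : ℝ) → k < eb ends A B

private lemma Q1_rep (ω : E → Bool) {a : ℝ} (𝒜 : Finset (Finset V)) (h𝒜 : 𝒜 ⊆ GC ends ω a) :
    ∃ a0 : Finset V, a0.card ≤ 𝒜.card ∧ UC ends ω a0 = 𝒜.biUnion id := by
  classical
  have h1 : ∀ A ∈ 𝒜, ∃ x, cu ends ω x = A := fun A hA => (mem_GC.1 (h𝒜 hA)).1
  refine ⟨𝒜.attach.image (fun A => (h1 A.1 A.2).choose), ?_, ?_⟩
  · exact Finset.card_image_le.trans (le_of_eq Finset.card_attach)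
  · ext y
    unfold UC
    rw [Finset.mem_biUnion, Finset.mem_biUnion]
    constructor
    · rintro ⟨x, hx, hy⟩
      obtain ⟨A, -, rfl⟩ := Finset.mem_image.1 hx
      rw [(h1 A.1 A.2).choose_spec] at hy
      exact ⟨A.1, A.2, hy⟩
    · rintro ⟨A, hA, hy⟩
      refine ⟨(h1 A hA).choose, Finset.mem_image.2 ⟨⟨A, hA⟩, Finset.mem_attach _ _, rfl⟩, ?_⟩
      rw [(h1 A hA).choose_spec]
      exact hy

private lemma Q1_count [AddCommGroup V] (ω : E → Bool) {a : ℝ} (𝒜 ℬ : Finset (Finset V))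
    (h𝒜 : 𝒜 ⊆ GC ends ω a) (hℬ : ℬ ⊆ GC ends ω a) (z : V) :
    ∑ A ∈ 𝒜, ∑ B ∈ ℬ, NK (kz z) A B =
      (((𝒜.biUnion id).filter (fun x => x + z ∈ ℬ.biUnion id)).card : ℝ) +
      (((𝒜.biUnion id).filter (fun x => x - z ∈ ℬ.biUnion id)).card : ℝ) := by
  classical
  have hd1 : Set.PairwiseDisjoint (𝒜 : Set (Finset V)) id := fun A hA B hB hAB =>
    GC_disj (h𝒜 hA) (h𝒜 hB) hAB
  have hd2 : Set.PairwiseDisjoint (ℬ : Set (Finset V)) id := fun A hA B hB hAB =>
    GC_disj (hℬ hA) (hℬ hB) hAB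
  have e1 : ∑ A ∈ 𝒜, ∑ B ∈ ℬ, NK (kz z) A B =
      ∑ x ∈ 𝒜.biUnion id, ∑ y ∈ ℬ.biUnion id, kz z x y := by
    rw [Finset.sum_biUnion hd1]
    refine Finset.sum_congr rfl fun A _ => ?_
    unfold NK
    rw [Finset.sum_comm]
    refine Finset.sum_congr rfl fun x _ => ?_
    rw [Finset.sum_biUnion hd2]
    rfl
  rw [e1, Finset.card_filter, Finset.card_filter]
  push_cast
  rw [← Finset.sum_add_distrib]
  refine Finset.sum_congr rfl fun x _ => ?_
  unfold kz
  rw [Finset.sum_add_distrib, Finset.sum_ite_eq', Finset.sum_ite_eq']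

open scoped Classical in
/-- Row Q1. Proof. For `A`, `B` let `𝒜`, `ℬ` be the clusters in `GC ends ω a` contained in `A`, `B`; `∑ C ∈ 𝒜, |C|` is the number
of `x ∈ A` with `a ≤ cz x`. `∑ ∑ NK (kz z)` is `#{x ∈ ∪𝒜 | x + z ∈ ∪ℬ} + #{x ∈ ∪𝒜 | x - z ∈ ∪ℬ}`, and the second number is
`#{y ∈ ∪ℬ | y + z ∈ ∪𝒜}`. So one of them is at least `L * M'`. Choose one vertex in each cluster of `𝒜`, `ℬ`
(sets `a0`, `b0` with `UC a0 = ∪𝒜`, `UC b0 = ∪ℬ`, at most `n0` elements) and use `hbad` for `(a0, b0)` or `(b0, a0)`;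
`eb_mono`, `eb_symm`. -/
lemma cont_of [AddCommGroup V] (ω : E → Bool) {a v : ℝ} {L M' k n0 : ℕ} (z : V) (π : V → ℕ → V)
    (r : ℕ) (ha : 0 < a) (hπ0 : ∀ x, π x 0 = x) (hπr : ∀ x, π x r = x + z)
    (hnear : ∀ 𝒜 ℬ : Finset (Finset V), 𝒜 ⊆ GC ends ω a → ℬ ⊆ GC ends ω a → Disjoint 𝒜 ℬ →
      v ≤ ∑ A ∈ 𝒜, (A.card : ℝ) → v ≤ ∑ A ∈ ℬ, (A.card : ℝ) →
      2 * ((L : ℝ) * M') ≤ ∑ A ∈ 𝒜, ∑ B ∈ ℬ, NK (kz z) A B)
    (hn0 : (GC ends ω a).card ≤ n0)
    (hbad : ¬ ∃ a0 b0 : Finset V, a0.card ≤ n0 ∧ b0.card ≤ n0 ∧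
        Disjoint (UC ends ω a0) (UC ends ω b0) ∧
        L * M' ≤ (Finset.univ.filter (fun x => π x 0 ∈ UC ends ω a0 ∧
          π x r ∈ UC ends ω b0)).card ∧
        eb ends (UC ends ω a0) (UC ends ω b0) ≤ k) :
    Cont ends ω a v k := by
  intro A B hA hB hAB hvA hvB
  set 𝒜 := (GC ends ω a).filter (fun C => C ⊆ A) with h𝒜d
  set ℬ := (GC ends ω a).filter (fun C => C ⊆ B) with hℬd
  have h𝒜 : 𝒜 ⊆ GC ends ω a := Finset.filter_subset _ _
  have hℬ : ℬ ⊆ GC ends ω a := Finset.filter_subset _ _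
  have hcov : ∀ D : Finset V, (∀ x ∈ D, cu ends ω x ⊆ D) →
      ((D.filter (fun x => a ≤ cz ends ω x)).card : ℝ) ≤
        ∑ C ∈ (GC ends ω a).filter (fun C => C ⊆ D), (C.card : ℝ) := by
    intro D hD
    have h1 : D.filter (fun x => a ≤ cz ends ω x) ⊆
        ((GC ends ω a).filter (fun C => C ⊆ D)).biUnion id := by
      intro x hx
      rw [Finset.mem_filter] at hx
      rw [Finset.mem_biUnion]
      exact ⟨cu ends ω x, Finset.mem_filter.2 ⟨mem_GC.2 ⟨⟨x, rfl⟩, hx.2⟩, hD x hx.1⟩,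
        self_mem_cu ω x⟩
    have h2 := (Finset.card_le_card h1).trans Finset.card_biUnion_le
    exact_mod_cast h2
  have hdisj : Disjoint 𝒜 ℬ := by
    rw [Finset.disjoint_left]
    intro C hC hC'
    obtain ⟨hC1, hC2⟩ := Finset.mem_filter.1 hC
    obtain ⟨-, hC3⟩ := Finset.mem_filter.1 hC'
    obtain ⟨⟨x, rfl⟩, -⟩ := mem_GC.1 hC1
    exact Finset.disjoint_left.1 hAB (hC2 (self_mem_cu ω x)) (hC3 (self_mem_cu ω x))
  have hsum := hnear 𝒜 ℬ h𝒜 hℬ hdisj (hvA.trans (hcov A hA)) (hvB.trans (hcov B hB))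
  rw [Q1_count ω 𝒜 ℬ h𝒜 hℬ z] at hsum
  obtain ⟨a0, ha0, hUa⟩ := Q1_rep ω 𝒜 h𝒜
  obtain ⟨b0, hb0, hUb⟩ := Q1_rep ω ℬ hℬ
  have ha0' : a0.card ≤ n0 := ha0.trans ((Finset.card_le_card h𝒜).trans hn0)
  have hb0' : b0.card ≤ n0 := hb0.trans ((Finset.card_le_card hℬ).trans hn0)
  have hUA : UC ends ω a0 ⊆ A := by
    rw [hUa]
    intro x hx
    obtain ⟨C, hC, hxC⟩ := Finset.mem_biUnion.1 hx
    exact (Finset.mem_filter.1 hC).2 hxC
  have hUB : UC ends ω b0 ⊆ B := by
    rw [hUb]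
    intro x hx
    obtain ⟨C, hC, hxC⟩ := Finset.mem_biUnion.1 hx
    exact (Finset.mem_filter.1 hC).2 hxC
  have hdU : Disjoint (UC ends ω a0) (UC ends ω b0) := Finset.disjoint_of_subset_left hUA
    (Finset.disjoint_of_subset_right hUB hAB)
  rw [← hUa, ← hUb] at hsum
  by_contra hcon
  rw [not_lt] at hcon
  rcases le_or_gt (L * M') ((UC ends ω a0).filter (fun x => x + z ∈ UC ends ω b0)).card with h | h
  · refine hbad ⟨a0, b0, ha0', hb0', hdU, h.trans (Finset.card_le_card fun x hx => ?_),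
      (eb_mono hUA hUB).trans hcon⟩
    rw [Finset.mem_filter] at hx ⊢
    exact ⟨Finset.mem_univ _, by rw [hπ0]; exact hx.1, by rw [hπr]; exact hx.2⟩
  · have h' : L * M' ≤ ((UC ends ω a0).filter (fun x => x - z ∈ UC ends ω b0)).card := by
      by_contra hc
      rw [not_le] at hc
      have h1 : (((UC ends ω a0).filter (fun x => x + z ∈ UC ends ω b0)).card : ℝ) <
          (L : ℝ) * M' := by exact_mod_cast h
      have h2 : (((UC ends ω a0).filter (fun x => x - z ∈ UC ends ω b0)).card : ℝ) <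
          (L : ℝ) * M' := by exact_mod_cast hc
      linarith
    refine hbad ⟨b0, a0, hb0', ha0', hdU.symm, h'.trans ?_, ?_⟩
    · refine Finset.card_le_card_of_injOn (fun x => x - z) (fun x hx => ?_)
        (fun x _ y _ hxy => sub_left_injective hxy)
      have hx' := Finset.mem_filter.1 (Finset.mem_coe.1 hx)
      rw [Finset.mem_coe, Finset.mem_filter]
      refine ⟨Finset.mem_univ _, ?_, ?_⟩
      · rw [hπ0]
        exact hx'.2
      · rw [hπr, sub_add_cancel]
        exact hx'.1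
    · rw [eb_symm]
      exact (eb_mono hUA hUB).trans hcon

open scoped Classical in
/-- Row Q2. Proof. `x' = x + w l - w l'`: at most `(r + 1) ^ 2` values; if an edge joins `x + w l` and `x' + w l'`: at most
`(r + 1) ^ 2 * D` values. -/
lemma conf_le [AddCommGroup V] (w : ℕ → V) (r D : ℕ)
    (hdeg : ∀ v, (Finset.univ.filter (fun e => v ∈ ends e)).card ≤ D) (x : V) :
    (Finset.univ.filter (fun x' => Cft ends (fun x l => x + w l) r x x')).card ≤
      (r + 1) ^ 2 * (D + 1) := by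
  obtain ⟨S, hS⟩ : ∃ S : ℕ × ℕ → Finset V, S = fun p => insert (x + w p.1 - w p.2)
      ((Finset.univ.filter (fun e => x + w p.1 ∈ ends e)).image
        (fun e => (if h : x + w p.1 ∈ ends e then Sym2.Mem.other h else 0) - w p.2)) := ⟨_, rfl⟩
  have hcard : ∀ p ∈ Finset.range (r + 1) ×ˢ Finset.range (r + 1), (S p).card ≤ D + 1 := by
    intro p _
    rw [hS]
    refine (Finset.card_insert_le _ _).trans ?_
    exact Nat.succ_le_succ (Finset.card_image_le.trans (hdeg _))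
  have hsub : Finset.univ.filter (fun x' => Cft ends (fun x l => x + w l) r x x') ⊆
      (Finset.range (r + 1) ×ˢ Finset.range (r + 1)).biUnion S := by
    intro x' hx'
    obtain ⟨l, hl, l', hl', h⟩ := (Finset.mem_filter.1 hx').2
    rw [Finset.mem_biUnion]
    refine ⟨(l, l'), Finset.mem_product.2 ⟨Finset.mem_range.2 (Nat.lt_succ_of_le hl),
      Finset.mem_range.2 (Nat.lt_succ_of_le hl')⟩, ?_⟩
    rw [hS]
    rcases h with h | ⟨e, he⟩
    · refine Finset.mem_insert.2 (Or.inl ?_)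
      simp only at h ⊢
      rw [h, add_sub_cancel_right]
    · refine Finset.mem_insert_of_mem (Finset.mem_image.2 ⟨e, ?_, ?_⟩)
      · refine Finset.mem_filter.2 ⟨Finset.mem_univ _, ?_⟩
        simp only at he ⊢
        rw [he]
        exact Sym2.mem_mk_left _ _
      · have hm : x + w l ∈ ends e := by
          simp only at he
          rw [he]
          exact Sym2.mem_mk_left _ _
        have ho := Sym2.other_spec hm
        have h2 : Sym2.Mem.other hm = x' + w l' := Sym2.congr_right.1 (ho.trans he)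
        simp only
        rw [dif_pos hm, h2, add_sub_cancel_right]
  refine (Finset.card_le_card hsub).trans ((Finset.card_biUnion_le_card_mul _ _ _ hcard).trans ?_)
  rw [Finset.card_product, Finset.card_range, sq]

open scoped Classical in
/-- Row Q2. -/
lemma cov_le [AddCommGroup V] (w : ℕ → V) (r : ℕ) (v : V) :
    (Finset.univ.filter (fun x => ∃ l ≤ r, x + w l = v)).card ≤ r + 1 := by
  have hsub : Finset.univ.filter (fun x => ∃ l ≤ r, x + w l = v) ⊆
      (Finset.range (r + 1)).image (fun l => v - w l) := by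
    intro x hx
    obtain ⟨l, hl, h⟩ := (Finset.mem_filter.1 hx).2
    refine Finset.mem_image.2 ⟨l, Finset.mem_range.2 (Nat.lt_succ_of_le hl), ?_⟩
    rw [← h, add_sub_cancel_right]
  refine (Finset.card_le_card hsub).trans (Finset.card_image_le.trans ?_)
  rw [Finset.card_range]

/-- Row P1. Proof. `cz ω x ≤ 1 + ∑ y, ∑_{edges e = {x,y}} 1[ω e] |cl ω {x}ᶜ y|` and the edge is independent of the
cluster of `y` in `{x}ᶜ`. -/
lemma p_low {p χ W : ℝ} (h0 : 0 ≤ p) (h1 : p ≤ 1) (hdeg : ∀ x, ∑ y, nb ends x y ≤ W)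
    (hχ : ∀ x, Ex p (fun ω => cz ends ω x) = χ) (x : V) : χ ≤ 1 + p * W * χ := by
  classical
  have hχ0 : 0 ≤ χ := by
    rw [← hχ x]
    exact Ex_nonneg h0 h1 fun ω => cz_nonneg ω x
  have hex := exit_ineq (ends := ends) p χ h0 h1 ({x} : Set V) x rfl (fun y => (hχ y).le)
  have hcl : ∀ ω : E → Bool, cl ends ω ({x} : Set V) x = {x} := by
    intro ω
    ext z
    rw [mem_cl, Finset.mem_singleton]
    constructor
    · intro h
      have h2 : z ∈ ({x} : Set V) := Rch.mem' (Set.mem_singleton x) h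
      exact h2
    · rintro rfl
      exact Rch.refl z
  have e1 : Ex p (fun ω => cs ends ω ({x} : Set V) x) = 1 := by
    have h2 : ∀ ω : E → Bool, cs ends ω ({x} : Set V) x = 1 := by
      intro ω
      unfold cs
      rw [hcl ω]
      simp
    rw [Ex_congr h2, Ex_const]
  have e2 : ∑ e, Ex p (fun ω => if Bd ends (cl ends ω ({x} : Set V) x) ({x} : Set V) e
      then (1 : ℝ) else 0) ≤ W := by
    refine le_trans ?_ (hdeg x)
    unfold nb
    rw [Finset.sum_comm]
    refine Finset.sum_le_sum fun e _ => ?_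
    have h2 : ∀ ω : E → Bool, (if Bd ends (cl ends ω ({x} : Set V) x) ({x} : Set V) e
        then (1 : ℝ) else 0) ≤ ∑ y, if ends e = s(x, y) then (1 : ℝ) else 0 := by
      intro ω
      by_cases h : Bd ends (cl ends ω ({x} : Set V) x) ({x} : Set V) e
      · rw [if_pos h]
        obtain ⟨a, b, h2, h3, h4⟩ := h
        rw [hcl ω] at h3
        have ha : a = x := by simpa using h3
        subst ha
        calc (1 : ℝ) = (if ends e = s(a, b) then 1 else 0) := by rw [if_pos h2]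
          _ ≤ _ := Finset.single_le_sum (f := fun y => if ends e = s(a, y) then (1 : ℝ) else 0)
            (fun y _ => by positivity) (Finset.mem_univ b)
      · rw [if_neg h]
        exact Finset.sum_nonneg fun y _ => by positivity
    refine (Ex_mono h0 h1 h2).trans ?_
    rw [Ex_const]
  have h3 : Ex p (fun ω => cs ends ω Set.univ x) = χ := hχ x
  rw [h3, e1] at hex
  calc χ ≤ _ := hex
    _ ≤ 1 + p * χ * W := by
        have := mul_le_mul_of_nonneg_left e2 (mul_nonneg h0 hχ0)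
        linarith
    _ = 1 + p * W * χ := by ring

/-- all edges of a finite set are open -/
lemma P2_open (p : ℝ) (F : Finset E) :
    Ex p (fun ω => ∏ e ∈ F, (if ω e = true then (1 : ℝ) else 0)) = p ^ F.card := by
  classical
  induction F using Finset.induction_on with
  | empty => simp [Ex_const]
  | insert e F he ih =>
    have h1 : ∀ ω : E → Bool, ∏ e' ∈ insert e F, (if ω e' = true then (1 : ℝ) else 0) =
        (if ω e = true then 1 else 0) * ∏ e' ∈ F, (if ω e' = true then (1 : ℝ) else 0) :=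
      fun ω => Finset.prod_insert he
    rw [Ex_congr h1, Ex_coord p e, ih, Finset.card_insert_of_notMem he, pow_succ]
    · ring
    · intro ω ω' h
      refine Finset.prod_congr rfl fun e' he' => ?_
      have : e' ≠ e := fun h' => he (h' ▸ he')
      rw [h e' this]

/-- growing a cluster edge by edge -/
lemma P2_grow (x : V) (n : ℕ) (hn : n ≤ (cu ends (fun _ => true) x).card) :
    ∀ m : ℕ, m + 1 ≤ n → ∃ F : Finset E, F.card ≤ m ∧
      ∀ ω : E → Bool, (∀ e ∈ F, ω e = true) → m + 1 ≤ (cu ends ω x).card := by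
  classical
  intro m
  induction m with
  | zero =>
    intro _
    refine ⟨∅, le_rfl, fun ω _ => ?_⟩
    exact Finset.card_pos.mpr ⟨x, mem_cu.mpr (Rch.refl x)⟩
  | succ m ih =>
    intro hm
    obtain ⟨F, hF1, hF2⟩ := ih (by omega)
    set A := cu ends (fun e => decide (e ∈ F)) x with hA
    have hA1 : m + 1 ≤ A.card := hF2 _ (fun e he => by simpa using he)
    by_cases hA2 : m + 2 ≤ A.card
    · refine ⟨F, by omega, fun ω hω => hA2.trans (Finset.card_le_card ?_)⟩
      intro y hy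
      rw [hA, mem_cu] at hy
      rw [mem_cu]
      exact hy.mono (fun e he => hω e (by simpa using he)) (fun _ h => h)
    · -- some edge leaves `A`
      have h1 : ∃ y ∈ cu ends (fun _ => true) x, y ∉ A := by
        by_contra hcon
        push Not at hcon
        have := Finset.card_le_card hcon
        omega
      obtain ⟨y, hy1, hy2⟩ := h1
      rw [mem_cu] at hy1
      have hx : x ∈ A := mem_cu.mpr (Rch.refl x)
      have h2 : ∃ a b e, a ∈ A ∧ b ∉ A ∧ ends e = s(a, b) := by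
        by_contra hcon
        push Not at hcon
        apply hy2
        clear hy2
        induction hy1 with
        | refl => exact hx
        | tail _ hbc ih2 =>
          obtain ⟨_, _, e, _, h4⟩ := hbc
          by_contra h5
          exact hcon _ _ e ih2 h5 h4
      obtain ⟨a, b, e, ha, hb, he⟩ := h2
      refine ⟨insert e F, (Finset.card_insert_le _ _).trans (by omega), fun ω hω => ?_⟩
      have h3 : insert b A ⊆ cu ends ω x := by
        have h4 : A ⊆ cu ends ω x := by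
          intro z hz
          rw [hA, mem_cu] at hz
          rw [mem_cu]
          exact hz.mono (fun e' he' => hω e' (Finset.mem_insert_of_mem (by simpa using he'))) (fun _ h => h)
        intro z hz
        rcases Finset.mem_insert.mp hz with rfl | hz
        · rw [mem_cu]
          exact Relation.ReflTransGen.tail (mem_cu.mp (h4 ha))
            ⟨Set.mem_univ _, Set.mem_univ _, e, hω e (Finset.mem_insert_self _ _), he⟩
        · exact h4 hz
      have h5 := Finset.card_le_card h3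
      rw [Finset.card_insert_of_notMem hb] at h5
      omega

open scoped Classical in
/-- Row P2. Proof. Some `ω` has `n ≤ cz ω x`, so the configuration with all edges open has. By induction there is a set `F` of at
most `n - 1` edges such that the cluster of `x` in the configuration `F` has at least `n` vertices (if the cluster has fewer than
`n` vertices then some edge leaves it, add this edge). The probability that all edges of `F` are open is `p ^ |F|`. -/
lemma p_up {p : ℝ} (h0 : 0 ≤ p) (h1 : p ≤ 1) (x : V) (n : ℕ) (hn : 1 ≤ n)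
    (hχ : (n : ℝ) ≤ Ex p (fun ω => cz ends ω x)) :
    p ^ (n - 1) ≤ Ex p (fun ω => if (n : ℝ) ≤ cz ends ω x then (1 : ℝ) else 0) := by
  have h2 : n ≤ (cu ends (fun _ => true) x).card := by
    by_contra hcon
    have h3 : ∀ ω : E → Bool, cz ends ω x ≤ (n : ℝ) - 1 := by
      intro ω
      have h4 : (cu ends ω x).card ≤ (cu ends (fun _ => true) x).card := by
        refine Finset.card_le_card fun y hy => ?_
        rw [mem_cu] at hy
        rw [mem_cu]
        exact hy.mono (fun _ _ => rfl) (fun _ h => h)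
      have h5 : (cu ends ω x).card + 1 ≤ n := by omega
      have h6 : ((cu ends ω x).card : ℝ) + 1 ≤ n := by exact_mod_cast h5
      show ((cu ends ω x).card : ℝ) ≤ (n : ℝ) - 1
      linarith
    have h4 := Ex_mono h0 h1 h3
    rw [Ex_const] at h4
    linarith
  obtain ⟨F, hF1, hF2⟩ := P2_grow (ends := ends) x n h2 (n - 1) (by omega)
  calc p ^ (n - 1) ≤ p ^ F.card := pow_le_pow_of_le_one h0 h1 hF1
    _ = Ex p (fun ω => ∏ e ∈ F, (if ω e = true then (1 : ℝ) else 0)) := (P2_open p F).symm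
    _ ≤ Ex p (fun ω => if (n : ℝ) ≤ cz ends ω x then (1 : ℝ) else 0) := by
        refine Ex_mono h0 h1 fun ω => ?_
        by_cases h : ∀ e ∈ F, ω e = true
        · have h5 : n ≤ (cu ends ω x).card := by
            have := hF2 ω h
            omega
          have h6 : (n : ℝ) ≤ cz ends ω x := by
            show (n : ℝ) ≤ ((cu ends ω x).card : ℝ)
            exact_mod_cast h5
          rw [if_pos h6]
          refine Finset.prod_le_one (fun e _ => ?_) (fun e _ => ?_) <;> split_ifs <;> norm_num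
        · push Not at h
          obtain ⟨e, he, hω⟩ := h
          rw [Finset.prod_eq_zero he (if_neg hω)]
          split_ifs <;> norm_num

/-- auxiliary -/
private lemma Z1_pow {g : ℝ} (hg0 : 0 < g) (hg1 : g ≤ 1) (t : ℕ) :
    (t : ℝ) * (1 - g) ^ t ≤ 1 / g := by
  have h1 : 1 + (t : ℝ) * g ≤ (1 + g) ^ t := one_add_mul_le_pow (by linarith) t
  have h2 : (1 + g) ^ t * (1 - g) ^ t ≤ 1 := by
    rw [← mul_pow]
    refine pow_le_one₀ ?_ ?_
    · nlinarith
    · nlinarith [sq_nonneg g]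
  have h3 : 0 ≤ (1 - g) ^ t := pow_nonneg (by linarith) t
  rw [le_div_iff₀ hg0]
  have h4 : (1 + (t : ℝ) * g) * (1 - g) ^ t ≤ (1 + g) ^ t * (1 - g) ^ t :=
    mul_le_mul_of_nonneg_right h1 h3
  nlinarith

/-- auxiliary -/
private lemma Z1_le_one {g : ℝ} (hg1 : g ≤ 1) (ω : E → Bool) (x : V) :
    mg ends g x ω ≤ 1 := by
  have : 0 ≤ (1 - g) ^ (cl ends ω Set.univ x).card := pow_nonneg (by linarith) _
  unfold mg
  linarith

/-- auxiliary -/
private lemma Z1_nonneg {g : ℝ} (hg0 : 0 < g) (hg1 : g ≤ 1) (ω : E → Bool) (x : V) :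
    0 ≤ mg ends g x ω := by
  have : (1 - g) ^ (cl ends ω Set.univ x).card ≤ 1 :=
    pow_le_one₀ (by linarith) (by linarith)
  unfold mg
  linarith

/-- auxiliary -/
private lemma Z1_le_mul {g : ℝ} (hg1 : g ≤ 1) (ω : E → Bool) (x : V) :
    mg ends g x ω ≤ g * cz ends ω x := by
  have h : 1 + ((cl ends ω Set.univ x).card : ℝ) * (-g) ≤
      (1 + (-g)) ^ (cl ends ω Set.univ x).card := one_add_mul_le_pow (by linarith) _
  have e : (1 + (-g) : ℝ) = 1 - g := by ring
  rw [e] at h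
  unfold mg cz cu
  linarith

open scoped Classical in
/-- Row Z1. Proof. `mg g x = 1 - (1 - g) ^ |cu x| ≤ min 1 (g * cz x)`; `t (1 - g) ^ t ≤ 1 / g` for natural `t`. -/
lemma mg_sum (ω : E → Bool) (x0 : V) {g h' : ℝ} (hg0 : 0 < g) (hg1 : g ≤ 1) (hh : 0 ≤ h') :
    cz ends ω x0 - 1 / g ≤ ∑ x, mg ends g x ω ∧
    ∑ x, mg ends g x ω ≤ cz ends ω x0 +
      ((Finset.univ.filter (fun x => x ∉ cu ends ω x0 ∧ h' ≤ cz ends ω x)).card : ℝ) +
      g * ∑ x, min (cz ends ω x) h' := by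
  have hcz : ∀ x, 0 ≤ cz ends ω x := fun x => Nat.cast_nonneg _
  constructor
  · have h1 : ∑ x ∈ cu ends ω x0, mg ends g x ω ≤ ∑ x, mg ends g x ω :=
      Finset.sum_le_sum_of_subset_of_nonneg (Finset.subset_univ _)
        fun x _ _ => Z1_nonneg hg0 hg1 ω x
    have h2 : ∑ x ∈ cu ends ω x0, mg ends g x ω =
        ∑ x ∈ cu ends ω x0, (1 - (1 - g) ^ (cu ends ω x0).card) := by
      refine Finset.sum_congr rfl fun x hx => ?_
      have h3 : cl ends ω Set.univ x = cu ends ω x0 := cu_eq hx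
      unfold mg
      rw [h3]
    rw [h2, Finset.sum_const, nsmul_eq_mul] at h1
    have h4 := Z1_pow hg0 hg1 (cu ends ω x0).card
    have h5 : cz ends ω x0 = ((cu ends ω x0).card : ℝ) := rfl
    rw [h5]
    have h6 : ((cu ends ω x0).card : ℝ) * (1 - (1 - g) ^ (cu ends ω x0).card) =
        ((cu ends ω x0).card : ℝ) - ((cu ends ω x0).card : ℝ) * (1 - g) ^ (cu ends ω x0).card := by
      ring
    rw [h6] at h1
    linarith
  · have hpt : ∀ x, mg ends g x ω ≤ (if x ∈ cu ends ω x0 then (1 : ℝ) else 0) +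
        (if (x ∉ cu ends ω x0 ∧ h' ≤ cz ends ω x) then (1 : ℝ) else 0) +
        g * min (cz ends ω x) h' := by
      intro x
      have hm : 0 ≤ g * min (cz ends ω x) h' := mul_nonneg hg0.le (le_min (hcz x) hh)
      have h1 := Z1_le_one (ends := ends) hg1 ω x
      by_cases hx : x ∈ cu ends ω x0
      · rw [if_pos hx, if_neg (fun h => h.1 hx)]
        linarith
      · by_cases hc : h' ≤ cz ends ω x
        · rw [if_neg hx, if_pos ⟨hx, hc⟩]
          linarith
        · rw [if_neg hx, if_neg (fun h => hc h.2), min_eq_left (le_of_lt (not_le.1 hc))]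
          have h2 := Z1_le_mul (ends := ends) hg1 ω x
          linarith
    calc ∑ x, mg ends g x ω ≤ ∑ x, ((if x ∈ cu ends ω x0 then (1 : ℝ) else 0) +
        (if (x ∉ cu ends ω x0 ∧ h' ≤ cz ends ω x) then (1 : ℝ) else 0) +
        g * min (cz ends ω x) h') := Finset.sum_le_sum fun x _ => hpt x
      _ = _ := by
        rw [Finset.sum_add_distrib, Finset.sum_add_distrib, ← Finset.mul_sum]
        congr 1
        congr 1
        · have h5 : cz ends ω x0 = ((cu ends ω x0).card : ℝ) := rfl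
          rw [h5, Finset.sum_boole]
          congr 2
          ext y
          simp
        · rw [Finset.sum_boole]

open scoped Classical in
/-- Row Z2. Proof. Let `Γ = cu ω1 x0` and `𝒮 = {x | x ∉ cu ω2 x0, h' ≤ cz ω2 x, eb Γ (cu ω2 x) < κ0 * cz ω2 x}`, a union of clusters of
`ω2`, disjoint from `Γ`; by `eb_sum` `eb Γ 𝒮 ≤ κ0 |𝒮| ≤ k`. So by `Cont` (for `A = Γ`, `B = 𝒮`) fewer than `v` vertices of `𝒮` have
`a ≤ cz ω`. -/
lemma outside_le (ω ω1 ω2 : E → Bool) (h01 : ∀ e, ω e = true → ω1 e = true)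
    (h12 : ∀ e, ω1 e = true → ω2 e = true) (x0 : V) {a v h' κ0 : ℝ} {k : ℕ} (hκ0 : 0 ≤ κ0)
    (hC : Cont ends ω a v k)
    (hΓ : v ≤ (((cu ends ω1 x0).filter (fun x => a ≤ cz ends ω x)).card : ℝ))
    (hk : κ0 * ((Finset.univ.filter (fun x => h' ≤ cz ends ω2 x)).card : ℝ) ≤ k) :
    ((Finset.univ.filter (fun x => x ∉ cu ends ω2 x0 ∧ h' ≤ cz ends ω2 x)).card : ℝ) ≤
      ((Finset.univ.filter (fun x => x ∉ cu ends ω2 x0 ∧ h' ≤ cz ends ω2 x ∧
        κ0 * cz ends ω2 x ≤ eb ends (cu ends ω1 x0) (cu ends ω2 x))).card : ℝ) + v +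
      ((Finset.univ.filter (fun x => cz ends ω x < a ∧ h' ≤ cz ends ω2 x)).card : ℝ) := by
  set Γ : Finset V := cu ends ω1 x0 with hΓdef
  set S : Finset V := Finset.univ.filter (fun x => x ∉ cu ends ω2 x0 ∧ h' ≤ cz ends ω2 x ∧
    ¬ (κ0 * cz ends ω2 x ≤ eb ends Γ (cu ends ω2 x))) with hS
  have hmemS : ∀ x, x ∈ S ↔ (x ∉ cu ends ω2 x0 ∧ h' ≤ cz ends ω2 x ∧
      ¬ (κ0 * cz ends ω2 x ≤ eb ends Γ (cu ends ω2 x))) := by
    intro x
    rw [hS, Finset.mem_filter]
    exact ⟨fun h => h.2, fun h => ⟨Finset.mem_univ x, h⟩⟩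
  have hS2 : ∀ x ∈ S, cu ends ω2 x ⊆ S := by
    intro x hx y hy
    have he : cu ends ω2 y = cu ends ω2 x := cu_eq hy
    rw [hmemS] at hx ⊢
    obtain ⟨h1, h2, h3⟩ := hx
    refine ⟨?_, ?_, ?_⟩
    · intro hy0
      apply h1
      have he2 : cu ends ω2 y = cu ends ω2 x0 := cu_eq hy0
      rw [← he2, he]
      exact self_mem_cu ω2 x
    · unfold cz at h2 ⊢
      rw [he]
      exact h2
    · unfold cz at h3 ⊢
      rw [he]
      exact h3
  have h02 : ∀ e, ω e = true → ω2 e = true := fun e he => h12 e (h01 e he)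
  have hS0 : ∀ x ∈ S, cu ends ω x ⊆ S := fun x hx =>
    (cu_mono (ends := ends) (x := x) h02).trans (hS2 x hx)
  have hΓ0 : ∀ x ∈ Γ, cu ends ω x ⊆ Γ := by
    intro x hx
    have he : cu ends ω1 x = cu ends ω1 x0 := cu_eq hx
    rw [hΓdef, ← he]
    exact cu_mono (ends := ends) (x := x) h01
  have hΓ2 : Γ ⊆ cu ends ω2 x0 := cu_mono (ends := ends) (x := x0) h12
  have hdisj : Disjoint Γ S := by
    rw [Finset.disjoint_left]
    intro x hx hxS
    rw [hmemS] at hxS
    exact hxS.1 (hΓ2 hx)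
  have hlt : ((S.filter (fun x => a ≤ cz ends ω x)).card : ℝ) < v := by
    by_contra hcon
    push Not at hcon
    have hk1 := hC Γ S hΓ0 hS0 hdisj hΓ hcon
    have hk2 : (eb ends Γ S : ℝ) ≤ k := by
      refine le_trans (eb_sum ω2 Γ S hS2) (le_trans ?_ hk)
      have h5 : ∑ x ∈ S, (eb ends Γ (cu ends ω2 x) : ℝ) / cz ends ω2 x ≤ ∑ x ∈ S, κ0 := by
        refine Finset.sum_le_sum fun x hx => ?_
        rw [hmemS] at hx
        have hpos : 0 < cz ends ω2 x := lt_of_lt_of_le one_pos (one_le_cz ω2 x)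
        rw [div_le_iff₀ hpos]
        exact (not_le.mp hx.2.2).le
      refine le_trans h5 ?_
      rw [Finset.sum_const, nsmul_eq_mul, mul_comm]
      refine mul_le_mul_of_nonneg_left ?_ hκ0
      have h6 : S.card ≤ (Finset.univ.filter (fun x => h' ≤ cz ends ω2 x)).card := by
        apply Finset.card_le_card
        intro x hx
        rw [hmemS] at hx
        exact Finset.mem_filter.mpr ⟨Finset.mem_univ x, hx.2.1⟩
      exact_mod_cast h6
    have hk3 : (k : ℝ) < (eb ends Γ S : ℝ) := by exact_mod_cast hk1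
    linarith
  have hsub : (Finset.univ.filter (fun x => x ∉ cu ends ω2 x0 ∧ h' ≤ cz ends ω2 x)) ⊆
      ((Finset.univ.filter (fun x => x ∉ cu ends ω2 x0 ∧ h' ≤ cz ends ω2 x ∧
        κ0 * cz ends ω2 x ≤ eb ends Γ (cu ends ω2 x))) ∪ (S.filter (fun x => a ≤ cz ends ω x))) ∪
      (Finset.univ.filter (fun x => cz ends ω x < a ∧ h' ≤ cz ends ω2 x)) := by
    intro x hx
    rw [Finset.mem_filter] at hx
    obtain ⟨-, h1, h2⟩ := hx
    rw [Finset.mem_union, Finset.mem_union]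
    by_cases h3 : κ0 * cz ends ω2 x ≤ eb ends Γ (cu ends ω2 x)
    · exact Or.inl (Or.inl (Finset.mem_filter.mpr ⟨Finset.mem_univ x, h1, h2, h3⟩))
    · by_cases h4 : a ≤ cz ends ω x
      · exact Or.inl (Or.inr (Finset.mem_filter.mpr ⟨(hmemS x).mpr ⟨h1, h2, h3⟩, h4⟩))
      · exact Or.inr (Finset.mem_filter.mpr ⟨Finset.mem_univ x, not_le.mp h4, h2⟩)
  have hcard := (Finset.card_le_card hsub).trans ((Finset.card_union_le _ _).trans
    (Nat.add_le_add_right (Finset.card_union_le _ _) _))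
  have hcard' : ((Finset.univ.filter (fun x => x ∉ cu ends ω2 x0 ∧ h' ≤ cz ends ω2 x)).card : ℝ) ≤
      ((Finset.univ.filter (fun x => x ∉ cu ends ω2 x0 ∧ h' ≤ cz ends ω2 x ∧
        κ0 * cz ends ω2 x ≤ eb ends Γ (cu ends ω2 x))).card : ℝ) +
      ((S.filter (fun x => a ≤ cz ends ω x)).card : ℝ) +
      ((Finset.univ.filter (fun x => cz ends ω x < a ∧ h' ≤ cz ends ω2 x)).card : ℝ) := by
    exact_mod_cast hcard
  linarith

open scoped Classical in
/-- Row Z3. Proof. If `x` is not in `cu ω2 x0` (`ω2 = orc ω1 ω''`, `Γ = cu ω1 x0`) then `cu ω2 x` does not meet `Γ`, so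
`cl ω2 Γᶜ x = cu ω2 x`, and every edge between `Γ` and it is closed in `ω2`, so in `ω''`. Sum `sprinkle_cut` over `x`,
`cl ω2 Γᶜ x ⊆ cu ω2 x`. -/
lemma unjoined_le {s : ℝ} (hs0 : 0 ≤ s) (hs1 : s ≤ 1) (ω1 : E → Bool) (x0 : V) {h' κ0 : ℝ} {k1 : ℕ}
    (hκ0 : 0 ≤ κ0) (hk1 : (k1 : ℝ) ≤ κ0 * h') :
    Ex s (fun ω'' => ((Finset.univ.filter (fun x => x ∉ cu ends (orc ω1 ω'') x0 ∧
        h' ≤ cz ends (orc ω1 ω'') x ∧
        κ0 * cz ends (orc ω1 ω'') x ≤ eb ends (cu ends ω1 x0) (cu ends (orc ω1 ω'') x))).card : ℝ)) ≤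
      (1 - s) ^ k1 * ∑ x, Ex s (fun ω'' => if h' ≤ cz ends (orc ω1 ω'') x then (1 : ℝ) else 0) := by
  set Γ := cu ends ω1 x0 with hΓ
  have hcl : ∀ (w : E → Bool) (x : V), x ∉ cu ends (orc ω1 w) x0 →
      cl ends (orc ω1 w) ((Γ : Set V)ᶜ) x = cu ends (orc ω1 w) x := by
    intro w x hx
    have hsub : ∀ z, Rch ends (orc ω1 w) Set.univ x z → z ∉ Γ := by
      intro z hz hzΓ
      apply hx
      rw [mem_cu]
      have h1 : z ∈ cu ends (orc ω1 w) x0 := cu_mono (orc_left ω1 w) hzΓ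
      exact (mem_cu.1 h1).trans hz.symm
    apply Finset.Subset.antisymm
    · exact cl_mono (fun _ h => h) (Set.subset_univ _)
    · intro z hz
      rw [mem_cu] at hz
      rw [mem_cl]
      induction hz with
      | refl => exact Rch.refl x
      | @tail c d hxc hcd ih =>
        have hxd : Rch ends (orc ω1 w) Set.univ x d := Relation.ReflTransGen.tail hxc hcd
        obtain ⟨-, -, e, h3, h4⟩ := hcd
        exact Relation.ReflTransGen.tail ih ⟨hsub c hxc, hsub d hxd, e, h3, h4⟩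
  have hpt : ∀ w : E → Bool, ((Finset.univ.filter (fun x => x ∉ cu ends (orc ω1 w) x0 ∧
        h' ≤ cz ends (orc ω1 w) x ∧
        κ0 * cz ends (orc ω1 w) x ≤ eb ends Γ (cu ends (orc ω1 w) x))).card : ℝ) ≤
      ∑ x : V, (if h' ≤ ((cl ends (orc ω1 w) ((Γ : Set V)ᶜ) x).card : ℝ) ∧
        k1 ≤ eb ends Γ (cl ends (orc ω1 w) ((Γ : Set V)ᶜ) x) ∧
        (∀ e, (∃ u ∈ Γ, ∃ v ∈ cl ends (orc ω1 w) ((Γ : Set V)ᶜ) x, ends e = s(u, v)) →
          w e = false) then (1 : ℝ) else 0) := by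
    intro w
    rw [Finset.card_filter]
    push_cast
    apply Finset.sum_le_sum
    intro x _
    split_ifs with h1 h2 h2
    · exact le_rfl
    · exfalso
      apply h2
      obtain ⟨ha, hb, hc⟩ := h1
      rw [hcl w x ha]
      refine ⟨hb, ?_, ?_⟩
      · have h3 : (k1 : ℝ) ≤ (eb ends Γ (cu ends (orc ω1 w) x) : ℝ) :=
          hk1.trans ((mul_le_mul_of_nonneg_left hb hκ0).trans hc)
        exact_mod_cast h3
      · rintro e ⟨u, hu, v, hv, he⟩
        by_contra hw
        rw [Bool.not_eq_false] at hw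
        apply ha
        have h3 : orc ω1 w e = true := orc_right ω1 w e hw
        have h4 : u ∈ cu ends (orc ω1 w) x0 := cu_mono (orc_left ω1 w) hu
        rw [mem_cu] at h4 hv ⊢
        have h5 : Rch ends (orc ω1 w) Set.univ u v :=
          Relation.ReflTransGen.single ⟨Set.mem_univ _, Set.mem_univ _, e, h3, he⟩
        exact (h4.trans h5).trans hv.symm
    · exact zero_le_one
    · exact le_rfl
  have h1 := Ex_mono hs0 hs1 hpt
  rw [Ex_sum] at h1
  refine h1.trans ?_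
  rw [Finset.mul_sum]
  apply Finset.sum_le_sum
  intro x _
  refine (sprinkle_cut hs0 hs1 ω1 Γ k1 h' x).trans ?_
  apply mul_le_mul_of_nonneg_left _ (pow_nonneg (by linarith) _)
  apply Ex_mono hs0 hs1
  intro w
  split_ifs with h2 h3 h3
  · exact le_rfl
  · exfalso
    apply h3
    refine h2.trans ?_
    unfold cz
    exact_mod_cast Finset.card_le_card (cl_mono (fun _ h => h) (Set.subset_univ _))
  · exact zero_le_one
  · exact le_rfl

end Pool.Agent.PERC29
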