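import Pool.Agent.Lib.MP_29e17e_pr.U.Gd
import Pool.Agent.Lib.MP_29e17e_pr.U.Sp
import Pool.Agent.Lib.MP_29e17e_pr.U.Lo
import Pool.Agent.Lib.MP_29e17e_pr.Pro

set_option autoImplicit false
set_option linter.unusedSectionVars false

/-! Rows 29u-H1 .. 29u-H12: the bounds at the level `p`. -/

open Finset

namespace Pool.Agent.PERC29

variable {V : Type} [Fintype V] [DecidableEq V] [AddCommGroup V] {E : Type} [Fintype E]
  [DecidableEq E] {ends : E → Sym2 V}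

/-- The hypotheses at the level `p`. -/
structure Hyp (ends : E → Sym2 V) (p χ C K2 δ γ : ℝ) (i : ℕ) (z : V) : Prop where
  h0 : 0 < p
  h1 : p < 1
  hC : 1 ≤ C
  hK2 : 1 ≤ K2
  hχ1 : 1 ≤ χ
  hδ : 0 ≤ δ
  hγ : 0 ≤ γ
  hi : 1 ≤ i
  hinv : ∀ (ψ : ℕ → ℝ) (x y g : V), TK ends ψ p (x + g) (y + g) = TK ends ψ p x y
  hχ : ∀ x, Ex p (fun ω => cz ends ω x) = χ
  hT : ∀ x, ∀ k : ℕ, 1 ≤ k → Ex p (fun ω => if (k : ℝ) ≤ cz ends ω x then (1 : ℝ) else 0) ≤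
    C / Real.sqrt k
  hQ : ∀ n : ℕ, 2 ≤ n → n ≤ 2 * 2 ^ i → cv ends p (2 * n) 0 0 ≤
    C * (χ ^ (n - 2) + χ ^ (2 * n) / (Fintype.card V))
  hS : cv ends p (2 * 2 ^ i) 0 0 ≤ (1 + γ) * χ ^ (2 * 2 ^ i) / (Fintype.card V)
  hO : cv ends p 3 0 z ≤ δ
  hK : ∀ x y, ∑ x', kz z x x' * cv ends p 2 x' y ≤ K2 * cv ends p 2 x y
  ha1 : 36 * C ^ 2 ≤ χ ^ 2
  hV3 : χ ^ 3 ≤ (Fintype.card V)
  hVK : (Fintype.card V) ≤ C * χ ^ (2 ^ i + 2)

/-- The threshold for the large clusters. -/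
noncomputable def al (C χ : ℝ) : ℝ := χ ^ 2 / (36 * C ^ 2)

/-- The mean of the truncated cluster size. -/
noncomputable def cg (ends : E → Sym2 V) (p C χ : ℝ) : ℝ :=
  Ex p (fun ω => Fn (al C χ) (cz ends ω 0))

/-- The threshold for the number of cycles of length `n` at a cluster. -/
noncomputable def vvK (C K2 B χ N : ℝ) (n : ℕ) : ℝ :=
  B * (C * (36 * C ^ 2 * K2) ^ n * (χ + χ ^ (n + 3) / N))

/-- The constant of the two-cycles. -/
noncomputable def cK1 (C K2 : ℝ) : ℝ := C * (36 * C ^ 2 * K2) ^ 2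

/-- Row H1. -/
lemma kz_nonneg (z x y : V) : 0 ≤ kz z x y := by
  unfold kz
  apply add_nonneg
  · split_ifs <;> norm_num
  · split_ifs <;> norm_num

/-- Row H1. -/
lemma kz_symm (z x y : V) : kz z x y = kz z y x := by
  have e1 : (y = x + z) ↔ (x = y - z) := by
    rw [eq_sub_iff_add_eq, eq_comm]
  have e2 : (y = x - z) ↔ (x = y + z) := by
    rw [eq_sub_iff_add_eq, eq_comm]
  unfold kz
  rw [if_congr e1 rfl rfl, if_congr e2 rfl rfl, add_comm]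

/-- Row H1. -/
lemma kz_sum (z x : V) : ∑ y, kz z x y = 2 := by
  unfold kz
  rw [Finset.sum_add_distrib, Finset.sum_ite_eq', Finset.sum_ite_eq', if_pos (Finset.mem_univ _),
    if_pos (Finset.mem_univ _)]
  norm_num

open scoped Classical in
/-- Row H1. `t ≤ cz` if and only if `⌈t⌉₊ ≤ cz`. -/
lemma Hyp.tail {p χ C K2 δ γ : ℝ} {i : ℕ} {z : V} (H : Hyp ends p χ C K2 δ γ i z) (x : V) {t : ℝ}
    (ht : 0 < t) :
    Ex p (fun ω => if t ≤ cz ends ω x then (1 : ℝ) else 0) ≤ C / Real.sqrt t := by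
  have hk : 1 ≤ ⌈t⌉₊ := Nat.one_le_ceil_iff.2 ht
  have h1 : ∀ ω : E → Bool, (if t ≤ cz ends ω x then (1 : ℝ) else 0) =
      (if ((⌈t⌉₊ : ℕ) : ℝ) ≤ cz ends ω x then (1 : ℝ) else 0) := by
    intro ω
    apply if_congr _ rfl rfl
    unfold cz
    rw [Nat.cast_le, Nat.ceil_le]
  rw [Ex_congr h1]
  refine (H.hT x _ hk).trans ?_
  have h2 : Real.sqrt t ≤ Real.sqrt ((⌈t⌉₊ : ℕ) : ℝ) := Real.sqrt_le_sqrt (Nat.le_ceil t)
  exact div_le_div_of_nonneg_left (by linarith [H.hC]) (Real.sqrt_pos.2 ht) h2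

private lemma H2_al_nonneg {p χ C K2 δ γ : ℝ} {i : ℕ} {z : V} (H : Hyp ends p χ C K2 δ γ i z) :
    0 ≤ al C χ := by
  have := H.hC
  unfold al
  positivity

private lemma H2_sum (p a : ℝ) (ha : 0 ≤ a) (x : V) :
    Ex p (fun ω => Fn a (cz ends ω x)) = ∑ y, TK ends (gq a) p x y := by
  classical
  unfold TK
  rw [← Ex_sum]
  refine Ex_congr fun ω => ?_
  rw [← Finset.mul_sum, Finset.sum_ite_mem, Finset.univ_inter, Finset.sum_const, nsmul_eq_mul,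
    mul_one, gq_mul ha]
  rfl

private lemma H2_Fn (a k : ℝ) : Fn a k = k + (-1) * min k a := by
  unfold Fn
  rcases le_total k a with h | h
  · rw [max_eq_right (by linarith), min_eq_left h]; ring
  · rw [max_eq_left (by linarith), min_eq_right h]; ring

/-- Row H2. `Ex Fn a (cz x) = ∑ y, TK (gq a) x y` and `hinv`. -/
lemma Hyp.cgx {p χ C K2 δ γ : ℝ} {i : ℕ} {z : V} (H : Hyp ends p χ C K2 δ γ i z) (x : V) :
    Ex p (fun ω => Fn (al C χ) (cz ends ω x)) = cg ends p C χ := by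
  have ha := H2_al_nonneg H
  unfold cg
  rw [H2_sum p _ ha x, H2_sum p _ ha 0]
  rw [← Equiv.sum_comp (Equiv.addRight x) (fun y => TK ends (gq (al C χ)) p x y)]
  refine Finset.sum_congr rfl fun y _ => ?_
  have h := H.hinv (gq (al C χ)) 0 y x
  rw [zero_add] at h
  exact h

/-- Row H2. `Fn a k = k - min k a` for `0 ≤ k`; `min_tail` and `3 C √a = χ / 2`. -/
lemma Hyp.cg_low {p χ C K2 δ γ : ℝ} {i : ℕ} {z : V} (H : Hyp ends p χ C K2 δ γ i z) :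
    χ / 2 ≤ cg ends p C χ := by
  have hC := H.hC
  have hχ1 := H.hχ1
  have hC0 : 0 < C := by linarith
  have hχ0 : 0 < χ := by linarith
  have ha1 : 1 ≤ al C χ := by
    unfold al
    rw [le_div_iff₀ (by positivity), one_mul]
    exact H.ha1
  have hsq : Real.sqrt (al C χ) = χ / (6 * C) := by
    have e : al C χ = (χ / (6 * C)) ^ 2 := by
      unfold al
      rw [div_pow]
      ring
    rw [e, Real.sqrt_sq (by positivity)]
  have hm := min_tail H.h0.le H.h1.le hC0.le (0 : V) (H.hT 0) ha1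
  rw [hsq] at hm
  have e2 : 3 * C * (χ / (6 * C)) = χ / 2 := by
    field_simp
    ring
  rw [e2] at hm
  have e3 : cg ends p C χ = χ + (-1) * Ex p (fun ω => min (cz ends ω 0) (al C χ)) := by
    unfold cg
    rw [← H.hχ 0, ← Ex_mul_left, ← Ex_add]
    exact Ex_congr fun ω => H2_Fn _ _
  rw [e3]
  linarith

/-- Row H2. -/
lemma Hyp.cg_up {p χ C K2 δ γ : ℝ} {i : ℕ} {z : V} (H : Hyp ends p χ C K2 δ γ i z) :
    cg ends p C χ ≤ χ := by
  have ha := H2_al_nonneg H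
  have key : cg ends p C χ ≤ Ex p (fun ω => cz ends ω 0) := by
    unfold cg
    refine Ex_mono H.h0.le H.h1.le fun ω => ?_
    unfold Fn
    exact max_le (by linarith) (cz_nonneg ω 0)
  rw [H.hχ 0] at key
  exact key

private lemma H3_pth {κ : V → V → ℝ} {φ : ℕ → ℝ} {ω : E → Bool} {a : ℝ}
    (hφ : ∀ A ∈ GC ends ω a, φ A.card = 1) (n : ℕ) :
    ∀ (S : Finset (Finset V)) (A B : Finset V), S ⊆ GC ends ω a → B ∈ GC ends ω a →
      pth (NK κ) n S A B = pth (fun A B => NK κ A B * φ B.card) n S A B := by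
  induction n with
  | zero =>
    intro S A B _ hB
    change NK κ A B = NK κ A B * φ B.card
    rw [hφ B hB, mul_one]
  | succ n ih =>
    intro S A B hS hB
    change ∑ D ∈ S, NK κ A D * pth (NK κ) n (S.erase D) D B =
      ∑ D ∈ S, (NK κ A D * φ D.card) * pth (fun A B => NK κ A B * φ B.card) n (S.erase D) D B
    refine Finset.sum_congr rfl fun D hD => ?_
    rw [hφ D (hS hD), mul_one, ih (S.erase D) D B ((Finset.erase_subset _ _).trans hS) hB]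

/-- Row H3. Proof. On `GC ω a` the kernels `NK κ A B` and `NK κ A B * φ |B|`, `φ k = if a ≤ k then 1 else 0`, have the same
paths. `cycK_mean`, `HK_crude` with `t = χ / a` (`TK_le`), `r = K2`; `cv p n x x = cv p n 0 0` (`cv_cp`); `hQ` with
`n = l + 1`; `χ / a = 36 C² / χ`. (`ta = TK 1`, up to a coercion.) -/
lemma Hyp.cc {p χ C K2 δ γ : ℝ} {i : ℕ} {z : V} (H : Hyp ends p χ C K2 δ γ i z) (l : ℕ) (hl : 1 ≤ l)
    (hl2 : l + 1 ≤ 2 * 2 ^ i) :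
    Ex p (fun ω => ccK ends (kz z) ω (al C χ) l) ≤
      C * (36 * C ^ 2 * K2) ^ (l + 1) * ((Fintype.card V) / χ ^ 2 + χ ^ (l + 1)) := by
  classical
  have hχ0 : 0 < χ := lt_of_lt_of_le one_pos H.hχ1
  have hC0 : 0 < C := lt_of_lt_of_le one_pos H.hC
  have hK0 : 0 ≤ K2 := le_trans zero_le_one H.hK2
  have ha : 0 < al C χ := by
    unfold al
    positivity
  have hV : (0 : ℝ) < (Fintype.card V) := by
    exact_mod_cast Fintype.card_pos_iff.2 ⟨(0 : V)⟩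
  have hκ : ∀ x y, 0 ≤ kz z x y := by
    intro x y
    unfold kz
    split_ifs <;> norm_num
  obtain ⟨φ, hφ⟩ : ∃ φ : ℕ → ℝ, φ = (fun k : ℕ => if al C χ ≤ (k : ℝ) then (1 : ℝ) else 0) :=
    ⟨fun k : ℕ => if al C χ ≤ (k : ℝ) then (1 : ℝ) else 0, rfl⟩
  have hφ0 : ∀ k, 0 ≤ φ k := by
    intro k
    rw [hφ]
    simp only
    split_ifs <;> norm_num
  have hφm : Monotone φ := by
    intro k m hkm
    rw [hφ]
    simp only
    by_cases h1 : al C χ ≤ (k : ℝ)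
    · have h2 : al C χ ≤ (m : ℝ) := h1.trans (by exact_mod_cast hkm)
      rw [if_pos h1, if_pos h2]
    · rw [if_neg h1]
      split_ifs <;> norm_num
  have hφa : ∀ k : ℕ, φ k ≤ k / al C χ := by
    intro k
    rw [hφ]
    simp only
    split_ifs with h1
    · rw [le_div_iff₀ ha, one_mul]
      exact h1
    · exact div_nonneg (Nat.cast_nonneg _) ha.le
  have hφ1 : ∀ ω : E → Bool, ∀ A ∈ GC ends ω (al C χ), φ A.card = 1 := by
    intro ω A hA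
    rw [hφ]
    simp only
    rw [if_pos (mem_GC.1 hA).2]
  have e1 : Ex p (fun ω => ccK ends (kz z) ω (al C χ) l) =
      Ex p (fun ω => ∑ A ∈ GC ends ω (al C χ), pth (fun A B => NK (kz z) A B * φ B.card) l
        ((GC ends ω (al C χ)).erase A) A A) := by
    apply Ex_congr
    intro ω
    unfold ccK
    refine Finset.sum_congr rfl fun A hA => ?_
    exact H3_pth (hφ1 ω) l _ A A (Finset.erase_subset _ _) hA
  have e2 := cycK_mean (ends := ends) (κ := kz z) (φ := φ) H.h0.le H.h1.le hκ hφ0 hφm (al C χ) l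
  have hTK0 : ∀ x y, 0 ≤ TK ends φ p x y := by
    intro x y
    unfold TK
    exact Ex_nonneg H.h0.le H.h1.le fun ω => mul_nonneg (hφ0 _) (by split_ifs <;> norm_num)
  have e3 := HK_crude (ends := ends) (κ := kz z) (φ := φ) (t := χ / al C χ) (r := K2) H.h0.le H.h1.le
    hκ (div_nonneg hχ0.le ha.le) hK0 hTK0 (TK_le H.h0.le H.h1.le ha H.hχ hφa) H.hK l
  have hta : ∀ x y, ta ends p x y = TK ends (fun _ => 1) p x y := by
    intro x y
    unfold ta TK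
    apply Ex_congr
    intro ω
    rw [one_mul]
  have hinv : ∀ x y g : V, ta ends p (x + g) (y + g) = ta ends p x y := by
    intro x y g
    rw [hta, hta]
    exact H.hinv (fun _ => 1) x y g
  have e4 : ∀ x, cv ends p (2 * (l + 1)) x x = cv ends p (2 * (l + 1)) 0 0 := by
    intro x
    rw [cv_cp hinv, cv_cp hinv, sub_self, sub_self]
  have e5 : ∑ x, cv ends p (2 * (l + 1)) x x =
      (Fintype.card V) * cv ends p (2 * (l + 1)) 0 0 := by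
    rw [Finset.sum_congr rfl fun x _ => e4 x, Finset.sum_const, Finset.card_univ, nsmul_eq_mul]
  have e6 := H.hQ (l + 1) (by omega) hl2
  rw [e5] at e3
  rw [e1]
  refine e2.trans (e3.trans ?_)
  have hq0 : 0 ≤ (χ / al C χ * K2) ^ (l + 1) := by positivity
  have e7 : (χ / al C χ * K2) ^ (l + 1) * ((Fintype.card V) * cv ends p (2 * (l + 1)) 0 0) ≤
      (χ / al C χ * K2) ^ (l + 1) * ((Fintype.card V) *
        (C * (χ ^ (l + 1 - 2) + χ ^ (2 * (l + 1)) / (Fintype.card V)))) :=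
    mul_le_mul_of_nonneg_left (mul_le_mul_of_nonneg_left e6 hV.le) hq0
  refine e7.trans (le_of_eq ?_)
  obtain ⟨m, rfl⟩ : ∃ m, l = m + 1 := ⟨l - 1, by omega⟩
  have e8 : χ / al C χ * K2 = (36 * C ^ 2 * K2) / χ := by
    unfold al
    field_simp
  have e9 : m + 1 + 1 - 2 = m := by omega
  rw [e8, e9, div_pow]
  have e10 : χ ^ (2 * (m + 1 + 1)) = χ ^ (m + 1 + 1) * χ ^ (m + 1 + 1) := by
    rw [← pow_add]
    congr 1
    ring
  have e11 : χ ^ (m + 1 + 1) = χ ^ m * χ ^ 2 := by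
    rw [← pow_add]
  rw [e10]
  have hm : χ ^ m ≠ 0 := (pow_pos hχ0 m).ne'
  have hm2 : χ ^ (m + 1 + 1) ≠ 0 := (pow_pos hχ0 _).ne'
  have hV' : ((Fintype.card V : ℕ) : ℝ) ≠ 0 := hV.ne'
  have e12 : (Fintype.card V : ℝ) * (C * (χ ^ m + χ ^ (m + 1 + 1) * χ ^ (m + 1 + 1) / (Fintype.card V))) =
      C * (χ ^ (m + 1 + 1) * ((Fintype.card V) / χ ^ 2 + χ ^ (m + 1 + 1))) := by
    have h1 : (Fintype.card V : ℝ) * (C * (χ ^ m + χ ^ (m + 1 + 1) * χ ^ (m + 1 + 1) / (Fintype.card V))) =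
        C * ((Fintype.card V) * χ ^ m + χ ^ (m + 1 + 1) * χ ^ (m + 1 + 1)) := by
      field_simp
    have h2 : χ ^ (m + 1 + 1) * ((Fintype.card V : ℝ) / χ ^ 2) = (Fintype.card V) * χ ^ m := by
      rw [e11]
      field_simp
    rw [h1, mul_add (χ ^ (m + 1 + 1)), h2]
  rw [e12]
  field_simp

private lemma H4_al_pos {C χ : ℝ} (hC : 1 ≤ C) (hχ : 1 ≤ χ) : 0 < al C χ := by
  unfold al
  positivity

private lemma H4_sqrt_al {C χ : ℝ} (hC : 1 ≤ C) (hχ : 1 ≤ χ) :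
    Real.sqrt (al C χ) = χ / (6 * C) := by
  have h : al C χ = (χ / (6 * C)) ^ 2 := by
    unfold al
    field_simp
    norm_num
  rw [h, Real.sqrt_sq]
  positivity

private lemma H4_card_pos : (0 : ℝ) < (Fintype.card V) := by
  have : 0 < Fintype.card V := Fintype.card_pos_iff.2 ⟨0⟩
  exact_mod_cast this

open scoped Classical in
private lemma H4_GC (ω : E → Bool) (a : ℝ) :
    a * ((GC ends ω a).card : ℝ) ≤ ∑ x, if a ≤ cz ends ω x then (1 : ℝ) else 0 := by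
  have e1 := GC_sum (ends := ends) ω a (fun _ _ => (1 : ℝ))
  rw [← e1]
  have e2 : a * ((GC ends ω a).card : ℝ) = ∑ A ∈ GC ends ω a, a := by
    rw [Finset.sum_const, nsmul_eq_mul, mul_comm]
  rw [e2]
  refine Finset.sum_le_sum fun A hA => ?_
  have h2 : a ≤ (A.card : ℝ) := by
    unfold GC at hA
    exact (Finset.mem_filter.1 hA).2
  simpa using h2

/-- Row H4. `|GC| = ∑ x, 1[a ≤ cz x] / cz x ≤ (1 / a) ∑ x, 1[a ≤ cz x]` (`GC_sum`). -/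
lemma Hyp.ng {p χ C K2 δ γ : ℝ} {i : ℕ} {z : V} (H : Hyp ends p χ C K2 δ γ i z) :
    Ex p (fun ω => ((GC ends ω (al C χ)).card : ℝ)) ≤ 216 * C ^ 4 * (Fintype.card V) / χ ^ 3 := by
  classical
  have ha : 0 < al C χ := H4_al_pos H.hC H.hχ1
  have hC0 : 0 < C := lt_of_lt_of_le one_pos H.hC
  have hχ0 : 0 < χ := lt_of_lt_of_le one_pos H.hχ1
  have h1 : al C χ * Ex p (fun ω => ((GC ends ω (al C χ)).card : ℝ)) ≤
      (Fintype.card V) * (C / Real.sqrt (al C χ)) := by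
    rw [← Ex_mul_left]
    calc Ex p (fun ω => al C χ * ((GC ends ω (al C χ)).card : ℝ)) ≤
        Ex p (fun ω => ∑ x, if al C χ ≤ cz ends ω x then (1 : ℝ) else 0) :=
          Ex_mono H.h0.le H.h1.le fun ω => H4_GC ω (al C χ)
      _ = ∑ x, Ex p (fun ω => if al C χ ≤ cz ends ω x then (1 : ℝ) else 0) := Ex_sum _ _ _
      _ ≤ ∑ _x : V, C / Real.sqrt (al C χ) := Finset.sum_le_sum fun x _ => H.tail x ha
      _ = (Fintype.card V) * (C / Real.sqrt (al C χ)) := by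
          rw [Finset.sum_const, nsmul_eq_mul, Finset.card_univ]
  rw [H4_sqrt_al H.hC H.hχ1] at h1
  have h2 : (Fintype.card V : ℝ) * (C / (χ / (6 * C))) =
      al C χ * (216 * C ^ 4 * (Fintype.card V) / χ ^ 3) := by
    unfold al
    field_simp
    norm_num
  rw [h2] at h1
  exact le_of_mul_le_mul_left h1 ha

/-- Row H5. The mean of the trace. `trace_up`, `cycK_mean`, `HK_sharp` (with `φ = gq a`, `c = cg`; `hS`),
`Hyp.ng`. -/
lemma Hyp.tr {p χ C K2 δ γ : ℝ} {i : ℕ} {z : V} (H : Hyp ends p χ C K2 δ γ i z) (b : ℝ)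
    (v u : ℕ → ℝ) (hu0 : u 0 = 1) (hu : ∀ n, 0 ≤ u n) (hmul : ∀ l m, u l * u m ≤ u (l + m))
    (hvu : ∀ l, 2 ≤ l → v l ≤ u l) :
    Ex p (fun ω => ∑ A ∈ gs ends (kz z) ω (al C χ) b v (2 * 2 ^ i - 1),
      UU (MK (kz z) (al C χ)) (gs ends (kz z) ω (al C χ) b v (2 * 2 ^ i - 1)) (2 * 2 ^ i) A A) ≤
      (2 * cg ends p C χ) ^ (2 * 2 ^ i) + 4 ^ (2 ^ i) * (γ * χ ^ (2 * 2 ^ i)) +
      216 * C ^ 4 * (Fintype.card V) / χ ^ 3 * (k2 (2 * 2 ^ i - 1) *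
        ∑ j ∈ Finset.range (2 * 2 ^ i - 1), u (2 * 2 ^ i - 1 - j) * u (j + 1)) := by
  have hχ0 : (0 : ℝ) < χ := lt_of_lt_of_le one_pos H.hχ1
  have hC0 : (0 : ℝ) < C := lt_of_lt_of_le one_pos H.hC
  have hV : (0 : ℝ) < (Fintype.card V) := by
    have : Nonempty V := ⟨0⟩
    exact_mod_cast Fintype.card_pos
  have ha : 0 < al C χ := by
    unfold al
    positivity
  have h0 : 0 ≤ p := H.h0.le
  have h1 : p ≤ 1 := H.h1.le
  have hm : 1 ≤ 2 ^ i := Nat.one_le_two_pow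
  have hκ : ∀ x y, 0 ≤ kz z x y := kz_nonneg z
  set K : ℝ := k2 (2 * 2 ^ i - 1) *
        ∑ j ∈ Finset.range (2 * 2 ^ i - 1), u (2 * 2 ^ i - 1 - j) * u (j + 1) with hK
  have hK0 : 0 ≤ K := mul_nonneg (k2_nonneg _)
    (Finset.sum_nonneg fun j _ => mul_nonneg (hu _) (hu _))
  have e1 : Ex p (fun ω => ∑ A ∈ gs ends (kz z) ω (al C χ) b v (2 * 2 ^ i - 1),
      UU (MK (kz z) (al C χ)) (gs ends (kz z) ω (al C χ) b v (2 * 2 ^ i - 1)) (2 * 2 ^ i) A A) ≤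
      Ex p (fun ω => ∑ A ∈ GC ends ω (al C χ), pth (fun A B => NK (kz z) A B * gq (al C χ) B.card)
        (2 * 2 ^ i - 1) ((GC ends ω (al C χ)).erase A) A A +
        K * ((GC ends ω (al C χ)).card : ℝ)) := by
    refine Ex_mono h0 h1 fun ω => ?_
    have h := trace_up (ends := ends) hκ ω (b := b) ha v u hu0 hu hmul (2 ^ i) hm hvu
    rw [mul_comm K]
    exact h
  rw [Ex_add, Ex_mul_left] at e1
  have e2 := cycK_mean (ends := ends) (φ := gq (al C χ)) h0 h1 hκ (gq_nonneg _) (gq_mono ha.le)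
    (al C χ) (2 * 2 ^ i - 1)
  have hc : Ex p (fun ω => gq (al C χ) (cu ends ω 0).card * cz ends ω 0) = cg ends p C χ := by
    unfold cg
    refine Ex_congr fun ω => ?_
    exact gq_mul ha.le (cu ends ω 0).card
  have e3 := HK_sharp (ends := ends) (φ := gq (al C χ)) (c := cg ends p C χ) h0 h1 z (2 ^ i) hm
    (gq_nonneg _) (gq_le_one ha.le) H.hinv (H.hχ 0) hc
  have e4 : (Fintype.card V : ℝ) * cv ends p (2 * 2 ^ i) 0 0 - χ ^ (2 * 2 ^ i) ≤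
      γ * χ ^ (2 * 2 ^ i) := by
    have h := mul_le_mul_of_nonneg_left H.hS hV.le
    have h' : (Fintype.card V : ℝ) * ((1 + γ) * χ ^ (2 * 2 ^ i) / (Fintype.card V)) =
        (1 + γ) * χ ^ (2 * 2 ^ i) := by
      field_simp
    rw [h'] at h
    linarith
  have e5 : (4 : ℝ) ^ (2 ^ i) * ((Fintype.card V : ℝ) * cv ends p (2 * 2 ^ i) 0 0 -
      χ ^ (2 * 2 ^ i)) ≤ 4 ^ (2 ^ i) * (γ * χ ^ (2 * 2 ^ i)) :=
    mul_le_mul_of_nonneg_left e4 (by positivity)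
  have e6 := mul_le_mul_of_nonneg_left H.ng hK0
  calc _ ≤ _ := e1
    _ ≤ ((2 * cg ends p C χ) ^ (2 * 2 ^ i) + 4 ^ (2 ^ i) * (γ * χ ^ (2 * 2 ^ i))) +
        K * (216 * C ^ 4 * (Fintype.card V) / χ ^ 3) := by
        refine add_le_add ?_ e6
        exact e2.trans (e3.trans (by linarith))
    _ = _ := by ring

private lemma H6_cp_even {h : V → ℝ} (hh : ∀ x, h (-x) = h x) (n : ℕ) (x : V) :
    cp h n (-x) = cp h n x := by
  induction n generalizing x with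
  | zero => simp [cp]
  | succ n ih =>
    unfold cp
    rw [← Equiv.sum_comp (Equiv.neg V) (fun y => cp h n y * h (-x - y))]
    refine Finset.sum_congr rfl fun y _ => ?_
    simp only [Equiv.neg_apply]
    rw [ih y, ← hh (x - y)]
    congr 2
    abel

private lemma H6_ta_inv {p χ C K2 δ γ : ℝ} {i : ℕ} {z : V} (H : Hyp ends p χ C K2 δ γ i z)
    (x y g : V) : ta ends p (x + g) (y + g) = ta ends p x y := by
  have h := H.hinv (fun _ => 1) x y g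
  simpa only [TK, ta, one_mul] using h

private lemma H6_ta_symm (p : ℝ) (x y : V) : ta ends p x y = ta ends p y x := by
  unfold ta
  congr 1
  funext ω
  by_cases h : y ∈ cu ends ω x
  · rw [if_pos h, if_pos (cu_symm.1 h)]
  · rw [if_neg h, if_neg (fun h' => h (cu_symm.1 h'))]

private lemma H6_cv {p χ C K2 δ γ : ℝ} {i : ℕ} {z : V} (H : Hyp ends p χ C K2 δ γ i z) (x y : V)
    (hy : y = x + z ∨ y = x - z) : cv ends p 3 x y ≤ δ := by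
  have hev : ∀ x : V, ta ends p 0 (-x) = ta ends p 0 x := by
    intro x
    have h := H6_ta_inv H 0 (-x) x
    rw [zero_add, neg_add_cancel] at h
    rw [← h, H6_ta_symm]
  have h0 : cv ends p 3 0 z = cp (fun x => ta ends p 0 x) 3 z := by
    rw [cv_cp (H6_ta_inv H), sub_zero]
  have h1 := H.hO
  rw [h0] at h1
  rw [cv_cp (H6_ta_inv H)]
  rcases hy with hy | hy
  · rw [hy, add_sub_cancel_left]
    exact h1
  · have h2 : y - x = -z := by rw [hy]; abel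
    rw [h2, H6_cp_even hev]
    exact h1

/-- Row H6. `Xk_mean` (with `ν = χ ^ 3`, `second_moment`, `W = 2`) and `pair_low`; `cv p 3 x (x + z) = cv p 3 0 z`,
`cv p 3 x (x - z) = cv p 3 0 z` (`cv_cp`, `ta` is symmetric). -/
lemma Hyp.X1 {p χ C K2 δ γ : ℝ} {i : ℕ} {z : V} (H : Hyp ends p χ C K2 δ γ i z) {b : ℝ} (hb : 0 < b) :
    2 * (Fintype.card V) * (cg ends p C χ ^ 2 - χ ^ 2 * δ) -
        4 * (Fintype.card V) * (cg ends p C χ * (χ ^ 3 / b)) ≤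
      Ex p (fun ω => Xk (kz z) (al C χ) (GCb ends ω (al C χ) b)) := by
  have ha : 0 ≤ al C χ := by
    unfold al
    positivity
  have hm := Xk_mean (ends := ends) (κ := kz z) (p := p) (a := al C χ) (b := b)
    (cg := cg ends p C χ) (ν := χ ^ 3) (W := 2) H.h0.le H.h1.le ha hb (kz_nonneg z) (kz_symm z)
    (fun x => (kz_sum z x).le) (fun x => H.cgx x)
    (fun x => second_moment H.h0.le H.h1.le H.hχ x)
  refine le_trans ?_ hm
  have hkey : ∀ x y : V, kz z x y * (cg ends p C χ ^ 2 - χ ^ 2 * δ) ≤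
      kz z x y * Ex p (fun ω => (if y ∈ cu ends ω x then 0 else 1) *
        (Fn (al C χ) (cz ends ω x) * Fn (al C χ) (cz ends ω y))) := by
    intro x y
    by_cases hy : y = x + z ∨ y = x - z
    · refine mul_le_mul_of_nonneg_left ?_ (kz_nonneg z x y)
      refine le_trans ?_ (pair_low H.h0.le H.h1.le ha H.hχ x y)
      rw [H.cgx x, H.cgx y]
      have h1 := mul_le_mul_of_nonneg_left (H6_cv H x y hy) (sq_nonneg χ)
      nlinarith [h1]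
    · push Not at hy
      have h0 : kz z x y = 0 := by
        unfold kz
        rw [if_neg hy.1, if_neg hy.2, add_zero]
      rw [h0, zero_mul, zero_mul]
  have hsum : ∑ x : V, ∑ y : V, kz z x y * (cg ends p C χ ^ 2 - χ ^ 2 * δ) =
      2 * (Fintype.card V) * (cg ends p C χ ^ 2 - χ ^ 2 * δ) := by
    have h1 : ∀ x : V, ∑ y : V, kz z x y * (cg ends p C χ ^ 2 - χ ^ 2 * δ) =
        2 * (cg ends p C χ ^ 2 - χ ^ 2 * δ) := by
      intro x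
      rw [← Finset.sum_mul, kz_sum]
    rw [Finset.sum_congr rfl fun x _ => h1 x, Finset.sum_const, nsmul_eq_mul, Finset.card_univ]
    ring
  have hle := Finset.sum_le_sum (s := (Finset.univ : Finset V))
    (fun x _ => Finset.sum_le_sum (s := (Finset.univ : Finset V)) fun y _ => hkey x y)
  rw [hsum] at hle
  have h4 : 2 * ((Fintype.card V : ℝ) * (2 * (cg ends p C χ * (χ ^ 3 / b)))) =
      4 * (Fintype.card V) * (cg ends p C χ * (χ ^ 3 / b)) := by ring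
  rw [h4]
  linarith [hle]

/-- The numbers in row H7. -/
lemma H7_num {v χ c b0 δ ξ e K1 S M cc : ℝ} (hv : 0 < v) (hχ : 1 ≤ χ) (hc1 : χ / 2 ≤ c)
    (hδ : 0 ≤ δ) (hb : 0 < b0) (hξ : χ ^ 3 ≤ ξ * v) (hξ1 : ξ ≤ 1) (he : 0 < e) (hK1 : 0 ≤ K1)
    (hS : S ≤ 2 ^ 2 * v ^ 2 * c ^ 4 + 4 * ((b0 * χ ^ 2) ^ 2 * (2 ^ 2 * c ^ 2 * v * χ)) +
      2 * ((b0 * χ ^ 2) ^ 4 * cc))
    (hcc : cc ≤ K1 * (v / χ ^ 2 + χ ^ 2))
    (hM : 2 * v * (c ^ 2 - χ ^ 2 * δ) - 4 * v * (c * (χ ^ 3 / (b0 * χ ^ 2))) ≤ M) :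
    (S - 2 * (2 * v * c ^ 2) * M + (2 * v * c ^ 2) ^ 2) / (e * (2 * v * c ^ 2)) ^ 2 ≤
      (8 * δ + 8 / b0 + 16 * b0 ^ 2 * ξ + 16 * b0 ^ 4 * K1 * ξ) / e ^ 2 := by
  have hχ0 : 0 < χ := by linarith
  have hc : 0 < c := by linarith
  have hξ0 : 0 < ξ := by
    by_contra h
    have h1 : ξ * v ≤ 0 := mul_nonpos_of_nonpos_of_nonneg (not_lt.mp h) hv.le
    have h2 : 0 < χ ^ 3 := by positivity
    linarith
  have hL : 0 < 2 * v * c ^ 2 := by positivity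
  have hA2 : χ ^ 2 ≤ 4 * c ^ 2 := by nlinarith
  have hA4 : χ ^ 4 ≤ 16 * c ^ 4 := by
    have := pow_le_pow_left₀ (by positivity) hA2 2
    calc χ ^ 4 = (χ ^ 2) ^ 2 := by ring
      _ ≤ (4 * c ^ 2) ^ 2 := this
      _ = 16 * c ^ 4 := by ring
  -- the four terms
  have t1 : 8 * v ^ 2 * c ^ 2 * χ ^ 2 * δ ≤ 4 * v ^ 2 * c ^ 4 * (8 * δ) := by
    have h := mul_le_mul_of_nonneg_left hA2 (show 0 ≤ 8 * v ^ 2 * c ^ 2 * δ by positivity)
    linarith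
  have t2 : 16 * v ^ 2 * c ^ 3 * (χ ^ 3 / (b0 * χ ^ 2)) ≤ 4 * v ^ 2 * c ^ 4 * (8 / b0) := by
    have e1 : χ ^ 3 / (b0 * χ ^ 2) = χ / b0 := by
      field_simp
    rw [e1]
    have h := mul_le_mul_of_nonneg_left (show χ ≤ 2 * c by linarith)
      (show 0 ≤ 16 * v ^ 2 * c ^ 3 / b0 by positivity)
    calc 16 * v ^ 2 * c ^ 3 * (χ / b0) = 16 * v ^ 2 * c ^ 3 / b0 * χ := by ring
      _ ≤ 16 * v ^ 2 * c ^ 3 / b0 * (2 * c) := h
      _ = 4 * v ^ 2 * c ^ 4 * (8 / b0) := by ring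
  have t3 : 4 * ((b0 * χ ^ 2) ^ 2 * (2 ^ 2 * c ^ 2 * v * χ)) ≤ 4 * v ^ 2 * c ^ 4 * (16 * b0 ^ 2 * ξ) := by
    have h1 : χ ^ 3 * χ ^ 2 ≤ (ξ * v) * (4 * c ^ 2) := mul_le_mul hξ hA2 (by positivity) (by positivity)
    have h := mul_le_mul_of_nonneg_left h1 (show 0 ≤ 16 * b0 ^ 2 * c ^ 2 * v by positivity)
    calc 4 * ((b0 * χ ^ 2) ^ 2 * (2 ^ 2 * c ^ 2 * v * χ)) = 16 * b0 ^ 2 * c ^ 2 * v * (χ ^ 3 * χ ^ 2) := by ring
      _ ≤ 16 * b0 ^ 2 * c ^ 2 * v * ((ξ * v) * (4 * c ^ 2)) := h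
      _ = 4 * v ^ 2 * c ^ 4 * (16 * b0 ^ 2 * ξ) := by ring
  have t4 : 2 * ((b0 * χ ^ 2) ^ 4 * cc) ≤ 4 * v ^ 2 * c ^ 4 * (16 * b0 ^ 4 * K1 * ξ) := by
    have h0 : 2 * ((b0 * χ ^ 2) ^ 4 * cc) ≤ 2 * ((b0 * χ ^ 2) ^ 4 * (K1 * (v / χ ^ 2 + χ ^ 2))) := by
      have := mul_le_mul_of_nonneg_left hcc (show 0 ≤ 2 * (b0 * χ ^ 2) ^ 4 by positivity)
      linarith
    have h1 : χ ^ 6 * v ≤ 16 * c ^ 4 * (ξ * v ^ 2) := by
      have h2 : χ ^ 4 * χ ^ 3 ≤ 16 * c ^ 4 * (ξ * v) := mul_le_mul hA4 hξ (by positivity) (by positivity)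
      have h3 : χ ^ 6 ≤ χ ^ 7 := pow_le_pow_right₀ hχ (by norm_num)
      calc χ ^ 6 * v ≤ χ ^ 7 * v := mul_le_mul_of_nonneg_right h3 hv.le
        _ = χ ^ 4 * χ ^ 3 * v := by ring
        _ ≤ 16 * c ^ 4 * (ξ * v) * v := mul_le_mul_of_nonneg_right h2 hv.le
        _ = _ := by ring
    have h2 : χ ^ 10 ≤ 16 * c ^ 4 * (ξ * v ^ 2) := by
      have h3 : χ ^ 3 * χ ^ 3 ≤ (ξ * v) * (ξ * v) := mul_le_mul hξ hξ (by positivity) (by positivity)
      have h4 : (ξ * v) * (ξ * v) ≤ ξ * v ^ 2 := by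
        have := mul_le_mul_of_nonneg_left hξ1 (show 0 ≤ ξ * v ^ 2 by positivity)
        calc (ξ * v) * (ξ * v) = ξ * v ^ 2 * ξ := by ring
          _ ≤ ξ * v ^ 2 * 1 := this
          _ = ξ * v ^ 2 := by ring
      calc χ ^ 10 = χ ^ 4 * (χ ^ 3 * χ ^ 3) := by ring
        _ ≤ 16 * c ^ 4 * (ξ * v ^ 2) := mul_le_mul hA4 (h3.trans h4) (by positivity) (by positivity)
    have e2 : 2 * ((b0 * χ ^ 2) ^ 4 * (K1 * (v / χ ^ 2 + χ ^ 2))) = 2 * b0 ^ 4 * K1 * (χ ^ 6 * v + χ ^ 10) := by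
      field_simp
    rw [e2] at h0
    have h := mul_le_mul_of_nonneg_left (add_le_add h1 h2) (show 0 ≤ 2 * b0 ^ 4 * K1 by positivity)
    calc _ ≤ _ := h0
      _ ≤ _ := h
      _ = _ := by ring
  have hM' := mul_le_mul_of_nonneg_left hM (show 0 ≤ 2 * (2 * v * c ^ 2) by positivity)
  have key : S - 2 * (2 * v * c ^ 2) * M + (2 * v * c ^ 2) ^ 2 ≤
      4 * v ^ 2 * c ^ 4 * (8 * δ + 8 / b0 + 16 * b0 ^ 2 * ξ + 16 * b0 ^ 4 * K1 * ξ) := by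
    have e3 : 2 * (2 * v * c ^ 2) * (2 * v * (c ^ 2 - χ ^ 2 * δ) - 4 * v * (c * (χ ^ 3 / (b0 * χ ^ 2)))) =
        8 * v ^ 2 * c ^ 4 - 8 * v ^ 2 * c ^ 2 * χ ^ 2 * δ - 16 * v ^ 2 * c ^ 3 * (χ ^ 3 / (b0 * χ ^ 2)) := by ring
    rw [e3] at hM'
    nlinarith [hM', hS, t1, t2, t3, t4]
  have e4 : (e * (2 * v * c ^ 2)) ^ 2 = (4 * v ^ 2 * c ^ 4) * e ^ 2 := by ring
  rw [e4, div_le_div_iff₀ (by positivity) (by positivity)]
  have := mul_le_mul_of_nonneg_right key (show 0 ≤ e ^ 2 by positivity)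
  calc _ ≤ _ := this
    _ = _ := by ring

open scoped Classical in
/-- Row H7. `cheb` with `L = 2 |V| cg²`, `b = b0 χ²`; `Hyp.X1`, `Xk_sq`, `Hyp.cc` for `l = 1`. With `cg = t χ`, `1/2 ≤ t ≤ 1`,
`n = χ³ / |V| ≤ ξ`: `E X² - 2 L E X + L² ≤ |V|² χ⁴ (16 b0² t² n + 2 b0⁴ K1 (n / χ + n²) + 8 t² δ + 16 t³ / b0)` and
`L² = 4 |V|² χ⁴ t⁴`. -/
lemma Hyp.PX {p χ C K2 δ γ : ℝ} {i : ℕ} {z : V} (H : Hyp ends p χ C K2 δ γ i z) {b0 ξ e : ℝ}
    (hb : 0 < b0) (he : 0 < e) (hξ : χ ^ 3 ≤ ξ * (Fintype.card V)) (hξ1 : ξ ≤ 1) :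
    Ex p (fun ω => if e * (2 * (Fintype.card V) * cg ends p C χ ^ 2) ≤
        |Xk (kz z) (al C χ) (GCb ends ω (al C χ) (b0 * χ ^ 2)) -
          2 * (Fintype.card V) * cg ends p C χ ^ 2| then (1 : ℝ) else 0) ≤
      (8 * δ + 8 / b0 + 16 * b0 ^ 2 * ξ + 16 * b0 ^ 4 * cK1 C K2 * ξ) / e ^ 2 := by
  have hv : (0 : ℝ) < (Fintype.card V) := by
    have h1 : (0 : ℝ) < χ ^ 3 := pow_pos (lt_of_lt_of_le one_pos H.hχ1) 3
    exact lt_of_lt_of_le h1 H.hV3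
  have hχ0 : (0 : ℝ) < χ := lt_of_lt_of_le one_pos H.hχ1
  have hC0 : (0 : ℝ) < C := lt_of_lt_of_le one_pos H.hC
  have hK0 : (0 : ℝ) < K2 := lt_of_lt_of_le one_pos H.hK2
  have hc := H.cg_low
  have hc0 : 0 < cg ends p C χ := by linarith
  have hL : 0 < 2 * ((Fintype.card V) : ℝ) * cg ends p C χ ^ 2 := by positivity
  have ha : 0 ≤ al C χ := by
    unfold al
    positivity
  refine (cheb H.h0.le H.h1.le _ _ e he hL).trans ?_
  have hcc := H.cc 1 le_rfl (by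
    have : 1 ≤ 2 ^ i := Nat.one_le_two_pow
    omega)
  have hS := Xk_sq (ends := ends) (κ := kz z) (a := al C χ) (b := b0 * χ ^ 2) (χ := χ)
    (cg := cg ends p C χ) (W := 2) H.h0.le H.h1.le ha (by positivity) (kz_nonneg z) (kz_symm z)
    (fun x => (kz_sum z x).le) H.hχ H.cgx
  have hM := H.X1 (b := b0 * χ ^ 2) (by positivity)
  refine H7_num (cc := Ex p (fun ω => ccK ends (kz z) ω (al C χ) 1)) hv H.hχ1 hc H.hδ hb hξ hξ1 he ?_ hS ?_ ?_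
  · unfold cK1
    positivity
  · refine hcc.trans (le_of_eq ?_)
    unfold cK1
    norm_num
  · exact hM

private lemma H8_aux {χ N c b0 e ξ E1 E2 : ℝ} (hχ : 0 < χ) (hN : 0 < N) (hc : 0 < c) (hc1 : χ / 2 ≤ c)
    (hb : 0 < b0) (he : 0 < e) (hξ : χ ^ 3 ≤ ξ * N)
    (h1 : N * c - N * (χ ^ 3 / (b0 * χ ^ 2)) ≤ E1)
    (h2 : E2 ≤ N ^ 2 * c ^ 2 + (b0 * χ ^ 2) ^ 2 * (N * χ)) :
    (E2 - 2 * (N * c) * E1 + (N * c) ^ 2) / (e * (N * c)) ^ 2 ≤ (4 / b0 + 4 * b0 ^ 2 * ξ) / e ^ 2 := by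
  have e1 : χ ^ 3 / (b0 * χ ^ 2) = χ / b0 := by
    field_simp
  rw [e1] at h1
  have hNc : 0 < N * c := mul_pos hN hc
  have e2 : E2 - 2 * (N * c) * E1 + (N * c) ^ 2 ≤ b0 ^ 2 * χ ^ 5 * N + 2 * N ^ 2 * c * (χ / b0) := by
    have e3 : 2 * (N * c) * (N * c - N * (χ / b0)) ≤ 2 * (N * c) * E1 :=
      mul_le_mul_of_nonneg_left h1 (by positivity)
    nlinarith [e3, h2]
  rw [div_le_div_iff₀ (by positivity) (by positivity)]
  have e4 : b0 ^ 2 * χ ^ 5 * N ≤ 4 * b0 ^ 2 * ξ * (N * c) ^ 2 := by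
    have f1 : χ ^ 2 ≤ 4 * c ^ 2 := by nlinarith [hc1, hχ]
    have f2 : χ ^ 3 * χ ^ 2 ≤ (ξ * N) * (4 * c ^ 2) :=
      mul_le_mul hξ f1 (by positivity) (le_trans (by positivity) hξ)
    have f3 := mul_le_mul_of_nonneg_left f2 (show 0 ≤ b0 ^ 2 * N by positivity)
    calc b0 ^ 2 * χ ^ 5 * N = b0 ^ 2 * N * (χ ^ 3 * χ ^ 2) := by ring
      _ ≤ b0 ^ 2 * N * ((ξ * N) * (4 * c ^ 2)) := f3
      _ = 4 * b0 ^ 2 * ξ * (N * c) ^ 2 := by ring
  have e5 : 2 * N ^ 2 * c * (χ / b0) ≤ 4 / b0 * (N * c) ^ 2 := by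
    have f1 : χ ≤ 2 * c := by linarith
    have f2 : χ / b0 ≤ 2 * c / b0 := div_le_div_of_nonneg_right f1 hb.le
    calc 2 * N ^ 2 * c * (χ / b0) ≤ 2 * N ^ 2 * c * (2 * c / b0) :=
          mul_le_mul_of_nonneg_left f2 (by positivity)
      _ = 4 / b0 * (N * c) ^ 2 := by ring
  calc (E2 - 2 * (N * c) * E1 + (N * c) ^ 2) * e ^ 2
      ≤ (4 * b0 ^ 2 * ξ * (N * c) ^ 2 + 4 / b0 * (N * c) ^ 2) * e ^ 2 :=
        mul_le_mul_of_nonneg_right (by linarith) (by positivity)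
    _ = (4 / b0 + 4 * b0 ^ 2 * ξ) * (e * (N * c)) ^ 2 := by ring

open scoped Classical in
/-- Row H8. `cheb`, `Yk_mean`, `Yk_sq`, with `Z = |V| cg`. -/
lemma Hyp.PY {p χ C K2 δ γ : ℝ} {i : ℕ} {z : V} (H : Hyp ends p χ C K2 δ γ i z) {b0 ξ e : ℝ}
    (hb : 0 < b0) (he : 0 < e) (hξ : χ ^ 3 ≤ ξ * (Fintype.card V)) (hξ1 : ξ ≤ 1) :
    Ex p (fun ω => if e * ((Fintype.card V) * cg ends p C χ) ≤
        |Yk (al C χ) (GCb ends ω (al C χ) (b0 * χ ^ 2)) - (Fintype.card V) * cg ends p C χ|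
        then (1 : ℝ) else 0) ≤ (4 / b0 + 4 * b0 ^ 2 * ξ) / e ^ 2 := by
  have hχ0 : 0 < χ := lt_of_lt_of_le one_pos H.hχ1
  have hN : (0 : ℝ) < (Fintype.card V) := by
    have : 0 < Fintype.card V := Fintype.card_pos_iff.2 ⟨0⟩
    exact_mod_cast this
  have hc1 : χ / 2 ≤ cg ends p C χ := H.cg_low
  have hc0 : 0 < cg ends p C χ := by linarith
  have hal : 0 ≤ al C χ := by
    unfold al
    positivity
  have hb' : 0 < b0 * χ ^ 2 := by positivity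
  have hL : 0 < (Fintype.card V : ℝ) * cg ends p C χ := mul_pos hN hc0
  have e1 := cheb H.h0.le H.h1.le (fun ω => Yk (al C χ) (GCb ends ω (al C χ) (b0 * χ ^ 2)))
    ((Fintype.card V : ℝ) * cg ends p C χ) e he hL
  have e2 := Yk_mean (ends := ends) (a := al C χ) (b := b0 * χ ^ 2) (cg := cg ends p C χ) (ν := χ ^ 3)
    H.h0.le H.h1.le hal hb' (fun x => H.cgx x) (fun x => second_moment H.h0.le H.h1.le H.hχ x)
  have e3 := Yk_sq (ends := ends) (a := al C χ) (b := b0 * χ ^ 2) (χ := χ) (cg := cg ends p C χ)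
    H.h0.le H.h1.le hal hb'.le H.hχ (fun x => H.cgx x)
  refine e1.trans ?_
  generalize cg ends p C χ = c at *
  generalize Ex p (fun ω => Yk (al C χ) (GCb ends ω (al C χ) (b0 * χ ^ 2)) ^ 2) = E2 at *
  generalize Ex p (fun ω => Yk (al C χ) (GCb ends ω (al C χ) (b0 * χ ^ 2))) = E1 at *
  generalize (Fintype.card V : ℝ) = N at *
  exact H8_aux hχ0 hN hc0 hc1 hb he hξ e2 e3

open scoped Classical in
/-- Row H9. `mark`, `dgK_sq` (with `P = 6 C² / χ`, `Hyp.tail`), `Hyp.cc`. -/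
lemma Hyp.PD {p χ C K2 δ γ : ℝ} {i : ℕ} {z : V} (H : Hyp ends p χ C K2 δ γ i z) {td : ℝ}
    (htd : 0 < td) :
    Ex p (fun ω => if td * (Fintype.card V) / χ < ∑ A ∈ GC ends ω (al C χ),
        dgK (kz z) (GC ends ω (al C χ)) A ^ 2 then (1 : ℝ) else 0) ≤
      (144 * C ^ 4 + 2 * cK1 C K2) / td := by
  have hχ0 : 0 < χ := lt_of_lt_of_le one_pos H.hχ1
  have hC0 : 0 < C := lt_of_lt_of_le one_pos H.hC
  have hK0 : 0 < K2 := lt_of_lt_of_le one_pos H.hK2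
  obtain ⟨N, hNe⟩ : ∃ N : ℝ, N = (Fintype.card V : ℝ) := ⟨_, rfl⟩
  have hN : 0 < N := by
    rw [hNe]
    exact Nat.cast_pos.2 Fintype.card_pos
  have hal : 0 < al C χ := by unfold al; positivity
  have hsq : Real.sqrt (al C χ) = χ / (6 * C) := by
    have e : al C χ = (χ / (6 * C)) ^ 2 := by
      unfold al
      rw [div_pow, mul_pow]
      norm_num
    rw [e]
    exact Real.sqrt_sq (by positivity)
  have hP : ∀ x, Ex p (fun ω => if al C χ ≤ cz ends ω x then (1 : ℝ) else 0) ≤ 6 * C ^ 2 / χ := by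
    intro x
    have h1 := H.tail x hal
    rw [hsq] at h1
    have h2 : C / (χ / (6 * C)) = 6 * C ^ 2 / χ := by
      rw [div_div_eq_mul_div]
      congr 1
      ring
    rwa [h2] at h1
  have h1 := dgK_sq (ends := ends) (p := p) (κ := kz z) (a := al C χ) (χ := χ)
    (P := 6 * C ^ 2 / χ) (W := 2) H.h0.le H.h1.le (kz_nonneg z) (kz_symm z)
    (fun x => (kz_sum z x).le) H.hχ hP
  have hi2 : 1 + 1 ≤ 2 * 2 ^ i := by
    have := Nat.one_le_two_pow (n := i)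
    omega
  have h2 := H.cc 1 le_rfl hi2
  have h3' := H.hV3
  rw [← hNe] at h1 h2 h3' ⊢
  have h3 : C * (36 * C ^ 2 * K2) ^ (1 + 1) * (N / χ ^ 2 + χ ^ (1 + 1)) ≤
      2 * cK1 C K2 * (N / χ) := by
    have e1 : N / χ ^ 2 ≤ N / χ := by
      refine div_le_div_of_nonneg_left hN.le hχ0 ?_
      nlinarith [H.hχ1]
    have e2 : χ ^ (1 + 1) ≤ N / χ := by
      rw [le_div_iff₀ hχ0]
      calc χ ^ (1 + 1) * χ = χ ^ 3 := by ring
        _ ≤ N := h3'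
    have e3 : 0 ≤ C * (36 * C ^ 2 * K2) ^ (1 + 1) := by positivity
    have e4 := mul_le_mul_of_nonneg_left (add_le_add e1 e2) e3
    refine e4.trans (le_of_eq ?_)
    unfold cK1
    ring
  have hX : Ex p (fun ω => ∑ A ∈ GC ends ω (al C χ), dgK (kz z) (GC ends ω (al C χ)) A ^ 2) ≤
      (144 * C ^ 4 + 2 * cK1 C K2) * (N / χ) := by
    refine h1.trans ?_
    have e5 : (2 : ℝ) ^ 2 * (6 * C ^ 2 / χ) ^ 2 * N * χ = 144 * C ^ 4 * (N / χ) := by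
      field_simp
      ring
    rw [e5, add_mul]
    exact add_le_add le_rfl (h2.trans h3)
  have ht : 0 < td * N / χ := by positivity
  refine (mark H.h0.le H.h1.le
    (fun ω => ∑ A ∈ GC ends ω (al C χ), dgK (kz z) (GC ends ω (al C χ)) A ^ 2) _ ht
    (fun ω => Finset.sum_nonneg fun A _ => sq_nonneg _)).trans ?_
  rw [div_le_div_iff₀ ht htd]
  calc _ ≤ (144 * C ^ 4 + 2 * cK1 C K2) * (N / χ) * td := mul_le_mul_of_nonneg_right hX htd.le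
    _ = _ := by ring

open scoped Classical in
/-- Row H9. `mark`, `bad_mean`, `Hyp.cc`: `(V / χ² + χ^(l+1)) = (V / χ³) (χ + χ^(l+4) / V)`. -/
lemma Hyp.PB {p χ C K2 δ γ : ℝ} {i : ℕ} {z : V} (H : Hyp ends p χ C K2 δ γ i z) {B tb : ℝ}
    (hB : 0 < B) (htb : 0 < tb) :
    Ex p (fun ω => if tb * (Fintype.card V) / χ ^ 3 <
        ((bs ends (kz z) ω (al C χ) (vvK C K2 B χ (Fintype.card V)) (2 * 2 ^ i - 1)).card : ℝ)
        then (1 : ℝ) else 0) ≤ 2 * 2 ^ i / (B * tb) := by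
  have hχ0 : 0 < χ := lt_of_lt_of_le one_pos H.hχ1
  have hC0 : 0 < C := lt_of_lt_of_le one_pos H.hC
  have hK0 : 0 < K2 := lt_of_lt_of_le one_pos H.hK2
  have hcc := H.cc
  obtain ⟨N, hNe⟩ : ∃ N : ℝ, N = (Fintype.card V : ℝ) := ⟨_, rfl⟩
  have hN : 0 < N := by
    rw [hNe]
    exact Nat.cast_pos.2 Fintype.card_pos
  rw [← hNe] at hcc ⊢
  have hv : ∀ l, 0 < vvK C K2 B χ N l := by
    intro l
    unfold vvK
    positivity
  have h1 := bad_mean (ends := ends) (κ := kz z) H.h0.le H.h1.le (kz_nonneg z) (al C χ)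
    (vvK C K2 B χ N) hv (2 * 2 ^ i - 1)
  have h2 : ∀ l ∈ Finset.Ico 1 (2 * 2 ^ i - 1),
      Ex p (fun ω => ccK ends (kz z) ω (al C χ) l) / vvK C K2 B χ N (l + 1) ≤ N / χ ^ 3 / B := by
    intro l hl
    obtain ⟨hl1, hl2⟩ := Finset.mem_Ico.1 hl
    have h3 := hcc l hl1 (by omega)
    rw [div_le_iff₀ (hv _)]
    refine h3.trans (le_of_eq ?_)
    unfold vvK
    have e : N / χ ^ 2 + χ ^ (l + 1) = N / χ ^ 3 * (χ + χ ^ (l + 1 + 3) / N) := by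
      have e' : χ ^ (l + 1 + 3) = χ ^ (l + 1) * χ ^ 3 := pow_add _ _ _
      rw [e']
      field_simp
    rw [e]
    field_simp
  have h4 : Ex p (fun ω => ((bs ends (kz z) ω (al C χ) (vvK C K2 B χ N)
      (2 * 2 ^ i - 1)).card : ℝ)) ≤ 2 * 2 ^ i * (N / χ ^ 3 / B) := by
    refine h1.trans ((Finset.sum_le_sum h2).trans ?_)
    rw [Finset.sum_const, nsmul_eq_mul, Nat.card_Ico]
    refine mul_le_mul_of_nonneg_right ?_ (by positivity)
    have h5 : 2 * 2 ^ i - 1 - 1 ≤ 2 * 2 ^ i := by omega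
    have h6 : ((2 * 2 ^ i - 1 - 1 : ℕ) : ℝ) ≤ ((2 * 2 ^ i : ℕ) : ℝ) := Nat.cast_le.2 h5
    refine h6.trans (le_of_eq ?_)
    push_cast
    ring
  have ht : 0 < tb * N / χ ^ 3 := by positivity
  refine (mark H.h0.le H.h1.le
    (fun ω => ((bs ends (kz z) ω (al C χ) (vvK C K2 B χ N) (2 * 2 ^ i - 1)).card : ℝ)) _ ht
    (fun ω => Nat.cast_nonneg _)).trans ?_
  have hBt : 0 < B * tb := mul_pos hB htb
  rw [div_le_div_iff₀ ht hBt]
  calc _ ≤ 2 * 2 ^ i * (N / χ ^ 3 / B) * (B * tb) := mul_le_mul_of_nonneg_right h4 hBt.le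
    _ = _ := by
      field_simp

open scoped Classical in
/-- Row H4. `mark`, `Hyp.ng`. -/
lemma Hyp.PG {p χ C K2 δ γ : ℝ} {i : ℕ} {z : V} (H : Hyp ends p χ C K2 δ γ i z) {C1 : ℝ}
    (hC1 : 0 < C1) :
    Ex p (fun ω => if C1 * (Fintype.card V) / χ ^ 3 < ((GC ends ω (al C χ)).card : ℝ)
        then (1 : ℝ) else 0) ≤ 216 * C ^ 4 / C1 := by
  classical
  have hχ0 : 0 < χ := lt_of_lt_of_le one_pos H.hχ1
  have hV : (0 : ℝ) < (Fintype.card V) := H4_card_pos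
  have ht : 0 < C1 * (Fintype.card V) / χ ^ 3 := by positivity
  refine (mark H.h0.le H.h1.le (fun ω => ((GC ends ω (al C χ)).card : ℝ)) _ ht
    (fun ω => Nat.cast_nonneg _)).trans ?_
  rw [div_le_iff₀ ht]
  refine H.ng.trans (le_of_eq ?_)
  field_simp

open scoped Classical in
/-- Row H4. `mark`, `Hyp.tail`. -/
lemma Hyp.PL {p χ C K2 δ γ : ℝ} {i : ℕ} {z : V} (H : Hyp ends p χ C K2 δ γ i z) {b0 tl : ℝ}
    (hb : 0 < b0) (htl : 0 < tl) :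
    Ex p (fun ω => if tl * (Fintype.card V) / χ <
        ((Finset.univ.filter (fun x => b0 * χ ^ 2 < cz ends ω x)).card : ℝ)
        then (1 : ℝ) else 0) ≤ C / (Real.sqrt b0 * tl) := by
  classical
  have hC0 : 0 < C := lt_of_lt_of_le one_pos H.hC
  have hχ0 : 0 < χ := lt_of_lt_of_le one_pos H.hχ1
  have hV : (0 : ℝ) < (Fintype.card V) := H4_card_pos
  have ht : 0 < tl * (Fintype.card V) / χ := by positivity
  have hb2 : 0 < b0 * χ ^ 2 := by positivity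
  have hs : 0 < Real.sqrt b0 := Real.sqrt_pos.2 hb
  refine (mark H.h0.le H.h1.le
    (fun ω => ((Finset.univ.filter (fun x => b0 * χ ^ 2 < cz ends ω x)).card : ℝ)) _ ht
    (fun ω => Nat.cast_nonneg _)).trans ?_
  rw [div_le_iff₀ ht]
  have h1 : Ex p (fun ω => ((Finset.univ.filter (fun x => b0 * χ ^ 2 < cz ends ω x)).card : ℝ)) ≤
      (Fintype.card V) * (C / Real.sqrt (b0 * χ ^ 2)) := by
    calc Ex p (fun ω => ((Finset.univ.filter (fun x => b0 * χ ^ 2 < cz ends ω x)).card : ℝ)) ≤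
        Ex p (fun ω => ∑ x, if b0 * χ ^ 2 ≤ cz ends ω x then (1 : ℝ) else 0) := by
          apply Ex_mono H.h0.le H.h1.le
          intro ω
          rw [Finset.card_eq_sum_ones, Nat.cast_sum, Finset.sum_filter]
          refine Finset.sum_le_sum fun x _ => ?_
          by_cases h : b0 * χ ^ 2 < cz ends ω x
          · rw [if_pos h, if_pos h.le]
            simp
          · rw [if_neg h]
            split_ifs <;> norm_num
      _ = ∑ x, Ex p (fun ω => if b0 * χ ^ 2 ≤ cz ends ω x then (1 : ℝ) else 0) := Ex_sum _ _ _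
      _ ≤ ∑ _x : V, C / Real.sqrt (b0 * χ ^ 2) := Finset.sum_le_sum fun x _ => H.tail x hb2
      _ = (Fintype.card V) * (C / Real.sqrt (b0 * χ ^ 2)) := by
          rw [Finset.sum_const, nsmul_eq_mul, Finset.card_univ]
  refine h1.trans (le_of_eq ?_)
  rw [Real.sqrt_mul hb.le, Real.sqrt_sq hχ0.le]
  field_simp

/-- The majorant of the numbers of cycles, `σ = √χ`. -/
noncomputable def uu (q σ N : ℝ) : ℕ → ℝ
  | 0 => 1
  | n + 1 => q ^ (n + 1) * (σ ^ (n + 1) + σ ^ (2 * (n + 1) + 6) / N) / 4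

/-- Row H10. Here `N' = N / σ ^ 6 ≥ 1`, so `σ ^ (2 n + 6) / N = σ ^ (2 n) / N'`. -/
lemma uu_nonneg {q σ N : ℝ} (hq : 0 ≤ q) (hσ : 1 ≤ σ) (hN : σ ^ 6 ≤ N) (n : ℕ) : 0 ≤ uu q σ N n := by
  have hN0 : 0 < N := lt_of_lt_of_le (pow_pos (by linarith) 6) hN
  have hσ0 : 0 ≤ σ := by linarith
  cases n with
  | zero => simp [uu]
  | succ n =>
    simp only [uu]
    positivity

/-- Row H10. For `l, m ≥ 1`: `(1/16) q^(l+m) (σ^l + σ^(2l) / N') (σ^m + σ^(2m) / N') ≤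
(1/16) q^(l+m) (σ^(l+m) + 3 σ^(2(l+m)) / N')`. -/
lemma uu_mul {q σ N : ℝ} (hq : 0 ≤ q) (hσ : 1 ≤ σ) (hN : σ ^ 6 ≤ N) (l m : ℕ) :
    uu q σ N l * uu q σ N m ≤ uu q σ N (l + m) := by
  have hN0 : 0 < N := lt_of_lt_of_le (pow_pos (by linarith) 6) hN
  have hσ0 : 0 < σ := by linarith
  cases l with
  | zero => simp [uu]
  | succ l =>
    cases m with
    | zero => simp [uu]
    | succ m =>
      have e : uu q σ N (l + 1 + (m + 1)) = q ^ (l + 1 + (m + 1)) *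
          (σ ^ (l + 1 + (m + 1)) + σ ^ (2 * (l + 1 + (m + 1)) + 6) / N) / 4 := by
        have : l + 1 + (m + 1) = (l + 1 + m) + 1 := by ring
        rw [this]
        rfl
      rw [e]
      simp only [uu]
      generalize hL : l + 1 = L
      generalize hM : m + 1 = M
      have h1 : ∀ k : ℕ, 1 ≤ σ ^ k := fun k => one_le_pow₀ hσ
      have hT : 0 ≤ σ ^ (2 * (L + M) + 6) / N := by positivity
      have a1 : σ ^ (2 * L + 6) / N * σ ^ M ≤ σ ^ (2 * (L + M) + 6) / N := by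
        rw [div_mul_eq_mul_div, ← pow_add]
        exact div_le_div_of_nonneg_right (pow_le_pow_right₀ hσ (by omega)) hN0.le
      have a2 : σ ^ L * (σ ^ (2 * M + 6) / N) ≤ σ ^ (2 * (L + M) + 6) / N := by
        rw [← mul_div_assoc, ← pow_add]
        exact div_le_div_of_nonneg_right (pow_le_pow_right₀ hσ (by omega)) hN0.le
      have a3 : σ ^ (2 * L + 6) / N * (σ ^ (2 * M + 6) / N) ≤ σ ^ (2 * (L + M) + 6) / N := by
        have e3 : σ ^ (2 * L + 6) / N * (σ ^ (2 * M + 6) / N) =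
            (σ ^ (2 * (L + M) + 6) / N) * (σ ^ 6 / N) := by
          field_simp
          ring
        rw [e3]
        have : σ ^ 6 / N ≤ 1 := (div_le_one hN0).2 hN
        exact mul_le_of_le_one_right hT this
      have e4 : q ^ L * (σ ^ L + σ ^ (2 * L + 6) / N) / 4 * (q ^ M * (σ ^ M + σ ^ (2 * M + 6) / N) / 4) =
          q ^ (L + M) * ((σ ^ (L + M) + (σ ^ (2 * L + 6) / N * σ ^ M + σ ^ L * (σ ^ (2 * M + 6) / N) +
            σ ^ (2 * L + 6) / N * (σ ^ (2 * M + 6) / N))) / 16) := by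
        rw [pow_add q, pow_add σ L M]
        ring
      have e5 : q ^ (L + M) * (σ ^ (L + M) + σ ^ (2 * (L + M) + 6) / N) / 4 =
          q ^ (L + M) * ((σ ^ (L + M) + σ ^ (2 * (L + M) + 6) / N) / 4) := by ring
      rw [e4, e5]
      refine mul_le_mul_of_nonneg_left ?_ (pow_nonneg hq _)
      have h0 : 0 ≤ σ ^ (L + M) := by positivity
      linarith

/-- Row H10. For `n ≥ 2`, `B ≥ 1`: `χ ≤ σ ^ n` and `B * C * (36 C² K2) ^ n ≤ (4 B C (36 C² K2)) ^ n / 4`. -/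
lemma vvK_le {C K2 B χ N : ℝ} (hC : 1 ≤ C) (hK : 1 ≤ K2) (hB : 1 ≤ B) (hχ : 1 ≤ χ)
    (hN : χ ^ 3 ≤ N) (n : ℕ) (hn : 2 ≤ n) :
    vvK C K2 B χ N n ≤ uu (4 * B * C * (36 * C ^ 2 * K2)) (Real.sqrt χ) N n := by
  have hN0 : 0 < N := lt_of_lt_of_le (pow_pos (by linarith) 3) hN
  have hχ0 : 0 ≤ χ := by linarith
  have hs : Real.sqrt χ ^ 2 = χ := Real.sq_sqrt hχ0
  have hs1 : 1 ≤ Real.sqrt χ := Real.one_le_sqrt.2 hχ
  obtain ⟨k, rfl⟩ : ∃ k, n = k + 1 := ⟨n - 1, by omega⟩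
  have e : Real.sqrt χ ^ (2 * (k + 1) + 6) = χ ^ (k + 1 + 3) := by
    have : 2 * (k + 1) + 6 = 2 * (k + 1 + 3) := by ring
    rw [this, pow_mul, hs]
  simp only [uu, vvK]
  rw [e]
  set c : ℝ := 36 * C ^ 2 * K2 with hc
  have hc0 : 0 ≤ c := by positivity
  have hBC : 1 ≤ B * C := one_le_mul_of_one_le_of_one_le hB hC
  have h1 : χ ≤ Real.sqrt χ ^ (k + 1) := by
    calc χ = Real.sqrt χ ^ 2 := hs.symm
      _ ≤ _ := pow_le_pow_right₀ hs1 hn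
  have h2 : B * C ≤ (4 * B * C) ^ (k + 1) / 4 := by
    have h4 : (1 : ℝ) ≤ 4 * B * C := by nlinarith
    have : 4 * B * C ≤ (4 * B * C) ^ (k + 1) := le_self_pow₀ h4 (by omega)
    linarith
  have hX : χ + χ ^ (k + 1 + 3) / N ≤ Real.sqrt χ ^ (k + 1) + χ ^ (k + 1 + 3) / N := by linarith
  have hX0 : 0 ≤ χ + χ ^ (k + 1 + 3) / N := by positivity
  calc B * (C * c ^ (k + 1) * (χ + χ ^ (k + 1 + 3) / N))
      = (B * C) * (c ^ (k + 1) * (χ + χ ^ (k + 1 + 3) / N)) := by ring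
    _ ≤ ((4 * B * C) ^ (k + 1) / 4) * (c ^ (k + 1) *
          (Real.sqrt χ ^ (k + 1) + χ ^ (k + 1 + 3) / N)) := by
        refine mul_le_mul h2 (mul_le_mul_of_nonneg_left hX (pow_nonneg hc0 _))
          (mul_nonneg (pow_nonneg hc0 _) hX0) (by positivity)
    _ = (4 * B * C * c) ^ (k + 1) * (Real.sqrt χ ^ (k + 1) + χ ^ (k + 1 + 3) / N) / 4 := by
        rw [mul_pow (4 * B * C) c]
        ring

private lemma H10b_term {C q χ N ξ : ℝ} (M a b : ℕ) (hM : a + 1 + (b + 1) = 2 * M) (hC : 1 ≤ C)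
    (hq : 0 ≤ q) (hχ : 1 ≤ χ) (hN : χ ^ 3 ≤ ξ * N) (hξ0 : 0 < ξ) (hξ2 : 1 ≤ ξ * Real.sqrt χ)
    (hNK : N ≤ C * χ ^ (M + 2)) :
    N / χ ^ 3 * (uu q (Real.sqrt χ) N (a + 1) * uu q (Real.sqrt χ) N (b + 1)) ≤
      q ^ (2 * M) * χ ^ (2 * M) * ((C + 3) * ξ) := by
  have hχ0 : 0 < χ := by linarith
  have hs2 : Real.sqrt χ ^ 2 = χ := Real.sq_sqrt hχ0.le
  have hs1 : 1 ≤ Real.sqrt χ := Real.one_le_sqrt.2 hχ
  generalize Real.sqrt χ = s at hs2 hs1 hξ2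
  have hs0 : 0 < s := by linarith
  have h3 : 0 < χ ^ 3 := pow_pos hχ0 3
  have hN0 : 0 < N := by
    by_contra h
    have : ξ * N ≤ 0 := mul_nonpos_of_nonneg_of_nonpos hξ0.le (not_lt.1 h)
    linarith
  have e1 : ∀ n : ℕ, uu q s N (n + 1) =
      q ^ (n + 1) * (s ^ (n + 1) + s ^ (2 * (n + 1) + 6) / N) / 4 := fun n => rfl
  have e6 : s ^ 6 = χ ^ 3 := by rw [← hs2]; ring
  have e2 : ∀ n : ℕ, s ^ (2 * n + 6) = (s ^ n) ^ 2 * χ ^ 3 := by
    intro n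
    rw [pow_add, e6, mul_comm 2 n, pow_mul]
  have hA : s ≤ s ^ (a + 1) := by
    calc s = s ^ 1 := (pow_one s).symm
      _ ≤ s ^ (a + 1) := pow_le_pow_right₀ hs1 (by omega)
  have hB : s ≤ s ^ (b + 1) := by
    calc s = s ^ 1 := (pow_one s).symm
      _ ≤ s ^ (b + 1) := pow_le_pow_right₀ hs1 (by omega)
  have hAB : s ^ (a + 1) * s ^ (b + 1) = χ ^ M := by
    rw [← pow_add, hM, pow_mul, hs2]
  have hQ : q ^ (a + 1) * q ^ (b + 1) = q ^ (2 * M) := by rw [← pow_add, hM]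
  have hX : χ ^ (2 * M) = (s ^ (a + 1) * s ^ (b + 1)) ^ 2 := by
    rw [hAB, mul_comm 2 M, pow_mul]
  rw [e1, e1, e2, e2, hX]
  generalize s ^ (a + 1) = A at hA hAB
  generalize s ^ (b + 1) = B at hB hAB
  have hA0 : 0 < A := by linarith
  have hB0 : 0 < B := by linarith
  have hu : χ ^ 3 / N ≤ ξ := by
    rw [div_le_iff₀ hN0]
    exact hN
  have hξχ : 1 ≤ ξ * χ := by
    rw [← hs2]
    nlinarith
  have hNu : N / χ ^ 3 ≤ C * (A * B) * ξ := by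
    rw [div_le_iff₀ h3, hAB]
    have e : C * χ ^ (M + 2) ≤ C * χ ^ (M + 2) * (ξ * χ) :=
      le_mul_of_one_le_right (by positivity) hξχ
    calc N ≤ C * χ ^ (M + 2) := hNK
      _ ≤ C * χ ^ (M + 2) * (ξ * χ) := e
      _ = C * χ ^ M * ξ * χ ^ 3 := by ring
  have hA1 : A ≤ A * B * ξ := by
    have : 1 ≤ B * ξ := by nlinarith
    nlinarith
  have hB1 : B ≤ A * B * ξ := by
    have : 1 ≤ A * ξ := by nlinarith
    nlinarith
  have hABu : A * B * (χ ^ 3 / N) ≤ A * B * ξ := mul_le_mul_of_nonneg_left hu (by positivity)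
  have hsum : N / χ ^ 3 + A + B + A * B * (χ ^ 3 / N) ≤ A * B * ((C + 3) * ξ) := by
    nlinarith
  have hq2 : 0 ≤ q ^ (2 * M) := pow_nonneg hq _
  have key : N / χ ^ 3 * (q ^ (a + 1) * (A + A ^ 2 * χ ^ 3 / N) / 4 *
      (q ^ (b + 1) * (B + B ^ 2 * χ ^ 3 / N) / 4)) =
      (q ^ (a + 1) * q ^ (b + 1)) * (A * B / 16 * (N / χ ^ 3 + A + B + A * B * (χ ^ 3 / N))) := by
    field_simp
    ring
  rw [key, hQ]
  have hpos : 0 ≤ A * B * (A * B * ((C + 3) * ξ)) := by positivity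
  calc q ^ (2 * M) * (A * B / 16 * (N / χ ^ 3 + A + B + A * B * (χ ^ 3 / N)))
      ≤ q ^ (2 * M) * (A * B / 16 * (A * B * ((C + 3) * ξ))) := by
        refine mul_le_mul_of_nonneg_left (mul_le_mul_of_nonneg_left hsum (by positivity)) hq2
    _ ≤ q ^ (2 * M) * (A * B * (A * B * ((C + 3) * ξ))) := by
        refine mul_le_mul_of_nonneg_left ?_ hq2
        have : A * B / 16 * (A * B * ((C + 3) * ξ)) = A * B * (A * B * ((C + 3) * ξ)) / 16 := by ring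
        rw [this]
        linarith
    _ = q ^ (2 * M) * (A * B) ^ 2 * ((C + 3) * ξ) := by ring

/-- Row H10. The terms with both indices positive. For `l + l' = 2 m`, `l, l' ≥ 1`:
`16 u l u l' ≤ q^(2m) (σ^(2m) + 2 σ^(4m-1) / N' + σ^(4m) / N'^2)`, with `N' = N / χ³`; multiplied by `N' ≤ C χ^(m-1)` it is at most
`q^(2m) χ^(2m) (C / χ + 2 / √χ + 1 / N') ≤ q^(2m) χ^(2m) (C + 3) ξ`. -/
lemma uu_sum {C q χ N ξ : ℝ} (i : ℕ) (hi : 1 ≤ i) (hC : 1 ≤ C) (hq : 0 ≤ q) (hχ : 1 ≤ χ) (hN : χ ^ 3 ≤ ξ * N)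
    (hξ1 : ξ ≤ 1) (hξ2 : 1 ≤ ξ * Real.sqrt χ) (hNK : N ≤ C * χ ^ (2 ^ i + 2)) :
    N / χ ^ 3 * ∑ j ∈ Finset.range (2 * 2 ^ i - 1), uu q (Real.sqrt χ) N (2 * 2 ^ i - 1 - j) *
        uu q (Real.sqrt χ) N (j + 1) ≤
      2 * 2 ^ i * (q ^ (2 * 2 ^ i) * χ ^ (2 * 2 ^ i) * ((C + 3) * ξ)) := by
  have hs1 : 1 ≤ Real.sqrt χ := Real.one_le_sqrt.2 hχ
  have hξ0 : 0 < ξ := by
    by_contra h
    have : ξ * Real.sqrt χ ≤ 0 := mul_nonpos_of_nonpos_of_nonneg (not_lt.1 h) (by linarith)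
    linarith
  have hterm : ∀ j ∈ Finset.range (2 * 2 ^ i - 1), N / χ ^ 3 *
      (uu q (Real.sqrt χ) N (2 * 2 ^ i - 1 - j) * uu q (Real.sqrt χ) N (j + 1)) ≤
      q ^ (2 * 2 ^ i) * χ ^ (2 * 2 ^ i) * ((C + 3) * ξ) := by
    intro j hj
    have hj' := Finset.mem_range.1 hj
    obtain ⟨a, ha⟩ : ∃ a, 2 * 2 ^ i - 1 - j = a + 1 := ⟨2 * 2 ^ i - 1 - j - 1, by omega⟩
    rw [ha]
    exact H10b_term (2 ^ i) a j (by omega) hC hq hχ hN hξ0 hξ2 hNK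
  rw [Finset.mul_sum]
  refine (Finset.sum_le_sum hterm).trans ?_
  rw [Finset.sum_const, Finset.card_range, nsmul_eq_mul]
  have hnn : 0 ≤ q ^ (2 * 2 ^ i) * χ ^ (2 * 2 ^ i) * ((C + 3) * ξ) := by
    have : 0 ≤ χ := by linarith
    positivity
  have hc : ((2 * 2 ^ i - 1 : ℕ) : ℝ) ≤ 2 * 2 ^ i := by
    have h1 : 2 * 2 ^ i - 1 ≤ 2 * 2 ^ i := Nat.sub_le _ _
    calc ((2 * 2 ^ i - 1 : ℕ) : ℝ) ≤ ((2 * 2 ^ i : ℕ) : ℝ) := by exact_mod_cast h1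
      _ = 2 * 2 ^ i := by push_cast; ring
  calc ((2 * 2 ^ i - 1 : ℕ) : ℝ) * (q ^ (2 * 2 ^ i) * χ ^ (2 * 2 ^ i) * ((C + 3) * ξ))
      ≤ (2 * 2 ^ i) * (q ^ (2 * 2 ^ i) * χ ^ (2 * 2 ^ i) * ((C + 3) * ξ)) :=
        mul_le_mul_of_nonneg_right hc hnn
    _ = _ := by ring

/-- Row H11. The mean of the trace, final form: `Hyp.tr` with `uu`, `vvK_le`, `uu_sum`; `χ ≤ 2 cg`. -/
lemma Hyp.PT {p χ C K2 δ γ : ℝ} {i : ℕ} {z : V} (H : Hyp ends p χ C K2 δ γ i z) {B ξ b : ℝ}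
    (hB : 1 ≤ B) (hξ : χ ^ 3 ≤ ξ * (Fintype.card V)) (hξ1 : ξ ≤ 1) (hξ2 : 1 ≤ ξ * Real.sqrt χ) :
    Ex p (fun ω => ∑ A ∈ gs ends (kz z) ω (al C χ) b (vvK C K2 B χ (Fintype.card V)) (2 * 2 ^ i - 1),
      UU (MK (kz z) (al C χ)) (gs ends (kz z) ω (al C χ) b (vvK C K2 B χ (Fintype.card V))
        (2 * 2 ^ i - 1)) (2 * 2 ^ i) A A) ≤
      (1 + (4 ^ (2 ^ i) * γ + 216 * C ^ 4 * k2 (2 * 2 ^ i - 1) * (2 * 2 ^ i) *
        (4 * B * C * (36 * C ^ 2 * K2)) ^ (2 * 2 ^ i) * (C + 3) * ξ)) *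
        (2 * cg ends p C χ) ^ (2 * 2 ^ i) := by
  have hχ0 : (0:ℝ) < χ := lt_of_lt_of_le one_pos H.hχ1
  have hC0 : (0:ℝ) ≤ C := zero_le_one.trans H.hC
  have hK0 : (0:ℝ) ≤ K2 := zero_le_one.trans H.hK2
  have hB0 : (0:ℝ) ≤ B := zero_le_one.trans hB
  have hq : 0 ≤ 4 * B * C * (36 * C ^ 2 * K2) := by positivity
  have hσ : 1 ≤ Real.sqrt χ := by
    rw [Real.one_le_sqrt]
    exact H.hχ1
  have hσ6 : Real.sqrt χ ^ 6 = χ ^ 3 := by
    rw [show (6:ℕ) = 2 * 3 by norm_num, pow_mul, Real.sq_sqrt hχ0.le]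
  have hN : Real.sqrt χ ^ 6 ≤ (Fintype.card V : ℝ) := by
    rw [hσ6]
    exact H.hV3
  have hξ0 : 0 ≤ ξ := by
    by_contra hneg
    have h0 : ξ * Real.sqrt χ ≤ 0 :=
      mul_nonpos_of_nonpos_of_nonneg (not_le.mp hneg).le (Real.sqrt_nonneg _)
    linarith
  have h := H.tr b (vvK C K2 B χ (Fintype.card V))
    (uu (4 * B * C * (36 * C ^ 2 * K2)) (Real.sqrt χ) (Fintype.card V)) rfl
    (fun n => uu_nonneg hq hσ hN n) (fun l m => uu_mul hq hσ hN l m)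
    (fun l hl => vvK_le H.hC H.hK2 hB H.hχ1 H.hV3 l hl)
  refine h.trans ?_
  have hs := uu_sum (q := 4 * B * C * (36 * C ^ 2 * K2)) i H.hi H.hC hq H.hχ1 hξ hξ1 hξ2 H.hVK
  have hcg : χ ≤ 2 * cg ends p C χ := by
    have := H.cg_low
    linarith
  have hpow : χ ^ (2 * 2 ^ i) ≤ (2 * cg ends p C χ) ^ (2 * 2 ^ i) :=
    pow_le_pow_left₀ hχ0.le hcg _
  have hk := k2_nonneg (2 * 2 ^ i - 1)
  have hγ := H.hγ
  generalize (2 * cg ends p C χ) ^ (2 * 2 ^ i) = P at *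
  generalize k2 (2 * 2 ^ i - 1) = k at *
  generalize (∑ j ∈ Finset.range (2 * 2 ^ i - 1),
    uu (4 * B * C * (36 * C ^ 2 * K2)) (Real.sqrt χ) (Fintype.card V) (2 * 2 ^ i - 1 - j) *
      uu (4 * B * C * (36 * C ^ 2 * K2)) (Real.sqrt χ) (Fintype.card V) (j + 1)) = S at *
  have hQ : 0 ≤ (4 * B * C * (36 * C ^ 2 * K2)) ^ (2 * 2 ^ i) := pow_nonneg hq _
  generalize (4 * B * C * (36 * C ^ 2 * K2)) ^ (2 * 2 ^ i) = Q at *
  have e1 : (4:ℝ) ^ (2 ^ i) * (γ * χ ^ (2 * 2 ^ i)) ≤ 4 ^ (2 ^ i) * γ * P := by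
    rw [mul_assoc]
    exact mul_le_mul_of_nonneg_left (mul_le_mul_of_nonneg_left hpow hγ) (by positivity)
  have e2 : 216 * C ^ 4 * (Fintype.card V : ℝ) / χ ^ 3 * (k * S) ≤
      216 * C ^ 4 * k * (2 * 2 ^ i) * Q * (C + 3) * ξ * P := by
    calc 216 * C ^ 4 * (Fintype.card V : ℝ) / χ ^ 3 * (k * S)
        = 216 * C ^ 4 * k * ((Fintype.card V : ℝ) / χ ^ 3 * S) := by ring
      _ ≤ 216 * C ^ 4 * k * (2 * 2 ^ i * (Q * χ ^ (2 * 2 ^ i) * ((C + 3) * ξ))) :=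
          mul_le_mul_of_nonneg_left hs (by positivity)
      _ = 216 * C ^ 4 * k * (2 * 2 ^ i) * Q * (C + 3) * ξ * χ ^ (2 * 2 ^ i) := by ring
      _ ≤ 216 * C ^ 4 * k * (2 * 2 ^ i) * Q * (C + 3) * ξ * P :=
          mul_le_mul_of_nonneg_left hpow (by positivity)
  calc _ ≤ P + 4 ^ (2 ^ i) * γ * P + 216 * C ^ 4 * k * (2 * 2 ^ i) * Q * (C + 3) * ξ * P :=
        add_le_add (add_le_add le_rfl e1) e2
    _ = _ := by ring

open scoped Classical in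
/-- Row H12. Lower bound for the trace on the good event, from `trace_low`, `wMw`, `ww`: if `(1 - ε) Λ Z ≤ X` and `Y ≤ (1 + ε) Z`
then `T ≥ (X / Y) ^ (2 m) ≥ (1 - 2 ε) ^ (2 m) Λ ^ (2 m) ≥ (1 - 4 m ε) Λ ^ (2 m)` (Bernoulli), `m = 2 ^ i`. -/
lemma trace_good {κ : V → V → ℝ} (hκ : ∀ x y, 0 ≤ κ x y) (hs : ∀ x y, κ x y = κ y x) {a Λ Z ε : ℝ}
    (s : Finset (Finset V)) (i : ℕ) (ha : 0 ≤ a) (hΛ : 0 < Λ) (hZ : 0 < Z) (hε0 : 0 ≤ ε) (hε1 : ε ≤ 1 / 4)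
    (hX : (1 - ε) * (Λ * Z) ≤ Xk κ a s) (hY : Yk a s ≤ (1 + ε) * Z) :
    (1 - 4 * 2 ^ i * ε) * Λ ^ (2 * 2 ^ i) ≤ ∑ A ∈ s, UU (MK κ a) s (2 * 2 ^ i) A A := by
  have hsym : ∀ A B, MK κ a A B = MK κ a B A := by
    intro A B
    unfold MK
    by_cases h : A = B
    · rw [if_pos h, if_pos h.symm]
    · rw [if_neg h, if_neg (Ne.symm h)]
      have h1 : NK κ A B = NK κ B A := by
        unfold NK
        rw [Finset.sum_comm]
        exact Finset.sum_congr rfl fun x _ => Finset.sum_congr rfl fun y _ => hs _ _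
      rw [h1]
      ring
  have hX0 : 0 < (1 - ε) * (Λ * Z) := mul_pos (by linarith) (mul_pos hΛ hZ)
  have hXp : 0 < Xk κ a s := lt_of_lt_of_le hX0 hX
  have h1 := trace_low (MK κ a) hsym s (wK a) i (by rw [wMw κ ha s]; exact hXp.le)
  rw [wMw κ ha s, ww ha s] at h1
  have hY0 : 0 ≤ Yk a s := by
    rw [← ww ha s]
    exact Finset.sum_nonneg fun A _ => sq_nonneg _
  obtain ⟨T, hT⟩ : ∃ T, T = ∑ A ∈ s, UU (MK κ a) s (2 * 2 ^ i) A A := ⟨_, rfl⟩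
  obtain ⟨n, hn⟩ : ∃ n : ℕ, n = 2 * 2 ^ i := ⟨_, rfl⟩
  rw [← hT, ← hn] at h1 ⊢
  have hT0 : 0 ≤ T := by
    by_contra hneg
    have h2 : Yk a s ^ n * T ≤ 0 :=
      mul_nonpos_of_nonneg_of_nonpos (pow_nonneg hY0 n) (le_of_lt (not_le.1 hneg))
    exact absurd (pow_pos hXp n) (not_lt.2 (h1.trans h2))
  have hP : 0 < (1 + ε) * Z := mul_pos (by linarith) hZ
  have h3 : ((1 - 2 * ε) * Λ) ^ n * ((1 + ε) * Z) ^ n ≤ T * ((1 + ε) * Z) ^ n := by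
    rw [← mul_pow]
    calc ((1 - 2 * ε) * Λ * ((1 + ε) * Z)) ^ n ≤ ((1 - ε) * (Λ * Z)) ^ n := by
          apply pow_le_pow_left₀
          · apply mul_nonneg _ hP.le
            exact mul_nonneg (by linarith) hΛ.le
          · have h4 : 0 ≤ 2 * ε ^ 2 * (Λ * Z) := by
              have := mul_pos hΛ hZ
              positivity
            linear_combination h4
      _ ≤ Xk κ a s ^ n := pow_le_pow_left₀ hX0.le hX n
      _ ≤ Yk a s ^ n * T := h1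
      _ ≤ ((1 + ε) * Z) ^ n * T :=
        mul_le_mul_of_nonneg_right (pow_le_pow_left₀ hY0 hY n) hT0
      _ = T * ((1 + ε) * Z) ^ n := mul_comm _ _
  have h5 : ((1 - 2 * ε) * Λ) ^ n ≤ T := le_of_mul_le_mul_right h3 (pow_pos hP n)
  have h6 : 1 + (n : ℝ) * (-(2 * ε)) ≤ (1 + -(2 * ε)) ^ n :=
    one_add_mul_le_pow (by linarith) n
  have h7 : (1 - 4 * 2 ^ i * ε) ≤ (1 - 2 * ε) ^ n := by
    have h8 : (n : ℝ) = 2 * 2 ^ i := by
      rw [hn]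
      push_cast
      ring
    rw [h8] at h6
    have h9 : (1 : ℝ) + -(2 * ε) = 1 - 2 * ε := by ring
    rw [h9] at h6
    linarith
  calc (1 - 4 * 2 ^ i * ε) * Λ ^ n ≤ (1 - 2 * ε) ^ n * Λ ^ n :=
        mul_le_mul_of_nonneg_right h7 (pow_nonneg hΛ.le n)
    _ = ((1 - 2 * ε) * Λ) ^ n := by rw [mul_pow]
    _ ≤ T := h5

end Pool.Agent.PERC29
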