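import Pool.Agent.Lib.MP_29e17e_pr.U.Sp
import Pool.Agent.Lib.MP_29e17e_pr.U.Sl
import Pool.Agent.Lib.MP_29e17e_pr.Prd

set_option autoImplicit false
set_option linter.unusedSectionVars false

/-! The bounds at the level `q`. -/

open Finset

namespace Pool.Agent.PERC29

variable {V : Type} [Fintype V] [DecidableEq V] {E : Type} [Fintype E]
  [DecidableEq E] {ends : E → Sym2 V}

/-- Three independent configurations. -/
noncomputable def E3 (p s s' : ℝ) (F : (E → Bool) → (E → Bool) → (E → Bool) → ℝ) : ℝ :=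
  Ex p (fun ω => Ex s (fun ω' => Ex s' (fun ω'' => F ω ω' ω'')))

lemma E3_mono {p s s' : ℝ} (h0 : 0 ≤ p) (h1 : p ≤ 1) (g0 : 0 ≤ s) (g1 : s ≤ 1) (k0 : 0 ≤ s')
    (k1 : s' ≤ 1) {F G : (E → Bool) → (E → Bool) → (E → Bool) → ℝ}
    (h : ∀ ω ω' ω'', F ω ω' ω'' ≤ G ω ω' ω'') : E3 p s s' F ≤ E3 p s s' G :=
  Ex_mono h0 h1 fun ω => Ex_mono g0 g1 fun ω' => Ex_mono k0 k1 fun ω'' => h ω ω' ω''

lemma E3_add (p s s' : ℝ) (F G : (E → Bool) → (E → Bool) → (E → Bool) → ℝ) :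
    E3 p s s' (fun ω ω' ω'' => F ω ω' ω'' + G ω ω' ω'') = E3 p s s' F + E3 p s s' G := by
  unfold E3
  rw [← Ex_add]
  refine Ex_congr fun ω => ?_
  rw [← Ex_add]
  refine Ex_congr fun ω' => ?_
  rw [← Ex_add]

lemma E3_fst (p s s' : ℝ) (F : (E → Bool) → ℝ) :
    E3 p s s' (fun ω _ _ => F ω) = Ex p F := by
  unfold E3
  refine Ex_congr fun ω => ?_
  rw [Ex_const, Ex_const]

lemma orc_assoc (ω ω' ω'' : E → Bool) : orc (orc ω ω') ω'' = orc ω (orc ω' ω'') := by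
  funext e
  unfold orc
  exact Bool.or_assoc _ _ _

/-- The law of the first two together. -/
lemma E3_snd (p s s' : ℝ) (F : (E → Bool) → ℝ) :
    E3 p s s' (fun ω ω' _ => F (orc ω ω')) = Ex (1 - (1 - p) * (1 - s)) F := by
  unfold E3
  rw [Ex_orc]
  refine Ex_congr fun ω => Ex_congr fun ω' => ?_
  rw [Ex_const]

/-- The law of all three together. -/
lemma E3_all (p s s' : ℝ) (F : (E → Bool) → ℝ) :
    E3 p s s' (fun ω ω' ω'' => F (orc (orc ω ω') ω'')) =
      Ex (1 - (1 - (1 - (1 - p) * (1 - s))) * (1 - s')) F := by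
  unfold E3
  rw [Ex_orc (1 - (1 - p) * (1 - s)) s', Ex_orc p s]

/-- The first and the last. -/
lemma E3_fl (p s s' : ℝ) (F : (E → Bool) → (E → Bool) → ℝ) :
    E3 p s s' (fun ω ω' ω'' => F ω (orc (orc ω ω') ω'')) =
      Ex p (fun ω => Ex (1 - (1 - s) * (1 - s')) (fun ω' => F ω (orc ω ω'))) := by
  unfold E3
  refine Ex_congr fun ω => ?_
  rw [Ex_orc s s']
  refine Ex_congr fun ω' => Ex_congr fun ω'' => ?_
  show F ω (orc (orc ω ω') ω'') = F ω (orc ω (orc ω' ω''))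
  rw [orc_assoc]

open scoped Classical in
lemma E3_mark {p s s' : ℝ} (h0 : 0 ≤ p) (h1 : p ≤ 1) (g0 : 0 ≤ s) (g1 : s ≤ 1) (k0 : 0 ≤ s')
    (k1 : s' ≤ 1) (X : (E → Bool) → (E → Bool) → (E → Bool) → ℝ) (t : ℝ) (ht : 0 < t)
    (hX : ∀ ω ω' ω'', 0 ≤ X ω ω' ω'') :
    E3 p s s' (fun ω ω' ω'' => if t < X ω ω' ω'' then (1 : ℝ) else 0) ≤ E3 p s s' X / t := by
  have h : ∀ ω ω' ω'', (if t < X ω ω' ω'' then (1 : ℝ) else 0) ≤ (1 / t) * X ω ω' ω'' := by
    intro ω ω' ω''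
    split_ifs with h
    · rw [one_div, ← div_eq_inv_mul, le_div_iff₀ ht]; linarith
    · exact mul_nonneg (by positivity) (hX _ _ _)
  have e : E3 p s s' (fun ω ω' ω'' => (1 / t) * X ω ω' ω'') = (1 / t) * E3 p s s' X := by
    unfold E3
    rw [← Ex_mul_left]
    refine Ex_congr fun ω => ?_
    rw [← Ex_mul_left]
    refine Ex_congr fun ω' => ?_
    rw [← Ex_mul_left]
  refine (E3_mono h0 h1 g0 g1 k0 k1 h).trans (le_of_eq ?_)
  rw [e]
  ring

/-- The hypotheses about the levels between `p` and `q`. -/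
structure HypU (ends : E → Sym2 V) (p q χ C L : ℝ) (D : ℕ) : Prop where
  h0 : 0 < p
  hpq : p < q
  hq : q < 1
  hC : 1 ≤ C
  hL : 1 ≤ L
  hD : 1 ≤ D
  hχ1 : 1 ≤ χ
  hqD : q * D ≤ C
  hdeg : ∀ x, ∑ y, nb ends x y ≤ D
  hχ : ∀ x, Ex p (fun ω => cz ends ω x) = χ
  hT : ∀ r, p ≤ r → r ≤ q → ∀ x, ∀ k : ℕ, 1 ≤ k →
    Ex r (fun ω => if (k : ℝ) ≤ cz ends ω x then (1 : ℝ) else 0) ≤
      C * (1 / Real.sqrt k + D * (r - p))
  hqp : q - p ≤ L / (D * χ)

variable {p q χ C L : ℝ} {D : ℕ}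

lemma HypU.dq (H : HypU ends p q χ C L D) : D * (q - p) ≤ L / χ := by
  have hD : (0 : ℝ) < D := by exact_mod_cast H.hD
  have hχ : 0 < χ := by linarith [H.hχ1]
  have h := mul_le_mul_of_nonneg_left H.hqp hD.le
  have h2 : (D : ℝ) * (L / (D * χ)) = L / χ := by field_simp
  linarith

open scoped Classical in
lemma HypU.tail (H : HypU ends p q χ C L D) (x : V) {t : ℝ} (ht : 0 < t) :
    Ex q (fun ω => if t ≤ cz ends ω x then (1 : ℝ) else 0) ≤ C * (1 / Real.sqrt t + L / χ) := by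
  have hC0 : 0 ≤ C := by linarith [H.hC]
  have hq0 : 0 ≤ q := by linarith [H.h0, H.hpq]
  have hk : 1 ≤ ⌈t⌉₊ := Nat.one_le_ceil_iff.2 ht
  have h1 := H.hT q H.hpq.le le_rfl x ⌈t⌉₊ hk
  have h2 : Ex q (fun ω => if t ≤ cz ends ω x then (1 : ℝ) else 0) =
      Ex q (fun ω => if ((⌈t⌉₊ : ℕ) : ℝ) ≤ cz ends ω x then (1 : ℝ) else 0) := by
    refine Ex_congr fun ω => ?_
    have : t ≤ cz ends ω x ↔ ((⌈t⌉₊ : ℕ) : ℝ) ≤ cz ends ω x := by
      unfold cz
      rw [Nat.cast_le, Nat.ceil_le]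
    simp only [this]
  rw [h2]
  refine h1.trans ?_
  refine mul_le_mul_of_nonneg_left ?_ hC0
  have h3 : 1 / Real.sqrt ((⌈t⌉₊ : ℕ) : ℝ) ≤ 1 / Real.sqrt t :=
    one_div_le_one_div_of_le (Real.sqrt_pos.2 ht) (Real.sqrt_le_sqrt (Nat.le_ceil t))
  linarith [H.dq]

lemma HypU.mn (H : HypU ends p q χ C L D) (x : V) {a : ℝ} (ha : 1 ≤ a) :
    Ex q (fun ω => min (cz ends ω x) a) ≤ 3 * C * Real.sqrt a + 2 * C * (L / χ) * a := by
  have hC0 : 0 ≤ C := by linarith [H.hC]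
  have hq0 : 0 ≤ q := by linarith [H.h0, H.hpq]
  have hw : (0 : ℝ) ≤ D * (q - p) := mul_nonneg (Nat.cast_nonneg _) (by linarith [H.hpq])
  have h := min_tail2 (ends := ends) hq0 H.hq.le hC0 hw x
    (fun k hk => H.hT q H.hpq.le le_rfl x k hk) ha
  refine h.trans ?_
  have h2 : 2 * C * (D * (q - p)) * a ≤ 2 * C * (L / χ) * a := by
    refine mul_le_mul_of_nonneg_right ?_ (by linarith)
    exact mul_le_mul_of_nonneg_left H.dq (by linarith)
  linarith

lemma HypU.mgq (H : HypU ends p q χ C L D) (x : V) {a : ℝ} (ha : 1 ≤ a) :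
    Ex q (mg ends (1 / a) x) ≤ (1 / a) * (3 * C * Real.sqrt a + 2 * C * (L / χ) * a) := by
  have hq0 : 0 ≤ q := by linarith [H.h0, H.hpq]
  refine (mg_min hq0 H.hq.le ha x).trans ?_
  exact mul_le_mul_of_nonneg_left (H.mn x ha) (by positivity)

lemma HypU.mnp (H : HypU ends p q χ C L D) (x : V) {a : ℝ} (ha : 1 ≤ a) :
    Ex p (fun ω => min (cz ends ω x) a) ≤ 3 * C * Real.sqrt a := by
  have hC0 : 0 ≤ C := by linarith [H.hC]
  refine min_tail (ends := ends) H.h0.le (by linarith [H.hpq, H.hq]) hC0 x (fun k hk => ?_) ha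
  have := H.hT p le_rfl H.hpq.le x k hk
  refine this.trans (le_of_eq ?_)
  rw [sub_self, mul_zero, add_zero, mul_one_div]

/-- `1 - (1 - 1/χ²)^t ≥ 1/2` for `t ≥ χ²`. -/
lemma mg_half {χ : ℝ} (hχ : 1 ≤ χ) (ω : E → Bool) (x : V) (h : χ ^ 2 ≤ cz ends ω x) :
    1 / 2 ≤ mg ends (1 / χ ^ 2) x ω := by
  have hχ0 : 0 < χ := by linarith
  have h1 : (1 : ℝ) ≤ χ ^ 2 := one_le_pow₀ hχ
  unfold mg
  set t : ℕ := (cl ends ω Set.univ x).card with ht
  have ht1 : χ ^ 2 ≤ (t : ℝ) := h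
  have h2 : (1 - 1 / χ ^ 2) ^ t ≤ Real.exp (-1) := by
    have h3 : 1 - 1 / χ ^ 2 ≤ Real.exp (-(1 / χ ^ 2)) := by
      have := Real.add_one_le_exp (-(1 / χ ^ 2))
      linarith
    have h4 : 0 ≤ 1 - 1 / χ ^ 2 := by
      have : 1 / χ ^ 2 ≤ 1 := by rw [div_le_one (by positivity)]; exact h1
      linarith
    calc (1 - 1 / χ ^ 2) ^ t ≤ (Real.exp (-(1 / χ ^ 2))) ^ t := pow_le_pow_left₀ h4 h3 t
      _ = Real.exp (t * (-(1 / χ ^ 2))) := by rw [← Real.exp_nat_mul]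
      _ ≤ Real.exp (-1) := by
          apply Real.exp_le_exp.2
          have : 1 ≤ (t : ℝ) * (1 / χ ^ 2) := by
            rw [mul_one_div, le_div_iff₀ (by positivity)]; linarith
          linarith
  have h5 : Real.exp (-1) ≤ 1 / 2 := by
    rw [Real.exp_neg, one_div]
    apply inv_anti₀ (by norm_num)
    have := Real.add_one_le_exp (1 : ℝ)
    linarith
  linarith

open scoped Classical in
/-- The vertices of large clusters after sprinkling in small clusters before. -/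
lemma HypU.f3 (H : HypU ends p q χ C L D) {s KC t h' : ℝ} (hs0 : 0 ≤ s) (hs1 : s ≤ 1)
    (hsq : 1 - (1 - p) * (1 - s) = q) (hsK : s ≤ KC * (q - p)) (hKC : 0 ≤ KC) (ht : 1 ≤ t)
    (hh : χ ^ 2 ≤ h') :
    Ex p (fun ω => Ex s (fun ω' =>
      ((Finset.univ.filter (fun x => cz ends ω x < t ∧ h' ≤ cz ends (orc ω ω') x)).card : ℝ))) ≤
      (Fintype.card V) * (2 * ((1 + KC * L * (3 * C + 2 * C * L)) / χ ^ 2) *
        (3 * C * Real.sqrt t)) := by
  have hχ0 : 0 < χ := by linarith [H.hχ1]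
  have hC0 : 0 < C := by linarith [H.hC]
  have hL0 : 0 < L := by linarith [H.hL]
  have hD0 : (0 : ℝ) < D := by exact_mod_cast H.hD
  have hχ2 : (1 : ℝ) ≤ χ ^ 2 := one_le_pow₀ H.hχ1
  have hp1 : p ≤ 1 := by linarith [H.hpq, H.hq]
  set M : ℝ := (3 * C + 2 * C * L) / χ with hM
  have hMq : ∀ y, Ex (1 - (1 - p) * (1 - s)) (mg ends (1 / χ ^ 2) y) ≤ M := by
    intro y
    rw [hsq]
    refine (H.mgq y hχ2).trans (le_of_eq ?_)
    rw [Real.sqrt_sq hχ0.le, hM]
    field_simp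
  have hx : ∀ x, Ex p (fun ω => Ex s (fun ω' =>
      if cz ends ω x < t ∧ h' ≤ cz ends (orc ω ω') x then (1 : ℝ) else 0)) ≤
      2 * ((1 + KC * L * (3 * C + 2 * C * L)) / χ ^ 2) * (3 * C * Real.sqrt t) := by
    intro x
    have h1 := small_part (ends := ends) (p := p) (s := s) (g := 1 / χ ^ 2) (M := M) (W := D)
      (a := t) H.h0.le hp1 hs0 hs1 (by positivity)
      (by rw [div_le_one (by positivity)]; exact hχ2) hMq H.hdeg (by linarith) x
    have h2 : Ex p (fun ω => Ex s (fun ω' =>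
        if cz ends ω x < t ∧ h' ≤ cz ends (orc ω ω') x then (1 : ℝ) else 0)) ≤
        2 * Ex p (fun ω => Ex s (fun ω' => (if cz ends ω x < t then 1 else 0) *
          mg ends (1 / χ ^ 2) x (orc ω ω'))) := by
      rw [← Ex_mul_left]
      refine Ex_mono H.h0.le hp1 fun ω => ?_
      rw [← Ex_mul_left]
      refine Ex_mono hs0 hs1 fun ω' => ?_
      by_cases hc : cz ends ω x < t ∧ h' ≤ cz ends (orc ω ω') x
      · rw [if_pos hc, if_pos hc.1]
        have := mg_half (ends := ends) H.hχ1 (orc ω ω') x (hh.trans hc.2)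
        linarith
      · rw [if_neg hc]
        have h0 : 0 ≤ mg ends (1 / χ ^ 2) x (orc ω ω') := by
          unfold mg
          have h4 : 0 ≤ 1 - 1 / χ ^ 2 := by
            have : 1 / χ ^ 2 ≤ 1 := by rw [div_le_one (by positivity)]; exact hχ2
            linarith
          have h5 : (1 - 1 / χ ^ 2) ^ (cl ends (orc ω ω') Set.univ x).card ≤ 1 :=
            pow_le_one₀ h4 (by have : 0 ≤ 1 / χ ^ 2 := by positivity
                               linarith)
          linarith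
        split_ifs
        · rw [one_mul]; linarith
        · rw [zero_mul, mul_zero]
    have h3 := H.mnp x ht
    have h4 : 1 / χ ^ 2 + s * D * M ≤ (1 + KC * L * (3 * C + 2 * C * L)) / χ ^ 2 := by
      have h5 : s * D ≤ KC * (L / χ) := by
        calc s * D ≤ (KC * (q - p)) * D := mul_le_mul_of_nonneg_right hsK hD0.le
          _ = KC * (D * (q - p)) := by ring
          _ ≤ KC * (L / χ) := mul_le_mul_of_nonneg_left H.dq hKC
      have hM0 : 0 ≤ M := by positivity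
      have h6 : s * D * M ≤ KC * (L / χ) * M := mul_le_mul_of_nonneg_right h5 hM0
      have h7 : KC * (L / χ) * M = KC * L * (3 * C + 2 * C * L) / χ ^ 2 := by
        rw [hM]; field_simp
      have h8 : (1 + KC * L * (3 * C + 2 * C * L)) / χ ^ 2 =
          1 / χ ^ 2 + KC * L * (3 * C + 2 * C * L) / χ ^ 2 := by ring
      linarith
    have hmn0 : 0 ≤ Ex p (fun ω => min (cz ends ω x) t) :=
      Ex_nonneg H.h0.le hp1 fun ω => le_min (cz_nonneg _ _) (by linarith)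
    calc _ ≤ 2 * Ex p (fun ω => Ex s (fun ω' => (if cz ends ω x < t then 1 else 0) *
          mg ends (1 / χ ^ 2) x (orc ω ω'))) := h2
      _ ≤ 2 * ((1 / χ ^ 2 + s * D * M) * Ex p (fun ω => min (cz ends ω x) t)) :=
          mul_le_mul_of_nonneg_left h1 (by norm_num)
      _ ≤ 2 * (((1 + KC * L * (3 * C + 2 * C * L)) / χ ^ 2) * (3 * C * Real.sqrt t)) := by
          refine mul_le_mul_of_nonneg_left ?_ (by norm_num)
          exact mul_le_mul h4 h3 hmn0 (by positivity)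
      _ = _ := by ring
  calc _ = ∑ x, Ex p (fun ω => Ex s (fun ω' =>
      if cz ends ω x < t ∧ h' ≤ cz ends (orc ω ω') x then (1 : ℝ) else 0)) := by
        rw [← Ex_sum]
        refine Ex_congr fun ω => ?_
        rw [← Ex_sum]
        refine Ex_congr fun ω' => ?_
        rw [Finset.card_filter]
        push_cast
        rfl
    _ ≤ ∑ _x : V, 2 * ((1 + KC * L * (3 * C + 2 * C * L)) / χ ^ 2) * (3 * C * Real.sqrt t) :=
        Finset.sum_le_sum fun x _ => hx x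
    _ = _ := by
        rw [Finset.sum_const, Finset.card_univ, nsmul_eq_mul]

open scoped Classical in
lemma HypU.cnt (H : HypU ends p q χ C L D) {h' : ℝ} (hh : χ ^ 2 ≤ h') :
    ∑ x, Ex q (fun ω => if h' ≤ cz ends ω x then (1 : ℝ) else 0) ≤
      C * (1 + L) * ((Fintype.card V) / χ) := by
  have hχ0 : 0 < χ := by linarith [H.hχ1]
  have hC0 : 0 < C := by linarith [H.hC]
  have hχ2 : 0 < χ ^ 2 := by positivity
  have h1 : ∀ x, Ex q (fun ω => if h' ≤ cz ends ω x then (1 : ℝ) else 0) ≤ C * (1 + L) / χ := by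
    intro x
    refine (H.tail x (lt_of_lt_of_le hχ2 hh)).trans ?_
    have h2 : 1 / Real.sqrt h' ≤ 1 / χ := by
      refine one_div_le_one_div_of_le hχ0 ?_
      rw [← Real.sqrt_sq hχ0.le]
      exact Real.sqrt_le_sqrt hh
    have h3 : C * (1 + L) / χ = C * (1 / χ + L / χ) := by ring
    rw [h3]
    exact mul_le_mul_of_nonneg_left (by linarith) hC0.le
  calc _ ≤ ∑ _x : V, C * (1 + L) / χ := Finset.sum_le_sum fun x _ => h1 x
    _ = _ := by
        rw [Finset.sum_const, Finset.card_univ, nsmul_eq_mul]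
        ring

end Pool.Agent.PERC29
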