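import Pool.Agent.Lib.MP_29e17e_pr.U.Ct
import Pool.Agent.Lib.MP_29e17e_pr.U.Lv

set_option autoImplicit false
set_option linter.unusedSectionVars false

/-! The main concentration theorem. -/

open Finset

namespace Pool.Agent.PERC29

variable {V : Type} [Fintype V] [DecidableEq V] [AddCommGroup V] {E : Type} [Fintype E]
  [DecidableEq E] {ends : E → Sym2 V}

/-- The other hypotheses. -/
structure HypZ (ends : E → Sym2 V) (p χ C δ γ : ℝ) (i r D : ℕ) (z : V) (w : ℕ → V) : Prop where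
  hinv : ∀ (ψ : ℕ → ℝ) (x y g : V), TK ends ψ p (x + g) (y + g) = TK ends ψ p x y
  hQ : ∀ n : ℕ, 2 ≤ n → n ≤ 2 * 2 ^ i → cv ends p (2 * n) 0 0 ≤
    C * (χ ^ (n - 2) + χ ^ (2 * n) / (Fintype.card V))
  hS : cv ends p (2 * 2 ^ i) 0 0 ≤ (1 + γ) * χ ^ (2 * 2 ^ i) / (Fintype.card V)
  hO : cv ends p 3 0 z ≤ δ
  hVK : (Fintype.card V) ≤ C * χ ^ (2 ^ i + 2)
  hw0 : w 0 = 0
  hwr : w r = z
  hedge : ∀ x, ∀ l < r, ∃ e, ends e = s(x + w l, x + w (l + 1))
  hdegc : ∀ v, (Finset.univ.filter (fun e => v ∈ ends e)).card ≤ D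

variable {p q χ C L δ γ : ℝ} {i r D : ℕ} {z : V} {w : ℕ → V}

/-- The lower bound for `p`. -/
lemma HypU.plow (H : HypU ends p q χ C L D) (h2 : 2 ≤ χ) : 1 / (2 * D) ≤ p := by
  have hD : (0 : ℝ) < D := by exact_mod_cast H.hD
  have h := p_low (ends := ends) H.h0.le (by linarith [H.hpq, H.hq]) H.hdeg H.hχ (0 : V)
  rw [div_le_iff₀ (by positivity)]
  nlinarith

/-- The upper bound for `p`. -/
lemma HypU.pup (H : HypU ends p q χ C L D) (h2 : ((⌈4 * C ^ 2⌉₊ + 1 : ℕ) : ℝ) ≤ χ) :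
    1 / (2 * (⌈4 * C ^ 2⌉₊ : ℝ)) ≤ 1 - p := by
  classical
  have hC0 : 0 < C := by linarith [H.hC]
  have hp1 : p < 1 := by linarith [H.hpq, H.hq]
  set n : ℕ := ⌈4 * C ^ 2⌉₊ with hn
  have hn1 : 1 ≤ n := Nat.one_le_ceil_iff.2 (by positivity)
  have hn1' : (1 : ℝ) ≤ n := by exact_mod_cast hn1
  have h3 := p_up (ends := ends) H.h0.le hp1.le (0 : V) (n + 1) (by omega) (by rw [H.hχ]; exact h2)
  have h4 := H.hT p le_rfl H.hpq.le 0 (n + 1) (by omega)
  have h5 : C * (1 / Real.sqrt ((n + 1 : ℕ) : ℝ) + D * (p - p)) ≤ 1 / 2 := by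
    rw [sub_self, mul_zero, add_zero, mul_one_div, div_le_iff₀ (Real.sqrt_pos.2 (by positivity))]
    have h6 : 2 * C ≤ Real.sqrt ((n + 1 : ℕ) : ℝ) := by
      rw [← Real.sqrt_sq (show 0 ≤ 2 * C by positivity)]
      apply Real.sqrt_le_sqrt
      have := Nat.le_ceil (4 * C ^ 2)
      push_cast
      nlinarith
    linarith
  have h6 : p ^ n ≤ 1 / 2 := by
    have : n + 1 - 1 = n := by omega
    rw [this] at h3
    exact h3.trans (h4.trans h5)
  by_contra hcon
  push Not at hcon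
  have h7 : 1 - 1 / (2 * (n : ℝ)) < p := by linarith
  have h8 : 0 ≤ 1 - 1 / (2 * (n : ℝ)) := by
    have : 1 / (2 * (n : ℝ)) ≤ 1 := by
      rw [div_le_one (by positivity)]
      linarith
    linarith
  have h9 : (1 - 1 / (2 * (n : ℝ))) ^ n < p ^ n := pow_lt_pow_left₀ h7 h8 (by omega)
  have h10 := one_add_mul_le_pow (a := -(1 / (2 * (n : ℝ)))) (by linarith) n
  have h11 : 1 + (n : ℝ) * -(1 / (2 * (n : ℝ))) = 1 / 2 := by
    field_simp
    norm_num
  rw [h11] at h10
  have h12 : (1 + -(1 / (2 * (n : ℝ)))) = 1 - 1 / (2 * (n : ℝ)) := by ring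
  rw [h12] at h10
  linarith

lemma cv_nonneg' {p : ℝ} (h0 : 0 ≤ p) (h1 : p ≤ 1) (n : ℕ) (x y : V) :
    0 ≤ cv ends p n x y := by
  induction n generalizing y with
  | zero => unfold cv; split_ifs <;> norm_num
  | succ n ih =>
    unfold cv
    exact Finset.sum_nonneg fun z _ => mul_nonneg (ih z) (ta_nonneg h0 h1 z y)

lemma ta_symm' (p : ℝ) (x y : V) : ta ends p x y = ta ends p y x := by
  unfold ta
  refine Ex_congr fun ω => ?_
  exact if_congr cu_symm rfl rfl

/-- The kernel and the square of the two-point function. -/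
lemma kz_cv {p : ℝ} (h0 : 0 < p) (h1 : p ≤ 1) {b : ℝ} (hb : 0 < b) (hbp : b ≤ p) (r : ℕ) (z : V)
    (w : ℕ → V) (hw0 : w 0 = 0) (hwr : w r = z)
    (hedge : ∀ x, ∀ l < r, ∃ e, ends e = s(x + w l, x + w (l + 1))) (x y : V) :
    ∑ x', kz z x x' * cv ends p 2 x' y ≤ 2 * (1 / b) ^ r * cv ends p 2 x y := by
  have hsum : ∑ x', kz z x x' * cv ends p 2 x' y = cv ends p 2 (x + z) y + cv ends p 2 (x - z) y := by
    unfold kz
    simp only [add_mul, ite_mul, one_mul, zero_mul]
    rw [Finset.sum_add_distrib, Finset.sum_ite_eq', Finset.sum_ite_eq']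
    simp
  have cv2 : ∀ u v : V, cv ends p 2 u v = ∑ t, ta ends p u t * ta ends p t v := by
    intro u v
    have h1' : ∀ t, cv ends p 1 u t = ta ends p u t := by
      intro t
      show ∑ z, (if u = z then (1 : ℝ) else 0) * ta ends p z t = _
      simp
    show ∑ t, cv ends p 1 u t * ta ends p t v = _
    exact Finset.sum_congr rfl fun t _ => by rw [h1']
  have step1 : ∀ u v : V, p ^ r * ta ends p (u + z) v ≤ ta ends p u v := by
    intro u v
    have h := ta_path (ends := ends) h0.le h1 (fun l => u + w l) r (fun l hl => hedge u l hl) v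
    simpa [hw0, hwr] using h
  have step2 : ∀ u v : V, p ^ r * ta ends p (u - z) v ≤ ta ends p u v := by
    intro u v
    have h := ta_path (ends := ends) h0.le h1 (fun l => u - z + w (r - l)) r (fun l hl => by
      obtain ⟨e, he⟩ := hedge (u - z) (r - l - 1) (by omega)
      refine ⟨e, ?_⟩
      have h2 : r - l - 1 + 1 = r - l := by omega
      rw [he, h2, Sym2.eq_swap]
      have h3 : r - (l + 1) = r - l - 1 := by omega
      rw [h3]) v
    simpa [hw0, hwr] using h
  have hcv : ∀ u u' v : V, (∀ t, p ^ r * ta ends p u' t ≤ ta ends p u t) →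
      p ^ r * cv ends p 2 u' v ≤ cv ends p 2 u v := by
    intro u u' v h
    rw [cv2, cv2, Finset.mul_sum]
    refine Finset.sum_le_sum fun t _ => ?_
    rw [← mul_assoc]
    exact mul_le_mul_of_nonneg_right (h t) (ta_nonneg h0.le h1 _ _)
  have a1 := hcv x (x + z) y (step1 x)
  have a2 := hcv x (x - z) y (step2 x)
  have hbr : 0 < b ^ r := by positivity
  have hpr : b ^ r ≤ p ^ r := pow_le_pow_left₀ hb.le hbp r
  have n1 := cv_nonneg' (ends := ends) h0.le h1 2 (x + z) y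
  have n2 := cv_nonneg' (ends := ends) h0.le h1 2 (x - z) y
  have b1 : b ^ r * cv ends p 2 (x + z) y ≤ cv ends p 2 x y :=
    (mul_le_mul_of_nonneg_right hpr n1).trans a1
  have b2 : b ^ r * cv ends p 2 (x - z) y ≤ cv ends p 2 x y :=
    (mul_le_mul_of_nonneg_right hpr n2).trans a2
  rw [hsum, one_div, inv_pow]
  have h3 : 2 * (b ^ r)⁻¹ * cv ends p 2 x y = (2 * cv ends p 2 x y) / b ^ r := by
    field_simp
  rw [h3, le_div_iff₀ hbr]
  linarith

/-- The hypotheses at the level `p`, with a larger constant. -/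
lemma mkHyp (H : HypU ends p q χ C L D) (Z : HypZ ends p χ C δ γ i r D z w) {C' : ℝ} (hCC : C ≤ C')
    (hi : 1 ≤ i) (hδ : 0 ≤ δ) (hγ : 0 ≤ γ) (h2 : 2 ≤ χ) (ha : 36 * C' ^ 2 ≤ χ ^ 2)
    (hV3 : χ ^ 3 ≤ (Fintype.card V)) :
    Hyp ends p χ C' (2 * (2 * D) ^ r) δ γ i z := by
  have hD : (1 : ℝ) ≤ D := by exact_mod_cast H.hD
  have hχ0 : 0 < χ := by linarith
  have hC0 : 0 < C := by linarith [H.hC]
  have hp1 : p < 1 := by linarith [H.hpq, H.hq]
  refine ⟨H.h0, hp1, H.hC.trans hCC, ?_, H.hχ1, hδ, hγ, hi, Z.hinv, H.hχ, ?_, ?_, Z.hS, Z.hO, ?_,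
    ha, hV3, ?_⟩
  · have : (1 : ℝ) ≤ (2 * D) ^ r := one_le_pow₀ (by linarith)
    linarith
  · intro x k hk
    have := H.hT p le_rfl H.hpq.le x k hk
    rw [sub_self, mul_zero, add_zero, mul_one_div] at this
    exact this.trans (div_le_div_of_nonneg_right hCC (Real.sqrt_nonneg _))
  · intro n hn hn2
    exact (Z.hQ n hn hn2).trans (mul_le_mul_of_nonneg_right hCC (by positivity))
  · intro x y
    have h := kz_cv (ends := ends) H.h0 hp1.le (b := 1 / (2 * D)) (by positivity) (H.plow h2) r z w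
      Z.hw0 Z.hwr Z.hedge x y
    simpa using h
  · exact Z.hVK.trans (mul_le_mul_of_nonneg_right hCC (by positivity))

open scoped Classical in
/-- All clusters with at least `h'` vertices outside one large cluster have together at most `v` vertices. -/
def MC (ends : E → Sym2 V) (ω : E → Bool) (m1 h' v : ℝ) : Prop :=
  ∃ x0, m1 ≤ cz ends ω x0 ∧
    ((Finset.univ.filter (fun x => x ∉ cu ends ω x0 ∧ h' ≤ cz ends ω x)).card : ℝ) ≤ v

open scoped Classical in
/-- The giant exists at the level `(p + q) / 2`. -/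
lemma giant_exists (H : HypU ends p q χ C L D) (Z : HypZ ends p χ C δ γ i r D z w) {η : ℝ}
    (hη : 0 < η) (hV : χ ^ 3 ≤ lf C η i * (Fintype.card V))
    (hlow : p + 1 / (lf C η i / 2 * D * χ) ≤ q) :
    Ex ((p + q) / 2) (fun ω => if ∃ x, lf C η i * (Fintype.card V) / χ ≤ cz ends ω x
      then (0 : ℝ) else 1) ≤ η := by
  have hD : (0 : ℝ) < D := by exact_mod_cast H.hD
  have hχ0 : 0 < χ := by linarith [H.hχ1]
  have hC0 : 0 < C := by linarith [H.hC]
  have hlf := lf_pos (η := η) H.hC i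
  have hne : Nonempty V := ⟨0⟩
  have hN0 : (0 : ℝ) < (Fintype.card V) := by
    have : 0 < Fintype.card V := Fintype.card_pos
    exact_mod_cast this
  have hp1 : p < (p + q) / 2 := by linarith [H.hpq]
  have hq1 : (p + q) / 2 < 1 := by linarith [H.hpq, H.hq]
  have hqq : (p + q) / 2 ≤ q := by linarith [H.hpq]
  have hinvta : ∀ x y g : V, ta ends p (x + g) (y + g) = ta ends p x y := by
    intro x y g
    have := Z.hinv (fun _ => 1) x y g
    simpa [TK, ta] using this
  have h := fin_prob2 (ends := ends) (p := p) (q := (p + q) / 2) (χ := χ) (W := D) (C := C) (η := η)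
    i H.hC hη H.h0 hp1 hq1 hD
    ((mul_le_mul_of_nonneg_right hqq hD.le).trans H.hqD) H.hdeg H.hχ
    (fun r hr hr2 x k hk => H.hT r hr (hr2.trans hqq) x k hk)
    (fun x j hj hj2 => by
      have h1 : cv ends p (4 * j) x x = cv ends p (2 * (2 * j)) 0 0 := by
        rw [cv_cp hinvta, cv_cp hinvta, sub_self, sub_self]
        congr 1
        omega
      rw [h1]
      refine (Z.hQ (2 * j) (by omega) (by omega)).trans ?_
      refine mul_le_mul_of_nonneg_left ?_ hC0.le
      have h2 : χ ^ (2 * j - 2) ≤ χ ^ (3 * (j - 1)) := pow_le_pow_right₀ H.hχ1 (by omega)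
      have h3 : 2 * (2 * j) = 4 * j := by ring
      rw [h3]
      linarith)
    (Z.hVK.trans (mul_le_mul_of_nonneg_left (pow_le_pow_right₀ H.hχ1 (by omega)) hC0.le)) hV
    (by
      have h4 : 1 / (lf C η i / 2 * D * χ) = 2 * (1 / (lf C η i * D * χ)) := by
        field_simp
      rw [h4] at hlow
      linarith)
  have h5 : ∀ ω : E → Bool, (if ∃ x, lf C η i * (Fintype.card V) / χ ≤ cz ends ω x
      then (0 : ℝ) else 1) = 1 + (-1) * fm ends (lf C η i * (Fintype.card V) / χ) ω := by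
    intro ω
    unfold fm
    split_ifs <;> norm_num
  rw [Ex_congr h5, Ex_add, Ex_mul_left, Ex_const]
  linarith

end Pool.Agent.PERC29
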