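import Pool.Agent.Lib.MP_29e17e_pr.U.Mc

set_option autoImplicit false
set_option linter.unusedSectionVars false

/-! The main concentration theorem. -/

open Finset

namespace Pool.Agent.PERC29

open scoped Classical in
/-- The deterministic step. -/
lemma mc_det {V : Type} [Fintype V] [DecidableEq V] {E : Type} [Fintype E] [DecidableEq E]
    {ends : E → Sym2 V} (ω ω' ω'' : E → Bool) (x0 : V) {a v h' κ0 m1 C2 : ℝ} {k : ℕ}
    (hκ0 : 0 ≤ κ0) (hm1 : m1 ≤ cz ends (orc ω ω') x0) (hv : 2 * v ≤ m1) (hh : h' ≤ m1)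
    (hC : Cont ends ω a v k)
    (hF3 : ((Finset.univ.filter (fun x => cz ends ω x < a ∧
      h' ≤ cz ends (orc (orc ω ω') ω'') x)).card : ℝ) ≤ v)
    (hF4 : ((Finset.univ.filter (fun x => h' ≤ cz ends (orc (orc ω ω') ω'') x)).card : ℝ) ≤ C2)
    (hF5 : ((Finset.univ.filter (fun x => x ∉ cu ends (orc (orc ω ω') ω'') x0 ∧
        h' ≤ cz ends (orc (orc ω ω') ω'') x ∧ κ0 * cz ends (orc (orc ω ω') ω'') x ≤
          eb ends (cu ends (orc ω ω') x0) (cu ends (orc (orc ω ω') ω'') x))).card : ℝ) ≤ v)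
    (hk : κ0 * C2 ≤ k) :
    MC ends (orc (orc ω ω') ω'') m1 h' (3 * v) := by
  have h01 : ∀ e, ω e = true → orc ω ω' e = true := orc_left ω ω'
  have h12 : ∀ e, orc ω ω' e = true → orc (orc ω ω') ω'' e = true := orc_left _ _
  set ω1 := orc ω ω' with hω1
  set ω2 := orc ω1 ω'' with hω2
  have hsub : cu ends ω1 x0 ⊆ cu ends ω2 x0 := cu_mono h12
  have hcz : ∀ x ∈ cu ends ω1 x0, h' ≤ cz ends ω2 x := by
    intro x hx
    have e1 : cu ends ω1 x = cu ends ω1 x0 := cu_eq hx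
    have e2 : cz ends ω1 x = cz ends ω1 x0 := by unfold cz; rw [e1]
    have e3 : cz ends ω1 x ≤ cz ends ω2 x := cz_mono h12
    linarith
  have hΓ : v ≤ (((cu ends ω1 x0).filter (fun x => a ≤ cz ends ω x)).card : ℝ) := by
    have e1 := Finset.card_filter_add_card_filter_not (s := cu ends ω1 x0)
      (fun x => a ≤ cz ends ω x)
    have e2 : ((cu ends ω1 x0).filter (fun x => ¬ a ≤ cz ends ω x)) ⊆
        Finset.univ.filter (fun x => cz ends ω x < a ∧ h' ≤ cz ends ω2 x) := by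
      intro x hx
      rw [Finset.mem_filter] at hx
      rw [Finset.mem_filter]
      exact ⟨Finset.mem_univ _, not_le.1 hx.2, hcz x hx.1⟩
    have e3 : (((cu ends ω1 x0).filter (fun x => ¬ a ≤ cz ends ω x)).card : ℝ) ≤ v :=
      le_trans (by exact_mod_cast Finset.card_le_card e2) hF3
    have e4 : (((cu ends ω1 x0).filter (fun x => a ≤ cz ends ω x)).card : ℝ) +
        (((cu ends ω1 x0).filter (fun x => ¬ a ≤ cz ends ω x)).card : ℝ) =
        ((cu ends ω1 x0).card : ℝ) := by exact_mod_cast e1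
    have e5 : m1 ≤ ((cu ends ω1 x0).card : ℝ) := hm1
    linarith
  have hk' : κ0 * ((Finset.univ.filter (fun x => h' ≤ cz ends ω2 x)).card : ℝ) ≤ k :=
    (mul_le_mul_of_nonneg_left hF4 hκ0).trans hk
  have := outside_le (ends := ends) ω ω1 ω2 h01 h12 x0 hκ0 hC hΓ hk'
  refine ⟨x0, hm1.trans (cz_mono h12), ?_⟩
  linarith

open scoped Classical in
/-- All clusters of size at least `h χ²`, but one, are small together. -/
theorem mc_prob (i : ℕ) (hi : 1 ≤ i) {C η ζ L : ℝ} (hC : 1 ≤ C) (hη : 0 < η) (hη1 : η ≤ 1)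
    (hL : 1 ≤ L) (hζ : 0 < ζ) (hζ2 : 2 * ζ ≤ lf C η i) :
    ∃ δ γ : ℝ, 0 < δ ∧ 0 < γ ∧ ∀ r D : ℕ, 1 ≤ D → ∃ h ξ : ℝ, 1 ≤ h ∧ 0 < ξ ∧ ξ ≤ 1 ∧
      ∀ (V E : Type) [Fintype V] [DecidableEq V] [AddCommGroup V] [Fintype E] [DecidableEq E]
        (ends : E → Sym2 V) (p q χ : ℝ) (z : V) (w : ℕ → V), HypU ends p q χ C L D →
        HypZ ends p χ C δ γ i r D z w → p + 1 / (lf C η i / 2 * D * χ) ≤ q →
        χ ^ 3 ≤ ξ * (Fintype.card V) → 1 ≤ ξ * Real.sqrt χ →
        Ex q (fun ω => if MC ends ω (lf C η i * (Fintype.card V) / χ) (h * χ ^ 2)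
          (3 * (ζ * (Fintype.card V) / χ)) then (0 : ℝ) else 1) ≤ 5 * η := by
  set c1 : ℝ := lf C η i with hc1
  have hc10 : 0 < c1 := lf_pos hC i
  set n : ℕ := ⌈4 * C ^ 2⌉₊ with hn
  have hn1 : 1 ≤ n := Nat.one_le_ceil_iff.2 (by positivity)
  have hn1' : (1 : ℝ) ≤ n := by exact_mod_cast hn1
  set K7 : ℝ := 1 + (2 * n) * L * (3 * C + 2 * C * L) with hK7
  have hK70 : 0 < K7 := by positivity
  set C' : ℝ := 2 * K7 * C / (ζ * η) + C with hC'
  have hCC : C ≤ C' := by
    have : 0 ≤ 2 * K7 * C / (ζ * η) := by positivity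
    linarith
  have hC'1 : 1 ≤ C' := hC.trans hCC
  obtain ⟨δ, γ, hδ, hγ, hct⟩ := contact_prob i hi (C := C') (β := ζ) (η := η) hC'1 hζ hη hη1
  refine ⟨δ, γ, hδ, hγ, ?_⟩
  intro r D hD
  have hD' : (1 : ℝ) ≤ D := by exact_mod_cast hD
  set cc : ℝ := min (1 / (2 * D)) (1 / (2 * n)) with hcc
  have hcc0 : 0 < cc := lt_min (by positivity) (by positivity)
  have hcc1 : cc ≤ 1 := by
    refine (min_le_left _ _).trans ?_
    rw [div_le_one (by positivity)]
    linarith
  have hK2 : (1 : ℝ) ≤ 2 * (2 * D) ^ r := by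
    have : (1 : ℝ) ≤ (2 * D) ^ r := one_le_pow₀ (by linarith)
    linarith
  obtain ⟨ρ, ξ1, hρ, hξ1, hξ1', hcon⟩ := hct (2 * (2 * D) ^ r) cc r D hK2 hcc0 hcc1
  set C2 : ℝ := C * (1 + L) / η with hC2
  have hC20 : 0 < C2 := by positivity
  set h : ℝ := max 1 ((2 * c1 * D * C2 / ρ) * Real.log (C * (1 + L) / (ζ * η))) with hh
  have hh1 : 1 ≤ h := le_max_left _ _
  have hh2 : (2 * c1 * D * C2 / ρ) * Real.log (C * (1 + L) / (ζ * η)) ≤ h := le_max_right _ _
  have hh0 : 0 < h := by linarith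
  set ξ : ℝ := min (min ξ1 c1) (min (min (1 / 2) (1 / (n + 1))) (min (1 / (6 * C'))
    (min (c1 / h) (ρ * h / (2 * C2))))) with hξ
  have hξ0 : 0 < ξ := lt_min (lt_min hξ1 hc10) (lt_min (lt_min (by norm_num) (by positivity))
    (lt_min (by positivity) (lt_min (by positivity) (by positivity))))
  have x1 : ξ ≤ ξ1 := (min_le_left _ _).trans (min_le_left _ _)
  have x2 : ξ ≤ c1 := (min_le_left _ _).trans (min_le_right _ _)
  have x3 : ξ ≤ 1 / 2 := (min_le_right _ _).trans ((min_le_left _ _).trans (min_le_left _ _))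
  have x4 : ξ ≤ 1 / (n + 1) := (min_le_right _ _).trans ((min_le_left _ _).trans (min_le_right _ _))
  have x5 : ξ ≤ 1 / (6 * C') := (min_le_right _ _).trans ((min_le_right _ _).trans (min_le_left _ _))
  have x6 : ξ ≤ c1 / h := (min_le_right _ _).trans ((min_le_right _ _).trans
    ((min_le_right _ _).trans (min_le_left _ _)))
  have x7 : ξ ≤ ρ * h / (2 * C2) := (min_le_right _ _).trans ((min_le_right _ _).trans
    ((min_le_right _ _).trans (min_le_right _ _)))
  refine ⟨h, ξ, hh1, hξ0, x3.trans (by norm_num), ?_⟩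
  intro V E _ _ _ _ _ ends p q χ z w H Z hlow hξV hξχ
  have hN0 : (0 : ℝ) < (Fintype.card V) := by
    have : 0 < Fintype.card V := Fintype.card_pos_iff.2 ⟨0⟩
    exact_mod_cast this
  set N : ℝ := (Fintype.card V : ℝ) with hN
  have hχ1 := H.hχ1
  have hχ0 : 0 < χ := by linarith
  have hC0 : 0 < C := by linarith
  have hC'0 : 0 < C' := by linarith
  have hL0 : 0 < L := by linarith
  have hs0 : 0 ≤ Real.sqrt χ := Real.sqrt_nonneg _
  have hsq1 : Real.sqrt χ * Real.sqrt χ = χ := Real.mul_self_sqrt hχ0.le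
  -- `χ` is large
  have hχξ : 1 ≤ ξ * χ := by
    have h1 : 1 ≤ Real.sqrt χ := by
      rw [show (1 : ℝ) = Real.sqrt 1 by simp]
      exact Real.sqrt_le_sqrt hχ1
    calc 1 ≤ ξ * Real.sqrt χ := hξχ
      _ ≤ ξ * (Real.sqrt χ * Real.sqrt χ) := by
          refine mul_le_mul_of_nonneg_left ?_ hξ0.le
          exact le_mul_of_one_le_left hs0 h1
      _ = ξ * χ := by rw [hsq1]
  have big : ∀ K : ℝ, 0 < K → ξ ≤ 1 / K → K ≤ χ := by
    intro K hK hKξ
    have h1 : ξ * χ ≤ 1 / K * χ := mul_le_mul_of_nonneg_right hKξ hχ0.le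
    have h2 : 1 / K * χ = χ / K := by ring
    rw [h2] at h1
    have h3 : 1 ≤ χ / K := hχξ.trans h1
    rw [le_div_iff₀ hK] at h3
    linarith
  have y1 : 2 ≤ χ := big 2 (by norm_num) x3
  have y2 : ((⌈4 * C ^ 2⌉₊ + 1 : ℕ) : ℝ) ≤ χ := by
    push_cast
    exact big _ (by positivity) x4
  have y3 : 6 * C' ≤ χ := big _ (by positivity) x5
  have y4 : 36 * C' ^ 2 ≤ χ ^ 2 := by
    have := pow_le_pow_left₀ (by positivity) y3 2
    calc 36 * C' ^ 2 = (6 * C') ^ 2 := by ring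
      _ ≤ _ := this
  have hV1 : χ ^ 3 ≤ N := by
    refine hξV.trans ?_
    have : ξ ≤ 1 := x3.trans (by norm_num)
    exact mul_le_of_le_one_left hN0.le this
  have hHyp := mkHyp H Z hCC hi hδ.le hγ.le y1 y4 hV1
  have pl : cc ≤ p := (min_le_left _ _).trans (H.plow y1)
  have pu : cc ≤ 1 - p := (min_le_right _ _).trans (H.pup y2)
  obtain ⟨k, hk, hPA⟩ := hcon V E ends p χ z w hHyp pl pu Z.hw0 Z.hwr Z.hedge Z.hdegc
    (hξV.trans (mul_le_mul_of_nonneg_right x1 hN0.le))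
    (hξχ.trans (mul_le_mul_of_nonneg_right x1 hs0))
  -- the levels
  have hp0 := H.h0
  have hpq := H.hpq
  have hq1 := H.hq
  have h1p : 0 < 1 - p := by linarith
  have h1p1 : 0 < 1 - (p + q) / 2 := by linarith
  set s1 : ℝ := ((p + q) / 2 - p) / (1 - p) with hs1
  set s2 : ℝ := (q - (p + q) / 2) / (1 - (p + q) / 2) with hs2
  have s10 : 0 ≤ s1 := div_nonneg (by linarith) h1p.le
  have s11 : s1 ≤ 1 := by rw [hs1, div_le_one h1p]; linarith
  have s20 : 0 ≤ s2 := div_nonneg (by linarith) h1p1.le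
  have s21 : s2 ≤ 1 := by rw [hs2, div_le_one h1p1]; linarith
  have e1 : 1 - (1 - p) * (1 - s1) = (p + q) / 2 := by
    rw [hs1]; field_simp; ring
  have e2 : 1 - (1 - (p + q) / 2) * (1 - s2) = q := by
    have : (1 - (p + q) / 2) * (1 - s2) = (1 - (p + q) / 2) - (q - (p + q) / 2) := by
      rw [mul_sub, mul_one, hs2, mul_div_cancel₀ _ h1p1.ne']
    rw [this]; ring
  have e3 : 1 - (1 - (1 - (1 - p) * (1 - s1))) * (1 - s2) = q := by rw [e1]; exact e2
  set s12 : ℝ := 1 - (1 - s1) * (1 - s2) with hs12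
  have s120 : 0 ≤ s12 := by
    have : (1 - s1) * (1 - s2) ≤ 1 := mul_le_one₀ (by linarith) (by linarith) (by linarith)
    linarith
  have s121 : s12 ≤ 1 := by
    have : 0 ≤ (1 - s1) * (1 - s2) := mul_nonneg (by linarith) (by linarith)
    linarith
  have e4 : 1 - (1 - p) * (1 - s12) = q := by
    have : (1 - p) * (1 - s12) = (1 - (1 - (1 - p) * (1 - s1))) * (1 - s2) := by
      rw [hs12]; ring
    rw [this]; exact e3
  have s12K : s12 ≤ (2 * n) * (q - p) := by
    have h2 : s12 * (1 - p) = q - p := by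
      have : (1 - p) * (1 - s12) = 1 - q := by linarith
      linarith
    have h3 := H.pup y2
    rw [div_le_iff₀ (by positivity)] at h3
    have h4 : 1 ≤ (1 - p) * (2 * n) := by simpa using h3
    calc s12 ≤ s12 * ((1 - p) * (2 * n)) := le_mul_of_one_le_right s120 h4
      _ = (2 * n) * (s12 * (1 - p)) := by ring
      _ = _ := by rw [h2]
  have s2low : 1 / (c1 * D * χ) ≤ s2 := by
    have h1 : q - (p + q) / 2 ≤ s2 := by
      rw [hs2, le_div_iff₀ h1p1]
      have : 0 ≤ q - (p + q) / 2 := by linarith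
      have h3 : 1 - (p + q) / 2 ≤ 1 := by linarith
      exact mul_le_of_le_one_right this h3
    have h2 : 1 / (c1 / 2 * D * χ) = 2 * (1 / (c1 * D * χ)) := by
      field_simp
    rw [h2] at hlow
    linarith
  -- the constants
  set h' : ℝ := h * χ ^ 2 with hh'
  set m1 : ℝ := c1 * N / χ with hm1
  set v : ℝ := ζ * N / χ with hv
  have hv0 : 0 < v := by positivity
  have hχh : χ ^ 2 ≤ h' := by
    rw [hh']
    exact le_mul_of_one_le_left (by positivity) hh1
  have h'm : h' ≤ m1 := by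
    rw [hm1, hh', le_div_iff₀ hχ0]
    have h1 : h * χ ^ 2 * χ = h * χ ^ 3 := by ring
    rw [h1]
    have h2 : h * χ ^ 3 ≤ h * (ξ * N) := mul_le_mul_of_nonneg_left hξV hh0.le
    have h3 : h * (ξ * N) = (ξ * h) * N := by ring
    rw [le_div_iff₀ hh0] at x6
    have h4 : (ξ * h) * N ≤ c1 * N := mul_le_mul_of_nonneg_right x6 hN0.le
    linarith
  have h2v : 2 * v ≤ m1 := by
    have : 2 * v = (2 * ζ) * (N / χ) := by rw [hv]; ring
    have h2 : m1 = c1 * (N / χ) := by rw [hm1]; ring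
    rw [this, h2]
    exact mul_le_mul_of_nonneg_right hζ2 (by positivity)
  set κ0 : ℝ := ρ / (C2 * χ) with hκ0
  have hκ00 : 0 < κ0 := by positivity
  have hκC : κ0 * (C2 * N / χ) ≤ k := by
    have : κ0 * (C2 * N / χ) = ρ * N / χ ^ 2 := by
      rw [hκ0]; field_simp
    rw [this]; exact hk
  set k1 : ℕ := ⌊κ0 * h'⌋₊ with hk1
  have hk1u : (k1 : ℝ) ≤ κ0 * h' := Nat.floor_le (by positivity)
  have hκh : κ0 * h' = ρ * h / C2 * χ := by
    rw [hκ0, hh']; field_simp
  have hk1l : ρ * h / (2 * C2) * χ ≤ k1 := by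
    have h1 : κ0 * h' - 1 < k1 := Nat.sub_one_lt_floor _
    have h2 : 1 ≤ ρ * h / (2 * C2) * χ := hχξ.trans (mul_le_mul_of_nonneg_right x7 hχ0.le)
    have h3 : κ0 * h' = 2 * (ρ * h / (2 * C2) * χ) := by
      rw [hκh]; field_simp
    linarith
  have hpow : (1 - s2) ^ k1 * (C * (1 + L)) ≤ η * ζ := by
    have h1 : (1 - s2) ^ k1 ≤ Real.exp (-(s2 * k1)) := by
      calc (1 - s2) ^ k1 ≤ (Real.exp (-s2)) ^ k1 := by
            refine pow_le_pow_left₀ (by linarith) ?_ k1
            have := Real.add_one_le_exp (-s2)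
            linarith
        _ = Real.exp (-(s2 * k1)) := by
            rw [← Real.exp_nat_mul]; congr 1; ring
    have h2 : ρ * h / (2 * c1 * D * C2) ≤ s2 * k1 := by
      have h3 : (1 / (c1 * D * χ)) * (ρ * h / (2 * C2) * χ) ≤ s2 * k1 :=
        mul_le_mul s2low hk1l (by positivity) s20
      have h4 : (1 / (c1 * D * χ)) * (ρ * h / (2 * C2) * χ) = ρ * h / (2 * c1 * D * C2) := by
        field_simp
      rw [h4] at h3
      exact h3
    have h3 : Real.log (C * (1 + L) / (ζ * η)) ≤ ρ * h / (2 * c1 * D * C2) := by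
      rw [le_div_iff₀ (by positivity)]
      have h4 := mul_le_mul_of_nonneg_left hh2 hρ.le
      have h5 : ρ * (2 * c1 * D * C2 / ρ * Real.log (C * (1 + L) / (ζ * η))) =
          Real.log (C * (1 + L) / (ζ * η)) * (2 * c1 * D * C2) := by
        field_simp
      rw [h5] at h4
      exact h4
    have h4 : (1 - s2) ^ k1 ≤ Real.exp (-Real.log (C * (1 + L) / (ζ * η))) :=
      h1.trans (Real.exp_le_exp.2 (by linarith))
    rw [Real.exp_neg, Real.exp_log (by positivity), inv_div] at h4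
    have h5 : (1 - s2) ^ k1 * (C * (1 + L)) ≤ ζ * η / (C * (1 + L)) * (C * (1 + L)) :=
      mul_le_mul_of_nonneg_right h4 (by positivity)
    have h6 : ζ * η / (C * (1 + L)) * (C * (1 + L)) = η * ζ := by
      field_simp
    linarith
  -- the five events
  set a2 : ℝ := 2 * al C' χ with ha2
  set x0 : (E → Bool) → V := fun ω1 => if hx : ∃ x, m1 ≤ cz ends ω1 x then hx.choose else 0 with hx0
  set U : (E → Bool) → (E → Bool) → (E → Bool) → ℝ := fun ω ω' ω'' =>
    ((Finset.univ.filter (fun x => x ∉ cu ends (orc (orc ω ω') ω'') (x0 (orc ω ω')) ∧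
        h' ≤ cz ends (orc (orc ω ω') ω'') x ∧ κ0 * cz ends (orc (orc ω ω') ω'') x ≤
          eb ends (cu ends (orc ω ω') (x0 (orc ω ω'))) (cu ends (orc (orc ω ω') ω'') x))).card : ℝ)
    with hU
  set F3 : (E → Bool) → (E → Bool) → (E → Bool) → ℝ := fun ω ω' ω'' =>
    ((Finset.univ.filter (fun x => cz ends ω x < a2 ∧
      h' ≤ cz ends (orc (orc ω ω') ω'') x)).card : ℝ) with hF3
  set F4 : (E → Bool) → (E → Bool) → (E → Bool) → ℝ := fun ω ω' ω'' =>
    ((Finset.univ.filter (fun x => h' ≤ cz ends (orc (orc ω ω') ω'') x)).card : ℝ) with hF4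
  have PA : E3 p s1 s2 (fun ω _ _ => if Cont ends ω a2 v k then (0 : ℝ) else 1) ≤ η := by
    rw [E3_fst]; exact hPA
  have PB : E3 p s1 s2 (fun ω ω' _ => if ∃ x, m1 ≤ cz ends (orc ω ω') x then (0 : ℝ) else 1) ≤ η := by
    rw [E3_snd p s1 s2 (fun ω => if ∃ x, m1 ≤ cz ends ω x then (0 : ℝ) else 1), e1]
    exact giant_exists H Z hη (hξV.trans (mul_le_mul_of_nonneg_right x2 hN0.le)) hlow
  have ha21 : 1 ≤ a2 := by
    rw [ha2]
    unfold al
    rw [← mul_div_assoc, le_div_iff₀ (by positivity)]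
    have := sq_nonneg χ
    linarith
  have P3 : E3 p s1 s2 (fun ω ω' ω'' => if v < F3 ω ω' ω'' then (1 : ℝ) else 0) ≤ η := by
    refine (E3_mark hp0.le (by linarith) s10 s11 s20 s21 F3 v hv0
      (fun _ _ _ => Nat.cast_nonneg _)).trans ?_
    rw [div_le_iff₀ hv0]
    have h1 : E3 p s1 s2 F3 = Ex p (fun ω => Ex s12 (fun ω' =>
        ((Finset.univ.filter (fun x => cz ends ω x < a2 ∧ h' ≤ cz ends (orc ω ω') x)).card : ℝ))) := by
      rw [hF3]
      exact E3_fl p s1 s2 (fun ω η' =>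
        ((Finset.univ.filter (fun x => cz ends ω x < a2 ∧ h' ≤ cz ends η' x)).card : ℝ))
    rw [h1]
    refine (H.f3 s120 s121 e4 s12K (by positivity) ha21 hχh).trans ?_
    have h2 : Real.sqrt a2 ≤ χ / (4 * C') := by
      rw [← Real.sqrt_sq (show 0 ≤ χ / (4 * C') by positivity)]
      apply Real.sqrt_le_sqrt
      rw [ha2]
      unfold al
      rw [div_pow, ← mul_div_assoc, div_le_div_iff₀ (by positivity) (by positivity)]
      have : 0 ≤ χ ^ 2 * C' ^ 2 := by positivity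
      linarith
    have h3 : N * (2 * (K7 / χ ^ 2) * (3 * C * Real.sqrt a2)) ≤
        N * (2 * (K7 / χ ^ 2) * (3 * C * (χ / (4 * C')))) := by
      refine mul_le_mul_of_nonneg_left ?_ hN0.le
      refine mul_le_mul_of_nonneg_left ?_ (by positivity)
      exact mul_le_mul_of_nonneg_left h2 (by positivity)
    have h4 : N * (2 * (K7 / χ ^ 2) * (3 * C * (χ / (4 * C')))) = (3 / 2 * K7 * C / C') * (N / χ) := by
      field_simp; ring
    have h5 : 3 / 2 * K7 * C / C' ≤ η * ζ := by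
      rw [div_le_iff₀ hC'0]
      have h6 : η * ζ * C' = 2 * K7 * C + η * ζ * C := by
        rw [hC']; field_simp
      rw [h6]
      have h7 : 0 < K7 * C := by positivity
      have h8 : 0 < η * ζ * C := by positivity
      linarith
    have h6 : (3 / 2 * K7 * C / C') * (N / χ) ≤ η * ζ * (N / χ) :=
      mul_le_mul_of_nonneg_right h5 (by positivity)
    have h7 : η * v = η * ζ * (N / χ) := by rw [hv]; ring
    rw [h7]
    linarith
  have hcnt := H.cnt hχh
  have P4 : E3 p s1 s2 (fun ω ω' ω'' => if C2 * N / χ < F4 ω ω' ω'' then (1 : ℝ) else 0) ≤ η := by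
    refine (E3_mark hp0.le (by linarith) s10 s11 s20 s21 F4 (C2 * N / χ) (by positivity)
      (fun _ _ _ => Nat.cast_nonneg _)).trans ?_
    rw [div_le_iff₀ (by positivity)]
    have h1 : E3 p s1 s2 F4 = ∑ x, Ex q (fun ω => if h' ≤ cz ends ω x then (1 : ℝ) else 0) := by
      rw [hF4]
      have h2 := E3_all (E := E) p s1 s2 (fun η' =>
        ((Finset.univ.filter (fun x => h' ≤ cz ends η' x)).card : ℝ))
      rw [e3] at h2
      rw [h2, ← Ex_sum]
      refine Ex_congr fun ω => ?_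
      rw [Finset.card_filter]
      push_cast
      rfl
    rw [h1]
    refine hcnt.trans (le_of_eq ?_)
    rw [hC2]; field_simp; exact hN.symm
  have P5 : E3 p s1 s2 (fun ω ω' ω'' => if v < U ω ω' ω'' then (1 : ℝ) else 0) ≤ η := by
    refine (E3_mark hp0.le (by linarith) s10 s11 s20 s21 U v hv0
      (fun _ _ _ => Nat.cast_nonneg _)).trans ?_
    rw [div_le_iff₀ hv0]
    have h1 : E3 p s1 s2 U ≤ (1 - s2) ^ k1 *
        ∑ x, Ex q (fun ω => if h' ≤ cz ends ω x then (1 : ℝ) else 0) := by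
      have h2 : ∀ ω ω' : E → Bool, Ex s2 (fun ω'' => U ω ω' ω'') ≤ (1 - s2) ^ k1 *
          ∑ x, Ex s2 (fun ω'' => if h' ≤ cz ends (orc (orc ω ω') ω'') x then (1 : ℝ) else 0) := by
        intro ω ω'
        exact unjoined_le (ends := ends) s20 s21 (orc ω ω') (x0 (orc ω ω')) hκ00.le hk1u
      have h3 : E3 p s1 s2 U ≤ Ex p (fun ω => Ex s1 (fun ω' => (1 - s2) ^ k1 *
          ∑ x, Ex s2 (fun ω'' => if h' ≤ cz ends (orc (orc ω ω') ω'') x then (1 : ℝ) else 0))) :=
        Ex_mono hp0.le (by linarith) fun ω => Ex_mono s10 s11 fun ω' => h2 ω ω'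
      refine h3.trans (le_of_eq ?_)
      have h4 : ∀ x : V, Ex q (fun ω => if h' ≤ cz ends ω x then (1 : ℝ) else 0) =
          Ex p (fun ω => Ex s1 (fun ω' => Ex s2 (fun ω'' =>
            if h' ≤ cz ends (orc (orc ω ω') ω'') x then (1 : ℝ) else 0))) := by
        intro x
        have h5 := E3_all (E := E) p s1 s2 (fun η' => if h' ≤ cz ends η' x then (1 : ℝ) else 0)
        rw [e3] at h5
        rw [← h5]
        rfl
      rw [Finset.sum_congr rfl fun x _ => h4 x, ← Ex_sum, ← Ex_mul_left]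
      refine Ex_congr fun ω => ?_
      rw [← Ex_sum, ← Ex_mul_left]
    refine h1.trans ?_
    have h2 : (1 - s2) ^ k1 * ∑ x, Ex q (fun ω => if h' ≤ cz ends ω x then (1 : ℝ) else 0) ≤
        (1 - s2) ^ k1 * (C * (1 + L) * (N / χ)) :=
      mul_le_mul_of_nonneg_left hcnt (pow_nonneg (by linarith) _)
    have h3 : (1 - s2) ^ k1 * (C * (1 + L) * (N / χ)) =
        ((1 - s2) ^ k1 * (C * (1 + L))) * (N / χ) := by ring
    have h4 : ((1 - s2) ^ k1 * (C * (1 + L))) * (N / χ) ≤ η * ζ * (N / χ) :=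
      mul_le_mul_of_nonneg_right hpow (by positivity)
    have h7 : η * v = η * ζ * (N / χ) := by rw [hv]; ring
    rw [h7]
    linarith
  -- the union bound
  have hall := E3_all (E := E) p s1 s2 (fun ω => if MC ends ω m1 h' (3 * v) then (0 : ℝ) else 1)
  rw [e3] at hall
  rw [← hall]
  have hpt : ∀ ω ω' ω'' : E → Bool,
      (if MC ends (orc (orc ω ω') ω'') m1 h' (3 * v) then (0 : ℝ) else 1) ≤
      (if Cont ends ω a2 v k then (0 : ℝ) else 1) +
        ((if ∃ x, m1 ≤ cz ends (orc ω ω') x then (0 : ℝ) else 1) +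
        ((if v < F3 ω ω' ω'' then (1 : ℝ) else 0) +
        ((if C2 * N / χ < F4 ω ω' ω'' then (1 : ℝ) else 0) +
        (if v < U ω ω' ω'' then (1 : ℝ) else 0)))) := by
    intro ω ω' ω''
    by_cases g1 : Cont ends ω a2 v k
    swap
    · rw [if_neg g1]
      split_ifs <;> norm_num
    by_cases g2 : ∃ x, m1 ≤ cz ends (orc ω ω') x
    swap
    · rw [if_neg g2]
      split_ifs <;> norm_num
    by_cases g3 : v < F3 ω ω' ω''
    · rw [if_pos g3]
      split_ifs <;> norm_num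
    by_cases g4 : C2 * N / χ < F4 ω ω' ω''
    · rw [if_pos g4]
      split_ifs <;> norm_num
    by_cases g5 : v < U ω ω' ω''
    · rw [if_pos g5]
      split_ifs <;> norm_num
    have hx : m1 ≤ cz ends (orc ω ω') (x0 (orc ω ω')) := by
      rw [hx0]
      simp only [g2, dif_pos]
      exact g2.choose_spec
    have := mc_det (ends := ends) ω ω' ω'' (x0 (orc ω ω')) hκ00.le hx h2v h'm g1 (not_lt.1 g3)
      (not_lt.1 g4) (not_lt.1 g5) hκC
    rw [if_pos this, if_pos g1, if_pos g2, if_neg g3, if_neg g4, if_neg g5]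
    norm_num
  refine (E3_mono hp0.le (by linarith) s10 s11 s20 s21 hpt).trans ?_
  rw [E3_add, E3_add, E3_add, E3_add]
  linarith

end Pool.Agent.PERC29
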