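import Mathlib

set_option autoImplicit false
set_option linter.unusedSectionVars false

/-! The constants of the near contact theorem. -/

namespace Pool.Agent.PERC29

/-- The constants which do not depend on `K2`. -/
lemma near_consts (m : ℕ) (hm : 1 ≤ m) {C β η : ℝ} (hC : 1 ≤ C) (hβ : 0 < β) (hη : 0 < η)
    (hη1 : η ≤ 1) :
    ∃ C1 θ εb e b0 δ γ κ : ℝ, 1 ≤ C1 ∧ 0 < θ ∧ θ ≤ 1 / 4 ∧ 0 < εb ∧
      (4 * m + 2) * εb ≤ θ ^ (2 * m) ∧ 0 < e ∧ 2 * e ≤ 1 / 4 ∧ 2 * e ≤ εb ∧ 1 ≤ b0 ∧ 0 < δ ∧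
      0 < γ ∧ 0 < κ ∧ 44 * θ * C1 ≤ β ^ 2 / 4 ∧ 216 * C ^ 4 / C1 ≤ η / 8 ∧
      C / (Real.sqrt b0 * (β / 4)) ≤ η / 8 ∧ 4 * κ ≤ η / 8 ∧ (8 * δ + 8 / b0) / e ^ 2 ≤ κ / 2 ∧
      (4 / b0) / e ^ 2 ≤ κ / 2 ∧
      4 ^ m * γ + 4 * m * (2 * e) + 4 * κ + εb * η / 32 ≤ εb * (η / 8) := by
  have hm1 : (1 : ℝ) ≤ m := by exact_mod_cast hm
  have hC4 : (1 : ℝ) ≤ C ^ 4 := one_le_pow₀ hC
  set C1 : ℝ := 216 * C ^ 4 * 8 / η with hC1
  have hC1pos : 1 ≤ C1 := by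
    rw [hC1, le_div_iff₀ hη]; nlinarith
  set θ : ℝ := min (1 / 4) (β ^ 2 / (176 * C1)) with hθ
  have hθ0 : 0 < θ := lt_min (by norm_num) (by positivity)
  have hθ1 : θ ≤ 1 / 4 := min_le_left _ _
  have hθ2 : θ ≤ β ^ 2 / (176 * C1) := min_le_right _ _
  set εb : ℝ := θ ^ (2 * m) / (4 * m + 2) with hεb
  have hεb0 : 0 < εb := by positivity
  have hεb1 : εb ≤ 1 := by
    rw [hεb, div_le_one (by positivity)]
    have : θ ^ (2 * m) ≤ 1 := pow_le_one₀ hθ0.le (by linarith)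
    linarith
  set κ : ℝ := εb * η / 128 with hκ
  have hκ0 : 0 < κ := by positivity
  set e : ℝ := εb * η / (256 * m) with he
  have he0 : 0 < e := by positivity
  set b0 : ℝ := 32 / (κ * e ^ 2) + (32 * C / (β * η)) ^ 2 + 1 with hb0
  have hb1 : 1 ≤ b0 := by
    have h1 : 0 ≤ 32 / (κ * e ^ 2) := by positivity
    have h2 : 0 ≤ (32 * C / (β * η)) ^ 2 := by positivity
    linarith
  have hb2 : 32 / (κ * e ^ 2) ≤ b0 := by
    have h2 : 0 ≤ (32 * C / (β * η)) ^ 2 := by positivity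
    linarith
  have hb3 : (32 * C / (β * η)) ^ 2 ≤ b0 := by
    have h1 : 0 ≤ 32 / (κ * e ^ 2) := by positivity
    linarith
  have hb4 : 8 / b0 ≤ κ * e ^ 2 / 4 := by
    rw [div_le_iff₀ (by linarith)]
    rw [div_le_iff₀ (by positivity)] at hb2
    nlinarith
  refine ⟨C1, θ, εb, e, b0, κ * e ^ 2 / 32, εb * η / (128 * 4 ^ m), κ, hC1pos, hθ0, hθ1, hεb0, ?_,
    he0, ?_, ?_, hb1, by positivity, by positivity, hκ0, ?_, ?_, ?_, ?_, ?_, ?_, ?_⟩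
  · rw [hεb, mul_div_cancel₀]
    positivity
  · have : e ≤ 1 / 256 := by
      rw [he, div_le_iff₀ (by positivity)]
      nlinarith [mul_le_mul hεb1 hη1 hη.le (by norm_num)]
    linarith
  · have : e ≤ εb / 256 := by
      rw [he, div_le_iff₀ (by positivity)]
      have : εb * η ≤ εb * m := mul_le_mul_of_nonneg_left (hη1.trans hm1) hεb0.le
      nlinarith
    linarith
  · rw [le_div_iff₀ (by positivity)] at hθ2
    linarith
  · rw [hC1]
    apply le_of_eq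
    field_simp
  · have h1 : 32 * C / (β * η) ≤ Real.sqrt b0 := by
      rw [← Real.sqrt_sq (show 0 ≤ 32 * C / (β * η) by positivity)]
      exact Real.sqrt_le_sqrt hb3
    have h2 : 0 < Real.sqrt b0 := Real.sqrt_pos.2 (by linarith)
    rw [div_le_iff₀ (by positivity)]
    rw [div_le_iff₀ (by positivity)] at h1
    nlinarith
  · have : κ ≤ η / 128 := by
      rw [hκ]
      have : εb * η ≤ 1 * η := mul_le_mul_of_nonneg_right hεb1 hη.le
      linarith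
    linarith
  · rw [div_le_iff₀ (by positivity)]
    linarith
  · rw [div_le_iff₀ (by positivity)]
    have : 4 / b0 ≤ κ * e ^ 2 / 8 := by
      have h3 : 4 / b0 = (8 / b0) / 2 := by ring
      rw [h3]; linarith
    have h4 : 0 < κ * e ^ 2 := by positivity
    linarith
  · have h1 : (4 : ℝ) ^ m * (εb * η / (128 * 4 ^ m)) = εb * η / 128 := by
      field_simp
    have h2 : 4 * (m : ℝ) * (2 * e) = εb * η / 32 := by
      rw [he]; field_simp; norm_num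
    rw [h1, h2, hκ]
    have h3 : 0 < εb * η := by positivity
    linarith

/-- The constants which depend on `K2`. -/
lemma near_consts2 (m : ℕ) (hm : 1 ≤ m) {C β η e b0 κ εb K1 : ℝ} (K5 : ℝ → ℝ)
    (hC : 1 ≤ C) (hβ : 0 < β) (hη : 0 < η) (he : 0 < e) (hb0 : 1 ≤ b0) (hκ : 0 < κ) (hεb : 0 < εb)
    (hK1 : 0 ≤ K1) (hK5 : ∀ B, 1 ≤ B → 0 ≤ K5 B) :
    ∃ td lam tb B ξ : ℝ, 0 < td ∧ 0 < lam ∧ 0 < tb ∧ 1 ≤ B ∧ 0 < ξ ∧ ξ ≤ 1 ∧
      (144 * C ^ 4 + 2 * K1) / td ≤ κ ∧ 2 * m / (B * tb) ≤ κ ∧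
      4 * b0 ^ 2 * (lam * tb + td / lam) ≤ e ∧ 2 * b0 ^ 2 * tb ≤ e ∧ b0 * tb ≤ β / 4 ∧
      (16 * b0 ^ 2 * ξ + 16 * b0 ^ 4 * K1 * ξ) / e ^ 2 ≤ κ / 2 ∧ 4 * b0 ^ 2 * ξ / e ^ 2 ≤ κ / 2 ∧
      K5 B * ξ ≤ εb * η / 32 := by
  have hm1 : (1 : ℝ) ≤ m := by exact_mod_cast hm
  have hb : 0 < b0 := by linarith
  have hnum : 0 < 144 * C ^ 4 + 2 * K1 := by positivity
  set td : ℝ := (144 * C ^ 4 + 2 * K1) / κ with htd
  have htd0 : 0 < td := by positivity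
  set lam : ℝ := 8 * b0 ^ 2 * td / e with hlam
  have hlam0 : 0 < lam := by positivity
  set tb : ℝ := min (min (e / (8 * b0 ^ 2 * lam)) (e / (2 * b0 ^ 2))) (β / (4 * b0)) with htb
  have htb0 : 0 < tb := lt_min (lt_min (by positivity) (by positivity)) (by positivity)
  have t1 : tb ≤ e / (8 * b0 ^ 2 * lam) := (min_le_left _ _).trans (min_le_left _ _)
  have t2 : tb ≤ e / (2 * b0 ^ 2) := (min_le_left _ _).trans (min_le_right _ _)
  have t3 : tb ≤ β / (4 * b0) := min_le_right _ _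
  set B : ℝ := 2 * m / (tb * κ) + 1 with hB
  have hB1 : 1 ≤ B := by
    have : 0 ≤ 2 * (m : ℝ) / (tb * κ) := by positivity
    linarith
  set Q : ℝ := 16 * b0 ^ 2 + 16 * b0 ^ 4 * K1 with hQ
  have hQ0 : 0 < Q := by positivity
  set ξ : ℝ := min (min 1 (κ * e ^ 2 / (2 * Q))) (εb * η / (32 * (K5 B + 1))) with hξ
  have hK := hK5 B hB1
  have hξ0 : 0 < ξ := lt_min (lt_min one_pos (by positivity)) (by positivity)
  have x1 : ξ ≤ 1 := (min_le_left _ _).trans (min_le_left _ _)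
  have x2 : ξ ≤ κ * e ^ 2 / (2 * Q) := (min_le_left _ _).trans (min_le_right _ _)
  have x3 : ξ ≤ εb * η / (32 * (K5 B + 1)) := min_le_right _ _
  rw [le_div_iff₀ (by positivity)] at t1 t2 t3 x2 x3
  refine ⟨td, lam, tb, B, ξ, htd0, hlam0, htb0, hB1, hξ0, x1, ?_, ?_, ?_, by linarith, by linarith,
    ?_, ?_, ?_⟩
  · rw [htd]
    apply le_of_eq
    field_simp
  · rw [div_le_iff₀ (by positivity)]
    have : κ * (B * tb) = 2 * m + tb * κ := by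
      rw [hB]; field_simp
    have h2 : 0 < tb * κ := by positivity
    linarith
  · have h1 : 4 * b0 ^ 2 * (td / lam) = e / 2 := by
      rw [hlam]; field_simp; norm_num
    have h2 : 4 * b0 ^ 2 * (lam * tb + td / lam) = (tb * (8 * b0 ^ 2 * lam)) / 2 +
        4 * b0 ^ 2 * (td / lam) := by ring
    rw [h2, h1]
    linarith
  · rw [div_le_iff₀ (by positivity)]
    have : 16 * b0 ^ 2 * ξ + 16 * b0 ^ 4 * K1 * ξ = ξ * (2 * Q) / 2 := by rw [hQ]; ring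
    rw [this]; linarith
  · rw [div_le_iff₀ (by positivity)]
    have h1 : 4 * b0 ^ 2 * ξ ≤ ξ * (2 * Q) / 2 := by
      have h3 : 0 ≤ b0 ^ 4 * K1 * ξ := by positivity
      have h4 : 0 ≤ b0 ^ 2 * ξ := by positivity
      rw [hQ]; nlinarith
    linarith
  · have h1 : K5 B * ξ ≤ ξ * (32 * (K5 B + 1)) / 32 := by nlinarith
    linarith

end Pool.Agent.PERC29
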