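import Pool.Agent.Lib.MP_29e17e_pr.U.Hy
import Pool.Agent.Lib.MP_29e17e_pr.U.Nc

set_option autoImplicit false
set_option linter.unusedSectionVars false

/-! The near contact theorem. -/

open Finset

namespace Pool.Agent.PERC29

open scoped Classical in
/-- Near contacts: few large clusters, and every two disjoint families of large clusters with many vertices have
many pairs of vertices with difference `z` or `-z`. -/
def Near {V : Type} [Fintype V] [DecidableEq V] [AddCommGroup V] {E : Type} [Fintype E]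
    [DecidableEq E] (ends : E → Sym2 V) (ω : E → Bool) (z : V) (C χ C1 β : ℝ) : Prop :=
  ((GC ends ω (al C χ)).card : ℝ) ≤ C1 * (Fintype.card V) / χ ^ 3 ∧
  ∀ 𝒜 ℬ : Finset (Finset V), 𝒜 ⊆ GC ends ω (2 * al C χ) → ℬ ⊆ GC ends ω (2 * al C χ) →
    Disjoint 𝒜 ℬ → β * (Fintype.card V) / χ ≤ ∑ A ∈ 𝒜, (A.card : ℝ) →
    β * (Fintype.card V) / χ ≤ ∑ A ∈ ℬ, (A.card : ℝ) →
    β ^ 2 / 4 * (Fintype.card V) / χ ^ 2 ≤ ∑ A ∈ 𝒜, ∑ B ∈ ℬ, NK (kz z) A B

/-- The arithmetic of the last step. -/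
lemma near_arith {β θ C1 N cg χ : ℝ} (hχ : 0 < χ) (hN : 0 < N) (hθ : 0 ≤ θ) (hC1 : 0 ≤ C1)
    (hcg : 0 < cg) (hcg2 : cg ≤ χ) (h : 44 * θ * C1 ≤ β ^ 2 / 4) :
    β ^ 2 / 4 * N / χ ^ 2 ≤ 2 * cg * (β * N / (2 * χ)) ^ 2 / (N * cg) -
      22 * θ * (2 * cg) * (C1 * N / χ ^ 3) := by
  have e1 : 2 * cg * (β * N / (2 * χ)) ^ 2 / (N * cg) = β ^ 2 / 2 * N / χ ^ 2 := by
    field_simp
  have e2 : 22 * θ * (2 * cg) * (C1 * N / χ ^ 3) ≤ β ^ 2 / 4 * N / χ ^ 2 := by
    have h1 : 22 * θ * (2 * cg) * (C1 * N / χ ^ 3) ≤ 22 * θ * (2 * χ) * (C1 * N / χ ^ 3) := by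
      have : 0 ≤ C1 * N / χ ^ 3 := by positivity
      have h2 : 22 * θ * (2 * cg) ≤ 22 * θ * (2 * χ) := by nlinarith
      exact mul_le_mul_of_nonneg_right h2 this
    have h2 : 22 * θ * (2 * χ) * (C1 * N / χ ^ 3) = (44 * θ * C1) * (N / χ ^ 2) := by
      field_simp; ring
    have h3 : β ^ 2 / 4 * N / χ ^ 2 = β ^ 2 / 4 * (N / χ ^ 2) := by ring
    rw [h3]
    rw [h2] at h1
    exact h1.trans (mul_le_mul_of_nonneg_right h (by positivity))
  have e3 : β ^ 2 / 2 * N / χ ^ 2 = β ^ 2 / 4 * N / χ ^ 2 + β ^ 2 / 4 * N / χ ^ 2 := by ring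
  rw [e1, e3]
  linarith

open scoped Classical in
/-- The near contact theorem. -/
theorem near_prob (i : ℕ) (hi : 1 ≤ i) {C β η : ℝ} (hC : 1 ≤ C) (hβ : 0 < β) (hη : 0 < η)
    (hη1 : η ≤ 1) :
    ∃ C1 δ γ : ℝ, 1 ≤ C1 ∧ 0 < δ ∧ 0 < γ ∧ ∀ K2 : ℝ, 1 ≤ K2 → ∃ ξ : ℝ, 0 < ξ ∧ ξ ≤ 1 ∧
      ∀ (V E : Type) [Fintype V] [DecidableEq V] [AddCommGroup V] [Fintype E] [DecidableEq E]
        (ends : E → Sym2 V) (p χ : ℝ) (z : V), Hyp ends p χ C K2 δ γ i z →
        χ ^ 3 ≤ ξ * (Fintype.card V) → 1 ≤ ξ * Real.sqrt χ →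
        Ex p (fun ω => if Near ends ω z C χ C1 β then (0 : ℝ) else 1) ≤ η := by
  have hm : 1 ≤ 2 ^ i := Nat.one_le_two_pow
  obtain ⟨C1, θ, εb, e, b0, δ, γ, κ, hC1, hθ0, hθ1, hεb0, hεbθ, he0, he1, he2, hb0, hδ, hγ, hκ, k1,
    k2', k3, k4, k5, k6, k7⟩ := near_consts (2 ^ i) hm hC hβ hη hη1
  refine ⟨C1, δ, γ, hC1, hδ, hγ, ?_⟩
  intro K2 hK2
  have hK1 : 0 ≤ cK1 C K2 := by unfold cK1; positivity
  set K5 : ℝ → ℝ := fun B => 216 * C ^ 4 * k2 (2 * 2 ^ i - 1) * (2 * 2 ^ i) *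
        (4 * B * C * (36 * C ^ 2 * K2)) ^ (2 * 2 ^ i) * (C + 3) with hK5
  have hK5n : ∀ B, 1 ≤ B → 0 ≤ K5 B := by
    intro B hB
    have := k2_nonneg (2 * 2 ^ i - 1)
    rw [hK5]
    positivity
  obtain ⟨td, lam, tb, B, ξ, htd, hlam, htb, hB, hξ, hξ1, c1, c2, c3, c4, c5, c6, c7, c8⟩ :=
    near_consts2 (2 ^ i) hm (β := β) (η := η) (e := e) (b0 := b0) (κ := κ) (εb := εb)
      (K1 := cK1 C K2) K5 hC hβ hη he0 hb0 hκ hεb0 hK1 hK5n
  refine ⟨ξ, hξ, hξ1, ?_⟩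
  intro V E _ _ _ _ _ ends p χ z H hξV hξχ
  have hp0 := H.h0.le
  have hp1 := H.h1.le
  have hχ0 : 0 < χ := by linarith [H.hχ1]
  have hN0 : (0 : ℝ) < (Fintype.card V) := by
    have : 0 < Fintype.card V := Fintype.card_pos_iff.2 ⟨0⟩
    exact_mod_cast this
  set N : ℝ := (Fintype.card V : ℝ) with hN
  set c : ℝ := cg ends p C χ with hc
  have hcl : χ / 2 ≤ c := H.cg_low
  have hcu : c ≤ χ := H.cg_up
  have hc0 : 0 < c := by linarith
  have ha0 : 0 < al C χ := by unfold al; positivity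
  have hb0' : 0 < b0 := by linarith
  set a : ℝ := al C χ with ha
  set s : (E → Bool) → Finset (Finset V) := fun ω =>
    gs ends (kz z) ω a (b0 * χ ^ 2) (vvK C K2 B χ N) (2 * 2 ^ i - 1) with hs
  set T : (E → Bool) → ℝ := fun ω => ∑ A ∈ s ω, UU (MK (kz z) a) (s ω) (2 * 2 ^ i) A A with hT
  set L : ℝ := 2 * N * c ^ 2 with hL
  set Z : ℝ := N * c with hZ
  have hL0 : 0 < L := by positivity
  have hZ0 : 0 < Z := by positivity
  have hLZ : L = (2 * c) * Z := by rw [hL, hZ]; ring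
  have hχc : χ ^ 2 ≤ 4 * c ^ 2 := by
    have h := pow_le_pow_left₀ (by positivity) hcl 2
    have h' : (χ / 2) ^ 2 = χ ^ 2 / 4 := by ring
    rw [h'] at h
    linarith
  -- the seven events
  set EX : (E → Bool) → Prop := fun ω => e * L ≤ |Xk (kz z) a (GCb ends ω a (b0 * χ ^ 2)) - L| with hEX
  set EY : (E → Bool) → Prop := fun ω => e * Z ≤ |Yk a (GCb ends ω a (b0 * χ ^ 2)) - Z| with hEY
  set ED : (E → Bool) → Prop := fun ω => td * N / χ <
    ∑ A ∈ GC ends ω a, dgK (kz z) (GC ends ω a) A ^ 2 with hED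
  set EB : (E → Bool) → Prop := fun ω => tb * N / χ ^ 3 <
    ((bs ends (kz z) ω a (vvK C K2 B χ N) (2 * 2 ^ i - 1)).card : ℝ) with hEB
  set EG : (E → Bool) → Prop := fun ω => C1 * N / χ ^ 3 < ((GC ends ω a).card : ℝ) with hEG
  set EL : (E → Bool) → Prop := fun ω => (β / 4) * N / χ <
    ((Finset.univ.filter (fun x => b0 * χ ^ 2 < cz ends ω x)).card : ℝ) with hEL
  set ET : (E → Bool) → Prop := fun ω => (1 + εb) * (2 * c) ^ (2 * 2 ^ i) < T ω with hET
  have pX : Ex p (fun ω => if EX ω then (1 : ℝ) else 0) ≤ κ := by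
    refine (H.PX hb0' he0 hξV hξ1).trans ?_
    have : (8 * δ + 8 / b0 + 16 * b0 ^ 2 * ξ + 16 * b0 ^ 4 * cK1 C K2 * ξ) / e ^ 2 =
      (8 * δ + 8 / b0) / e ^ 2 + (16 * b0 ^ 2 * ξ + 16 * b0 ^ 4 * cK1 C K2 * ξ) / e ^ 2 := by ring
    rw [this]; linarith
  have pY : Ex p (fun ω => if EY ω then (1 : ℝ) else 0) ≤ κ := by
    refine (H.PY hb0' he0 hξV hξ1).trans ?_
    have : (4 / b0 + 4 * b0 ^ 2 * ξ) / e ^ 2 = (4 / b0) / e ^ 2 + 4 * b0 ^ 2 * ξ / e ^ 2 := by ring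
    rw [this]; linarith
  have pD : Ex p (fun ω => if ED ω then (1 : ℝ) else 0) ≤ κ := (H.PD htd).trans c1
  have pB : Ex p (fun ω => if EB ω then (1 : ℝ) else 0) ≤ κ := by
    refine (H.PB (by linarith) htb).trans ?_
    have : (((2 ^ i : ℕ) : ℝ)) = 2 ^ i := by push_cast; rfl
    rw [this] at c2
    exact c2
  have pG : Ex p (fun ω => if EG ω then (1 : ℝ) else 0) ≤ η / 8 :=
    (H.PG (by linarith)).trans k2'
  have pL : Ex p (fun ω => if EL ω then (1 : ℝ) else 0) ≤ η / 8 :=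
    (H.PL hb0' (by positivity)).trans k3
  -- consequences of the good events
  have good : ∀ ω, ¬ EX ω → ¬ EY ω → ¬ ED ω → ¬ EB ω →
      (1 - 2 * e) * ((2 * c) * Z) ≤ Xk (kz z) a (s ω) ∧ (1 - 2 * e) * Z ≤ Yk a (s ω) ∧
        Yk a (s ω) ≤ (1 + 2 * e) * Z := by
    intro ω hx hy hd hb
    rw [hEX] at hx
    rw [hEY] at hy
    rw [hED] at hd
    rw [hEB] at hb
    simp only [not_le, not_lt] at hx hy hd hb
    rw [abs_lt] at hx hy
    have hκz : ∀ x y : V, 0 ≤ kz z x y := fun x y => kz_nonneg z x y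
    have hks : ∀ x y : V, kz z x y = kz z y x := fun x y => kz_symm z x y
    have q1 := Xs_low (ends := ends) hκz hks ω (a := a) (b := b0 * χ ^ 2) (lam := lam * χ) ha0.le
      (by positivity) (by positivity) (vvK C K2 B χ N) (2 * 2 ^ i - 1)
    have q2 := Ys_low (ends := ends) (κ := kz z) ω (a := a) (b := b0 * χ ^ 2) ha0.le
      (by positivity) (vvK C K2 B χ N) (2 * 2 ^ i - 1)
    have q3 := Ys_up (ends := ends) (κ := kz z) ω (a := a) (b := b0 * χ ^ 2) ha0.le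
      (vvK C K2 B χ N) (2 * 2 ^ i - 1)
    have q4 : 2 * (b0 * χ ^ 2) ^ 2 * (lam * χ *
        ((bs ends (kz z) ω a (vvK C K2 B χ N) (2 * 2 ^ i - 1)).card : ℝ) +
        (1 / (lam * χ)) * ∑ A ∈ GC ends ω a, dgK (kz z) (GC ends ω a) A ^ 2) ≤ e * L := by
      have r1 : lam * χ * ((bs ends (kz z) ω a (vvK C K2 B χ N) (2 * 2 ^ i - 1)).card : ℝ) ≤
          lam * χ * (tb * N / χ ^ 3) := mul_le_mul_of_nonneg_left hb (by positivity)
      have r2 : (1 / (lam * χ)) * ∑ A ∈ GC ends ω a, dgK (kz z) (GC ends ω a) A ^ 2 ≤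
          (1 / (lam * χ)) * (td * N / χ) := mul_le_mul_of_nonneg_left hd (by positivity)
      have r3 : 2 * (b0 * χ ^ 2) ^ 2 * (lam * χ * (tb * N / χ ^ 3) +
          (1 / (lam * χ)) * (td * N / χ)) =
          (4 * b0 ^ 2 * (lam * tb + td / lam)) * (N * χ ^ 2 / 2) := by
        field_simp
        ring
      have r4 : (4 * b0 ^ 2 * (lam * tb + td / lam)) * (N * χ ^ 2 / 2) ≤ e * (N * χ ^ 2 / 2) :=
        mul_le_mul_of_nonneg_right c3 (by positivity)
      have r5 : e * (N * χ ^ 2 / 2) ≤ e * L := by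
        rw [hL]
        refine mul_le_mul_of_nonneg_left ?_ he0.le
        have h := mul_le_mul_of_nonneg_left hχc hN0.le
        linarith
      have r6 : 0 ≤ 2 * (b0 * χ ^ 2) ^ 2 := by positivity
      have r7 := mul_le_mul_of_nonneg_left (add_le_add r1 r2) r6
      linarith
    have q5 : (b0 * χ ^ 2) ^ 2 * ((bs ends (kz z) ω a (vvK C K2 B χ N) (2 * 2 ^ i - 1)).card : ℝ) ≤
        e * Z := by
      have r1 : (b0 * χ ^ 2) ^ 2 *
          ((bs ends (kz z) ω a (vvK C K2 B χ N) (2 * 2 ^ i - 1)).card : ℝ) ≤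
          (b0 * χ ^ 2) ^ 2 * (tb * N / χ ^ 3) := mul_le_mul_of_nonneg_left hb (by positivity)
      have r3 : (b0 * χ ^ 2) ^ 2 * (tb * N / χ ^ 3) = (2 * b0 ^ 2 * tb) * (N * χ / 2) := by
        field_simp
      have r4 : (2 * b0 ^ 2 * tb) * (N * χ / 2) ≤ e * (N * χ / 2) :=
        mul_le_mul_of_nonneg_right c4 (by positivity)
      have r5 : e * (N * χ / 2) ≤ e * Z := by
        rw [hZ]
        refine mul_le_mul_of_nonneg_left ?_ he0.le
        have h := mul_le_mul_of_nonneg_left hcl hN0.le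
        linarith
      linarith
    refine ⟨?_, ?_, ?_⟩
    · rw [← hLZ]
      show _ ≤ Xk (kz z) a (gs ends (kz z) ω a (b0 * χ ^ 2) (vvK C K2 B χ N) (2 * 2 ^ i - 1))
      linarith [hx.1]
    · show _ ≤ Yk a (gs ends (kz z) ω a (b0 * χ ^ 2) (vvK C K2 B χ N) (2 * 2 ^ i - 1))
      linarith [hy.1]
    · show Yk a (gs ends (kz z) ω a (b0 * χ ^ 2) (vvK C K2 B χ N) (2 * 2 ^ i - 1)) ≤ _
      have : 0 < e * Z := by positivity
      linarith [hy.2]
  have hκz : ∀ x y : V, 0 ≤ kz z x y := fun x y => kz_nonneg z x y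
  have hks : ∀ x y : V, kz z x y = kz z y x := fun x y => kz_symm z x y
  have hT0 : ∀ ω, 0 ≤ T ω := fun ω => Finset.sum_nonneg fun A _ =>
    UU_nonneg (fun A B => MK_nonneg hκz a A B) _ _ _ _
  have hΛ0 : 0 < 2 * c := by linarith
  -- the trace is not too small
  have hlow : Ex p (fun ω => if T ω < (1 - 4 * 2 ^ i * (2 * e)) * (2 * c) ^ (2 * 2 ^ i)
      then (1 : ℝ) else 0) ≤ 4 * κ := by
    have hpt : ∀ ω, (if T ω < (1 - 4 * 2 ^ i * (2 * e)) * (2 * c) ^ (2 * 2 ^ i)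
        then (1 : ℝ) else 0) ≤ (if EX ω then (1 : ℝ) else 0) + ((if EY ω then (1 : ℝ) else 0) +
          ((if ED ω then (1 : ℝ) else 0) + (if EB ω then (1 : ℝ) else 0))) := by
      intro ω
      by_cases hx : EX ω
      · rw [if_pos hx]
        split_ifs <;> norm_num
      by_cases hy : EY ω
      · rw [if_pos hy]
        split_ifs <;> norm_num
      by_cases hd : ED ω
      · rw [if_pos hd]
        split_ifs <;> norm_num
      by_cases hb : EB ω
      · rw [if_pos hb]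
        split_ifs <;> norm_num
      obtain ⟨g1, g2, g3⟩ := good ω hx hy hd hb
      have := trace_good hκz hks (s ω) i ha0.le hΛ0 hZ0 (by positivity) he1 g1 g3
      rw [if_neg (not_lt.2 this), if_neg hx, if_neg hy, if_neg hd, if_neg hb]
      norm_num
    refine (Ex_mono hp0 hp1 hpt).trans ?_
    rw [Ex_add, Ex_add, Ex_add]
    linarith
  have pT : Ex p (fun ω => if ET ω then (1 : ℝ) else 0) ≤ η / 8 := by
    have hmean := H.PT (b := b0 * χ ^ 2) hB hξV hξ1 hξχ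
    have h2m : (2 : ℝ) ^ i = ((2 ^ i : ℕ) : ℝ) := by push_cast; rfl
    have hi4 : 4 * 2 ^ i * (2 * e) ≤ 1 := by
      have h1 : 4 * 2 ^ i * (2 * e) ≤ εb * (η / 8) := by
        have h3 : 0 ≤ 4 ^ (2 ^ i) * γ := by positivity
        have h4 : 0 ≤ εb * η / 32 := by positivity
        rw [h2m]
        linarith
      have hεb1 : εb ≤ 1 := by
        have h5 : θ ^ (2 * 2 ^ i) ≤ 1 := pow_le_one₀ hθ0.le (by linarith)
        have h6 : (0 : ℝ) ≤ ((2 ^ i : ℕ) : ℝ) := Nat.cast_nonneg _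
        have h7 := mul_nonneg h6 hεb0.le
        linarith
      have h8 := mul_le_mul_of_nonneg_right hεb1 (by positivity : 0 ≤ η / 8)
      linarith
    have := upper_from_mean hp0 hp1 T (L := (2 * c) ^ (2 * 2 ^ i))
      (e1 := 4 ^ (2 ^ i) * γ + K5 B * ξ) (e4 := 4 * 2 ^ i * (2 * e)) (e := εb) (π := 4 * κ)
      (by positivity) hT0 (by positivity) hi4 hεb0.le hmean hlow
    have h8 : εb * Ex p (fun ω => if ET ω then (1 : ℝ) else 0) ≤ εb * (η / 8) := by
      refine this.trans ?_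
      rw [h2m]
      linarith
    exact le_of_mul_le_mul_left h8 hεb0
  -- the union bound
  have hpt : ∀ ω, (if Near ends ω z C χ C1 β then (0 : ℝ) else 1) ≤
      (if EX ω then (1 : ℝ) else 0) + ((if EY ω then (1 : ℝ) else 0) +
        ((if ED ω then (1 : ℝ) else 0) + ((if EB ω then (1 : ℝ) else 0) +
        ((if EG ω then (1 : ℝ) else 0) + ((if EL ω then (1 : ℝ) else 0) +
        (if ET ω then (1 : ℝ) else 0)))))) := by
    intro ω
    by_cases hx : EX ω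
    · rw [if_pos hx]
      split_ifs <;> norm_num
    by_cases hy : EY ω
    · rw [if_pos hy]
      split_ifs <;> norm_num
    by_cases hd : ED ω
    · rw [if_pos hd]
      split_ifs <;> norm_num
    by_cases hb : EB ω
    · rw [if_pos hb]
      split_ifs <;> norm_num
    by_cases hg : EG ω
    · rw [if_pos hg]
      split_ifs <;> norm_num
    by_cases hl : EL ω
    · rw [if_pos hl]
      split_ifs <;> norm_num
    by_cases ht : ET ω
    · rw [if_pos ht]
      split_ifs <;> norm_num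
    have hnear : Near ends ω z C χ C1 β := by
      obtain ⟨g1, g2, g3⟩ := good ω hx hy hd hb
      rw [hEG] at hg
      rw [hEL] at hl
      rw [hET] at ht
      rw [hEB] at hb
      simp only [not_lt] at hg hl ht hb
      refine ⟨hg, ?_⟩
      intro 𝒜 ℬ hA hB' hd' hAt hBt
      have hsplit : β * N / χ = β * N / (2 * χ) + β * N / (2 * χ) := by
        field_simp
        norm_num
      have hlost : ((Finset.univ.filter (fun x => b0 * χ ^ 2 < cz ends ω x)).card : ℝ) +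
          (b0 * χ ^ 2) * ((bs ends (kz z) ω a (vvK C K2 B χ N) (2 * 2 ^ i - 1)).card : ℝ) ≤
          β * N / (2 * χ) := by
        have r1 : (b0 * χ ^ 2) * ((bs ends (kz z) ω a (vvK C K2 B χ N) (2 * 2 ^ i - 1)).card : ℝ) ≤
            (b0 * χ ^ 2) * (tb * N / χ ^ 3) := mul_le_mul_of_nonneg_left hb (by positivity)
        have r2 : (b0 * χ ^ 2) * (tb * N / χ ^ 3) = (b0 * tb) * (N / χ) := by
          field_simp
        have r3 : (b0 * tb) * (N / χ) ≤ β / 4 * (N / χ) :=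
          mul_le_mul_of_nonneg_right c5 (by positivity)
        have r4 : (β / 4) * N / χ = β / 4 * (N / χ) := by ring
        have r5 : β * N / (2 * χ) = β / 4 * (N / χ) + β / 4 * (N / χ) := by
          field_simp
          norm_num
        rw [r4] at hl
        linarith
      have he2' : (1 - εb) ≤ (1 - 2 * e) := by linarith
      have hX : (1 - εb) * ((2 * c) * Z) ≤ Xk (kz z) a (s ω) :=
        (mul_le_mul_of_nonneg_right he2' (by positivity)).trans g1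
      have hY1 : (1 - εb) * Z ≤ Yk a (s ω) := (mul_le_mul_of_nonneg_right he2' hZ0.le).trans g2
      have hY2 : Yk a (s ω) ≤ (1 + εb) * Z :=
        g3.trans (mul_le_mul_of_nonneg_right (by linarith) hZ0.le)
      have h2m : (2 : ℝ) ^ i = ((2 ^ i : ℕ) : ℝ) := by push_cast; rfl
      have := near_det (ends := ends) hκz hks ω (a := a) (b := b0 * χ ^ 2) (Λ := 2 * c) (Z := Z)
        (θ := θ) (ε := εb) (ng := C1 * N / χ ^ 3) (lost := β * N / (2 * χ))
        (t := β * N / (2 * χ)) (vvK C K2 B χ N) (2 * 2 ^ i - 1) i hi ha0 (by positivity) hΛ0 hZ0 hθ0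
        hθ1 (by positivity) hεb0.le (by rw [h2m]; exact hεbθ) hX hY1 hY2 ht hg hlost 𝒜 ℬ hA hB' hd'
        (by rw [← hsplit]; exact hAt) (by rw [← hsplit]; exact hBt)
      refine le_trans ?_ this
      rw [hZ]
      exact near_arith hχ0 hN0 hθ0.le (by linarith) hc0 hcu k1
    rw [if_pos hnear, if_neg hx, if_neg hy, if_neg hd, if_neg hb, if_neg hg, if_neg hl, if_neg ht]
    norm_num
  refine (Ex_mono hp0 hp1 hpt).trans ?_
  rw [Ex_add, Ex_add, Ex_add, Ex_add, Ex_add, Ex_add]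
  linarith

end Pool.Agent.PERC29
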