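import Pool.Agent.Lib.MP_29e17e_pr.Cutb

set_option autoImplicit false
set_option linter.unusedSectionVars false

/-! Row 29u-W1: closed walks, refined (the term of the cycles has the coefficient one). -/

open Finset

namespace Pool.Agent.PERC29

variable {ι : Type*} [DecidableEq ι]

/-- The constants of the refined decomposition. -/
noncomputable def k2 : ℕ → ℝ
  | 0 => 0
  | n + 1 => k2 n + (n + 1) * kk (n + 1) ^ 3

lemma k2_nonneg (n : ℕ) : 0 ≤ k2 n := by
  induction n with
  | zero => simp [k2]
  | succ n ih =>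
    have h1 := one_le_kk (n + 1)
    have h2 : (0 : ℝ) ≤ n := Nat.cast_nonneg n
    have h3 : (0 : ℝ) ≤ (n + 1) * kk (n + 1) ^ 3 := by positivity
    change 0 ≤ k2 n + (n + 1) * kk (n + 1) ^ 3
    linarith

/-- The last exit decomposition for the sum over the last vertex. -/
lemma W1_split (M : ι → ι → ℝ) (S : Finset ι) {B : ι} (hB : B ∈ S) (A : ι) (m : ℕ) :
    ∑ C ∈ S.erase B, UU M S (m + 1) B C * M C A =
      ∑ l ∈ Finset.range (m + 1), UU M S l B B * ∑ D ∈ S.erase B, M B D *
        ∑ C ∈ S.erase B, UU M (S.erase B) (m - l) D C * M C A := by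
  have e2 : ∀ C ∈ S.erase B, UU M S (m + 1) B C * M C A =
      ∑ l ∈ Finset.range (m + 1), UU M S l B B * ∑ D ∈ S.erase B, M B D *
        (UU M (S.erase B) (m - l) D C * M C A) := by
    intro C hC
    obtain ⟨hC1, hC2⟩ := Finset.mem_erase.1 hC
    rw [last_exit M S hB hC2 (Ne.symm hC1) m, Finset.sum_mul]
    refine Finset.sum_congr rfl fun l _ => ?_
    rw [mul_assoc, Finset.sum_mul]
    congr 1
    exact Finset.sum_congr rfl fun D _ => by ring
  rw [Finset.sum_congr rfl e2, Finset.sum_comm]
  refine Finset.sum_congr rfl fun l _ => ?_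
  rw [← Finset.mul_sum, Finset.sum_comm]
  congr 1
  refine Finset.sum_congr rfl fun D _ => ?_
  rw [← Finset.mul_sum]

/-- One more step in front of a sum of paths. -/
lemma W1_step (M : ι → ι → ℝ) (S : Finset ι) (B A : ι) (k : ℕ) (c : ℕ → ℝ) :
    ∑ D ∈ S, M B D * ∑ j ∈ Finset.range k, c j * pth M j (S.erase D) D A =
      ∑ j ∈ Finset.range k, c j * pth M (j + 1) S B A := by
  have e4 : ∀ D ∈ S, M B D * ∑ j ∈ Finset.range k, c j * pth M j (S.erase D) D A =
      ∑ j ∈ Finset.range k, c j * (M B D * pth M j (S.erase D) D A) := by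
    intro D _
    rw [Finset.mul_sum]
    exact Finset.sum_congr rfl fun j _ => by ring
  rw [Finset.sum_congr rfl e4, Finset.sum_comm]
  refine Finset.sum_congr rfl fun j _ => ?_
  rw [← Finset.mul_sum]
  rfl

/-- Proof. Induction on `n`, as in `walks_aux` of `Wk.lean` (which may be used; `closed_walks` gives
`UU M S l B B ≤ kk l * u l` for `l ≤ n`). Put `W n S B A = ∑ C ∈ S, UU M S n B C * M C A`. For `n + 1`: the term
`C = B` is at most `kk (n+1) * u (n+1) * pth M 0 _ B A`; for `C ≠ B` use `last_exit`:
`UU M S (n+1) B C = ∑ l ∈ range (n+1), UU M S l B B * ∑ D ∈ S.erase B, M B D * UU M (S.erase B) (n - l) D C`.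
The term `l = 0` has `UU M S 0 B B = 1` and gives `∑ D ∈ S.erase B, M B D * W n (S.erase B) D A`, use the induction
hypothesis: coefficient one at `pth M (n+1)`, and `k2 n` at `u (n - m) * pth M (m+1)`. For `l ≥ 1` use
`UU M S l B B ≤ kk l * u l` and the second statement of `walks_aux` for `W (n - l) (S.erase B) D A`
(constants `kk (n-l) ^ 2`), and `u l * u (n - l - m) ≤ u (n - m)`. `kk` is increasing and `≥ 1`. -/
lemma walk_refined (M : ι → ι → ℝ) (hM : ∀ A B, 0 ≤ M A B) (s : Finset ι) (u : ℕ → ℝ) (hu0 : u 0 = 1)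
    (hu : ∀ n, 0 ≤ u n) (hmul : ∀ l m, u l * u m ≤ u (l + m)) (n : ℕ)
    (hc : ∀ m < n, ∀ A ∈ s, pth M m (s.erase A) A A ≤ u (m + 1)) :
    ∀ S ⊆ s, ∀ B ∈ S, ∀ A, ∑ C ∈ S, UU M S n B C * M C A ≤
      pth M n (S.erase B) B A + k2 n * ∑ m ∈ Finset.range n, u (n - m) * pth M m (S.erase B) B A := by
  induction n with
  | zero =>
    intro S hS B hB A
    have h1 : ∑ C ∈ S, UU M S 0 B C * M C A = M B A := by
      change ∑ C ∈ S, (if B = C then (1 : ℝ) else 0) * M C A = M B A
      rw [Finset.sum_eq_single B]
      · simp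
      · intro D _ hD
        rw [if_neg (Ne.symm hD), zero_mul]
      · intro h; exact absurd hB h
    rw [h1]
    simp [k2, pth]
  | succ n ih =>
    intro S hS B hB A
    have hE : S.erase B ⊆ s := (Finset.erase_subset B S).trans hS
    have hc' : ∀ m < n, ∀ A ∈ s, pth M m (s.erase A) A A ≤ u (m + 1) :=
      fun m hm A hA => hc m (by omega) A hA
    set Z : ℝ := ∑ j ∈ Finset.range n, u (n - j) * pth M (j + 1) (S.erase B) B A with hZ
    have hZ0 : 0 ≤ Z := Finset.sum_nonneg fun j _ => mul_nonneg (hu _) (pth_nonneg hM _ _ _ _)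
    have hZe : ∑ m ∈ Finset.range (n + 1), u (n + 1 - m) * pth M m (S.erase B) B A =
        Z + u (n + 1) * M B A := by
      rw [Finset.sum_range_succ' _ n]
      congr 1
      refine Finset.sum_congr rfl fun j _ => ?_
      congr 2
      omega
    have hkn := one_le_kk n
    have hkn1 := one_le_kk (n + 1)
    have hk2 := k2_nonneg n
    have hn0 : (0 : ℝ) ≤ n := Nat.cast_nonneg n
    -- the term of `B`
    have hB1 : UU M S (n + 1) B B * M B A ≤ kk (n + 1) * (u (n + 1) * M B A) := by
      have h := (walks_aux M hM s u hu0 hu hmul (n + 1) hc).1 S hS B hB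
      have h2 := mul_le_mul_of_nonneg_right h (hM B A)
      linarith [h2, mul_assoc (kk (n + 1)) (u (n + 1)) (M B A)]
    -- the other terms
    have hC1 : ∑ C ∈ S.erase B, UU M S (n + 1) B C * M C A ≤
        (pth M (n + 1) (S.erase B) B A + k2 n * Z) + n * kk n ^ 3 * Z := by
      rw [W1_split M S hB A n, Finset.sum_range_succ' _ n, add_comm]
      refine add_le_add ?_ ?_
      · have h0 : UU M S 0 B B = 1 := by
          change (if B = B then (1 : ℝ) else 0) = 1
          rw [if_pos rfl]
        rw [h0, one_mul, Nat.sub_zero]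
        calc ∑ D ∈ S.erase B, M B D * ∑ C ∈ S.erase B, UU M (S.erase B) n D C * M C A
            ≤ ∑ D ∈ S.erase B, M B D * (pth M n ((S.erase B).erase D) D A +
                k2 n * ∑ m ∈ Finset.range n, u (n - m) * pth M m ((S.erase B).erase D) D A) :=
              Finset.sum_le_sum fun D hD =>
                mul_le_mul_of_nonneg_left (ih hc' (S.erase B) hE D hD A) (hM B D)
          _ = ∑ D ∈ S.erase B, M B D * pth M n ((S.erase B).erase D) D A +
                k2 n * ∑ D ∈ S.erase B, M B D *
                  ∑ m ∈ Finset.range n, u (n - m) * pth M m ((S.erase B).erase D) D A := by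
              rw [Finset.mul_sum, ← Finset.sum_add_distrib]
              exact Finset.sum_congr rfl fun D _ => by ring
          _ = pth M (n + 1) (S.erase B) B A + k2 n * Z := by
              rw [W1_step M (S.erase B) B A n fun m => u (n - m)]
              rfl
      · have hterm : ∀ i ∈ Finset.range n, UU M S (i + 1) B B * ∑ D ∈ S.erase B, M B D *
            ∑ C ∈ S.erase B, UU M (S.erase B) (n - (i + 1)) D C * M C A ≤ kk n ^ 3 * Z := by
          intro i hi
          have hi' := Finset.mem_range.1 hi
          have hWl := (walks_aux M hM s u hu0 hu hmul (i + 1)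
            (fun m' hm' A hA => hc m' (by omega) A hA)).1 S hS B hB
          have hQl := (walks_aux M hM s u hu0 hu hmul (n - (i + 1))
            (fun m' hm' A hA => hc m' (by omega) A hA)).2 (S.erase B) hE
          set q : ℕ := n - (i + 1) with hq
          have e3 : ∑ D ∈ S.erase B, M B D *
                ∑ C ∈ S.erase B, UU M (S.erase B) q D C * M C A ≤
              kk q ^ 2 * ∑ j ∈ Finset.range (q + 1), u (q - j) *
                pth M (j + 1) (S.erase B) B A := by
            calc _ ≤ ∑ D ∈ S.erase B, M B D * (kk q ^ 2 * ∑ j ∈ Finset.range (q + 1),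
                  u (q - j) * pth M j ((S.erase B).erase D) D A) :=
                  Finset.sum_le_sum fun D hD => mul_le_mul_of_nonneg_left (hQl D hD A) (hM B D)
              _ = kk q ^ 2 * ∑ D ∈ S.erase B, M B D * ∑ j ∈ Finset.range (q + 1),
                  u (q - j) * pth M j ((S.erase B).erase D) D A := by
                  rw [Finset.mul_sum]
                  exact Finset.sum_congr rfl fun D _ => by ring
              _ = _ := by
                  rw [W1_step M (S.erase B) B A (q + 1) fun j => u (q - j)]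
          have e5 : u (i + 1) * ∑ j ∈ Finset.range (q + 1), u (q - j) *
                pth M (j + 1) (S.erase B) B A ≤ Z := by
            rw [Finset.mul_sum]
            calc _ ≤ ∑ j ∈ Finset.range (q + 1), u (n - j) * pth M (j + 1) (S.erase B) B A := by
                  refine Finset.sum_le_sum fun j hj => ?_
                  have hj' := Finset.mem_range.1 hj
                  rw [← mul_assoc]
                  apply mul_le_mul_of_nonneg_right _ (pth_nonneg hM _ _ _ _)
                  refine (hmul _ _).trans (le_of_eq ?_)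
                  congr 1
                  omega
              _ ≤ _ := Finset.sum_le_sum_of_subset_of_nonneg
                  (Finset.range_subset_range.2 (by omega))
                  fun j _ _ => mul_nonneg (hu _) (pth_nonneg hM _ _ _ _)
          have hkl := one_le_kk (i + 1)
          have hkq := one_le_kk q
          calc _ ≤ (kk (i + 1) * u (i + 1)) * (kk q ^ 2 * ∑ j ∈ Finset.range (q + 1),
                u (q - j) * pth M (j + 1) (S.erase B) B A) := by
                apply mul_le_mul hWl e3 _ (mul_nonneg (by linarith) (hu _))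
                exact Finset.sum_nonneg fun D _ => mul_nonneg (hM B D)
                  (Finset.sum_nonneg fun C _ => mul_nonneg (UU_nonneg hM _ _ _ _) (hM C A))
            _ = (kk (i + 1) * kk q ^ 2) * (u (i + 1) * ∑ j ∈ Finset.range (q + 1),
                u (q - j) * pth M (j + 1) (S.erase B) B A) := by ring
            _ ≤ (kk (i + 1) * kk q ^ 2) * Z :=
                mul_le_mul_of_nonneg_left e5 (mul_nonneg (by linarith) (sq_nonneg _))
            _ ≤ (kk n * kk n ^ 2) * Z := by
                apply mul_le_mul_of_nonneg_right _ hZ0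
                exact mul_le_mul (kk_mono (by omega))
                  (pow_le_pow_left₀ (by linarith) (kk_mono (by omega)) 2) (sq_nonneg _)
                  (by linarith)
            _ = kk n ^ 3 * Z := by ring
        refine (Finset.sum_le_sum hterm).trans (le_of_eq ?_)
        rw [Finset.sum_const, Finset.card_range, nsmul_eq_mul]
        ring
    rw [← Finset.add_sum_erase S _ hB, hZe]
    have hkk : k2 (n + 1) = k2 n + (n + 1) * kk (n + 1) ^ 3 := rfl
    have hkm : kk n ≤ kk (n + 1) := kk_mono (Nat.le_succ n)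
    have hk3 : kk n ^ 3 ≤ kk (n + 1) ^ 3 := pow_le_pow_left₀ (by linarith) hkm 3
    have hk13 : kk (n + 1) ≤ kk (n + 1) ^ 3 := by
      have := pow_le_pow_right₀ hkn1 (show 1 ≤ 3 by norm_num)
      simpa using this
    have hk0 : 0 ≤ kk (n + 1) ^ 3 := by positivity
    have h1 : kk (n + 1) ≤ k2 (n + 1) := by
      rw [hkk]
      nlinarith [mul_nonneg hn0 hk0]
    have h2 : k2 n + n * kk n ^ 3 ≤ k2 (n + 1) := by
      rw [hkk]
      nlinarith [mul_le_mul_of_nonneg_left hk3 hn0]
    have hu1 : 0 ≤ u (n + 1) * M B A := mul_nonneg (hu _) (hM B A)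
    calc _ ≤ kk (n + 1) * (u (n + 1) * M B A) +
          ((pth M (n + 1) (S.erase B) B A + k2 n * Z) + n * kk n ^ 3 * Z) := add_le_add hB1 hC1
      _ = pth M (n + 1) (S.erase B) B A +
          ((k2 n + n * kk n ^ 3) * Z + kk (n + 1) * (u (n + 1) * M B A)) := by ring
      _ ≤ pth M (n + 1) (S.erase B) B A +
          (k2 (n + 1) * Z + k2 (n + 1) * (u (n + 1) * M B A)) := by
          have a1 := mul_le_mul_of_nonneg_right h2 hZ0
          have a2 := mul_le_mul_of_nonneg_right h1 hu1
          linarith
      _ = _ := by ring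

/-- Closed walks. Proof: `UU M s n A A` with `n = n' + 1` is `∑ C ∈ s, UU M s n' A C * M C A`; use `walk_refined`
and `hc`. -/
theorem closed_refined (M : ι → ι → ℝ) (hM : ∀ A B, 0 ≤ M A B) (s : Finset ι) (u : ℕ → ℝ)
    (hu0 : u 0 = 1) (hu : ∀ n, 0 ≤ u n) (hmul : ∀ l m, u l * u m ≤ u (l + m)) (n : ℕ) (hn : 1 ≤ n)
    (hc : ∀ m, m + 1 < n → ∀ A ∈ s, pth M m (s.erase A) A A ≤ u (m + 1)) :
    ∀ A ∈ s, UU M s n A A ≤ pth M (n - 1) (s.erase A) A A +
      k2 (n - 1) * ∑ m ∈ Finset.range (n - 1), u (n - 1 - m) * u (m + 1) := by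
  intro A hA
  obtain ⟨k, rfl⟩ : ∃ k, n = k + 1 := ⟨n - 1, by omega⟩
  have hc' : ∀ m < k, ∀ A ∈ s, pth M m (s.erase A) A A ≤ u (m + 1) :=
    fun m hm A hA => hc m (by omega) A hA
  have h := walk_refined M hM s u hu0 hu hmul k hc' s (Finset.Subset.refl s) A hA A
  rw [Nat.add_sub_cancel]
  refine le_trans (show UU M s (k + 1) A A ≤ _ from h) ?_
  have h2 : ∑ m ∈ Finset.range k, u (k - m) * pth M m (s.erase A) A A ≤
      ∑ m ∈ Finset.range k, u (k - m) * u (m + 1) :=
    Finset.sum_le_sum fun m hm =>
      mul_le_mul_of_nonneg_left (hc' m (Finset.mem_range.1 hm) A hA) (hu _)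
  have h3 := mul_le_mul_of_nonneg_left h2 (k2_nonneg k)
  linarith

/-- Conjugation by a positive function does not change the closed paths and the closed walks.
Proof: induction on `n`: `r C * pth M n S B C = r B * pth M' n S B C` and the same for `UU` (for `C ∈ S`). -/
lemma pth_conj (M M' : ι → ι → ℝ) (r : ι → ℝ) (s : Finset ι) (hr : ∀ A ∈ s, 0 < r A)
    (h : ∀ A ∈ s, ∀ B ∈ s, M' A B * r A = r B * M A B) (n : ℕ) :
    (∀ S ⊆ s, ∀ A ∈ s, ∀ B ∈ s, pth M' n S A B * r A = r B * pth M n S A B) ∧
    (∀ A ∈ s, ∀ B ∈ s, UU M' s n A B * r A = r B * UU M s n A B) := by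
  induction n with
  | zero =>
    refine ⟨fun S _ A hA B hB => h A hA B hB, fun A _ B _ => ?_⟩
    change (if A = B then (1 : ℝ) else 0) * r A = r B * (if A = B then (1 : ℝ) else 0)
    by_cases hAB : A = B
    · subst hAB
      rw [if_pos rfl, one_mul, mul_one]
    · rw [if_neg hAB, zero_mul, mul_zero]
  | succ n ih =>
    obtain ⟨ih1, ih2⟩ := ih
    refine ⟨fun S hS A hA B hB => ?_, fun A hA B hB => ?_⟩
    · change (∑ D ∈ S, M' A D * pth M' n (S.erase D) D B) * r A =
        r B * ∑ D ∈ S, M A D * pth M n (S.erase D) D B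
      rw [Finset.sum_mul, Finset.mul_sum]
      refine Finset.sum_congr rfl fun D hD => ?_
      have h1 := h A hA D (hS hD)
      have h2 := ih1 (S.erase D) ((Finset.erase_subset D S).trans hS) D (hS hD) B hB
      calc M' A D * pth M' n (S.erase D) D B * r A =
          (M' A D * r A) * pth M' n (S.erase D) D B := by ring
        _ = M A D * (pth M' n (S.erase D) D B * r D) := by rw [h1]; ring
        _ = _ := by rw [h2]; ring
    · change (∑ D ∈ s, UU M' s n A D * M' D B) * r A = r B * ∑ D ∈ s, UU M s n A D * M D B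
      rw [Finset.sum_mul, Finset.mul_sum]
      refine Finset.sum_congr rfl fun D hD => ?_
      have h1 := h D hD B hB
      have h2 := ih2 A hA D hD
      calc UU M' s n A D * M' D B * r A = (UU M' s n A D * r A) * M' D B := by ring
        _ = UU M s n A D * (M' D B * r D) := by rw [h2]; ring
        _ = _ := by rw [h1]; ring

end Pool.Agent.PERC29
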